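import Pool.Agent.H99G.Defs

set_option autoImplicit false

/-!
# The lattice `D4`
-/

namespace Pool.Agent.H99G

open Matrix

/-- The lattice `D4`: the integer vectors with an even sum of coordinates. -/
def D4 : AddSubgroup (Fin (3 + 1) → ℝ) where
  carrier := {y | ∃ k : Fin (3 + 1) → ℤ, Even (∑ i, k i) ∧ ∀ i, y i = k i}
  add_mem' := by
    rintro a b ⟨k, hk, hk'⟩ ⟨l, hl, hl'⟩
    refine ⟨k + l, ?_, fun i => by simp [hk', hl']⟩
    simp only [Pi.add_apply, Finset.sum_add_distrib]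
    exact hk.add hl
  zero_mem' := ⟨0, by simp, by simp⟩
  neg_mem' := by
    rintro a ⟨k, hk, hk'⟩
    refine ⟨-k, ?_, fun i => by simp [hk']⟩
    simp only [Pi.neg_apply, Finset.sum_neg_distrib]
    exact hk.neg

theorem mem_D4 {y : Fin (3 + 1) → ℝ} :
    y ∈ D4 ↔ ∃ k : Fin (3 + 1) → ℤ, Even (∑ i, k i) ∧ ∀ i, y i = k i := Iff.rfl

end Pool.Agent.H99G
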