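import Pool.Agent.H99G.Wdef
import Pool.Agent.H99G.D4def

/-!
An explicit basis of `D4` with the Gram matrix `2 C⁻¹`, `C` the Cartan matrix of type `D4`.
-/

set_option autoImplicit false

namespace Pool.Agent.H99G

open Matrix Pool.Agent.D4Q

/-- the rows of the basis -/
private def rD4 : Fin (3 + 1) → Fin (3 + 1) → ℝ :=
  ![![1, 1, 0, 0], ![1, 1, 1, 1], ![1, 0, 1, 0], ![1, 0, 0, 1]]

/-- the basis -/
private noncomputable def bD4 (i : Fin (3 + 1)) : EuclideanSpace ℝ (Fin (3 + 1)) :=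
  WithLp.toLp 2 (rD4 i)

private lemma bD4_inner (i j : Fin (3 + 1)) : inner ℝ (bD4 i) (bD4 j) = rD4 i ⬝ᵥ rD4 j := by
  rw [bD4, bD4, EuclideanSpace.inner_toLp_toLp, dotProduct_comm]
  simp

private lemma inv_D4 : ((CartanMatrix.D (3 + 1)).map (fun z : ℤ => (z : ℝ)))⁻¹ =
    !![1, 1, 1 / 2, 1 / 2; 1, 2, 1, 1; 1 / 2, 1, 1, 1 / 2; 1 / 2, 1, 1 / 2, 1] := by
  have h : (CartanMatrix.D (3 + 1)).map (fun z : ℤ => (z : ℝ)) =
      !![2, -1, 0, 0; -1, 2, -1, -1; 0, -1, 2, 0; 0, -1, 0, 2] := by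
    ext i j
    fin_cases i <;> fin_cases j <;> simp [CartanMatrix.D]
  rw [h]
  refine Matrix.inv_eq_right_inv ?_
  ext i j
  fin_cases i <;> fin_cases j <;> simp [Matrix.mul_apply, Fin.sum_univ_succ] <;> norm_num

theorem D4_form : ∃ c : ℝ, 0 < c ∧
    HasForm (sub D4) (c • ((CartanMatrix.D (3 + 1)).map (fun z : ℤ => (z : ℝ)))⁻¹) := by
  have happ : ∀ (f : Fin (3 + 1) → ℝ) (i : Fin (3 + 1)),
      (∑ j, f j • bD4 j) i = ∑ j, f j * rD4 j i := by
    intro f i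
    simp [bD4]
  refine ⟨2, two_pos, bD4, ?_, ?_, ?_⟩
  · rw [Fintype.linearIndependent_iff]
    intro g hg
    have h : ∀ i, ∑ j, g j * rD4 j i = 0 := fun i => by
      rw [← happ, hg]
      rfl
    have h0 := h 0
    have h1 := h 1
    have h2 := h 2
    have h3 := h 3
    simp [rD4, Fin.sum_univ_succ] at h0 h1 h2 h3
    intro i
    fin_cases i <;> simp <;> linarith
  · apply le_antisymm
    · rintro y ⟨k, hk, hy⟩
      obtain ⟨c, hc⟩ := hk
      rw [Fin.sum_univ_four] at hc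
      obtain ⟨w, hw⟩ : ∃ w : Fin (3 + 1) → ℤ, w = ![k 1 - (k 1 + k 2 + k 3 - c),
          k 1 + k 2 + k 3 - c, k 2 - (k 1 + k 2 + k 3 - c), k 3 - (k 1 + k 2 + k 3 - c)] :=
        ⟨_, rfl⟩
      have hy' : y = ∑ j, w j • bD4 j := by
        have hcR : (k 0 : ℝ) + k 1 + k 2 + k 3 = c + c := by exact_mod_cast hc
        have hs : ∑ j, w j • bD4 j = ∑ j, (w j : ℝ) • bD4 j :=
          Finset.sum_congr rfl fun j _ => (Int.cast_smul_eq_zsmul ℝ _ _).symm
        rw [hs]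
        ext i
        rw [happ, hw]
        have h2 : y i = k i := hy i
        rw [h2]
        fin_cases i <;> simp [rD4, Fin.sum_univ_succ] <;> linarith
      rw [hy']
      exact Submodule.sum_mem _ fun j _ =>
        Submodule.smul_mem _ _ (Submodule.subset_span ⟨j, rfl⟩)
    · rw [Submodule.span_le]
      rintro _ ⟨j, rfl⟩
      show (bD4 j).ofLp ∈ D4
      rw [mem_D4]
      fin_cases j
      · refine ⟨![1, 1, 0, 0], ⟨1, by simp [Fin.sum_univ_succ]⟩, fun i => ?_⟩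
        fin_cases i <;> simp [bD4, rD4]
      · refine ⟨![1, 1, 1, 1], ⟨2, by simp [Fin.sum_univ_succ]⟩, fun i => ?_⟩
        fin_cases i <;> simp [bD4, rD4]
      · refine ⟨![1, 0, 1, 0], ⟨1, by simp [Fin.sum_univ_succ]⟩, fun i => ?_⟩
        fin_cases i <;> simp [bD4, rD4]
      · refine ⟨![1, 0, 0, 1], ⟨1, by simp [Fin.sum_univ_succ]⟩, fun i => ?_⟩
        fin_cases i <;> simp [bD4, rD4]
  · intro i j
    rw [bD4_inner, inv_D4]
    fin_cases i <;> fin_cases j <;> simp [rD4, Fin.sum_univ_succ, dotProduct] <;> norm_num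

end Pool.Agent.H99G
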