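import Pool.Agent.H99G.Defs

set_option autoImplicit false

/-!
# `D5*`
-/

namespace Pool.Agent.H99G

open MeasureTheory Matrix

/-- `D5*`: the vectors whose coordinates are all integers or all halves of odd integers. -/
def D5s : AddSubgroup (Fin (4 + 1) → ℝ) where
  carrier := {y | ∃ k : Fin (4 + 1) → ℤ, (∀ i, k i % 2 = k 0 % 2) ∧ y = fun i => (k i : ℝ) / 2}
  add_mem' := by
    rintro a b ⟨k, hk, rfl⟩ ⟨l, hl, rfl⟩
    refine ⟨k + l, fun i => ?_, by ext i; simp [add_div]⟩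
    have h1 := hk i
    have h2 := hl i
    simp only [Pi.add_apply]
    omega
  zero_mem' := ⟨0, fun i => by simp, by ext i; simp⟩
  neg_mem' := by
    rintro a ⟨k, hk, rfl⟩
    refine ⟨-k, fun i => ?_, by ext i; simp [neg_div]⟩
    have h1 := hk i
    simp only [Pi.neg_apply]
    omega

/-- The first unit vector. -/
def e5 : Fin (4 + 1) → ℝ := Pi.single 0 1

/-- The vector `(1/2, ..., 1/2)`. -/
noncomputable def h5 : Fin (4 + 1) → ℝ := fun _ => 1 / 2

/-- The mean of the coordinates. -/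
noncomputable def av (y : Fin (4 + 1) → ℝ) : ℝ := (∑ i, y i) / 5

noncomputable def vA : ℝ := (volume (Cn D5s e5)).toReal
noncomputable def vB : ℝ := (volume (Cn D5s h5)).toReal
noncomputable def gA : ℝ := ∫ y in Cn D5s e5, y 0 ^ 2
noncomputable def aA : ℝ := ∫ y in Cn D5s e5, y 1 ^ 2
noncomputable def gB : ℝ := ∫ y in Cn D5s h5, 5 * av y ^ 2
noncomputable def sB : ℝ := ∫ y in Cn D5s h5, (y 0 - av y) ^ 2

/-- `E_ij + E_ji`. -/
def Eo (i j : Fin (4 + 1)) : Matrix (Fin (4 + 1)) (Fin (4 + 1)) ℝ :=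
  Matrix.single i j 1 + Matrix.single j i 1

/-- `E_ii - E_jj`. -/
def Ed (i j : Fin (4 + 1)) : Matrix (Fin (4 + 1)) (Fin (4 + 1)) ℝ :=
  Matrix.single i i 1 - Matrix.single j j 1

end Pool.Agent.H99G
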