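import Pool.Agent.H99G.Wdef
import Pool.Agent.H99G.Vdef

set_option autoImplicit false

/-!
# A basis of `D5*` whose Gram matrix is the inverse of the Cartan matrix
-/

namespace Pool.Agent.H99G

open MeasureTheory Matrix Pool.Agent.D4Q

/-- Simple roots of `D5`. -/
private def gA5 : Fin 5 → Fin 5 → ℤ :=
  ![![1, -1, 0, 0, 0],
    ![0, 1, -1, 0, 0],
    ![0, 0, 1, -1, 0],
    ![0, 0, 0, 1, -1],
    ![0, 0, 0, 1, 1]]

/-- The dual basis, doubled. -/
private def gB5 : Fin 5 → Fin 5 → ℤ :=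
  ![![2, 0, 0, 0, 0],
    ![2, 2, 0, 0, 0],
    ![2, 2, 2, 0, 0],
    ![1, 1, 1, 1, -1],
    ![1, 1, 1, 1, 1]]

private theorem gBA : ∀ n m : Fin 5, ∑ i, gB5 i n * gA5 i m = if n = m then 2 else 0 := by
  decide

private theorem gCB : ∀ i k : Fin 5, ∑ j, CartanMatrix.D 5 i j *
    (gB5 j 0 * gB5 k 0 + gB5 j 1 * gB5 k 1 + gB5 j 2 * gB5 k 2 + gB5 j 3 * gB5 k 3 +
      gB5 j 4 * gB5 k 4) = if i = k then 4 else 0 := by
  decide

private theorem gB_mem : ∀ i n : Fin 5, gB5 i n % 2 = gB5 i 0 % 2 := by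
  decide

private theorem gdvd {k : Fin (4 + 1) → ℤ} (hk : ∀ i, k i % 2 = k 0 % 2) (i : Fin 5) :
    ∃ n : ℤ, gA5 i 0 * k 0 + gA5 i 1 * k 1 + gA5 i 2 * k 2 + gA5 i 3 * k 3 + gA5 i 4 * k 4 =
      2 * n := by
  have a1 := hk 1
  have a2 := hk 2
  have a3 := hk 3
  have a4 := hk 4
  fin_cases i
  · exact ⟨(k 0 - k 1) / 2, by
      show 1 * k 0 + -1 * k 1 + 0 * k 2 + 0 * k 3 + 0 * k 4 = _
      omega⟩
  · exact ⟨(k 1 - k 2) / 2, by
      show 0 * k 0 + 1 * k 1 + -1 * k 2 + 0 * k 3 + 0 * k 4 = _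
      omega⟩
  · exact ⟨(k 2 - k 3) / 2, by
      show 0 * k 0 + 0 * k 1 + 1 * k 2 + -1 * k 3 + 0 * k 4 = _
      omega⟩
  · exact ⟨(k 3 - k 4) / 2, by
      show 0 * k 0 + 0 * k 1 + 0 * k 2 + 1 * k 3 + -1 * k 4 = _
      omega⟩
  · exact ⟨(k 3 + k 4) / 2, by
      show 0 * k 0 + 0 * k 1 + 0 * k 2 + 1 * k 3 + 1 * k 4 = _
      omega⟩

/-- The basis. -/
private noncomputable def gb (i : Fin 5) : EuclideanSpace ℝ (Fin 5) :=
  WithLp.toLp 2 (fun n => (gB5 i n : ℝ) / 2)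

private theorem gb_inner (i j : Fin 5) : inner ℝ (gb i) (gb j) =
    (((gB5 i 0 * gB5 j 0 + gB5 i 1 * gB5 j 1 + gB5 i 2 * gB5 j 2 + gB5 i 3 * gB5 j 3 +
      gB5 i 4 * gB5 j 4 : ℤ)) : ℝ) / 4 := by
  have e : ∀ m : Fin 5, (inner ℝ ((gb i) m) ((gb j) m) : ℝ) =
      ((gB5 j m : ℝ) / 2) * ((gB5 i m : ℝ) / 2) := fun _ => rfl
  rw [PiLp.inner_apply, Fin.sum_univ_five, e 0, e 1, e 2, e 3, e 4]
  push_cast
  ring

private theorem gb_ind : LinearIndependent ℝ gb := by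
  rw [Fintype.linearIndependent_iff]
  intro g hg m
  -- coordinates
  have hc : ∀ n : Fin 5, ∑ i, g i * (gB5 i n : ℝ) = 0 := by
    intro n
    have h1 : (∑ i, g i • gb i) n = 0 := by rw [hg]; rfl
    have h2 : (∑ i, g i • gb i) n = 1 / 2 * ∑ i, g i * (gB5 i n : ℝ) := by
      rw [WithLp.ofLp_sum, Finset.sum_apply, Finset.mul_sum]
      refine Finset.sum_congr rfl fun i _ => ?_
      show g i * ((gB5 i n : ℝ) / 2) = _
      ring
    rw [h2] at h1
    exact (mul_eq_zero.mp h1).resolve_left (by norm_num)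
  -- the matrices are inverse up to the factor two
  let P : Matrix (Fin 5) (Fin 5) ℝ := Matrix.of fun n i => (gB5 i n : ℝ)
  let R : Matrix (Fin 5) (Fin 5) ℝ := Matrix.of fun i n => (gA5 i n : ℝ)
  have hPR : P * R = (2 : ℝ) • (1 : Matrix (Fin 5) (Fin 5) ℝ) := by
    ext n m
    have h := gBA n m
    have h' : ((∑ i, gB5 i n * gA5 i m : ℤ) : ℝ) = ((if n = m then 2 else 0 : ℤ) : ℝ) := by rw [h]
    push_cast at h'
    rw [Matrix.mul_apply, Matrix.smul_apply, Matrix.one_apply]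
    show ∑ i, (gB5 i n : ℝ) * (gA5 i m : ℝ) = _
    rw [h']
    split_ifs <;> simp
  have hRP : R * P = (2 : ℝ) • (1 : Matrix (Fin 5) (Fin 5) ℝ) := by
    have h1 : P * ((1 / 2 : ℝ) • R) = 1 := by
      rw [Matrix.mul_smul, hPR, smul_smul]
      norm_num
    have h2 : ((1 / 2 : ℝ) • R) * P = 1 := mul_eq_one_comm.mp h1
    rw [Matrix.smul_mul] at h2
    rw [← h2, smul_smul]
    norm_num
  have h0 : R *ᵥ (P *ᵥ g) = 0 := by
    have : P *ᵥ g = 0 := by
      funext n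
      show ∑ i, (gB5 i n : ℝ) * g i = 0
      rw [← hc n]
      exact Finset.sum_congr rfl fun i _ => by ring
    rw [this, mulVec_zero]
  rw [mulVec_mulVec, hRP, smul_mulVec, one_mulVec] at h0
  have h4 := congrFun h0 m
  have h5 : (2 : ℝ) * g m = 0 := h4
  linarith

private theorem gb_span : sub D5s = Submodule.span ℤ (Set.range gb) := by
  apply le_antisymm
  · rintro y ⟨k, hk, hy⟩
    rw [Submodule.mem_span_range_iff_exists_fun]
    choose c hc using gdvd hk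
    refine ⟨c, ?_⟩
    have hc' : ∀ i, (c i : ℝ) = (gA5 i 0 * k 0 + gA5 i 1 * k 1 + gA5 i 2 * k 2 + gA5 i 3 * k 3 +
        gA5 i 4 * k 4) / 2 := by
      intro i
      have h : ((gA5 i 0 * k 0 + gA5 i 1 * k 1 + gA5 i 2 * k 2 + gA5 i 3 * k 3 + gA5 i 4 * k 4
        : ℤ) : ℝ) = ((2 * c i : ℤ) : ℝ) := congrArg (fun z : ℤ => (z : ℝ)) (hc i)
      push_cast at h
      linarith
    ext n
    have hyn : y n = (k n : ℝ) / 2 := congrFun hy n
    have h2 : (∑ i, c i • gb i) n = 1 / 2 * ∑ i, (c i : ℝ) * (gB5 i n : ℝ) := by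
      rw [WithLp.ofLp_sum, Finset.sum_apply, Finset.mul_sum]
      refine Finset.sum_congr rfl fun i _ => ?_
      rw [← Int.cast_smul_eq_zsmul ℝ]
      show (c i : ℝ) * ((gB5 i n : ℝ) / 2) = _
      ring
    rw [h2, hyn]
    have h3 : ∑ i, (c i : ℝ) * (gB5 i n : ℝ) = k n := by
      simp only [hc', Fin.sum_univ_five]
      fin_cases n
      · show _ = (k 0 : ℝ)
        simp [gA5, gB5]
        try ring
      · show _ = (k 1 : ℝ)
        simp [gA5, gB5]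
        try ring
      · show _ = (k 2 : ℝ)
        simp [gA5, gB5]
        try ring
      · show _ = (k 3 : ℝ)
        simp [gA5, gB5]
        try ring
      · show _ = (k 4 : ℝ)
        simp [gA5, gB5]
        try ring
    rw [h3]
    ring
  · rw [Submodule.span_le]
    rintro _ ⟨i, rfl⟩
    exact ⟨gB5 i, gB_mem i, rfl⟩

theorem D5s_form : ∃ c : ℝ, 0 < c ∧
    HasForm (sub D5s) (c • ((CartanMatrix.D 5).map (fun z : ℤ => (z : ℝ)))⁻¹) := by
  refine ⟨1, one_pos, gb, gb_ind, gb_span, fun i j => ?_⟩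
  have h : ((CartanMatrix.D 5).map (fun z : ℤ => (z : ℝ))) *
      (Matrix.of fun i j => (inner ℝ (gb i) (gb j) : ℝ)) = 1 := by
    ext i k
    rw [Matrix.mul_apply, Matrix.one_apply]
    have h1 : ∀ j, ((CartanMatrix.D 5).map (fun z : ℤ => (z : ℝ))) i j *
        (Matrix.of fun i j => (inner ℝ (gb i) (gb j) : ℝ)) j k =
        ((CartanMatrix.D 5 i j * (gB5 j 0 * gB5 k 0 + gB5 j 1 * gB5 k 1 + gB5 j 2 * gB5 k 2 +
          gB5 j 3 * gB5 k 3 + gB5 j 4 * gB5 k 4) : ℤ) : ℝ) / 4 := by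
      intro j
      rw [Matrix.of_apply, gb_inner, Matrix.map_apply]
      push_cast
      ring
    rw [Finset.sum_congr rfl fun j _ => h1 j, ← Finset.sum_div, ← Int.cast_sum, gCB i k]
    split_ifs <;> norm_num
  rw [one_smul, Matrix.inv_eq_right_inv h, Matrix.of_apply]

end Pool.Agent.H99G
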