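import Pool.Agent.H99G.Defs

set_option autoImplicit false

/-!
# The lattice dual to `E6` (minimal norm `4 / 3`)

The vectors half of (k 0, .., k 4, k 5 / √3) with integers k i of one parity and with a sum divisible by 4.
-/

namespace Pool.Agent.H99G

open Matrix

/-- The weights of the coordinates. -/
noncomputable def w6 : Fin (5 + 1) → ℝ := ![1 / 2, 1 / 2, 1 / 2, 1 / 2, 1 / 2, √3 / 6]

/-- The vector with the integral coordinates `k`. -/
noncomputable def hv6 (k : Fin (5 + 1) → ℤ) : Fin (5 + 1) → ℝ := fun i => w6 i * (k i : ℝ)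

/-- The integral coordinates have one parity and their sum is divisible by `4`. -/
def In6 (k : Fin (5 + 1) → ℤ) : Prop := (∀ i, k i % 2 = k 0 % 2) ∧ (∑ i, k i) % 4 = 0

theorem In6_add {k l : Fin (5 + 1) → ℤ} (hk : In6 k) (hl : In6 l) : In6 (k + l) := by
  refine ⟨fun i => ?_, ?_⟩
  · have h1 := hk.1 i
    have h2 := hl.1 i
    simp only [Pi.add_apply]
    omega
  · have h1 := hk.2
    have h2 := hl.2
    simp only [Pi.add_apply, Finset.sum_add_distrib]
    omega

theorem In6_neg {k : Fin (5 + 1) → ℤ} (hk : In6 k) : In6 (-k) := by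
  refine ⟨fun i => ?_, ?_⟩
  · have h1 := hk.1 i
    simp only [Pi.neg_apply]
    omega
  · have h1 := hk.2
    simp only [Pi.neg_apply, Finset.sum_neg_distrib]
    omega

/-- The dual of the root lattice `E6`. -/
noncomputable def E6s : AddSubgroup (Fin (5 + 1) → ℝ) where
  carrier := {y | ∃ k : Fin (5 + 1) → ℤ, In6 k ∧ y = hv6 k}
  add_mem' := by
    rintro a b ⟨k, hk, rfl⟩ ⟨l, hl, rfl⟩
    exact ⟨k + l, In6_add hk hl, by ext i; simp [hv6, mul_add]⟩
  zero_mem' := ⟨0, ⟨fun _ => rfl, by simp⟩, by ext i; simp [hv6]⟩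
  neg_mem' := by
    rintro a ⟨k, hk, rfl⟩
    exact ⟨-k, In6_neg hk, by ext i; simp [hv6]⟩

end Pool.Agent.H99G
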