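import Pool.Agent.H99G.Wdef
import Pool.Agent.H99G.E6def

set_option autoImplicit false

/-!
# A basis of the dual of `E6` whose Gram matrix is the inverse of the Cartan matrix
-/

namespace Pool.Agent.H99G

open MeasureTheory Matrix Pool.Agent.D4Q

/-- Simple roots of `E6`; the last coordinate is divided by three. -/
private def fA : Fin 6 → Fin 6 → ℤ :=
  ![![2, 2, 0, 0, 0, 0],
    ![2, -2, 0, 0, 0, 0],
    ![-1, -1, 1, 1, 1, 1],
    ![-1, 1, 1, -1, -1, -1],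
    ![0, 0, -2, 2, 0, 0],
    ![0, 0, 0, -2, 2, 0]]

/-- The dual basis. -/
private def fB : Fin 6 → Fin 6 → ℤ :=
  ![![1, 1, 1, 1, 1, -1],
    ![1, -1, 1, 1, 1, -3],
    ![0, 0, 2, 2, 2, -2],
    ![0, 0, 2, 2, 2, -6],
    ![0, 0, 0, 2, 2, -4],
    ![0, 0, 0, 0, 2, -2]]

private theorem fBA : ∀ n m : Fin 6, ∑ i, fB i n * fA i m = if n = m then 4 else 0 := by
  decide

private theorem fCB : ∀ i k : Fin 6, ∑ j, CartanMatrix.E₆ i j *
    (3 * (fB j 0 * fB k 0 + fB j 1 * fB k 1 + fB j 2 * fB k 2 + fB j 3 * fB k 3 +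
      fB j 4 * fB k 4) + fB j 5 * fB k 5) = if i = k then 12 else 0 := by
  decide

private theorem fB_mem (i : Fin 6) : In6 (fB i) := by
  unfold In6
  revert i
  decide

private theorem fA_par : ∀ i m : Fin 6, fA i m % 2 = fA i 0 % 2 := by
  decide

private theorem fA_sum : ∀ i : Fin 6,
    (fA i 0 + fA i 1 + fA i 2 + fA i 3 + fA i 4 + 3 * fA i 5) % 4 = 0 := by
  decide

private theorem fdvd {k : Fin (5 + 1) → ℤ} (hk : In6 k) (i : Fin 6) :
    ∃ n : ℤ, fA i 0 * k 0 + fA i 1 * k 1 + fA i 2 * k 2 + fA i 3 * k 3 + fA i 4 * k 4 +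
      fA i 5 * k 5 = 4 * n := by
  obtain ⟨hk1, hk2⟩ := hk
  rw [Fin.sum_univ_six] at hk2
  have hk2' : (k 0 + k 1 + k 2 + k 3 + k 4 + k 5) % 4 = 0 := hk2
  have a1 := hk1 1
  have a2 := hk1 2
  have a3 := hk1 3
  have a4 := hk1 4
  have a5 := hk1 5
  have b : ∀ i, k i = k 0 + 2 * ((k i - k 0) / 2) := fun i => by
    have := hk1 i
    omega
  fin_cases i
  · exact ⟨(2 * k 0 + 2 * k 1) / 4, by
      show 2 * k 0 + 2 * k 1 + 0 * k 2 + 0 * k 3 + 0 * k 4 + 0 * k 5 = _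
      omega⟩
  · exact ⟨(2 * k 0 - 2 * k 1) / 4, by
      show 2 * k 0 + -2 * k 1 + 0 * k 2 + 0 * k 3 + 0 * k 4 + 0 * k 5 = _
      omega⟩
  · exact ⟨(-k 0 - k 1 + k 2 + k 3 + k 4 + k 5) / 4, by
      show -1 * k 0 + -1 * k 1 + 1 * k 2 + 1 * k 3 + 1 * k 4 + 1 * k 5 = _
      omega⟩
  · exact ⟨(-k 0 + k 1 + k 2 - k 3 - k 4 - k 5) / 4, by
      show -1 * k 0 + 1 * k 1 + 1 * k 2 + -1 * k 3 + -1 * k 4 + -1 * k 5 = _
      omega⟩
  · exact ⟨(-2 * k 2 + 2 * k 3) / 4, by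
      show 0 * k 0 + 0 * k 1 + -2 * k 2 + 2 * k 3 + 0 * k 4 + 0 * k 5 = _
      omega⟩
  · exact ⟨(-2 * k 3 + 2 * k 4) / 4, by
      show 0 * k 0 + 0 * k 1 + 0 * k 2 + -2 * k 3 + 2 * k 4 + 0 * k 5 = _
      omega⟩

/-- The basis. -/
private noncomputable def fb (i : Fin 6) : EuclideanSpace ℝ (Fin 6) := WithLp.toLp 2 (hv6 (fB i))

private theorem fb_inner (i j : Fin 6) : inner ℝ (fb i) (fb j) =
    (((3 * (fB i 0 * fB j 0 + fB i 1 * fB j 1 + fB i 2 * fB j 2 + fB i 3 * fB j 3 +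
      fB i 4 * fB j 4) + fB i 5 * fB j 5 : ℤ)) : ℝ) / 12 := by
  have h3 : (√3 : ℝ) ^ 2 = 3 := Real.sq_sqrt (by norm_num)
  have hv : ∀ (i m : Fin 6), (fb i) m = w6 m * (fB i m : ℝ) := fun _ _ => rfl
  have e : ∀ m : Fin 6, (inner ℝ ((fb i) m) ((fb j) m) : ℝ) =
      (w6 m * (fB j m : ℝ)) * (w6 m * (fB i m : ℝ)) := fun _ => rfl
  have w0 : w6 0 = 1 / 2 := rfl
  have w1 : w6 1 = 1 / 2 := rfl
  have w2 : w6 2 = 1 / 2 := rfl
  have w3 : w6 3 = 1 / 2 := rfl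
  have w4 : w6 4 = 1 / 2 := rfl
  have w5 : w6 5 = √3 / 6 := rfl
  rw [PiLp.inner_apply, Fin.sum_univ_six, e 0, e 1, e 2, e 3, e 4, e 5, w0, w1, w2, w3, w4, w5]
  push_cast
  linear_combination ((fB i 5 : ℝ) * fB j 5 / 36) * h3

private theorem fb_ind : LinearIndependent ℝ fb := by
  rw [Fintype.linearIndependent_iff]
  intro g hg m
  -- coordinates
  have hc : ∀ n : Fin 6, ∑ i, g i * (fB i n : ℝ) = 0 := by
    intro n
    have h1 : (∑ i, g i • fb i) n = 0 := by rw [hg]; rfl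
    have h2 : (∑ i, g i • fb i) n = w6 n * ∑ i, g i * (fB i n : ℝ) := by
      rw [WithLp.ofLp_sum, Finset.sum_apply, Finset.mul_sum]
      refine Finset.sum_congr rfl fun i _ => ?_
      show g i * (w6 n * (fB i n : ℝ)) = _
      ring
    rw [h2] at h1
    have hw : w6 n ≠ 0 := by
      have : (0 : ℝ) < √3 := Real.sqrt_pos.mpr (by norm_num)
      fin_cases n <;> simp [w6]
    exact (mul_eq_zero.mp h1).resolve_left hw
  -- the matrices are inverse up to the factor four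
  let P : Matrix (Fin 6) (Fin 6) ℝ := Matrix.of fun n i => (fB i n : ℝ)
  let R : Matrix (Fin 6) (Fin 6) ℝ := Matrix.of fun i n => (fA i n : ℝ)
  have hPR : P * R = (4 : ℝ) • (1 : Matrix (Fin 6) (Fin 6) ℝ) := by
    ext n m
    have h := fBA n m
    have h' : ((∑ i, fB i n * fA i m : ℤ) : ℝ) = ((if n = m then 4 else 0 : ℤ) : ℝ) := by rw [h]
    push_cast at h'
    rw [Matrix.mul_apply, Matrix.smul_apply, Matrix.one_apply]
    show ∑ i, (fB i n : ℝ) * (fA i m : ℝ) = _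
    rw [h']
    split_ifs <;> simp
  have hRP : R * P = (4 : ℝ) • (1 : Matrix (Fin 6) (Fin 6) ℝ) := by
    have h1 : P * ((1 / 4 : ℝ) • R) = 1 := by
      rw [Matrix.mul_smul, hPR, smul_smul]
      norm_num
    have h2 : ((1 / 4 : ℝ) • R) * P = 1 := mul_eq_one_comm.mp h1
    rw [Matrix.smul_mul] at h2
    rw [← h2, smul_smul]
    norm_num
  have h0 : R *ᵥ (P *ᵥ g) = 0 := by
    have : P *ᵥ g = 0 := by
      funext n
      show ∑ i, (fB i n : ℝ) * g i = 0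
      rw [← hc n]
      exact Finset.sum_congr rfl fun i _ => by ring
    rw [this, mulVec_zero]
  rw [mulVec_mulVec, hRP, smul_mulVec, one_mulVec] at h0
  have h4 := congrFun h0 m
  have h5 : (4 : ℝ) * g m = 0 := h4
  linarith

private theorem fb_span : sub E6s = Submodule.span ℤ (Set.range fb) := by
  apply le_antisymm
  · rintro y ⟨k, hk, hy⟩
    rw [Submodule.mem_span_range_iff_exists_fun]
    choose c hc using fdvd hk
    refine ⟨c, ?_⟩
    have hc' : ∀ i, (c i : ℝ) = (fA i 0 * k 0 + fA i 1 * k 1 + fA i 2 * k 2 + fA i 3 * k 3 +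
        fA i 4 * k 4 + fA i 5 * k 5) / 4 := by
      intro i
      have h : ((fA i 0 * k 0 + fA i 1 * k 1 + fA i 2 * k 2 + fA i 3 * k 3 + fA i 4 * k 4 +
        fA i 5 * k 5 : ℤ) : ℝ) = ((4 * c i : ℤ) : ℝ) := congrArg (fun z : ℤ => (z : ℝ)) (hc i)
      push_cast at h
      linarith
    ext n
    have hyn : y n = hv6 k n := congrFun hy n
    have h2 : (∑ i, c i • fb i) n = w6 n * ∑ i, (c i : ℝ) * (fB i n : ℝ) := by
      rw [WithLp.ofLp_sum, Finset.sum_apply, Finset.mul_sum]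
      refine Finset.sum_congr rfl fun i _ => ?_
      rw [← Int.cast_smul_eq_zsmul ℝ]
      show (c i : ℝ) * (w6 n * (fB i n : ℝ)) = _
      ring
    rw [h2, hyn]
    show _ = w6 n * (k n : ℝ)
    congr 1
    simp only [hc', Fin.sum_univ_six]
    fin_cases n
    · show _ = (k 0 : ℝ)
      simp [fA, fB]
      ring
    · show _ = (k 1 : ℝ)
      simp [fA, fB]
      ring
    · show _ = (k 2 : ℝ)
      simp [fA, fB]
      ring
    · show _ = (k 3 : ℝ)
      simp [fA, fB]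
      ring
    · show _ = (k 4 : ℝ)
      simp [fA, fB]
      ring
    · show _ = (k 5 : ℝ)
      simp [fA, fB]
      ring
  · rw [Submodule.span_le]
    rintro _ ⟨i, rfl⟩
    exact ⟨fB i, fB_mem i, rfl⟩

theorem E6s_form : ∃ c : ℝ, 0 < c ∧
    HasForm (sub E6s) (c • (CartanMatrix.E₆.map (fun z : ℤ => (z : ℝ)))⁻¹) := by
  refine ⟨1, one_pos, fb, fb_ind, fb_span, fun i j => ?_⟩
  have h : (CartanMatrix.E₆.map (fun z : ℤ => (z : ℝ))) *
      (Matrix.of fun i j => (inner ℝ (fb i) (fb j) : ℝ)) = 1 := by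
    ext i k
    rw [Matrix.mul_apply, Matrix.one_apply]
    have h1 : ∀ j, (CartanMatrix.E₆.map (fun z : ℤ => (z : ℝ))) i j *
        (Matrix.of fun i j => (inner ℝ (fb i) (fb j) : ℝ)) j k =
        ((CartanMatrix.E₆ i j * (3 * (fB j 0 * fB k 0 + fB j 1 * fB k 1 + fB j 2 * fB k 2 +
          fB j 3 * fB k 3 + fB j 4 * fB k 4) + fB j 5 * fB k 5) : ℤ) : ℝ) / 12 := by
      intro j
      rw [Matrix.of_apply, fb_inner, Matrix.map_apply]
      push_cast
      ring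
    rw [Finset.sum_congr rfl fun j _ => h1 j, ← Finset.sum_div, ← Int.cast_sum, fCB i k]
    split_ifs <;> norm_num
  rw [one_smul, Matrix.inv_eq_right_inv h, Matrix.of_apply]

end Pool.Agent.H99G
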