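import Pool.Agent.H99G.Defs

set_option autoImplicit false

/-!
# The lattice `E7*` (scaled: minimal norm 3, volume 8)

The integral vectors whose residues mod 2 are in the Hamming code of length 7.
-/

namespace Pool.Agent.H99G

open Matrix

/-- the residues mod 2 of `k` form a word of the Hamming code of length 7 -/
def InH (k : Fin 7 → ℤ) : Prop :=
  (k 0 + k 2 + k 4 + k 6) % 2 = 0 ∧ (k 1 + k 2 + k 5 + k 6) % 2 = 0 ∧
    (k 3 + k 4 + k 5 + k 6) % 2 = 0

instance : DecidablePred InH := fun _ => inferInstanceAs (Decidable (_ ∧ _))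

/-- the integral vector `k` as a real vector -/
def rv (k : Fin 7 → ℤ) : Fin 7 → ℝ := fun i => (k i : ℝ)

/-- `E7*`, scaled. -/
def E7s : AddSubgroup (Fin (6 + 1) → ℝ) where
  carrier := {y | ∃ k : Fin 7 → ℤ, InH k ∧ y = rv k}
  add_mem' := by
    rintro a b ⟨k, hk, rfl⟩ ⟨l, hl, rfl⟩
    refine ⟨k + l, ?_, by ext i; simp [rv]⟩
    obtain ⟨h1, h2, h3⟩ := hk
    obtain ⟨h4, h5, h6⟩ := hl
    simp only [InH, Pi.add_apply]
    refine ⟨?_, ?_, ?_⟩ <;> omega
  zero_mem' := ⟨0, by decide, by ext i; simp [rv]⟩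
  neg_mem' := by
    rintro a ⟨k, hk, rfl⟩
    refine ⟨-k, ?_, by ext i; simp [rv]⟩
    obtain ⟨h1, h2, h3⟩ := hk
    simp only [InH, Pi.neg_apply]
    refine ⟨?_, ?_, ?_⟩ <;> omega

/-- the half open unit cube around `0` -/
def UC : Set (Fin 7 → ℝ) := {u | ∀ i, -(1 / 2) ≤ u i ∧ u i < 1 / 2}

/-- the eight centres `0, e_0, ..., e_6` -/
noncomputable def cen (j : Option (Fin 7)) : Fin 7 → ℝ := fun i => if j = some i then 1 else 0

/-- the union of the eight cubes: a fundamental domain of `E7s` (perfect code) -/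
def HD : Set (Fin 7 → ℝ) := {y | ∃ j : Option (Fin 7), y - cen j ∈ UC}

/-- the squared distance to the lattice -/
noncomputable def d2 (L : AddSubgroup (Fin (6 + 1) → ℝ)) (y : Fin (6 + 1) → ℝ) : ℝ :=
  ⨅ l : L, (y - (l : Fin (6 + 1) → ℝ)) ⬝ᵥ (y - (l : Fin (6 + 1) → ℝ))

end Pool.Agent.H99G
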