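import Pool.Agent.H99G.Wdef
import Pool.Agent.H99G.Sdef

set_option autoImplicit false

/-!
# A basis of `E7*` with the inverse Cartan matrix (helper55)
-/

namespace Pool.Agent.H99G

open MeasureTheory Matrix Pool.Agent.D4Q

/-- the basis -/
private def bI : Fin 7 → Fin 7 → ℤ :=
  ![![1, 0, -1, 0, 1, 0, 1], ![0, 1, -2, 0, 1, 0, 1], ![0, 0, -2, 0, 2, 0, 2],
    ![0, 0, -4, 0, 2, 0, 2], ![0, 0, -3, 0, 1, -1, 2], ![0, 0, -2, 0, 0, 0, 2],
    ![0, 0, -1, -1, 0, 0, 1]]

/-- twice the simple roots -/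
private def rI : Fin 7 → Fin 7 → ℤ :=
  ![![2, 0, 0, 0, 0, 0, 0], ![0, 2, 0, 0, 0, 0, 0], ![-1, 0, 1, 0, 1, 0, 1],
    ![0, -1, -1, 0, 0, 1, -1], ![0, 0, 0, 0, 0, -2, 0], ![0, 0, 0, 1, -1, 1, 1],
    ![0, 0, 0, -2, 0, 0, 0]]

private theorem id1 : ∀ i j : Fin 7, ∑ x, bI i x * rI j x = if i = j then 2 else 0 := by decide

private theorem id2 : ∀ x y : Fin 7, ∑ j, rI j x * bI j y = if x = y then 2 else 0 := by decide

private theorem inH_b : ∀ i : Fin 7, InH (bI i) := by decide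

private theorem par {k : Fin 7 → ℤ} (hk : InH k) (j : Fin 7) :
    ∃ c : ℤ, ∑ x, k x * rI j x = 2 * c := by
  obtain ⟨h1, h2, h3⟩ := hk
  refine ⟨(∑ x, k x * rI j x) / 2, ?_⟩
  have : (∑ x, k x * rI j x) % 2 = 0 := by
    fin_cases j <;> simp [rI, Fin.sum_univ_seven] <;> omega
  omega

private theorem gram : ∀ i j : Fin 7,
    ∑ k, CartanMatrix.E₇ i k * (∑ x, bI k x * bI j x) = if i = j then 2 else 0 := by decide

private noncomputable def bb (i : Fin 7) : EuclideanSpace ℝ (Fin (6 + 1)) :=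
  WithLp.toLp 2 (fun x => (bI i x : ℝ))

private theorem bb_apply (i x : Fin 7) : (bb i).ofLp x = (bI i x : ℝ) := rfl

private theorem coef (g : Fin 7 → ℝ) (j : Fin 7) :
    ∑ x, (∑ i, g i * (bI i x : ℝ)) * rI j x = 2 * g j := by
  have h1 : ∑ x, (∑ i, g i * (bI i x : ℝ)) * rI j x =
      ∑ i, g i * ∑ x, (bI i x : ℝ) * rI j x := by
    simp only [Finset.sum_mul, Finset.mul_sum]
    rw [Finset.sum_comm]
    exact Finset.sum_congr rfl fun i _ => Finset.sum_congr rfl fun x _ => by ring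
  have h2 : ∀ i, ∑ x, (bI i x : ℝ) * rI j x = if i = j then 2 else 0 := by
    intro i
    have := id1 i j
    have h3 : ((∑ x, bI i x * rI j x : ℤ) : ℝ) = ((if i = j then 2 else 0 : ℤ) : ℝ) := by rw [this]
    push_cast at h3
    exact h3
  rw [h1, Finset.sum_congr rfl fun i _ => by rw [h2 i]]
  simp
  ring

private theorem lin_bb : LinearIndependent ℝ bb := by
  rw [Fintype.linearIndependent_iff]
  intro g hg j
  have h1 : ∀ x : Fin 7, ∑ i, g i * (bI i x : ℝ) = 0 := by
    intro x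
    have := congrArg (fun v : EuclideanSpace ℝ (Fin (6 + 1)) => v.ofLp x) hg
    simpa [bb_apply] using this
  have h2 := coef g j
  simp only [h1, zero_mul, Finset.sum_const_zero] at h2
  linarith

theorem E7s_form : ∃ c : ℝ, 0 < c ∧
    HasForm (sub E7s) (c • (CartanMatrix.E₇.map (fun z : ℤ => (z : ℝ)))⁻¹) := by
  refine ⟨2, by norm_num, bb, lin_bb, ?_, ?_⟩
  · apply le_antisymm
    · rintro y ⟨k, hk, hy⟩
      rw [Submodule.mem_span_range_iff_exists_fun]
      choose c hc using par hk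
      refine ⟨c, ?_⟩
      ext z
      have hz : y.ofLp z = (k z : ℝ) := congrFun hy z
      rw [hz]
      have h1 : (∑ j, c j • bb j).ofLp z = ∑ j, (c j : ℝ) * bI j z := by
        simp [bb_apply]
      rw [h1]
      have h2 : ∀ j, (c j : ℝ) = (∑ x, (k x : ℝ) * rI j x) / 2 := by
        intro j
        have h3 : ((∑ x, k x * rI j x : ℤ) : ℝ) = ((2 * c j : ℤ) : ℝ) := by rw [hc j]
        push_cast at h3
        linarith
      simp only [h2]
      have h3 : ∑ j, (∑ x, (k x : ℝ) * rI j x) / 2 * (bI j z : ℝ) =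
          ∑ x, (k x : ℝ) / 2 * ∑ j, (rI j x : ℝ) * bI j z := by
        simp only [Finset.sum_div, Finset.sum_mul, Finset.mul_sum]
        rw [Finset.sum_comm]
        exact Finset.sum_congr rfl fun i _ => Finset.sum_congr rfl fun x _ => by ring
      have h4 : ∀ x, ∑ j, (rI j x : ℝ) * bI j z = if x = z then 2 else 0 := by
        intro x
        have h5 : ((∑ j, rI j x * bI j z : ℤ) : ℝ) = ((if x = z then 2 else 0 : ℤ) : ℝ) := by
          rw [id2 x z]
        push_cast at h5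
        exact h5
      rw [h3, Finset.sum_congr rfl fun x _ => by rw [h4 x]]
      simp
    · rw [Submodule.span_le]
      rintro _ ⟨i, rfl⟩
      exact ⟨bI i, inH_b i, rfl⟩
  · intro i j
    have hinv : (CartanMatrix.E₇.map (fun z : ℤ => (z : ℝ)))⁻¹ =
        Matrix.of fun i j => (∑ x, (bI i x : ℝ) * bI j x) / 2 := by
      apply Matrix.inv_eq_right_inv
      ext a b
      have h1 : ((∑ k, CartanMatrix.E₇ a k * (∑ x, bI k x * bI b x) : ℤ) : ℝ) =
          ((if a = b then 2 else 0 : ℤ) : ℝ) := by rw [gram a b]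
      push_cast at h1
      rw [Matrix.mul_apply, Matrix.one_apply]
      simp only [Matrix.map_apply, Matrix.of_apply]
      have h2 : ∑ k, (CartanMatrix.E₇ a k : ℝ) * ((∑ x, (bI k x : ℝ) * bI b x) / 2) =
          (∑ k, (CartanMatrix.E₇ a k : ℝ) * ∑ x, (bI k x : ℝ) * bI b x) / 2 := by
        rw [Finset.sum_div]
        exact Finset.sum_congr rfl fun k _ => by ring
      rw [h2, h1]
      split_ifs <;> norm_num
    rw [hinv, Matrix.smul_apply, Matrix.of_apply, smul_eq_mul, PiLp.inner_apply]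
    rw [mul_div_cancel₀ _ (two_ne_zero)]
    refine Finset.sum_congr rfl fun x _ => ?_
    simp [bb_apply, mul_comm]

end Pool.Agent.H99G
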