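import Pool.Agent.H99G.Defs
import Pool.Agent.H99E.Alg
import Pool.Agent.H99E.Ball

set_option autoImplicit false

/-!
# `E8` as an additive subgroup
-/

namespace Pool.Agent.H99G

open Matrix Pool.Agent.H99E

/-- `E8` as an additive subgroup. -/
def E8g : AddSubgroup (Fin (7 + 1) → ℝ) where
  carrier := {y | ∃ k : Fin 8 → ℤ, InE k ∧ y = hv k}
  add_mem' := by
    rintro a b ⟨k, hk, rfl⟩ ⟨l, hl, rfl⟩
    exact ⟨k + l, InE_add hk hl, by ext i; simp [hv, add_div]⟩
  zero_mem' := ⟨0, by decide, by ext i; simp [hv]⟩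
  neg_mem' := by
    rintro a ⟨k, hk, rfl⟩
    exact ⟨-k, InE_neg hk, by ext i; simp [hv, neg_div]⟩

end Pool.Agent.H99G
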