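import Pool.Agent.H99G.Wdef
import Pool.Agent.H99G.Edef

set_option autoImplicit false

/-!
# The form of `E8` (helper51)
-/

namespace Pool.Agent.H99G

open MeasureTheory Matrix Pool.Agent.D4Q Pool.Agent.H99E

/-- The inverse of the Cartan matrix of `E8`. -/
private def ci8 : Matrix (Fin 8) (Fin 8) ℤ :=
  !![4, 5, 7, 10, 8, 6, 4, 2;
    5, 8, 10, 15, 12, 9, 6, 3;
    7, 10, 14, 20, 16, 12, 8, 4;
    10, 15, 20, 30, 24, 18, 12, 6;
    8, 12, 16, 24, 20, 15, 10, 5;
    6, 9, 12, 18, 15, 12, 8, 4;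
    4, 6, 8, 12, 10, 8, 6, 3;
    2, 3, 4, 6, 5, 4, 3, 2]

/-- The simple roots (doubled). -/
private def ka8 : Fin 8 → Fin 8 → ℤ :=
  ![![1, -1, -1, -1, -1, -1, -1, 1],
    ![2, 2, 0, 0, 0, 0, 0, 0],
    ![-2, 2, 0, 0, 0, 0, 0, 0],
    ![0, -2, 2, 0, 0, 0, 0, 0],
    ![0, 0, -2, 2, 0, 0, 0, 0],
    ![0, 0, 0, -2, 2, 0, 0, 0],
    ![0, 0, 0, 0, -2, 2, 0, 0],
    ![0, 0, 0, 0, 0, -2, 2, 0]]

/-- The fundamental weights (doubled). -/
private def kk8 : Fin 8 → Fin 8 → ℤ :=
  ![![0, 0, 0, 0, 0, 0, 0, 4],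
    ![1, 1, 1, 1, 1, 1, 1, 5],
    ![-1, 1, 1, 1, 1, 1, 1, 7],
    ![0, 0, 2, 2, 2, 2, 2, 10],
    ![0, 0, 0, 2, 2, 2, 2, 8],
    ![0, 0, 0, 0, 2, 2, 2, 6],
    ![0, 0, 0, 0, 0, 2, 2, 4],
    ![0, 0, 0, 0, 0, 0, 2, 2]]

private theorem kk8_in : ∀ i, InE (kk8 i) := by decide

private theorem kk8_gram : ∀ i j, ∑ m, kk8 i m * kk8 j m = 4 * ci8 i j := by decide

private theorem kk8_dual : ∀ i j, ∑ m, kk8 i m * ka8 j m = if i = j then 4 else 0 := by decide

private theorem kk8_id : ∀ i j, ∑ m, ka8 m i * kk8 m j = if i = j then 4 else 0 := by decide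

private theorem ci8_mul : CartanMatrix.E₈ * ci8 = 1 := by decide

private noncomputable def bb8 (i : Fin 8) : EuclideanSpace ℝ (Fin 8) :=
  WithLp.toLp 2 (hv (kk8 i))

private theorem inner8 (k l : Fin 8 → ℤ) :
    inner ℝ (WithLp.toLp 2 (hv k) : EuclideanSpace ℝ (Fin 8)) (WithLp.toLp 2 (hv l)) =
      ((∑ m, k m * l m : ℤ) : ℝ) / 4 := by
  rw [PiLp.inner_apply]
  push_cast
  rw [Finset.sum_div]
  refine Finset.sum_congr rfl fun m _ => ?_
  show (l m : ℝ) / 2 * ((k m : ℝ) / 2) = _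
  ring

private theorem dvd8 {k : Fin 8 → ℤ} (hk : InE k) (i : Fin 8) :
    (∑ m, k m * ka8 i m) % 4 = 0 := by
  obtain ⟨h1, h2⟩ := hk
  have a1 := h1 1
  have a2 := h1 2
  have a3 := h1 3
  have a4 := h1 4
  have a5 := h1 5
  have a6 := h1 6
  have a7 := h1 7
  rw [Fin.sum_univ_eight] at h2 ⊢
  fin_cases i <;> simp [ka8] <;> omega

theorem E8_form : ∃ c : ℝ, 0 < c ∧
    HasForm (sub E8g) (c • (CartanMatrix.E₈.map (fun z : ℤ => (z : ℝ)))⁻¹) := by
  refine ⟨1, one_pos, bb8, ?_, ?_, ?_⟩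
  · rw [Fintype.linearIndependent_iff]
    intro g hg i
    have h1 : inner ℝ (∑ j, g j • bb8 j) (WithLp.toLp 2 (hv (ka8 i)) :
        EuclideanSpace ℝ (Fin 8)) = 0 := by
      rw [hg, inner_zero_left]
    rw [sum_inner] at h1
    have h2 : ∀ j, inner ℝ (g j • bb8 j) (WithLp.toLp 2 (hv (ka8 i)) :
        EuclideanSpace ℝ (Fin 8)) = if j = i then g j else 0 := by
      intro j
      rw [real_inner_smul_left]
      show g j * inner ℝ (WithLp.toLp 2 (hv (kk8 j)) : EuclideanSpace ℝ (Fin 8)) _ = _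
      rw [inner8, kk8_dual]
      split_ifs
      · push_cast
        ring
      · simp
    rw [Finset.sum_congr rfl fun j _ => h2 j, Finset.sum_ite_eq' Finset.univ i] at h1
    simpa using h1
  · apply le_antisymm
    · intro y hy
      obtain ⟨k, hk, hy⟩ : ∃ k : Fin 8 → ℤ, InE k ∧ y.ofLp = hv k := hy
      have h1 : ∀ i, ∃ c : ℤ, ∑ m, k m * ka8 i m = 4 * c := fun i =>
        ⟨(∑ m, k m * ka8 i m) / 4, by have := dvd8 hk i; omega⟩
      choose c hc using h1
      have h2 : y = ∑ i, c i • bb8 i := by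
        apply WithLp.ofLp_injective
        rw [hy, WithLp.ofLp_sum]
        ext j
        rw [Finset.sum_apply]
        have h3 : ∀ i, (c i • bb8 i).ofLp j = ((c i * kk8 i j : ℤ) : ℝ) / 2 := by
          intro i
          rw [WithLp.ofLp_smul, Pi.smul_apply, zsmul_eq_mul]
          show (c i : ℝ) * ((kk8 i j : ℝ) / 2) = _
          push_cast
          ring
        rw [Finset.sum_congr rfl fun i _ => h3 i, ← Finset.sum_div]
        show (k j : ℝ) / 2 = _
        congr 1
        have h4 : 4 * k j = 4 * ∑ i, c i * kk8 i j := by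
          have h5 : 4 * ∑ i, c i * kk8 i j = ∑ i, (∑ m, k m * ka8 i m) * kk8 i j := by
            rw [Finset.mul_sum]
            refine Finset.sum_congr rfl fun i _ => ?_
            rw [hc i]
            ring
          rw [h5]
          have h6 : ∑ i, (∑ m, k m * ka8 i m) * kk8 i j =
              ∑ m, k m * ∑ i, ka8 i m * kk8 i j := by
            simp_rw [Finset.sum_mul, Finset.mul_sum]
            rw [Finset.sum_comm]
            refine Finset.sum_congr rfl fun m _ => Finset.sum_congr rfl fun i _ => ?_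
            ring
          rw [h6]
          simp_rw [kk8_id]
          rw [Finset.sum_congr rfl fun m _ => by rw [mul_ite, mul_zero],
            Finset.sum_ite_eq' Finset.univ j]
          simp [mul_comm]
        have h7 : k j = ∑ i, c i * kk8 i j := by linarith
        rw [h7]
        push_cast
        rfl
      rw [h2]
      exact Submodule.sum_mem _ fun i _ => Submodule.smul_mem _ _
        (Submodule.subset_span ⟨i, rfl⟩)
    · rw [Submodule.span_le]
      rintro _ ⟨i, rfl⟩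
      exact ⟨kk8 i, kk8_in i, rfl⟩
  · intro i j
    rw [one_smul]
    have h1 : (CartanMatrix.E₈.map (fun z : ℤ => (z : ℝ)))⁻¹ = ci8.map (fun z : ℤ => (z : ℝ)) := by
      apply Matrix.inv_eq_right_inv
      have h2 := congrArg (fun A : Matrix (Fin 8) (Fin 8) ℤ => A.map (Int.castRingHom ℝ)) ci8_mul
      simp only [Matrix.map_mul] at h2
      rw [Matrix.map_one _ (map_zero _) (map_one _)] at h2
      exact h2
    rw [h1]
    show (ci8 i j : ℝ) = inner ℝ (WithLp.toLp 2 (hv (kk8 i)) : EuclideanSpace ℝ (Fin 8))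
      (WithLp.toLp 2 (hv (kk8 j)))
    rw [inner8, kk8_gram]
    push_cast
    ring

end Pool.Agent.H99G
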