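import Pool.Agent.H99G.Cor

set_option autoImplicit false

/-!
# The core theorem
-/

namespace Pool.Agent.H99G

open MeasureTheory Matrix Filter Topology

variable {m : ℕ} {L : AddSubgroup (Fin (m + 1) → ℝ)} {μ : ℝ}

/-- The lower bound of the distance function. -/
noncomputable def low (L : AddSubgroup (Fin (m + 1) → ℝ)) (μ : ℝ)
    (B : Matrix (Fin (m + 1)) (Fin (m + 1)) ℝ) (y : Fin (m + 1) → ℝ) : ℝ :=
  y ⬝ᵥ (1 + B) *ᵥ y - ∑ w ∈ Lam L μ, max 0 (DD B w y)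

theorem low_cont (B : Matrix (Fin (m + 1)) (Fin (m + 1)) ℝ) : Continuous (low L μ B) :=
  (cont_quad0 _).sub (continuous_finsetSum _ fun w _ => cont_DD B w)

theorem low_integral (h : Good L μ) (B : Matrix (Fin (m + 1)) (Fin (m + 1)) ℝ) :
    ∫ y in PP L, low L μ B y = (∫ y in PP L, y ⬝ᵥ (1 + B) *ᵥ y) -
      ∑ w ∈ Lam L μ, ∫ y in PP L, max 0 (DD B w y) := by
  unfold low
  have h1 : IntegrableOn (fun y : Fin (m + 1) → ℝ => y ⬝ᵥ (1 + B) *ᵥ y) (PP L) volume :=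
    int_on h (cont_quad0 _)
  have h2 : ∀ w ∈ Lam L μ, IntegrableOn (fun y : Fin (m + 1) → ℝ => max 0 (DD B w y)) (PP L)
      volume := fun w _ => int_on h (cont_DD B w)
  have h2' : IntegrableOn (fun y : Fin (m + 1) → ℝ => ∑ w ∈ Lam L μ, max 0 (DD B w y)) (PP L)
      volume := int_on h (continuous_finsetSum _ fun w _ => cont_DD B w)
  have e2 := integral_sub (μ := volume.restrict (PP L)) h1 h2'
  have e3 := integral_finsetSum (μ := volume.restrict (PP L)) (Lam L μ) h2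
  rw [e2, e3]

theorem dS_meas (h : Good L μ) (S : Matrix (Fin (m + 1)) (Fin (m + 1)) ℝ) :
    Measurable (dS L S) := by
  have hc : (L : Set (Fin (m + 1) → ℝ)).Countable := by
    have : (L : Set (Fin (m + 1) → ℝ)) = ⋃ n : ℕ, {l | l ∈ L ∧ l ⬝ᵥ l ≤ (n : ℝ)} := by
      ext l
      simp only [SetLike.mem_coe, Set.mem_iUnion, Set.mem_ofPred_eq]
      constructor
      · intro hl
        obtain ⟨n, hn⟩ := exists_nat_ge (l ⬝ᵥ l)
        exact ⟨n, hl, hn⟩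
      · rintro ⟨n, hl, -⟩
        exact hl
    rw [this]
    exact Set.countable_iUnion fun n => (h.fin n).countable
  have : Countable L := hc.to_subtype
  unfold dS
  exact Measurable.iInf fun l => (cont_quad S (l : Fin (m + 1) → ℝ)).measurable

theorem low_le (h : Good L μ) {B : Matrix (Fin (m + 1)) (Fin (m + 1)) ℝ} {β : ℝ} (hB : Bᵀ = B)
    (hβ : 0 ≤ β) (hβ' : β ≤ 1 / 20) (hf : fro B ≤ β ^ 2) {y : Fin (m + 1) → ℝ} (hy : y ∈ PP L) :
    low L μ B y ≤ dS L (1 + B) y := le_ciInf fun l => pointwise h hB hβ hβ' hf hy l.2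

theorem dS_le (h : Good L μ) {B : Matrix (Fin (m + 1)) (Fin (m + 1)) ℝ} {β : ℝ} (hB : Bᵀ = B)
    (hβ : 0 ≤ β) (hβ' : β ≤ 1 / 20) (hf : fro B ≤ β ^ 2) {y : Fin (m + 1) → ℝ} (hy : y ∈ PP L) :
    dS L (1 + B) y ≤ y ⬝ᵥ (1 + B) *ᵥ y := by
  have hb : BddBelow (Set.range fun l : L =>
      (y - (l : Fin (m + 1) → ℝ)) ⬝ᵥ (1 + B) *ᵥ (y - (l : Fin (m + 1) → ℝ))) :=
    ⟨low L μ B y, by rintro _ ⟨l, rfl⟩; exact pointwise h hB hβ hβ' hf hy l.2⟩
  have h1 := ciInf_le hb (0 : L)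
  simpa [dS] using h1

theorem int_low_le (h : Good L μ) {B : Matrix (Fin (m + 1)) (Fin (m + 1)) ℝ} {β : ℝ}
    (hB : Bᵀ = B) (hβ : 0 ≤ β) (hβ' : β ≤ 1 / 20) (hf : fro B ≤ β ^ 2) :
    ∫ y in PP L, low L μ B y ≤ ∫ y in PP L, dS L (1 + B) y := by
  have hm : MeasurableSet (PP L) := PP_closed.measurableSet
  have hl : IntegrableOn (low L μ B) (PP L) volume := int_on h (low_cont B)
  have hi : IntegrableOn (dS L (1 + B)) (PP L) volume := by
    refine Integrable.mono' (g := fun y => |low L μ B y| + |y ⬝ᵥ (1 + B) *ᵥ y|) ?_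
      (dS_meas h _).aestronglyMeasurable ?_
    · exact hl.abs.add (int_on h (cont_quad0 _)).abs
    · refine (ae_restrict_iff' hm).mpr (Eventually.of_forall fun y hy => ?_)
      have h1 := low_le h hB hβ hβ' hf hy
      have h2 := dS_le h hB hβ hβ' hf hy
      rw [Real.norm_eq_abs, abs_le]
      have h3 := neg_abs_le (low L μ B y)
      have h4 := le_abs_self (y ⬝ᵥ (1 + B) *ᵥ y)
      have h5 := abs_nonneg (low L μ B y)
      have h6 := abs_nonneg (y ⬝ᵥ (1 + B) *ᵥ y)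
      constructor <;> linarith
  exact setIntegral_mono_on hl hi hm fun y hy => low_le h hB hβ hβ' hf hy

/-- The hypothesis of the core theorem: the second order loss is smaller than the second order
gain, and the cell is isotropic. -/
def Pos (L : AddSubgroup (Fin (m + 1) → ℝ)) (μ : ℝ) : Prop :=
  (∃ q : ℝ, q < GG L / (2 * (m + 1)) ∧ ∀ B : Matrix (Fin (m + 1)) (Fin (m + 1)) ℝ, Bᵀ = B →
    QQ L μ B ≤ q * fro B) ∧
  ∀ B : Matrix (Fin (m + 1)) (Fin (m + 1)) ℝ, Bᵀ = B →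
    ∫ y in PP L, y ⬝ᵥ B *ᵥ y = GG L / (m + 1) * B.trace

theorem pos_of_crit (h : Good L μ) (hcr : Crit L μ) (hI : Irr L) (hm : 2 ≤ m) : Pos L μ := by
  obtain ⟨q, hq⟩ := irr_quad hI (QQ_par h) (fun c B => QQ_hom (L := L) (μ := μ) c B) (QQ_cont h)
    (fun g hg B => QQ_aut h hg B)
  obtain ⟨hq1, hq2⟩ := QQ_bound h (by omega) hq
  exact ⟨⟨q, margin3 h hcr hm hq1, hq2⟩, fun B hB => iso_PP h hI (by omega) hB⟩

theorem core (h : Good L μ) (hPos : Pos L μ) : ∃ ε : ℝ, 0 < ε ∧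
    ∀ B : Matrix (Fin (m + 1)) (Fin (m + 1)) ℝ, Bᵀ = B → fro B < ε ^ 2 →
    (1 + B).det = 1 → B ≠ 0 → GG L < ∫ y in PP L, dS L (1 + B) y := by
  obtain ⟨⟨q, hmar, hq2⟩, hiso⟩ := hPos
  have hG := GG_pos h
  -- the error terms of the losses
  have hloss : ∀ l : Fin (m + 1) → ℝ, ∃ e : ℝ → ℝ, Tendsto e (𝓝[>] 0) (𝓝 0) ∧ (l ∈ Lam L μ →
      ∀ β : ℝ, 0 < β → β < 1 / 20 →
      ∀ B : Matrix (Fin (m + 1)) (Fin (m + 1)) ℝ, Bᵀ = B → fro B ≤ β ^ 2 →
        ∫ y in PP L, max 0 (DD B l y) ≤ 1 / (2 * len l) * qF L l (B *ᵥ l) + β ^ 2 * e β) := by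
    intro l
    by_cases hl : l ∈ Lam L μ
    · obtain ⟨h1, h2, -⟩ := (mem_Lam h).mp hl
      obtain ⟨e, he, h3⟩ := loss h h1 h2
      exact ⟨e, he, fun _ => h3⟩
    · exact ⟨fun _ => 0, tendsto_const_nhds, fun h' => absurd h' hl⟩
  choose e he hle using hloss
  have hlim : Tendsto (fun β : ℝ => GG L / (m + 1) * (1 / 2 - β) - q - ∑ l ∈ Lam L μ, e l β)
      (𝓝[>] 0) (𝓝 (GG L / (m + 1) * (1 / 2 - 0) - q - ∑ l ∈ Lam L μ, 0)) := by
    have hid : Tendsto (fun β : ℝ => β) (𝓝[>] 0) (𝓝 0) :=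
      tendsto_id.mono_left nhdsWithin_le_nhds
    exact ((tendsto_const_nhds.mul (tendsto_const_nhds.sub hid)).sub
      tendsto_const_nhds).sub (tendsto_finsetSum _ fun l _ => he l)
  have hpos : 0 < GG L / (m + 1) * (1 / 2 - 0) - q - ∑ l ∈ Lam L μ, (0 : ℝ) := by
    have e1 : GG L / (m + 1) * (1 / 2 - 0) = GG L / (2 * (m + 1)) := by
      field_simp
      ring
    rw [e1, Finset.sum_const_zero]
    linarith
  have hev := hlim.eventually (lt_mem_nhds hpos)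
  obtain ⟨ε, hε, hsub⟩ := mem_nhdsGT_iff_exists_Ioo_subset.mp hev
  have hε' : (0 : ℝ) < ε := hε
  refine ⟨min ε (1 / 20), lt_min hε' (by norm_num), fun B hB hf hd hB0 => ?_⟩
  have hf0 := fro_pos hB0
  set β : ℝ := Real.sqrt (fro B) with hβdef
  have hβ0 : 0 < β := Real.sqrt_pos.mpr hf0
  have hβ2 : fro B = β ^ 2 := (Real.sq_sqrt hf0.le).symm
  have hβlt : β < min ε (1 / 20) := by
    rw [hβ2] at hf
    exact lt_of_pow_lt_pow_left₀ 2 (lt_min hε' (by norm_num)).le hf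
  have hβ1 : β < ε := lt_of_lt_of_le hβlt (min_le_left _ _)
  have hβ3 : β < 1 / 20 := lt_of_lt_of_le hβlt (min_le_right _ _)
  have h2 : 0 < GG L / (m + 1) * (1 / 2 - β) - q - ∑ l ∈ Lam L μ, e l β := hsub ⟨hβ0, hβ1⟩
  refine lt_of_lt_of_le ?_ (int_low_le h hB hβ0.le hβ3.le hβ2.le)
  rw [low_integral h]
  have e1 : ∫ y in PP L, y ⬝ᵥ (1 + B) *ᵥ y = GG L + GG L / (m + 1) * B.trace := by
    have h3 : ∀ y : Fin (m + 1) → ℝ, y ⬝ᵥ (1 + B) *ᵥ y = y ⬝ᵥ y + y ⬝ᵥ B *ᵥ y := fun y => by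
      rw [add_mulVec, one_mulVec, dotProduct_add]
    simp only [h3]
    rw [integral_add (int_on h cont_dot) (int_on h (cont_quad0 B)), hiso B hB]
    rfl
  have e2 := det_tr hB hβ0.le (by linarith) hβ2 hd
  have e3 : ∑ w ∈ Lam L μ, ∫ y in PP L, max 0 (DD B w y) ≤
      q * β ^ 2 + β ^ 2 * ∑ l ∈ Lam L μ, e l β := by
    calc ∑ w ∈ Lam L μ, ∫ y in PP L, max 0 (DD B w y)
        ≤ ∑ w ∈ Lam L μ, (1 / (2 * len w) * qF L w (B *ᵥ w) + β ^ 2 * e w β) :=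
          Finset.sum_le_sum fun w hw => hle w hw β hβ0 hβ3 B hB hβ2.le
      _ = QQ L μ B + β ^ 2 * ∑ l ∈ Lam L μ, e l β := by
          rw [Finset.sum_add_distrib, Finset.mul_sum]
          rfl
      _ ≤ q * β ^ 2 + β ^ 2 * ∑ l ∈ Lam L μ, e l β := by
          have := hq2 B hB
          rw [hβ2] at this
          linarith
  have e4 : GG L / (m + 1) * ((1 / 2 - β) * β ^ 2) ≤ GG L / (m + 1) * B.trace :=
    mul_le_mul_of_nonneg_left e2 (by positivity)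
  have h5 : 0 < β ^ 2 * (GG L / (m + 1) * (1 / 2 - β) - q - ∑ l ∈ Lam L μ, e l β) := by
    positivity
  rw [e1]
  nlinarith

end Pool.Agent.H99G
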