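import Pool.Agent.H99G.Defs

set_option autoImplicit false

/-! # The Voronoi cell (helper76) -/

namespace Pool.Agent.H99G

open MeasureTheory Matrix Filter Topology

variable {m : ℕ} {L : AddSubgroup (Fin (m + 1) → ℝ)} {μ : ℝ}

private theorem cel_cs (x y : Fin (m + 1) → ℝ) : (x ⬝ᵥ y) ^ 2 ≤ (x ⬝ᵥ x) * (y ⬝ᵥ y) := by
  have h := Finset.sum_mul_sq_le_sq_mul_sq Finset.univ x y
  simpa [dotProduct, sq] using h

private theorem cel_nonneg (x : Fin (m + 1) → ℝ) : 0 ≤ x ⬝ᵥ x :=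
  Finset.sum_nonneg fun i _ => mul_self_nonneg (x i)

private theorem cel_cont (l : Fin (m + 1) → ℝ) : Continuous fun y : Fin (m + 1) → ℝ => y ⬝ᵥ l := by
  unfold dotProduct
  fun_prop

private theorem cel_cont2 : Continuous fun y : Fin (m + 1) → ℝ => y ⬝ᵥ y := by
  unfold dotProduct
  fun_prop

private theorem cel_coord (x : Fin (m + 1) → ℝ) (i : Fin (m + 1)) : x i ^ 2 ≤ x ⬝ᵥ x := by
  have h := Finset.single_le_sum (f := fun j => x j * x j) (fun j _ => mul_self_nonneg (x j))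
    (Finset.mem_univ i)
  rw [sq]
  exact h

theorem PP_convex : Convex ℝ (PP L) := by
  intro x hx y hy a b ha hb hab l hl
  have h1 := hx l hl
  have h2 := hy l hl
  rw [add_dotProduct, smul_dotProduct, smul_dotProduct, smul_eq_mul, smul_eq_mul]
  have h3 : l ⬝ᵥ l = a * (l ⬝ᵥ l) + b * (l ⬝ᵥ l) := by rw [← add_mul, hab, one_mul]
  rw [h3]
  nlinarith [mul_le_mul_of_nonneg_left h1 ha, mul_le_mul_of_nonneg_left h2 hb]

theorem PP_closed : IsClosed (PP L) := by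
  have h : PP L = ⋂ l ∈ L, {y : Fin (m + 1) → ℝ | 2 * (y ⬝ᵥ l) ≤ l ⬝ᵥ l} := by
    ext y
    simp [PP]
  rw [h]
  refine isClosed_iInter fun l => isClosed_iInter fun _ => ?_
  exact isClosed_le (continuous_const.mul (cel_cont l)) continuous_const

theorem PP_ball (h : Good L μ) {y : Fin (m + 1) → ℝ} (hy : y ∈ PP L) : 2 * (y ⬝ᵥ y) ≤ μ := by
  obtain ⟨l, hl, hle⟩ := h.cov y
  have h1 := hy l hl
  have h2 : (y - l) ⬝ᵥ (y - l) = y ⬝ᵥ y - 2 * (y ⬝ᵥ l) + l ⬝ᵥ l := by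
    rw [sub_dotProduct, dotProduct_sub, dotProduct_sub, dotProduct_comm l y]
    ring
  linarith

theorem PP_compact (h : Good L μ) : IsCompact (PP L) := by
  refine Metric.isCompact_of_isClosed_isBounded PP_closed ?_
  refine (Metric.isBounded_closedBall (x := (0 : Fin (m + 1) → ℝ)) (r := μ + 1)).subset ?_
  intro y hy
  rw [mem_closedBall_zero_iff, pi_norm_le_iff_of_nonneg (by linarith [h.pos])]
  intro i
  have h1 := cel_coord y i
  have h2 := PP_ball h hy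
  have h3 := h.pos
  rw [Real.norm_eq_abs]
  refine abs_le_of_sq_le_sq ?_ (by linarith)
  nlinarith

private theorem cel_min (h : Good L μ) :
    ∃ c : ℝ, 0 < c ∧ ∀ l ∈ L, l ≠ 0 → c ≤ l ⬝ᵥ l := by
  classical
  by_cases hne : ((h.fin 1).toFinset.erase 0).Nonempty
  · obtain ⟨l₀, hl₀, hmin⟩ := Finset.exists_min_image _ (fun l : Fin (m + 1) → ℝ => l ⬝ᵥ l) hne
    have h0 : l₀ ≠ 0 := (Finset.mem_erase.1 hl₀).1
    have h1 : 0 < l₀ ⬝ᵥ l₀ := lt_of_le_of_ne (cel_nonneg l₀) fun h2 =>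
      h0 (dotProduct_self_eq_zero.1 h2.symm)
    refine ⟨min 1 (l₀ ⬝ᵥ l₀), lt_min one_pos h1, fun l hl hl0 => ?_⟩
    rcases le_or_gt (l ⬝ᵥ l) 1 with h2 | h2
    · exact (min_le_right _ _).trans (hmin l (Finset.mem_erase.2
        ⟨hl0, (Set.Finite.mem_toFinset _).2 ⟨hl, h2⟩⟩))
    · exact (min_le_left _ _).trans h2.le
  · refine ⟨1, one_pos, fun l hl hl0 => ?_⟩
    by_contra h2
    exact hne ⟨l, Finset.mem_erase.2 ⟨hl0, (Set.Finite.mem_toFinset _).2 ⟨hl, (not_le.1 h2).le⟩⟩⟩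

theorem PP_nhds (h : Good L μ) :
    ∃ δ : ℝ, 0 < δ ∧ {y : Fin (m + 1) → ℝ | y ⬝ᵥ y ≤ δ} ⊆ PP L := by
  obtain ⟨c, hc, hmin⟩ := cel_min h
  refine ⟨c / 4, by linarith, ?_⟩
  intro y hy l hl
  have hy' : y ⬝ᵥ y ≤ c / 4 := hy
  rcases eq_or_ne l 0 with rfl | hl0
  · simp
  · have h1 := hmin l hl hl0
    have h2 := cel_cs y l
    have h3 := cel_nonneg l
    have h4 := cel_nonneg y
    refine (le_abs_self _).trans (abs_le_of_sq_le_sq ?_ h3)
    nlinarith [mul_le_mul_of_nonneg_right (show 4 * (y ⬝ᵥ y) ≤ l ⬝ᵥ l by linarith) h3]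

theorem GG_pos (h : Good L μ) : 0 < GG L := by
  have hc := PP_compact h
  obtain ⟨δ, hδ, hsub⟩ := PP_nhds h
  rw [GG, setIntegral_pos_iff_support_of_nonneg_ae]
  · have ho : IsOpen {y : Fin (m + 1) → ℝ | 0 < y ⬝ᵥ y ∧ y ⬝ᵥ y < δ} :=
      (isOpen_lt continuous_const cel_cont2).inter (isOpen_lt cel_cont2 continuous_const)
    have hne : {y : Fin (m + 1) → ℝ | 0 < y ⬝ᵥ y ∧ y ⬝ᵥ y < δ}.Nonempty := by
      refine ⟨Pi.single 0 (Real.sqrt δ / 2), ?_⟩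
      have h1 : (Pi.single 0 (Real.sqrt δ / 2) : Fin (m + 1) → ℝ) ⬝ᵥ
          Pi.single 0 (Real.sqrt δ / 2) = δ / 4 := by
        rw [single_dotProduct, Pi.single_eq_same]
        have := Real.mul_self_sqrt hδ.le
        linarith
      refine ⟨?_, ?_⟩ <;> rw [h1] <;> linarith
    refine (ho.measure_pos volume hne).trans_le (measure_mono ?_)
    rintro y ⟨h1, h2⟩
    exact ⟨h1.ne', hsub h2.le⟩
  · exact Eventually.of_forall fun y => cel_nonneg y
  · exact cel_cont2.continuousOn.integrableOn_compact hc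

theorem mem_Lam (h : Good L μ) {l : Fin (m + 1) → ℝ} :
    l ∈ Lam L μ ↔ l ∈ L ∧ l ≠ 0 ∧ l ⬝ᵥ l ≤ 3 * μ := by
  classical
  rw [Lam, dif_pos (h.fin (3 * μ)), Finset.mem_erase, Set.Finite.mem_toFinset]
  simp only [Set.mem_setOf_eq]
  tauto

end Pool.Agent.H99G
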