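import Pool.Agent.H99G.Fra
import Pool.Agent.H99G.Cel

set_option autoImplicit false

/-! # The facets (helper76) -/

namespace Pool.Agent.H99G

open MeasureTheory Matrix Filter Topology

variable {m : ℕ} {L : AddSubgroup (Fin (m + 1) → ℝ)} {μ : ℝ}

private theorem fac_cont (l : Fin (m + 1) → ℝ) (t : ℝ) : Continuous fun z : Fin m → ℝ => pt l t z :=
  (pt_cont l).comp (continuous_const.prodMk continuous_id)

private theorem fac_len_nonneg (l : Fin (m + 1) → ℝ) : 0 ≤ l ⬝ᵥ l :=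
  Finset.sum_nonneg fun i _ => mul_self_nonneg (l i)

private theorem fac_len (l : Fin (m + 1) → ℝ) : len l * len l = l ⬝ᵥ l :=
  Real.mul_self_sqrt (fac_len_nonneg l)

private theorem fac_coord (x : Fin m → ℝ) (i : Fin m) : x i ^ 2 ≤ x ⬝ᵥ x := by
  have h := Finset.single_le_sum (f := fun j => x j * x j) (fun j _ => mul_self_nonneg (x j))
    (Finset.mem_univ i)
  rw [sq]
  exact h

private theorem fac_bound (h : Good L μ) (l : Fin (m + 1) → ℝ) {z : Fin m → ℝ} (hz : z ∈ Fc L l) :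
    z ⬝ᵥ z ≤ μ / 2 - l ⬝ᵥ l / 4 := by
  have h1 := PP_ball h hz
  rw [pt_dot] at h1
  have h2 := fac_len l
  nlinarith

theorem Fc_compact (h : Good L μ) (l : Fin (m + 1) → ℝ) : IsCompact (Fc L l) := by
  refine Metric.isCompact_of_isClosed_isBounded (PP_closed.preimage (fac_cont l _)) ?_
  refine (Metric.isBounded_closedBall (x := (0 : Fin m → ℝ)) (r := μ + 1)).subset ?_
  intro z hz
  have h3 := h.pos
  rw [mem_closedBall_zero_iff, pi_norm_le_iff_of_nonneg (by linarith)]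
  intro i
  have h1 := fac_coord z i
  have h2 := fac_bound h l hz
  have h4 := fac_len_nonneg l
  rw [Real.norm_eq_abs]
  refine abs_le_of_sq_le_sq ?_ (by linarith)
  nlinarith

private theorem fac_lin (l : Fin (m + 1) → ℝ) {a b : ℝ} (t : ℝ) (hab : a + b = 1) (z w : Fin m → ℝ) :
    pt l t (a • z + b • w) = a • pt l t z + b • pt l t w := by
  rw [pt, pt, pt, ← mulVec_smul, ← mulVec_smul, ← mulVec_add]
  congr 1
  funext i
  refine Fin.cases ?_ (fun j => ?_) i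
  · simp only [Fin.cons_zero, Pi.add_apply, Pi.smul_apply, smul_eq_mul]
    rw [← add_mul, hab, one_mul]
  · simp only [Fin.cons_succ, Pi.add_apply, Pi.smul_apply, smul_eq_mul]

theorem Fc_convex (l : Fin (m + 1) → ℝ) : Convex ℝ (Fc L l) := by
  intro z hz w hw a b ha hb hab
  show pt l (len l / 2) (a • z + b • w) ∈ PP L
  rw [fac_lin l _ hab]
  exact PP_convex hz hw ha hb hab

private theorem fac_neg {l : Fin (m + 1) → ℝ} (z : Fin m → ℝ) :
    pt l (len l / 2) (-z) = l - pt l (len l / 2) z := by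
  have h1 : fr l *ᵥ (Fin.cons (len l) 0 : Fin (m + 1) → ℝ) = l := (fr_spec l).2.2
  rw [eq_sub_iff_add_eq, pt, pt, ← mulVec_add]
  conv_rhs => rw [← h1]
  congr 1
  funext i
  refine Fin.cases ?_ (fun j => ?_) i
  · simp only [Fin.cons_zero, Pi.add_apply]
    ring
  · simp only [Fin.cons_succ, Pi.add_apply, Pi.neg_apply, Pi.zero_apply]
    ring

/-- the facet is symmetric: `y ↦ l - y` keeps the points `y` of the cell with
`2 * (y ⬝ᵥ l) = l ⬝ᵥ l` -/
theorem Fc_neg {l : Fin (m + 1) → ℝ} (hl : l ∈ L) (hl0 : l ≠ 0) {z : Fin m → ℝ} (hz : z ∈ Fc L l) :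
    -z ∈ Fc L l := by
  intro l' hl'
  rw [fac_neg, sub_dotProduct]
  have h1 := hz (l - l') (L.sub_mem hl hl')
  have h2 : pt l (len l / 2) z ⬝ᵥ l = l ⬝ᵥ l / 2 := by
    rw [pt_dot_l, ← fac_len]
    ring
  rw [dotProduct_sub, h2] at h1
  have h3 : (l - l') ⬝ᵥ (l - l') = l ⬝ᵥ l - 2 * (l ⬝ᵥ l') + l' ⬝ᵥ l' := by
    rw [sub_dotProduct, dotProduct_sub, dotProduct_sub, dotProduct_comm l' l]
    ring
  rw [h3] at h1
  linarith

theorem Fc_ball (h : Good L μ) {l : Fin (m + 1) → ℝ} (_hl : l ∈ L) (_hl0 : l ≠ 0) {z : Fin m → ℝ}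
    (hz : z ∈ Fc L l) : z ⬝ᵥ z ≤ μ / 2 - l ⬝ᵥ l / 4 := fac_bound h l hz

end Pool.Agent.H99G
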