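import Pool.Agent.H99G.Fra
import Pool.Agent.H99G.Cel
import Pool.Agent.H99G.Fac

set_option autoImplicit false

/-!
# The cone formula
-/

namespace Pool.Agent.H99G

open MeasureTheory Matrix Filter Topology

variable {m : ℕ} {L : AddSubgroup (Fin (m + 1) → ℝ)} {μ : ℝ}

private theorem cfo_pt_smul (l : Fin (m + 1) → ℝ) (s t : ℝ) (z : Fin m → ℝ) :
    pt l (s * t) (s • z) = s • pt l t z := by
  have h : (Fin.cons (s * t) (s • z) : Fin (m + 1) → ℝ) = s • (Fin.cons t z : Fin (m + 1) → ℝ) := by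
    funext i
    refine Fin.cases ?_ (fun j => ?_) i
    · simp
    · simp
  rw [pt, pt, h, mulVec_smul]

private theorem cfo_self (l : Fin (m + 1) → ℝ) : 0 ≤ l ⬝ᵥ l := by
  unfold dotProduct
  exact Finset.sum_nonneg fun i _ => mul_self_nonneg (l i)

private theorem cfo_len_sq (l : Fin (m + 1) → ℝ) : len l * len l = l ⬝ᵥ l :=
  Real.mul_self_sqrt (cfo_self l)

private theorem cfo_len_pos {l : Fin (m + 1) → ℝ} (hl0 : l ≠ 0) : 0 < len l := by
  refine Real.sqrt_pos.2 (lt_of_le_of_ne (cfo_self l) fun h => hl0 ?_)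
  exact dotProduct_self_eq_zero.1 h.symm

private theorem cfo_cont_dot (v : Fin (m + 1) → ℝ) :
    Continuous fun y : Fin (m + 1) → ℝ => y ⬝ᵥ v := by
  unfold dotProduct
  fun_prop

private theorem cfo_meas (l : Fin (m + 1) → ℝ) : MeasurableSet (Cn L l) := by
  have h1 : IsClosed {y : Fin (m + 1) → ℝ |
      ∀ l' ∈ L, l' ≠ 0 → (y ⬝ᵥ l') * (l ⬝ᵥ l) ≤ (y ⬝ᵥ l) * (l' ⬝ᵥ l')} := by
    have h2 : {y : Fin (m + 1) → ℝ |
        ∀ l' ∈ L, l' ≠ 0 → (y ⬝ᵥ l') * (l ⬝ᵥ l) ≤ (y ⬝ᵥ l) * (l' ⬝ᵥ l')} =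
        ⋂ l' ∈ {v : Fin (m + 1) → ℝ | v ∈ L ∧ v ≠ 0},
          {y : Fin (m + 1) → ℝ | (y ⬝ᵥ l') * (l ⬝ᵥ l) ≤ (y ⬝ᵥ l) * (l' ⬝ᵥ l')} := by
      ext y
      simp only [Set.mem_ofPred_eq, Set.mem_iInter]
      exact ⟨fun h l' h' => h l' h'.1 h'.2, fun h l' h1 h2 => h l' ⟨h1, h2⟩⟩
    rw [h2]
    exact isClosed_biInter fun l' _ =>
      isClosed_le ((cfo_cont_dot l').mul continuous_const) ((cfo_cont_dot l).mul continuous_const)
  exact PP_closed.measurableSet.inter
    ((measurableSet_lt measurable_const (cfo_cont_dot l).measurable).inter h1.measurableSet)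

private theorem cfo_sub (l : Fin (m + 1) → ℝ) : Cn L l ⊆ PP L := fun _ hy => hy.1

private theorem cfo_mem {l : Fin (m + 1) → ℝ} (hl : l ∈ L) (hl0 : l ≠ 0) {t : ℝ}
    {z : Fin m → ℝ} :
    pt l t z ∈ Cn L l ↔ t ∈ Set.Ioc (0 : ℝ) (len l / 2) ∧ (t / (len l / 2))⁻¹ • z ∈ Fc L l := by
  have hp := cfo_len_pos hl0
  have hsq := cfo_len_sq l
  have hdot : pt l t z ⬝ᵥ l = t * len l := pt_dot_l l t z
  have hll : 0 < l ⬝ᵥ l := by rw [← hsq]; exact mul_pos hp hp
  -- the point of the facet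
  have key : 0 < t → pt l t z =
      (t / (len l / 2)) • pt l (len l / 2) ((t / (len l / 2))⁻¹ • z) := by
    intro ht
    have h0 : t / (len l / 2) ≠ 0 := by positivity
    rw [← cfo_pt_smul, smul_smul, mul_inv_cancel₀ h0, one_smul, div_mul_cancel₀]
    positivity
  constructor
  · rintro ⟨h1, h2, h3⟩
    rw [hdot] at h2
    have ht : 0 < t := by
      by_contra hc
      exact absurd h2 (not_lt.2 (mul_nonpos_of_nonpos_of_nonneg (not_lt.1 hc) hp.le))
    have h4 := h1 l hl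
    rw [hdot, ← hsq] at h4
    have h5 : t ≤ len l / 2 := by
      have : 2 * t ≤ len l := le_of_mul_le_mul_right (by linarith) hp
      linarith
    refine ⟨⟨ht, h5⟩, ?_⟩
    have hs : 0 < t / (len l / 2) := by positivity
    intro l' hl'
    by_cases h0 : l' = 0
    · rw [h0]
      simp
    · have h6 := h3 l' hl' h0
      rw [hdot, key ht, smul_dotProduct, smul_eq_mul] at h6
      set q := pt l (len l / 2) ((t / (len l / 2))⁻¹ • z) ⬝ᵥ l'
      have h7 : t * len l = t / (len l / 2) * (l ⬝ᵥ l) / 2 := by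
        rw [← hsq]
        field_simp
      rw [h7] at h6
      have h8 : (t / (len l / 2) * (l ⬝ᵥ l)) * (2 * q) ≤
          (t / (len l / 2) * (l ⬝ᵥ l)) * (l' ⬝ᵥ l') := by nlinarith
      exact le_of_mul_le_mul_left h8 (mul_pos hs hll)
  · rintro ⟨⟨ht, h5⟩, h6⟩
    have hs : 0 < t / (len l / 2) := by positivity
    have hs1 : t / (len l / 2) ≤ 1 := by
      rw [div_le_one (by positivity)]
      exact h5
    have h7 : t * len l = t / (len l / 2) * (l ⬝ᵥ l) / 2 := by
      rw [← hsq]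
      field_simp
    refine ⟨fun l' hl' => ?_, ?_, fun l' hl' _ => ?_⟩
    · have h8 := h6 l' hl'
      rw [key ht, smul_dotProduct, smul_eq_mul]
      set q := pt l (len l / 2) ((t / (len l / 2))⁻¹ • z) ⬝ᵥ l'
      have h9 := cfo_self l'
      have h10 : t / (len l / 2) * (2 * q) ≤ t / (len l / 2) * (l' ⬝ᵥ l') :=
        mul_le_mul_of_nonneg_left h8 hs.le
      have h11 : t / (len l / 2) * (l' ⬝ᵥ l') ≤ 1 * (l' ⬝ᵥ l') :=
        mul_le_mul_of_nonneg_right hs1 h9
      linarith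
    · rw [hdot]
      exact mul_pos ht hp
    · have h8 := h6 l' hl'
      rw [hdot, h7, key ht, smul_dotProduct, smul_eq_mul]
      set q := pt l (len l / 2) ((t / (len l / 2))⁻¹ • z) ⬝ᵥ l'
      have h10 : (t / (len l / 2) * (l ⬝ᵥ l)) * (2 * q) ≤
          (t / (len l / 2) * (l ⬝ᵥ l)) * (l' ⬝ᵥ l') :=
        mul_le_mul_of_nonneg_left h8 (mul_pos hs hll).le
      nlinarith

private theorem cfo_inner (h : Good L μ) {l : Fin (m + 1) → ℝ} (hl : l ∈ L) (hl0 : l ≠ 0)
    {d : ℕ} {f : (Fin (m + 1) → ℝ) → ℝ} (hom : ∀ (t : ℝ) y, f (t • y) = t ^ d * f y) (t : ℝ) :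
    ∫ z, (Cn L l).indicator f (pt l t z) =
      (Set.Ioc (0 : ℝ) (len l / 2)).indicator (fun t => (t / (len l / 2)) ^ (m + d) *
        ∫ z in Fc L l, f (pt l (len l / 2) z)) t := by
  have hp := cfo_len_pos hl0
  by_cases ht : t ∈ Set.Ioc (0 : ℝ) (len l / 2)
  · rw [Set.indicator_of_mem ht]
    have hs : 0 < t / (len l / 2) := by have := ht.1; positivity
    have h1 : ∀ z : Fin m → ℝ, (Cn L l).indicator f (pt l t z) =
        (fun w => (Fc L l).indicator
          (fun w => (t / (len l / 2)) ^ d * f (pt l (len l / 2) w)) w)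
          ((t / (len l / 2))⁻¹ • z) := by
      intro z
      by_cases hz : (t / (len l / 2))⁻¹ • z ∈ Fc L l
      · simp only
        rw [Set.indicator_of_mem ((cfo_mem hl hl0).2 ⟨ht, hz⟩), Set.indicator_of_mem hz, ← hom,
          ← cfo_pt_smul, smul_smul, mul_inv_cancel₀ hs.ne', one_smul, div_mul_cancel₀]
        positivity
      · simp only
        rw [Set.indicator_of_notMem fun h' => hz ((cfo_mem hl hl0).1 h').2,
          Set.indicator_of_notMem hz]
    simp only [h1]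
    rw [Measure.integral_comp_smul volume (fun w => (Fc L l).indicator
          (fun w => (t / (len l / 2)) ^ d * f (pt l (len l / 2) w)) w),
      integral_indicator (Fc_compact h l).measurableSet, integral_const_mul]
    have h2 : Module.finrank ℝ (Fin m → ℝ) = m := by simp
    rw [h2, inv_pow, inv_inv, abs_of_pos (pow_pos hs m), smul_eq_mul, pow_add]
    ring
  · rw [Set.indicator_of_notMem ht]
    have h1 : ∀ z : Fin m → ℝ, (Cn L l).indicator f (pt l t z) = 0 := fun z =>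
      Set.indicator_of_notMem (fun h' => ht ((cfo_mem hl hl0).1 h').1) _
    simp only [h1, integral_zero]

/-- the cone formula for a homogeneous function of degree `d` -/
theorem cone_hom (h : Good L μ) {l : Fin (m + 1) → ℝ} (hl : l ∈ L) (hl0 : l ≠ 0) {d : ℕ}
    {f : (Fin (m + 1) → ℝ) → ℝ} (hf : Continuous f) (hom : ∀ (t : ℝ) y, f (t • y) = t ^ d * f y) :
    ∫ y in Cn L l, f y =
      len l / (2 * (m + d + 1)) * ∫ z in Fc L l, f (pt l (len l / 2) z) := by
  have hp := cfo_len_pos hl0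
  have hint : Integrable ((Cn L l).indicator f) :=
    (integrable_indicator_iff (cfo_meas l)).2
      ((hf.continuousOn.integrableOn_compact (PP_compact h)).mono_set (cfo_sub l))
  have h1 : ∫ q : ℝ × (Fin m → ℝ), (Cn L l).indicator f (pt l q.1 q.2) =
      ∫ y, (Cn L l).indicator f y := (pt_mp l).integral_comp (pt_emb l) _
  have h2 : Integrable (fun q : ℝ × (Fin m → ℝ) => (Cn L l).indicator f (pt l q.1 q.2)) :=
    ((pt_mp l).integrable_comp_emb (pt_emb l)).2 hint
  rw [← integral_indicator (cfo_meas l), ← h1, Measure.volume_eq_prod, integral_prod _ h2]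
  simp only [cfo_inner h hl hl0 hom]
  rw [integral_indicator measurableSet_Ioc, integral_mul_const]
  congr 1
  simp only [div_pow]
  rw [integral_div, ← intervalIntegral.integral_of_le (by positivity), integral_pow]
  have h3 : len l / 2 ≠ 0 := by positivity
  have h4 : ((m + d : ℕ) : ℝ) + 1 = m + d + 1 := by push_cast; ring
  rw [h4, zero_pow (by omega), sub_zero, pow_succ]
  have h5 : (m : ℝ) + d + 1 ≠ 0 := by positivity
  field_simp
  rw [← mul_pow, div_mul_cancel₀ _ two_ne_zero]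

theorem cone_formula (h : Good L μ) {l : Fin (m + 1) → ℝ} (hl : l ∈ L) (hl0 : l ≠ 0)
    {f : (Fin (m + 1) → ℝ) → ℝ} (hf : Continuous f) (hom : ∀ (t : ℝ) y, f (t • y) = t ^ 2 * f y) :
    ∫ y in Cn L l, f y = len l / (2 * (m + 3)) * ∫ z in Fc L l, f (pt l (len l / 2) z) := by
  have e : (m : ℝ) + 3 = m + (2 : ℕ) + 1 := by push_cast; ring
  rw [cone_hom h hl hl0 hf hom, e]

end Pool.Agent.H99G
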