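import Pool.Agent.H99G.Defs

set_option autoImplicit false

/-!
# Frames and coordinates
-/

namespace Pool.Agent.H99G

open MeasureTheory Matrix

variable {m : ℕ}

private theorem cons_dot (t s : ℝ) (z w : Fin m → ℝ) :
    (Fin.cons t z : Fin (m + 1) → ℝ) ⬝ᵥ (Fin.cons s w : Fin (m + 1) → ℝ) = t * s + z ⬝ᵥ w := by
  rw [dotProduct, Fin.sum_univ_succ]
  simp [dotProduct]

private theorem len_mul_self (l : Fin (m + 1) → ℝ) : len l * len l = l ⬝ᵥ l :=
  Real.mul_self_sqrt (by rw [dotProduct]; exact Finset.sum_nonneg fun i _ => mul_self_nonneg _)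

/-- the reflection in `v` -/
private theorem refl_mulVec (v x : Fin (m + 1) → ℝ) (c : ℝ) :
    (1 - c • vecMulVec v v) *ᵥ x = x - (c * (v ⬝ᵥ x)) • v := by
  rw [sub_mulVec, one_mulVec, smul_mulVec]
  congr 1
  funext i
  simp only [Pi.smul_apply, smul_eq_mul, mulVec, dotProduct, vecMulVec_apply, Finset.mul_sum,
    Finset.sum_mul]
  refine Finset.sum_congr rfl fun j _ => by ring

private theorem frame_exists (l : Fin (m + 1) → ℝ) :
    ∃ g : Matrix (Fin (m + 1)) (Fin (m + 1)) ℝ, IsFrame l g := by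
  obtain ⟨a, ha⟩ : ∃ a : Fin (m + 1) → ℝ, a = Fin.cons (len l) 0 := ⟨_, rfl⟩
  have haa : a ⬝ᵥ a = l ⬝ᵥ l := by
    rw [ha, cons_dot, len_mul_self]
    simp
  by_cases h : a = l
  · exact ⟨1, by simp, by simp, by rw [← ha, h]; simp⟩
  · obtain ⟨v, hv⟩ : ∃ v : Fin (m + 1) → ℝ, v = a - l := ⟨_, rfl⟩
    have hv0 : v ⬝ᵥ v ≠ 0 := by
      rw [Ne, dotProduct_self_eq_zero, hv]
      exact sub_ne_zero.2 h
    obtain ⟨g, hg⟩ : ∃ g : Matrix (Fin (m + 1)) (Fin (m + 1)) ℝ,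
      g = 1 - (2 / (v ⬝ᵥ v)) • vecMulVec v v := ⟨_, rfl⟩
    have hs : gᵀ = g := by
      rw [hg]
      ext i j
      simp [vecMulVec_apply, Matrix.one_apply, eq_comm, mul_comm]
    have hx : ∀ x, g *ᵥ x = x - (2 / (v ⬝ᵥ v) * (v ⬝ᵥ x)) • v := fun x => by
      rw [hg, refl_mulVec]
    have hgg : g * g = 1 := by
      apply Matrix.toLin'.injective
      ext1 i
      ext1
      rw [LinearMap.comp_apply, LinearMap.comp_apply, Matrix.toLin'_apply, Matrix.toLin'_apply,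
        ← mulVec_mulVec, one_mulVec, hx, hx]
      generalize (LinearMap.single ℝ (fun _ : Fin (m + 1) => ℝ) i) 1 = x
      rw [dotProduct_sub, dotProduct_smul, smul_eq_mul, div_mul_eq_mul_div, div_mul_eq_mul_div,
        sub_sub, ← add_smul]
      have : 2 * (v ⬝ᵥ x) / (v ⬝ᵥ v) + 2 * (v ⬝ᵥ x - 2 * (v ⬝ᵥ x) / (v ⬝ᵥ v) * (v ⬝ᵥ v)) /
          (v ⬝ᵥ v) = 0 := by
        field_simp
        ring
      rw [this, zero_smul, sub_zero]
    refine ⟨g, by rw [hs, hgg], by rw [hs, hgg], ?_⟩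
    rw [← ha, hx]
    have h1 : v ⬝ᵥ v = 2 * (v ⬝ᵥ a) := by
      have e1 : v ⬝ᵥ v = a ⬝ᵥ a - 2 * (a ⬝ᵥ l) + l ⬝ᵥ l := by
        rw [hv, sub_dotProduct, dotProduct_sub, dotProduct_sub, dotProduct_comm l a]
        ring
      have e2 : v ⬝ᵥ a = a ⬝ᵥ a - a ⬝ᵥ l := by
        rw [hv, sub_dotProduct, dotProduct_comm l a]
      rw [e1, e2, ← haa]
      ring
    have h2 : 2 / (v ⬝ᵥ v) * (v ⬝ᵥ a) = 1 := by
      rw [div_mul_eq_mul_div, ← h1, div_self hv0]
    rw [h2, one_smul, hv]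
    abel

theorem fr_spec (l : Fin (m + 1) → ℝ) : IsFrame l (fr l) := by
  have h := frame_exists l
  rw [fr, dif_pos h]
  exact h.choose_spec

private theorem fr_dot (l x y : Fin (m + 1) → ℝ) : (fr l *ᵥ x) ⬝ᵥ (fr l *ᵥ y) = x ⬝ᵥ y := by
  rw [dotProduct_mulVec, ← mulVec_transpose, mulVec_mulVec, (fr_spec l).1, one_mulVec]

theorem pt_dot (l : Fin (m + 1) → ℝ) (t s : ℝ) (z w : Fin m → ℝ) :
    pt l t z ⬝ᵥ pt l s w = t * s + z ⬝ᵥ w := by
  rw [pt, pt, fr_dot, cons_dot]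

theorem pt_dot_l (l : Fin (m + 1) → ℝ) (t : ℝ) (z : Fin m → ℝ) :
    pt l t z ⬝ᵥ l = t * len l := by
  have h := (fr_spec l).2.2
  calc pt l t z ⬝ᵥ l = (fr l *ᵥ (Fin.cons t z : Fin (m + 1) → ℝ)) ⬝ᵥ
        (fr l *ᵥ (Fin.cons (len l) 0 : Fin (m + 1) → ℝ)) := by rw [h, pt]
    _ = t * len l := by rw [fr_dot, cons_dot]; simp

theorem pt_eq {l : Fin (m + 1) → ℝ} (hl : l ≠ 0) (t : ℝ) (z : Fin m → ℝ) :
    pt l t z = (t / len l) • l + pt l 0 z := by
  have h := (fr_spec l).2.2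
  have hlen : len l ≠ 0 := by
    intro h0
    have h1 := len_mul_self l
    rw [h0, zero_mul] at h1
    exact hl (dotProduct_self_eq_zero.1 h1.symm)
  have h2 : (t / len l) • l = fr l *ᵥ (Fin.cons t 0 : Fin (m + 1) → ℝ) := by
    rw [← h, ← mulVec_smul, h]
    congr 1
    funext i
    refine Fin.cases ?_ (fun j => ?_) i
    · simp [div_mul_cancel₀ _ hlen]
    · simp
  rw [h2, pt, pt, ← mulVec_add]
  congr 1
  funext i
  refine Fin.cases ?_ (fun j => ?_) i
  · simp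
  · simp

private theorem fr_det (l : Fin (m + 1) → ℝ) : |(fr l).det| = 1 := by
  have h : (fr l).det * (fr l).det = 1 := by
    have h1 := congrArg Matrix.det (fr_spec l).1
    rwa [det_mul, det_transpose, det_one] at h1
  have h2 : |(fr l).det| ^ 2 = 1 := by rw [sq_abs]; nlinarith
  have h3 : 0 ≤ |(fr l).det| := abs_nonneg _
  nlinarith

private theorem fr_mp (l : Fin (m + 1) → ℝ) :
    MeasurePreserving (Matrix.toLin' (fr l)) volume volume := by
  refine ⟨(LinearMap.continuous_of_finiteDimensional _).measurable, ?_⟩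
  have h0 : (fr l).det ≠ 0 := by
    intro h
    have := fr_det l
    rw [h] at this
    simp at this
  rw [Real.map_matrix_volume_pi_eq_smul_volume_pi h0, abs_inv, fr_det]
  simp

theorem pt_mp (l : Fin (m + 1) → ℝ) :
    MeasurePreserving (fun q : ℝ × (Fin m → ℝ) => pt l q.1 q.2) volume volume := by
  have h1 := (volume_preserving_piFinSuccAbove (fun _ : Fin (m + 1) => ℝ) 0).symm
  have h2 := (fr_mp l).comp h1
  have h3 : (fun q : ℝ × (Fin m → ℝ) => pt l q.1 q.2) =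
      (Matrix.toLin' (fr l)) ∘
        (MeasurableEquiv.piFinSuccAbove (fun _ : Fin (m + 1) => ℝ) 0).symm := by
    funext q
    simp only [Function.comp_apply, pt, Matrix.toLin'_apply]
    congr 1
    simp [MeasurableEquiv.piFinSuccAbove, Fin.insertNthEquiv]
  rw [h3]
  exact h2

theorem pt_cont (l : Fin (m + 1) → ℝ) :
    Continuous (fun q : ℝ × (Fin m → ℝ) => pt l q.1 q.2) := by
  have h3 : (fun q : ℝ × (Fin m → ℝ) => pt l q.1 q.2) =
      fun q : ℝ × (Fin m → ℝ) => Matrix.toLin' (fr l) (Fin.cons q.1 q.2 : Fin (m + 1) → ℝ) := by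
    funext q
    simp only [pt, Matrix.toLin'_apply]
  rw [h3]
  refine (LinearMap.continuous_of_finiteDimensional _).comp ?_
  refine continuous_pi fun i => ?_
  refine Fin.cases ?_ (fun j => ?_) i
  · simpa using continuous_fst
  · change Continuous fun q : ℝ × (Fin m → ℝ) => q.2 j
    exact (continuous_apply j).comp continuous_snd

theorem pt_emb (l : Fin (m + 1) → ℝ) :
    MeasurableEmbedding (fun q : ℝ × (Fin m → ℝ) => pt l q.1 q.2) := by
  refine (pt_cont l).measurableEmbedding ?_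
  rintro ⟨t, z⟩ ⟨t', z'⟩ h
  have h1 : (fr l)ᵀ *ᵥ (pt l t z) = (fr l)ᵀ *ᵥ (pt l t' z') := congrArg _ h
  rw [pt, pt, mulVec_mulVec, mulVec_mulVec, (fr_spec l).1, one_mulVec, one_mulVec] at h1
  have h2 := Fin.cons_injective2 h1
  exact Prod.ext h2.1 h2.2

end Pool.Agent.H99G
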