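import Pool.Agent.H99G.Defs
import Pool.Agent.H99G.Fra
import Pool.Agent.H99G.Cel
import Pool.Agent.H99G.Fac
import Pool.Agent.H99G.Cfo

set_option autoImplicit false

namespace Pool.Agent.H99G

open MeasureTheory Matrix Filter Topology

variable {m : ℕ} {L : AddSubgroup (Fin (m + 1) → ℝ)} {μ : ℝ}

/-! ### orthogonal matrices -/

private theorem q_dot {g : Matrix (Fin (m + 1)) (Fin (m + 1)) ℝ} (hg : gᵀ * g = 1)
    (x y : Fin (m + 1) → ℝ) : (g *ᵥ x) ⬝ᵥ (g *ᵥ y) = x ⬝ᵥ y := by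
  rw [Matrix.dotProduct_mulVec, ← Matrix.mulVec_transpose, Matrix.mulVec_mulVec, hg,
    Matrix.one_mulVec]

private theorem q_inv {g : Matrix (Fin (m + 1)) (Fin (m + 1)) ℝ} (hg : gᵀ * g = 1)
    (x : Fin (m + 1) → ℝ) : gᵀ *ᵥ (g *ᵥ x) = x := by
  rw [Matrix.mulVec_mulVec, hg, Matrix.one_mulVec]

private theorem q_inv' {g : Matrix (Fin (m + 1)) (Fin (m + 1)) ℝ} (hg : g * gᵀ = 1)
    (x : Fin (m + 1) → ℝ) : g *ᵥ (gᵀ *ᵥ x) = x := by
  rw [Matrix.mulVec_mulVec, hg, Matrix.one_mulVec]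

private theorem q_memT {g : Matrix (Fin (m + 1)) (Fin (m + 1)) ℝ} (hg : IsAut L g)
    {x : Fin (m + 1) → ℝ} : gᵀ *ᵥ x ∈ L ↔ x ∈ L := by
  rw [← hg.2.2 (gᵀ *ᵥ x), q_inv' hg.2.1]

private theorem q_len {g : Matrix (Fin (m + 1)) (Fin (m + 1)) ℝ} (hg : gᵀ * g = 1)
    (x : Fin (m + 1) → ℝ) : len (g *ᵥ x) = len x := by
  unfold len; rw [q_dot hg]

private theorem q_mp {g : Matrix (Fin (m + 1)) (Fin (m + 1)) ℝ} (hg : gᵀ * g = 1) :
    MeasurePreserving (fun y : Fin (m + 1) → ℝ => g *ᵥ y) volume volume := by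
  have hdet : g.det ^ 2 = 1 := by
    have := congrArg Matrix.det hg
    rw [Matrix.det_mul, Matrix.det_transpose, Matrix.det_one] at this
    rw [sq]; exact this
  have habs : |g.det| = 1 := by
    have h1 : |g.det| ^ 2 = 1 := by rw [sq_abs]; exact hdet
    have h2 := abs_nonneg g.det
    nlinarith
  have hne : g.det ≠ 0 := by
    intro h; rw [h] at hdet; norm_num at hdet
  refine ⟨(Continuous.matrix_mulVec continuous_const continuous_id).measurable, ?_⟩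
  have := Real.map_matrix_volume_pi_eq_smul_volume_pi hne
  have h3 : (⇑(Matrix.toLin' g)) = fun y : Fin (m + 1) → ℝ => g *ᵥ y := by
    funext y; exact Matrix.toLin'_apply g y
  rw [h3] at this
  rw [this, abs_inv, habs]
  simp

private theorem q_emb {g : Matrix (Fin (m + 1)) (Fin (m + 1)) ℝ} (hg : gᵀ * g = 1)
    (hg' : g * gᵀ = 1) : MeasurableEmbedding (fun y : Fin (m + 1) → ℝ => g *ᵥ y) := by
  have hc : ∀ g : Matrix (Fin (m + 1)) (Fin (m + 1)) ℝ,
      Continuous (fun y : Fin (m + 1) → ℝ => g *ᵥ y) := fun g =>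
    Continuous.matrix_mulVec continuous_const continuous_id
  let e : (Fin (m + 1) → ℝ) ≃ₜ (Fin (m + 1) → ℝ) :=
    { toFun := fun y => g *ᵥ y
      invFun := fun y => gᵀ *ᵥ y
      left_inv := q_inv hg
      right_inv := q_inv' hg'
      continuous_toFun := hc g
      continuous_invFun := hc gᵀ }
  exact e.measurableEmbedding

private theorem q_PP {g : Matrix (Fin (m + 1)) (Fin (m + 1)) ℝ} (hg : IsAut L g)
    (y : Fin (m + 1) → ℝ) : g *ᵥ y ∈ PP L ↔ y ∈ PP L := by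
  constructor
  · intro h l hl
    have := h (g *ᵥ l) ((hg.2.2 l).2 hl)
    rwa [q_dot hg.1, q_dot hg.1] at this
  · intro h l hl
    have := h (gᵀ *ᵥ l) ((q_memT hg).2 hl)
    rw [← q_dot hg.1, ← q_dot hg.1 (gᵀ *ᵥ l), q_inv' hg.2.1] at this
    exact this

private theorem q_Cn {g : Matrix (Fin (m + 1)) (Fin (m + 1)) ℝ} (hg : IsAut L g)
    (l : Fin (m + 1) → ℝ) :
    (fun y : Fin (m + 1) → ℝ => g *ᵥ y) ⁻¹' (Cn L (g *ᵥ l)) = Cn L l := by
  ext y
  simp only [Set.mem_preimage, Cn, Set.mem_ofPred_eq]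
  rw [q_PP hg, q_dot hg.1, q_dot hg.1]
  refine and_congr Iff.rfl (and_congr Iff.rfl ⟨?_, ?_⟩)
  · intro h l' hl' h0
    have := h (g *ᵥ l') ((hg.2.2 l').2 hl') (by
      intro h1; apply h0; rw [← q_inv hg.1 l', h1, Matrix.mulVec_zero])
    rwa [q_dot hg.1, q_dot hg.1] at this
  · intro h l' hl' h0
    have := h (gᵀ *ᵥ l') ((q_memT hg).2 hl') (by
      intro h1; apply h0; rw [← q_inv' hg.2.1 l', h1, Matrix.mulVec_zero])
    rw [← q_dot hg.1 y (gᵀ *ᵥ l'), ← q_dot hg.1 (gᵀ *ᵥ l') (gᵀ *ᵥ l'), q_inv' hg.2.1] at this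
    exact this

/-! ### the auxiliary function -/

private noncomputable def qf (l v : Fin (m + 1) → ℝ) (y : Fin (m + 1) → ℝ) : ℝ :=
  ((y - (y ⬝ᵥ l / l ⬝ᵥ l) • l) ⬝ᵥ v) ^ 2

private theorem qf_cont (l v : Fin (m + 1) → ℝ) : Continuous (qf l v) := by
  unfold qf
  refine Continuous.pow ?_ 2
  refine Continuous.dotProduct ?_ continuous_const
  have h1 : Continuous fun y : Fin (m + 1) → ℝ => y ⬝ᵥ l / l ⬝ᵥ l :=
    (Continuous.dotProduct continuous_id continuous_const).div_const _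
  have h2 : Continuous fun y : Fin (m + 1) → ℝ => (y ⬝ᵥ l / l ⬝ᵥ l) • l :=
    h1.smul continuous_const
  exact continuous_id.sub h2

private theorem qf_hom (l v : Fin (m + 1) → ℝ) (t : ℝ) (y : Fin (m + 1) → ℝ) :
    qf l v (t • y) = t ^ 2 * qf l v y := by
  unfold qf
  have h : t • y - (t • y ⬝ᵥ l / l ⬝ᵥ l) • l = t • (y - (y ⬝ᵥ l / l ⬝ᵥ l) • l) := by
    rw [smul_sub, smul_smul, smul_dotProduct, smul_eq_mul, mul_div_assoc]
  rw [h, smul_dotProduct, smul_eq_mul, mul_pow]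

private theorem qf_pt {l : Fin (m + 1) → ℝ} (hl0 : l ≠ 0) (v : Fin (m + 1) → ℝ)
    (z : Fin m → ℝ) : qf l v (pt l (len l / 2) z) = (pt l 0 z ⬝ᵥ v) ^ 2 := by
  have hll : 0 < l ⬝ᵥ l := by
    rcases lt_or_eq_of_le (show (0:ℝ) ≤ l ⬝ᵥ l from
      Finset.sum_nonneg fun i _ => mul_self_nonneg _) with h | h
    · exact h
    · exact absurd (dotProduct_self_eq_zero.1 h.symm) hl0
  have hlen : 0 < len l := Real.sqrt_pos.2 hll
  have hsq : len l * len l = l ⬝ᵥ l := Real.mul_self_sqrt hll.le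
  unfold qf
  rw [pt_dot_l]
  have h1 : len l / 2 * len l / (l ⬝ᵥ l) = len l / 2 / len l := by
    rw [← hsq]; field_simp
  rw [h1, pt_eq hl0 (len l / 2) z, add_sub_cancel_left]

private theorem qF_eq (h : Good L μ) {l : Fin (m + 1) → ℝ} (hl : l ∈ L) (hl0 : l ≠ 0)
    (v : Fin (m + 1) → ℝ) :
    qF L l v = 2 * (m + 3) / len l * ∫ y in Cn L l, qf l v y := by
  have hll : 0 < l ⬝ᵥ l := by
    rcases lt_or_eq_of_le (show (0:ℝ) ≤ l ⬝ᵥ l from
      Finset.sum_nonneg fun i _ => mul_self_nonneg _) with h | h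
    · exact h
    · exact absurd (dotProduct_self_eq_zero.1 h.symm) hl0
  have hlen : 0 < len l := Real.sqrt_pos.2 hll
  rw [cone_formula h hl hl0 (qf_cont l v) (qf_hom l v)]
  have h1 : (∫ z in Fc L l, qf l v (pt l (len l / 2) z)) = qF L l v := by
    unfold qF
    congr 1
    funext z
    exact qf_pt hl0 v z
  rw [h1]
  have hm3 : (m : ℝ) + 3 ≠ 0 := by positivity
  field_simp

/-- symmetric under the automorphisms; through `cone_formula` with
`f y = ((y - (y ⬝ᵥ l / l ⬝ᵥ l) • l) ⬝ᵥ v) ^ 2` -/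
theorem qF_aut (h : Good L μ) {g : Matrix (Fin (m + 1)) (Fin (m + 1)) ℝ} (hg : IsAut L g)
    {l : Fin (m + 1) → ℝ} (hl : l ∈ L) (hl0 : l ≠ 0) (v : Fin (m + 1) → ℝ) :
    qF L (g *ᵥ l) (g *ᵥ v) = qF L l v := by
  have hgl0 : g *ᵥ l ≠ 0 := by
    intro h1; apply hl0; rw [← q_inv hg.1 l, h1, Matrix.mulVec_zero]
  rw [qF_eq h hl hl0, qF_eq h ((hg.2.2 l).2 hl) hgl0, q_len hg.1]
  congr 1
  rw [← (q_mp hg.1).setIntegral_preimage_emb (q_emb hg.1 hg.2.1), q_Cn hg]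
  congr 1
  funext y
  unfold qf
  rw [q_dot hg.1, q_dot hg.1, ← Matrix.mulVec_smul, ← Matrix.mulVec_sub, q_dot hg.1]

theorem QQ_aut (h : Good L μ) {g : Matrix (Fin (m + 1)) (Fin (m + 1)) ℝ} (hg : IsAut L g)
    (B : Matrix (Fin (m + 1)) (Fin (m + 1)) ℝ) : QQ L μ (g * B * gᵀ) = QQ L μ B := by
  unfold QQ
  refine Finset.sum_bij' (fun l _ => gᵀ *ᵥ l) (fun l _ => g *ᵥ l) ?_ ?_ ?_ ?_ ?_
  · intro l hl
    rw [mem_Lam h] at hl ⊢
    refine ⟨(q_memT hg).2 hl.1, ?_, ?_⟩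
    · intro h1; apply hl.2.1; rw [← q_inv' hg.2.1 l, h1, Matrix.mulVec_zero]
    · rw [← q_dot hg.1, q_inv' hg.2.1]; exact hl.2.2
  · intro l hl
    rw [mem_Lam h] at hl ⊢
    refine ⟨(hg.2.2 l).2 hl.1, ?_, ?_⟩
    · intro h1; apply hl.2.1; rw [← q_inv hg.1 l, h1, Matrix.mulVec_zero]
    · rw [q_dot hg.1]; exact hl.2.2
  · intro l _; exact q_inv' hg.2.1 l
  · intro l _; exact q_inv hg.1 l
  · intro l hl
    rw [mem_Lam h] at hl
    have hl0 : gᵀ *ᵥ l ≠ 0 := by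
      intro h1; apply hl.2.1; rw [← q_inv' hg.2.1 l, h1, Matrix.mulVec_zero]
    have h1 := qF_aut h hg ((q_memT hg).2 hl.1) hl0 (B *ᵥ (gᵀ *ᵥ l))
    rw [q_inv' hg.2.1] at h1
    have h2 : (g * B * gᵀ) *ᵥ l = g *ᵥ (B *ᵥ (gᵀ *ᵥ l)) := by
      rw [Matrix.mulVec_mulVec, Matrix.mulVec_mulVec, Matrix.mul_assoc]
    rw [h2, h1]
    have h3 : len l = len (gᵀ *ᵥ l) := by
      rw [← q_len hg.1 (gᵀ *ᵥ l), q_inv' hg.2.1]
    rw [h3]

/-! ### the quadratic form -/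

private theorem q_int (h : Good L μ) (l : Fin (m + 1) → ℝ) {f : (Fin m → ℝ) → ℝ}
    (hf : Continuous f) : IntegrableOn f (Fc L l) :=
  hf.continuousOn.integrableOn_compact (Fc_compact h l)

private theorem q_pc (l : Fin (m + 1) → ℝ) : Continuous (fun z : Fin m → ℝ => pt l 0 z) :=
  (pt_cont l).comp (Continuous.prodMk continuous_const continuous_id)

private theorem qF_par (h : Good L μ) (l v w : Fin (m + 1) → ℝ) :
    qF L l (v + w) + qF L l (v - w) = 2 * qF L l v + 2 * qF L l w := by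
  have hc : ∀ v : Fin (m + 1) → ℝ, IntegrableOn (fun z => (pt l 0 z ⬝ᵥ v) ^ 2) (Fc L l) :=
    fun v => q_int h l ((Continuous.dotProduct (q_pc l) continuous_const).pow 2)
  unfold qF
  rw [← integral_const_mul, ← integral_const_mul, ← integral_add (hc _) (hc _),
    ← integral_add ((hc v).const_mul 2) ((hc w).const_mul 2)]
  congr 1
  funext z
  rw [dotProduct_add, dotProduct_sub]
  ring

theorem QQ_par (h : Good L μ) (B C : Matrix (Fin (m + 1)) (Fin (m + 1)) ℝ) :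
    QQ L μ (B + C) + QQ L μ (B - C) = 2 * QQ L μ B + 2 * QQ L μ C := by
  unfold QQ
  rw [← Finset.sum_add_distrib, Finset.mul_sum, Finset.mul_sum, ← Finset.sum_add_distrib]
  refine Finset.sum_congr rfl fun l _ => ?_
  rw [Matrix.add_mulVec, Matrix.sub_mulVec, ← mul_add, qF_par h]
  ring

theorem QQ_hom (c : ℝ) (B : Matrix (Fin (m + 1)) (Fin (m + 1)) ℝ) :
    QQ L μ (c • B) = c ^ 2 * QQ L μ B := by
  unfold QQ
  rw [Finset.mul_sum]
  refine Finset.sum_congr rfl fun l _ => ?_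
  have h1 : qF L l ((c • B) *ᵥ l) = c ^ 2 * qF L l (B *ᵥ l) := by
    unfold qF
    rw [← integral_const_mul]
    congr 1
    funext z
    rw [Matrix.smul_mulVec, dotProduct_smul, smul_eq_mul, mul_pow]
  rw [h1]
  ring

private theorem qF_poly (h : Good L μ) (l v : Fin (m + 1) → ℝ) :
    qF L l v = ∑ i, ∑ j, v i * v j * ∫ z in Fc L l, pt l 0 z i * pt l 0 z j := by
  have hi : ∀ i, Continuous (fun z : Fin m → ℝ => pt l 0 z i) := fun i =>
    (continuous_apply i).comp (q_pc l)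
  have hc : ∀ i j, IntegrableOn (fun z => v i * v j * (pt l 0 z i * pt l 0 z j)) (Fc L l) :=
    fun i j => q_int h l (((hi i).mul (hi j)).const_mul _)
  simp_rw [← integral_const_mul]
  have h1 : ∀ i, (∑ j, ∫ z in Fc L l, v i * v j * (pt l 0 z i * pt l 0 z j)) =
      ∫ z in Fc L l, ∑ j, v i * v j * (pt l 0 z i * pt l 0 z j) := fun i =>
    (integral_finsetSum _ fun j _ => hc i j).symm
  simp_rw [h1]
  rw [← integral_finsetSum _ fun i _ => integrable_finsetSum _ fun j _ => hc i j]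
  unfold qF
  congr 1
  funext z
  rw [dotProduct, sq, Finset.sum_mul_sum]
  refine Finset.sum_congr rfl fun i _ => Finset.sum_congr rfl fun j _ => ?_
  ring

theorem QQ_cont (h : Good L μ) : Continuous (QQ L μ) := by
  unfold QQ
  refine continuous_finsetSum _ fun l _ => ?_
  refine Continuous.mul continuous_const ?_
  have h1 : (fun B : Matrix (Fin (m + 1)) (Fin (m + 1)) ℝ => qF L l (B *ᵥ l)) = fun B =>
      ∑ i, ∑ j, (B *ᵥ l) i * (B *ᵥ l) j * ∫ z in Fc L l, pt l 0 z i * pt l 0 z j := by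
    funext B; exact qF_poly h l _
  rw [h1]
  have h2 : Continuous fun B : Matrix (Fin (m + 1)) (Fin (m + 1)) ℝ => B *ᵥ l :=
    Continuous.matrix_mulVec continuous_id continuous_const
  refine continuous_finsetSum _ fun i _ => continuous_finsetSum _ fun j _ => ?_
  exact (((continuous_apply i).comp h2).mul ((continuous_apply j).comp h2)).mul continuous_const

end Pool.Agent.H99G
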