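import Pool.Agent.H99G.V1
import Pool.Agent.H99G.Qin

set_option autoImplicit false

/-!
# The loss form of `D5*` is bounded by two numbers
-/

namespace Pool.Agent.H99G

open MeasureTheory Matrix

private theorem sgn_aut (p : Fin (4 + 1)) :
    IsAut D5s (Matrix.diagonal fun i => if i = p then (-1 : ℝ) else 1) := by
  have h1 : (Matrix.diagonal fun i : Fin (4 + 1) => if i = p then (-1 : ℝ) else 1)ᵀ =
      Matrix.diagonal fun i => if i = p then (-1 : ℝ) else 1 := Matrix.diagonal_transpose _
  have h2 : (Matrix.diagonal fun i : Fin (4 + 1) => if i = p then (-1 : ℝ) else 1) *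
      (Matrix.diagonal fun i => if i = p then (-1 : ℝ) else 1) = 1 := by
    rw [Matrix.diagonal_mul_diagonal, ← Matrix.diagonal_one]
    congr 1
    funext i
    split_ifs <;> norm_num
  have h3 : ∀ x ∈ D5s,
      (Matrix.diagonal fun i : Fin (4 + 1) => if i = p then (-1 : ℝ) else 1) *ᵥ x ∈ D5s := by
    rintro y ⟨k, hk, rfl⟩
    refine ⟨fun i => if i = p then -k i else k i, ?_, ?_⟩
    · have h0 : ∀ i, (if i = p then -k i else k i) % 2 = k i % 2 := by
        intro i
        split_ifs
        · omega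
        · rfl
      intro i
      show (if i = p then -k i else k i) % 2 = (if 0 = p then -k 0 else k 0) % 2
      rw [h0 i, h0 0, hk i]
    · funext i
      rw [Matrix.mulVec_diagonal]
      by_cases hi : i = p
      · simp only [if_pos hi]
        push_cast
        ring
      · simp only [if_neg hi]
        ring
  refine ⟨by rw [h1, h2], by rw [h1, h2], fun x => ⟨fun h => ?_, h3 x⟩⟩
  have h4 := h3 _ h
  rwa [mulVec_mulVec, h2, one_mulVec] at h4

private theorem swap_aut (p q : Fin (4 + 1)) : IsAut D5s ((Equiv.swap p q).permMatrix ℝ) := by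
  have h1 : ((Equiv.swap p q).permMatrix ℝ)ᵀ = (Equiv.swap p q).permMatrix ℝ := by
    rw [Matrix.transpose_permMatrix, Equiv.swap_inv]
  have h2 : (Equiv.swap p q).permMatrix ℝ * (Equiv.swap p q).permMatrix ℝ = 1 := by
    rw [← Matrix.permMatrix_mul, Equiv.swap_mul_self, Matrix.permMatrix_one]
  have h3 : ∀ x ∈ D5s, (Equiv.swap p q).permMatrix ℝ *ᵥ x ∈ D5s := by
    rintro y ⟨k, hk, rfl⟩
    refine ⟨k ∘ Equiv.swap p q, fun i => ?_, ?_⟩
    · show k _ % 2 = k _ % 2
      rw [hk (Equiv.swap p q i), hk (Equiv.swap p q 0)]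
    · rw [Matrix.permMatrix_mulVec]
      rfl
  refine ⟨by rw [h1, h2], by rw [h1, h2], fun x => ⟨fun h => ?_, h3 x⟩⟩
  have h4 := h3 _ h
  rwa [mulVec_mulVec, h2, one_mulVec] at h4


/-! ### the bilinear form -/

private theorem q5_int (l : Fin (4 + 1) → ℝ) {f : (Fin 4 → ℝ) → ℝ} (hf : Continuous f) :
    IntegrableOn f (Fc D5s l) :=
  hf.continuousOn.integrableOn_compact (Fc_compact D5s_good l)

private theorem q5_pc (l : Fin (4 + 1) → ℝ) : Continuous (fun z : Fin 4 → ℝ => pt l 0 z) :=
  (pt_cont l).comp (Continuous.prodMk continuous_const continuous_id)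

private noncomputable def bf (l v w : Fin (4 + 1) → ℝ) : ℝ :=
  ∫ z in Fc D5s l, (pt l 0 z ⬝ᵥ v) * (pt l 0 z ⬝ᵥ w)

private theorem q5_c2 (l v w : Fin (4 + 1) → ℝ) :
    IntegrableOn (fun z : Fin 4 → ℝ => (pt l 0 z ⬝ᵥ v) * (pt l 0 z ⬝ᵥ w)) (Fc D5s l) :=
  q5_int l ((Continuous.dotProduct (q5_pc l) continuous_const).mul
    (Continuous.dotProduct (q5_pc l) continuous_const))

private theorem bf_add (l v v' w : Fin (4 + 1) → ℝ) : bf l (v + v') w = bf l v w + bf l v' w := by
  unfold bf
  rw [← integral_add (q5_c2 l v w) (q5_c2 l v' w)]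
  congr 1
  funext z
  rw [dotProduct_add]
  ring

private theorem bf_smul (l : Fin (4 + 1) → ℝ) (c : ℝ) (v w : Fin (4 + 1) → ℝ) :
    bf l (c • v) w = c * bf l v w := by
  unfold bf
  rw [← integral_const_mul]
  congr 1
  funext z
  rw [dotProduct_smul, smul_eq_mul]
  ring

private theorem bf_comm (l v w : Fin (4 + 1) → ℝ) : bf l v w = bf l w v := by
  unfold bf
  congr 1
  funext z
  ring

private abbrev M5 : Type := Matrix (Fin (4 + 1)) (Fin (4 + 1)) ℝ

private noncomputable def bb (B C : M5) : ℝ :=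
  ∑ l ∈ Lam D5s (9 / 8), 1 / (2 * len l) * bf l (B *ᵥ l) (C *ᵥ l)

private theorem bb_add (B B' C : M5) : bb (B + B') C = bb B C + bb B' C := by
  unfold bb
  rw [← Finset.sum_add_distrib]
  refine Finset.sum_congr rfl fun l _ => ?_
  rw [Matrix.add_mulVec, bf_add, mul_add]

private theorem bb_smul (c : ℝ) (B C : M5) : bb (c • B) C = c * bb B C := by
  unfold bb
  rw [Finset.mul_sum]
  refine Finset.sum_congr rfl fun l _ => ?_
  rw [Matrix.smul_mulVec, bf_smul]
  ring

private theorem bb_comm (B C : M5) : bb B C = bb C B := by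
  unfold bb
  refine Finset.sum_congr rfl fun l _ => ?_
  rw [bf_comm]

private theorem bb_self (B : M5) : bb B B = QQ D5s (9 / 8) B := by
  unfold bb QQ bf qF
  refine Finset.sum_congr rfl fun l _ => ?_
  congr 1
  congr 1
  funext z
  ring

private theorem bb_one (C : M5) : bb 1 C = 0 := by
  unfold bb bf
  refine Finset.sum_eq_zero fun l _ => ?_
  simp [Matrix.one_mulVec, pt_dot_l]

private theorem bb_nonneg (B : M5) : 0 ≤ bb B B := by
  unfold bb bf
  refine Finset.sum_nonneg fun l _ => ?_
  refine mul_nonneg ?_ (integral_nonneg fun z => mul_self_nonneg _)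
  exact div_nonneg zero_le_one (mul_nonneg zero_le_two (Real.sqrt_nonneg _))

private noncomputable def BB : M5 →ₗ[ℝ] M5 →ₗ[ℝ] ℝ :=
  LinearMap.mk₂ ℝ bb bb_add (fun c B C => bb_smul c B C)
    (fun B C C' => by rw [bb_comm, bb_add, bb_comm C, bb_comm C'])
    (fun c B C => by rw [bb_comm, bb_smul, bb_comm C, smul_eq_mul])

private theorem BB_apply (B C : M5) : BB B C = bb B C := rfl

private theorem bb_polar (B C : M5) :
    2 * bb B C = QQ D5s (9 / 8) (B + C) - QQ D5s (9 / 8) B - QQ D5s (9 / 8) C := by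
  rw [← bb_self, ← bb_self, ← bb_self, bb_add, bb_comm B (B + C), bb_comm C (B + C), bb_add,
    bb_add, bb_comm C B]
  ring

private theorem bb_aut {g : M5} (hg : IsAut D5s g) (B C : M5) :
    bb (g * B * gᵀ) (g * C * gᵀ) = bb B C := by
  have h1 := bb_polar (g * B * gᵀ) (g * C * gᵀ)
  have h2 : g * B * gᵀ + g * C * gᵀ = g * (B + C) * gᵀ := by
    rw [mul_add, add_mul]
  rw [h2, QQ_aut D5s_good hg, QQ_aut D5s_good hg, QQ_aut D5s_good hg, ← bb_polar] at h1
  linarith

/-! ### the symmetries -/

private theorem Eo_apply (k l i j : Fin (4 + 1)) :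
    Eo k l i j = (if k = i ∧ l = j then 1 else 0) + (if l = i ∧ k = j then 1 else 0) := by
  simp [Eo, Matrix.single_apply]

private theorem Eo_sgn (p k l : Fin (4 + 1)) :
    (Matrix.diagonal fun i => if i = p then (-1 : ℝ) else 1) * Eo k l *
      (Matrix.diagonal fun i => if i = p then (-1 : ℝ) else 1)ᵀ =
      ((if k = p then (-1 : ℝ) else 1) * (if l = p then (-1 : ℝ) else 1)) • Eo k l := by
  ext i j
  rw [Matrix.diagonal_transpose, Matrix.mul_diagonal, Matrix.diagonal_mul, Matrix.smul_apply,
    Eo_apply, smul_eq_mul]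
  by_cases h1 : k = i ∧ l = j
  · obtain ⟨rfl, rfl⟩ := h1
    ring
  · by_cases h2 : l = i ∧ k = j
    · obtain ⟨rfl, rfl⟩ := h2
      ring
    · rw [if_neg h1, if_neg h2]
      ring

private theorem Eo_swap (p q k l : Fin (4 + 1)) :
    (Equiv.swap p q).permMatrix ℝ * Eo k l * ((Equiv.swap p q).permMatrix ℝ)ᵀ =
      Eo (Equiv.swap p q k) (Equiv.swap p q l) := by
  have h1 : ((Equiv.swap p q).permMatrix ℝ)ᵀ = (Equiv.swap p q).permMatrix ℝ := by
    rw [Matrix.transpose_permMatrix, Equiv.swap_inv]
  rw [h1]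
  ext i j
  have h2 : ((Equiv.swap p q).permMatrix ℝ * Eo k l * (Equiv.swap p q).permMatrix ℝ) i j =
      Eo k l (Equiv.swap p q i) (Equiv.swap p q j) := by
    rw [Equiv.Perm.permMatrix, PEquiv.toMatrix_toPEquiv_mul, PEquiv.mul_toMatrix_toPEquiv,
      Matrix.submatrix_apply, Matrix.submatrix_apply, Equiv.symm_swap]
    rfl
  rw [h2, Eo_apply, Eo_apply]
  have h3 : ∀ a b : Fin (4 + 1), a = Equiv.swap p q b ↔ Equiv.swap p q a = b := by
    intro a b
    rw [Equiv.swap_apply_eq_iff]
  simp only [h3]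

private theorem Eo_comm (i j : Fin (4 + 1)) : Eo i j = Eo j i := add_comm _ _

private theorem bb_off {i j k l : Fin (4 + 1)} (hij : i ≠ j) (h1 : ¬ (i = k ∧ j = l))
    (h2 : ¬ (i = l ∧ j = k)) : bb (Eo i j) (Eo k l) = 0 := by
  have key : ∀ p, (if i = p then (-1 : ℝ) else 1) * (if j = p then (-1 : ℝ) else 1) *
      ((if k = p then (-1 : ℝ) else 1) * (if l = p then (-1 : ℝ) else 1)) = -1 →
      bb (Eo i j) (Eo k l) = 0 := by
    intro p hp
    have h3 := bb_aut (sgn_aut p) (Eo i j) (Eo k l)
    rw [Eo_sgn, Eo_sgn, bb_smul, bb_comm, bb_smul, bb_comm (Eo k l)] at h3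
    have h4 : ((if i = p then (-1 : ℝ) else 1) * (if j = p then (-1 : ℝ) else 1)) *
        (((if k = p then (-1 : ℝ) else 1) * (if l = p then (-1 : ℝ) else 1)) *
          bb (Eo i j) (Eo k l)) = -bb (Eo i j) (Eo k l) := by
      rw [← mul_assoc, hp]
      ring
    rw [h4] at h3
    linarith
  by_cases hk : k = l
  · subst hk
    refine key i ?_
    rw [if_pos rfl, if_neg (Ne.symm hij)]
    split_ifs <;> norm_num
  · by_cases hik : i = k
    · subst hik
      have hjl : j ≠ l := fun h => h1 ⟨rfl, h⟩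
      refine key j ?_
      rw [if_neg hij, if_pos rfl, if_neg (Ne.symm hjl)]
      norm_num
    · by_cases hil : i = l
      · subst hil
        have hjk : j ≠ k := fun h => h2 ⟨rfl, h⟩
        refine key j ?_
        rw [if_neg hij, if_pos rfl, if_neg (Ne.symm hjk)]
        norm_num
      · refine key i ?_
        rw [if_pos rfl, if_neg (Ne.symm hij), if_neg (fun h => hik h.symm),
          if_neg (fun h => hil h.symm)]
        norm_num

private theorem two_trans {i j : Fin (4 + 1)} (hij : i ≠ j) : ∃ p q p' q' : Fin (4 + 1),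
    Equiv.swap p q (Equiv.swap p' q' i) = 0 ∧ Equiv.swap p q (Equiv.swap p' q' j) = 1 := by
  revert i j
  decide

private theorem bb_move {i j i' j' : Fin (4 + 1)} (p q p' q' : Fin (4 + 1)) :
    bb (Eo (Equiv.swap p q (Equiv.swap p' q' i)) (Equiv.swap p q (Equiv.swap p' q' j)))
      (Eo (Equiv.swap p q (Equiv.swap p' q' i')) (Equiv.swap p q (Equiv.swap p' q' j'))) =
    bb (Eo i j) (Eo i' j') := by
  have h1 := bb_aut (swap_aut p' q') (Eo i j) (Eo i' j')
  rw [Eo_swap, Eo_swap] at h1
  have h2 := bb_aut (swap_aut p q) (Eo (Equiv.swap p' q' i) (Equiv.swap p' q' j))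
    (Eo (Equiv.swap p' q' i') (Equiv.swap p' q' j'))
  rw [Eo_swap, Eo_swap] at h2
  exact h2.trans h1

private theorem bb_offd {i j : Fin (4 + 1)} (hij : i ≠ j) :
    bb (Eo i j) (Eo i j) = bb (Eo 0 1) (Eo 0 1) := by
  obtain ⟨p, q, p', q', h1, h2⟩ := two_trans hij
  rw [← bb_move p q p' q', h1, h2]

private theorem bb_d (i : Fin (4 + 1)) : bb (Eo i i) (Eo i i) = bb (Eo 0 0) (Eo 0 0) := by
  have h : bb (Eo (Equiv.swap i 0 i) (Equiv.swap i 0 i)) (Eo (Equiv.swap i 0 i)
      (Equiv.swap i 0 i)) = bb (Eo i i) (Eo i i) := by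
    rw [← bb_aut (swap_aut i 0) (Eo i i)]
    simp only [Eo_swap]
  rw [← h, Equiv.swap_apply_left]

private theorem bb_dd {i j : Fin (4 + 1)} (hij : i ≠ j) :
    bb (Eo i i) (Eo j j) = bb (Eo 0 0) (Eo 1 1) := by
  obtain ⟨p, q, p', q', h1, h2⟩ := two_trans hij
  rw [← bb_move p q p' q', h1, h2]

private theorem one_eq : (1 : M5) = (1 / 2 : ℝ) • ∑ i, Eo i i := by
  ext a b
  rw [Matrix.smul_apply, Matrix.sum_apply]
  by_cases hab : a = b
  · subst hab
    have h1 : ∀ i, Eo i i a a = if i = a then 2 else 0 := by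
      intro i
      rw [Eo_apply]
      by_cases h : i = a
      · simp [h]
        norm_num
      · simp [h]
    simp [h1]
  · have h1 : ∀ i, Eo i i a b = 0 := by
      intro i
      rw [Eo_apply]
      have h2 : ¬ (i = a ∧ i = b) := fun h => hab (h.1.symm.trans h.2)
      simp [h2]
    simp [h1, Matrix.one_apply_ne hab]

private theorem alpha_beta : bb (Eo 0 0) (Eo 1 1) = -(bb (Eo 0 0) (Eo 0 0)) / 4 := by
  have h1 : BB 1 (Eo 0 0) = 0 := bb_one _
  rw [one_eq, map_smul, map_sum, LinearMap.smul_apply, LinearMap.sum_apply, smul_eq_mul] at h1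
  simp only [BB_apply] at h1
  rw [Fin.sum_univ_five, bb_dd (i := 1) (j := 0) (by decide), bb_dd (i := 2) (j := 0) (by decide),
    bb_dd (i := 3) (j := 0) (by decide), bb_dd (i := 4) (j := 0) (by decide)] at h1
  linarith

private theorem Ed_eq : Ed 0 1 = (1 / 2 : ℝ) • (Eo 0 0 - Eo 1 1) := by
  rw [Ed, Eo, Eo]
  ext i j
  simp only [Matrix.sub_apply, Matrix.smul_apply, Matrix.add_apply, smul_eq_mul]
  ring

private theorem QQ_Ed : QQ D5s (9 / 8) (Ed 0 1) = 5 / 8 * bb (Eo 0 0) (Eo 0 0) := by
  rw [← bb_self, ← BB_apply, Ed_eq]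
  simp only [map_smul, map_sub, LinearMap.smul_apply, LinearMap.sub_apply, smul_eq_mul, BB_apply]
  rw [bb_comm (Eo 1 1) (Eo 0 0), alpha_beta, bb_d 1]
  ring

private theorem decE {B : M5} (hB : Bᵀ = B) : B = ∑ i, ∑ j, (B i j / 2) • Eo i j := by
  ext a b
  have hsym : B b a = B a b := by
    rw [← hB, transpose_apply, hB]
  rw [Matrix.sum_apply]
  have h1 : ∀ i, (∑ j, (B i j / 2) • Eo i j) a b =
      (if i = a then B i b / 2 else 0) + (if i = b then B i a / 2 else 0) := by
    intro i
    rw [Matrix.sum_apply]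
    simp only [Matrix.smul_apply, Eo_apply, smul_eq_mul, mul_add, Finset.sum_add_distrib]
    congr 1
    · by_cases h : i = a
      · subst h
        simp
      · simp [h]
    · by_cases h : i = b
      · subst h
        simp
      · simp [h]
  rw [Finset.sum_congr rfl fun i _ => h1 i, Finset.sum_add_distrib, Finset.sum_ite_eq',
    Finset.sum_ite_eq']
  simp only [Finset.mem_univ, if_true]
  rw [hsym]
  ring

theorem QQ5_bound {q : ℝ} (h1 : QQ D5s (9 / 8) (Ed 0 1) ≤ 2 * q)
    (h2 : QQ D5s (9 / 8) (Eo 0 1) ≤ 2 * q) {B : Matrix (Fin (4 + 1)) (Fin (4 + 1)) ℝ}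
    (hB : Bᵀ = B) : QQ D5s (9 / 8) B ≤ q * fro B := by
  set al := bb (Eo 0 0) (Eo 0 0) with hal
  set om := bb (Eo 0 1) (Eo 0 1) with hom
  have hal0 : 0 ≤ al := bb_nonneg _
  have h3 : 5 / 8 * al ≤ 2 * q := by rw [← QQ_Ed]; exact h1
  have h4 : om ≤ 2 * q := by rw [hom, bb_self]; exact h2
  have hsym : ∀ i j, B j i = B i j := by
    intro i j
    rw [← hB, transpose_apply, hB]
  -- the pairing of one term with `B`
  have h5 : ∀ i j, bb (Eo i j) B = if i = j then
      (5 / 8 * al * B i i - al / 8 * B.trace) else B i j * om := by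
    intro i j
    have h6 : bb (Eo i j) B = ∑ k, ∑ l, B k l / 2 * bb (Eo i j) (Eo k l) := by
      rw [← BB_apply]
      conv_lhs => rw [decE hB]
      rw [map_sum]
      refine Finset.sum_congr rfl fun k _ => ?_
      rw [map_sum]
      refine Finset.sum_congr rfl fun l _ => ?_
      rw [map_smul, smul_eq_mul, BB_apply]
    rw [h6]
    by_cases hij : i = j
    · subst hij
      rw [if_pos rfl]
      have h7 : ∀ k, ∑ l, B k l / 2 * bb (Eo i i) (Eo k l) =
          (if k = i then 5 / 8 * al * B i i else 0) - al / 8 * B k k := by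
        intro k
        rw [Finset.sum_eq_single k]
        · by_cases hk : k = i
          · subst hk
            rw [if_pos rfl, bb_d k, ← hal]
            ring
          · rw [if_neg hk, bb_dd (fun h => hk h.symm), alpha_beta, ← hal]
            ring
        · intro l _ hl
          rw [bb_comm, bb_off (fun h => hl h.symm), mul_zero]
          · rintro ⟨ha, hb⟩
            exact hl (hb.trans ha.symm)
          · rintro ⟨ha, hb⟩
            exact hl (hb.trans ha.symm)
        · intro h
          exact absurd (Finset.mem_univ k) h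
      rw [Finset.sum_congr rfl fun k _ => h7 k, Finset.sum_sub_distrib, Finset.sum_ite_eq',
        ← Finset.mul_sum]
      simp only [Finset.mem_univ, if_true]
      rfl
    · rw [if_neg hij]
      have h7 : ∀ k, ∑ l, B k l / 2 * bb (Eo i j) (Eo k l) =
          (if k = i then B i j / 2 * om else 0) + (if k = j then B i j / 2 * om else 0) := by
        intro k
        by_cases hk : k = i
        · subst hk
          rw [if_pos rfl, if_neg hij, Finset.sum_eq_single j]
          · rw [bb_offd hij, add_zero]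
          · intro l _ hl
            rw [bb_off hij, mul_zero]
            · rintro ⟨_, hb⟩
              exact hl hb.symm
            · rintro ⟨_, hb⟩
              exact hij hb.symm
          · intro h
            exact absurd (Finset.mem_univ j) h
        · by_cases hk' : k = j
          · subst hk'
            rw [if_neg hk, if_pos rfl, Finset.sum_eq_single i]
            · rw [Eo_comm k i, bb_offd hij, hsym i k, zero_add]
            · intro l _ hl
              rw [bb_off hij, mul_zero]
              · rintro ⟨ha, _⟩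
                exact hk ha.symm
              · rintro ⟨ha, _⟩
                exact hl ha.symm
            · intro h
              exact absurd (Finset.mem_univ i) h
          · rw [if_neg hk, if_neg hk', add_zero]
            refine Finset.sum_eq_zero fun l _ => ?_
            rw [bb_off hij, mul_zero]
            · rintro ⟨ha, _⟩
              exact hk ha.symm
            · rintro ⟨_, hb⟩
              exact hk' hb.symm
      rw [Finset.sum_congr rfl fun k _ => h7 k, Finset.sum_add_distrib, Finset.sum_ite_eq',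
        Finset.sum_ite_eq']
      simp only [Finset.mem_univ, if_true]
      ring
  have h8 : QQ D5s (9 / 8) B = ∑ i, ∑ j, B i j / 2 * (if i = j then
      (5 / 8 * al * B i i - al / 8 * B.trace) else B i j * om) := by
    rw [← bb_self, ← BB_apply]
    conv_lhs => arg 1; rw [decE hB]
    rw [map_sum, LinearMap.sum_apply]
    refine Finset.sum_congr rfl fun i _ => ?_
    rw [map_sum, LinearMap.sum_apply]
    refine Finset.sum_congr rfl fun j _ => ?_
    rw [map_smul, LinearMap.smul_apply, smul_eq_mul, BB_apply, h5]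
  have h9 : QQ D5s (9 / 8) B + al / 16 * B.trace ^ 2 = ∑ i, ∑ j, (if i = j then
      5 / 16 * al * B i i ^ 2 else B i j ^ 2 * (om / 2)) := by
    have h10 : al / 16 * B.trace ^ 2 = ∑ i, ∑ j, (if i = j then
        al / 16 * B.trace * B i i else 0) := by
      have h11 : ∀ i, ∑ j, (if i = j then al / 16 * B.trace * B i i else 0) =
          al / 16 * B.trace * B i i := by
        intro i
        rw [Finset.sum_ite_eq]
        simp
      rw [Finset.sum_congr rfl fun i _ => h11 i, ← Finset.mul_sum]
      have h12 : ∑ i, B i i = B.trace := rfl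
      rw [h12]
      ring
    rw [h8, h10, ← Finset.sum_add_distrib]
    refine Finset.sum_congr rfl fun i _ => ?_
    rw [← Finset.sum_add_distrib]
    refine Finset.sum_congr rfl fun j _ => ?_
    by_cases hij : i = j
    · subst hij
      rw [if_pos rfl, if_pos rfl, if_pos rfl]
      ring
    · rw [if_neg hij, if_neg hij, if_neg hij]
      ring
  have h13 : ∑ i, ∑ j, (if i = j then 5 / 16 * al * B i i ^ 2 else B i j ^ 2 * (om / 2)) ≤
      q * fro B := by
    unfold fro
    rw [Finset.mul_sum]
    refine Finset.sum_le_sum fun i _ => ?_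
    rw [Finset.mul_sum]
    refine Finset.sum_le_sum fun j _ => ?_
    by_cases hij : i = j
    · subst hij
      rw [if_pos rfl]
      nlinarith [sq_nonneg (B i i)]
    · rw [if_neg hij]
      nlinarith [sq_nonneg (B i j)]
  have h14 : 0 ≤ al / 16 * B.trace ^ 2 := by positivity
  linarith

end Pool.Agent.H99G
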