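import Pool.Agent.H99G.Defs

/-!
# The second moment of a star body in a ball (helper86)
-/

set_option autoImplicit false

namespace Pool.Agent.H99G

open MeasureTheory Matrix Set Pointwise

variable {m : ℕ}

namespace Bal

theorem dot_nonneg (z : Fin m → ℝ) : 0 ≤ z ⬝ᵥ z := Finset.sum_nonneg fun _ _ => mul_self_nonneg _

theorem dot_smul (c : ℝ) (z : Fin m → ℝ) : (c • z) ⬝ᵥ (c • z) = c ^ 2 * (z ⬝ᵥ z) := by
  rw [smul_dotProduct, dotProduct_smul, smul_eq_mul, smul_eq_mul]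
  ring

theorem dot_cont : Continuous fun z : Fin m → ℝ => z ⬝ᵥ z := by
  unfold dotProduct
  fun_prop

theorem norm_sq_le (z : Fin m → ℝ) : ‖z‖ ^ 2 ≤ z ⬝ᵥ z := by
  have h : ‖z‖ ≤ √(z ⬝ᵥ z) := by
    refine (pi_norm_le_iff_of_nonneg (Real.sqrt_nonneg _)).2 fun i => ?_
    rw [Real.norm_eq_abs, ← Real.sqrt_sq_eq_abs]
    refine Real.sqrt_le_sqrt ?_
    rw [pow_two]
    exact Finset.single_le_sum (f := fun i => z i * z i) (fun _ _ => mul_self_nonneg _)
      (Finset.mem_univ i)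
  calc ‖z‖ ^ 2 ≤ √(z ⬝ᵥ z) ^ 2 := pow_le_pow_left₀ (norm_nonneg _) h 2
    _ = z ⬝ᵥ z := Real.sq_sqrt (dot_nonneg z)

theorem meas_smul {c : ℝ} (hc : 0 ≤ c) (s : Set (Fin m → ℝ)) :
    volume.real (c • s) = c ^ m * volume.real s := by
  have h : volume (c • s) = ENNReal.ofReal |c ^ Module.finrank ℝ (Fin m → ℝ)| * volume s :=
    Measure.addHaar_smul volume c s
  unfold Measure.real
  rw [h, ENNReal.toReal_mul, ENNReal.toReal_ofReal (abs_nonneg _), Module.finrank_fin_fun,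
    abs_of_nonneg (by positivity)]

/-- the measure of the part outside a ball -/
noncomputable def gg (K : Set (Fin m → ℝ)) (t : ℝ) : ℝ := (volume.restrict K).real {z | t < z ⬝ᵥ z}

variable {K : Set (Fin m → ℝ)}

theorem gg_eq (t : ℝ) : gg K t = volume.real (K ∩ {z | t < z ⬝ᵥ z}) := by
  have hm : MeasurableSet {z : Fin m → ℝ | t < z ⬝ᵥ z} :=
    (isOpen_lt continuous_const dot_cont).measurableSet
  unfold gg
  rw [measureReal_restrict_apply hm, inter_comm]

theorem gg_anti (hK : IsCompact K) : Antitone (gg K) := by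
  intro s t hst
  rw [gg_eq, gg_eq]
  refine measureReal_mono ?_ ?_
  · exact inter_subset_inter_right _ fun z hz => lt_of_le_of_lt hst hz
  · exact ((measure_mono inter_subset_left).trans_lt hK.measure_lt_top).ne

theorem gg_zero {r : ℝ} (hr : ∀ z ∈ K, z ⬝ᵥ z ≤ r) {t : ℝ} (ht : r ≤ t) : gg K t = 0 := by
  rw [gg_eq]
  have : K ∩ {z | t < z ⬝ᵥ z} = ∅ := by
    refine eq_empty_of_forall_notMem fun z hz => ?_
    have h1 := hr z hz.1
    have h2 : t < z ⬝ᵥ z := hz.2
    linarith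
  rw [this]
  simp

theorem gg_add_le (hK : IsCompact K) {t : ℝ} {s : Set (Fin m → ℝ)} (hs : MeasurableSet s)
    (h1 : s ⊆ K) (h2 : ∀ z ∈ s, z ⬝ᵥ z ≤ t) : gg K t + volume.real s ≤ volume.real K := by
  have hd : Disjoint (K ∩ {z | t < z ⬝ᵥ z}) s := by
    rw [disjoint_left]
    intro z hz hz'
    exact absurd hz.2 (not_lt.2 (h2 z hz'))
  rw [gg_eq, ← measureReal_union hd hs
    ((measure_mono inter_subset_left).trans_lt hK.measure_lt_top).ne
    ((measure_mono h1).trans_lt hK.measure_lt_top).ne]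
  exact measureReal_mono (union_subset inter_subset_left h1) hK.measure_lt_top.ne

theorem scale_le {r t : ℝ} (hr : 0 < r) (ht : 0 ≤ t) {z : Fin m → ℝ} (hz : z ⬝ᵥ z ≤ r) :
    (√(t / r) • z) ⬝ᵥ (√(t / r) • z) ≤ t := by
  rw [dot_smul, Real.sq_sqrt (by positivity)]
  calc t / r * (z ⬝ᵥ z) ≤ t / r * r := mul_le_mul_of_nonneg_left hz (by positivity)
    _ = t := by field_simp

theorem gg_le (hK : IsCompact K) (star : ∀ c : ℝ, 0 ≤ c → c ≤ 1 → ∀ z ∈ K, c • z ∈ K) {r : ℝ}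
    (hr0 : 0 < r) (hr : ∀ z ∈ K, z ⬝ᵥ z ≤ r) {t : ℝ} (h0 : 0 < t) (h1 : t ≤ r) :
    gg K t ≤ volume.real K * (1 - √(t / r) ^ m) := by
  have hc1 : √(t / r) ≤ 1 := Real.sqrt_le_one.2 ((div_le_one hr0).2 h1)
  have h := gg_add_le hK (t := t) (s := √(t / r) • K)
    ((hK.smul _).isClosed.measurableSet) ?_ ?_
  · rw [meas_smul (Real.sqrt_nonneg _)] at h
    linarith
  · rintro _ ⟨z, hz, rfl⟩
    exact star _ (Real.sqrt_nonneg _) hc1 z hz
  · rintro _ ⟨z, hz, rfl⟩
    exact scale_le hr0 h0.le (hr z hz)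

theorem int_eq (hK : IsCompact K) {r : ℝ} (hr0 : 0 < r) (hr : ∀ z ∈ K, z ⬝ᵥ z ≤ r) :
    ∫ z in K, z ⬝ᵥ z = ∫ t in (0 : ℝ)..r, gg K t := by
  have hi : Integrable (fun z : Fin m → ℝ => z ⬝ᵥ z) (volume.restrict K) :=
    dot_cont.continuousOn.integrableOn_compact hK
  rw [hi.integral_eq_integral_meas_lt (Filter.Eventually.of_forall dot_nonneg),
    intervalIntegral.integral_of_le hr0.le]
  show ∫ t in Ioi (0 : ℝ), gg K t = _
  refine setIntegral_eq_of_subset_of_forall_diff_eq_zero measurableSet_Ioi Ioc_subset_Ioi_self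
    fun t ht => gg_zero hr ?_
  have h1 : 0 < t := ht.1
  have h2 := ht.2
  by_contra h3
  exact h2 ⟨h1, (not_le.1 h3).le⟩

theorem int_pow (m : ℕ) {r : ℝ} (hr0 : 0 < r) :
    ∫ t in (0 : ℝ)..r, √(t / r) ^ m = r * (2 / (m + 2)) := by
  have h3 := intervalIntegral.integral_comp_div (a := 0) (b := r) (fun x : ℝ => √x ^ m) hr0.ne'
  rw [h3, zero_div, div_self hr0.ne', smul_eq_mul]
  congr 1
  have h4 : ∫ x in (0 : ℝ)..1, √x ^ m = ∫ x in (0 : ℝ)..1, x ^ ((m : ℝ) / 2) := by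
    refine intervalIntegral.integral_congr fun t ht => ?_
    rw [uIcc_of_le (by norm_num)] at ht
    show √t ^ m = t ^ ((m : ℝ) / 2)
    rw [Real.sqrt_eq_rpow, ← Real.rpow_natCast, ← Real.rpow_mul ht.1]
    congr 1
    ring
  have hm : (0 : ℝ) ≤ m := Nat.cast_nonneg m
  have hm2 : (m : ℝ) / 2 + 1 ≠ 0 := by positivity
  rw [h4, integral_rpow (Or.inl (by linarith)), Real.one_rpow, Real.zero_rpow hm2]
  field_simp
  ring

theorem int_bound (m : ℕ) (v : ℝ) {r : ℝ} (hr0 : 0 < r) :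
    ∫ t in (0 : ℝ)..r, v * (1 - √(t / r) ^ m) = v * (r * (m / (m + 2))) := by
  have hm : (0 : ℝ) ≤ m := Nat.cast_nonneg m
  have hm2 : (m : ℝ) + 2 ≠ 0 := by positivity
  rw [intervalIntegral.integral_const_mul, intervalIntegral.integral_sub
    (by simp) (Continuous.intervalIntegrable (by fun_prop) _ _), int_pow m hr0]
  simp
  left
  field_simp
  ring

theorem bound_cont (m : ℕ) (v r : ℝ) : Continuous fun t : ℝ => v * (1 - √(t / r) ^ m) := by
  fun_prop

theorem star_of_convex (hc : Convex ℝ K) (h0 : (0 : Fin m → ℝ) ∈ K) :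
    ∀ c : ℝ, 0 ≤ c → c ≤ 1 → ∀ z ∈ K, c • z ∈ K := fun _ hc0 hc1 _ hz =>
  hc.smul_mem_of_zero_mem h0 hz ⟨hc0, hc1⟩

theorem le_of_pos (hK : IsCompact K) (hc : Convex ℝ K) (h0 : (0 : Fin m → ℝ) ∈ K) {r : ℝ}
    (hr0 : 0 < r) (hr : ∀ z ∈ K, z ⬝ᵥ z ≤ r) :
    ∫ z in K, z ⬝ᵥ z ≤ volume.real K * (r * (m / (m + 2))) := by
  rw [int_eq hK hr0 hr, ← int_bound m _ hr0]
  refine intervalIntegral.integral_mono_on_of_le_Ioo hr0.le (gg_anti hK).intervalIntegrable
    ((bound_cont m _ r).intervalIntegrable _ _) fun t ht => ?_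
  exact gg_le hK (star_of_convex hc h0) hr0 hr ht.1 ht.2.le

theorem final {a v r : ℝ} (h : a ≤ v * (r * (m / (m + 2)))) : (m + 2) * a ≤ m * r * v := by
  have hm : (0 : ℝ) ≤ m := Nat.cast_nonneg m
  have h1 : ((m : ℝ) + 2) * (v * (r * (m / (m + 2)))) = m * r * v := by field_simp
  rw [← h1]
  exact mul_le_mul_of_nonneg_left h (by positivity)

theorem final' {a v r : ℝ} (h : a < v * (r * (m / (m + 2)))) : (m + 2) * a < m * r * v := by
  have hm : (0 : ℝ) ≤ m := Nat.cast_nonneg m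
  have h1 : ((m : ℝ) + 2) * (v * (r * (m / (m + 2)))) = m * r * v := by field_simp
  rw [← h1]
  exact mul_lt_mul_of_pos_left h (by positivity)

theorem zero_mem_interior (hc : Convex ℝ K) (hs : ∀ z ∈ K, -z ∈ K)
    (hpos : 0 < (volume K).toReal) : (0 : Fin m → ℝ) ∈ interior K := by
  have h1 : (interior K).Nonempty := by
    by_contra h
    rw [not_nonempty_iff_eq_empty] at h
    have h2 : volume (frontier K) = 0 := hc.addHaar_frontier volume
    have h3 : K ⊆ frontier K := by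
      rw [frontier, h, diff_empty]
      exact subset_closure
    have h4 : volume K = 0 := measure_mono_null h3 h2
    rw [h4] at hpos
    simp at hpos
  obtain ⟨x, hx⟩ := h1
  have h2 := hc.combo_interior_self_mem_interior hx (hs x (interior_subset hx))
    (a := 1 / 2) (b := 1 / 2) (by norm_num) (by norm_num) (by norm_num)
  rwa [smul_neg, add_neg_cancel] at h2

end Bal

open Bal

theorem ball_le {K : Set (Fin m → ℝ)} (hK : IsCompact K) (hc : Convex ℝ K) (h0 : (0 : Fin m → ℝ) ∈ K)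
    {r : ℝ} (hr : ∀ z ∈ K, z ⬝ᵥ z ≤ r) :
    (m + 2) * ∫ z in K, z ⬝ᵥ z ≤ m * r * (volume K).toReal := by
  have hr0 : 0 ≤ r := by
    have := hr 0 h0
    rwa [zero_dotProduct] at this
  rcases hr0.eq_or_lt with h | h
  · have h1 : ∫ z in K, z ⬝ᵥ z = 0 := by
      refine setIntegral_eq_zero_of_forall_eq_zero fun z hz => ?_
      exact le_antisymm ((hr z hz).trans h.symm.le) (dot_nonneg z)
    rw [h1, ← h]
    simp
  · exact final (le_of_pos hK hc h0 h hr)

theorem ball_lt (hm : 1 ≤ m) {K : Set (Fin m → ℝ)} (hK : IsCompact K) (hc : Convex ℝ K)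
    (hs : ∀ z ∈ K, -z ∈ K) {r : ℝ} (hr : ∀ z ∈ K, z ⬝ᵥ z ≤ r) (hpos : 0 < (volume K).toReal)
    (hne : ∃ z : Fin m → ℝ, z ⬝ᵥ z ≤ r ∧ z ∉ K) :
    (m + 2) * ∫ z in K, z ⬝ᵥ z < m * r * (volume K).toReal := by
  have hint := zero_mem_interior hc hs hpos
  have h0 : (0 : Fin m → ℝ) ∈ K := interior_subset hint
  obtain ⟨ε, hε, hball⟩ := Metric.mem_nhds_iff.1 (mem_interior_iff_mem_nhds.1 hint)
  -- a small ball is in `K`
  have hsm : ∀ z : Fin m → ℝ, z ⬝ᵥ z ≤ ε ^ 2 / 4 → z ∈ K := by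
    intro z hz
    refine hball ?_
    rw [Metric.mem_ball, dist_zero_right]
    have h1 := (norm_sq_le z).trans hz
    nlinarith [norm_nonneg z]
  obtain ⟨z0, hz0, hz0K⟩ := hne
  have hr0 : 0 < r := by
    by_contra h
    refine hz0K (hsm z0 ?_)
    have : 0 < ε ^ 2 / 4 := by positivity
    linarith
  -- an open set outside `K`
  set U : Set (Fin m → ℝ) := Kᶜ ∩ {z | z ⬝ᵥ z < r} with hU
  have hUo : IsOpen U := hK.isClosed.isOpen_compl.inter (isOpen_lt dot_cont continuous_const)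
  have hUn : U.Nonempty := by
    have hcont : Continuous fun c : ℝ => c • z0 := by fun_prop
    have h1 : (fun c : ℝ => c • z0) ⁻¹' Kᶜ ∈ nhds (1 : ℝ) := by
      refine (hK.isClosed.isOpen_compl.preimage hcont).mem_nhds ?_
      show (1 : ℝ) • z0 ∈ Kᶜ
      rwa [one_smul]
    obtain ⟨δ, hδ, hδ'⟩ := Metric.mem_nhds_iff.1 h1
    set c : ℝ := 1 - min (δ / 2) (1 / 2) with hcd
    have hm1 : 0 < min (δ / 2) (1 / 2) := lt_min (by linarith) (by norm_num)
    have hm2 : min (δ / 2) (1 / 2) ≤ δ / 2 := min_le_left _ _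
    have hm3 : min (δ / 2) (1 / 2) ≤ 1 / 2 := min_le_right _ _
    refine ⟨c • z0, hδ' ?_, ?_⟩
    · rw [Metric.mem_ball, Real.dist_eq, hcd, abs_lt]
      constructor <;> linarith
    · show (c • z0) ⬝ᵥ (c • z0) < r
      rw [dot_smul]
      have h2 : c ^ 2 < 1 := by nlinarith
      have h3 := dot_nonneg z0
      nlinarith [sq_nonneg c]
  have hUm : MeasurableSet U := hUo.measurableSet
  have hUf : volume U ≠ ⊤ := by
    have h1 : U ⊆ Metric.closedBall 0 (r + 1) := by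
      intro z hz
      have h2 : z ⬝ᵥ z < r := hz.2
      have h3 := norm_sq_le z
      rw [mem_closedBall_zero_iff]
      nlinarith [norm_nonneg z]
    exact ((measure_mono h1).trans_lt measure_closedBall_lt_top).ne
  have hUp : 0 < volume.real U := ENNReal.toReal_pos (hUo.measure_pos volume hUn).ne' hUf
  have hd : Disjoint K U := by
    rw [disjoint_left]
    intro z hz hz'
    exact hz'.1 hz
  have hlt : ∀ t : ℝ, 0 < t → t ≤ ε ^ 2 / 4 → gg K t < volume.real K * (1 - √(t / r) ^ m) := by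
    intro t ht0 ht1
    have hcp : 0 < √(t / r) := Real.sqrt_pos.2 (by positivity)
    have hb : ∀ z ∈ √(t / r) • (K ∪ U), z ⬝ᵥ z ≤ t := by
      rintro _ ⟨z, hz, rfl⟩
      refine scale_le hr0 ht0.le ?_
      rcases hz with hz | hz
      · exact hr z hz
      · exact le_of_lt hz.2
    have h := gg_add_le hK (t := t) (s := √(t / r) • (K ∪ U))
      ((hK.isClosed.measurableSet.union hUm).const_smul₀ _)
      (fun z hz => hsm z ((hb z hz).trans ht1)) hb
    rw [meas_smul hcp.le, measureReal_union hd hUm hK.measure_lt_top.ne hUf] at h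
    have h7 : 0 < √(t / r) ^ m * volume.real U := by positivity
    linarith
  refine final' ?_
  rw [int_eq hK hr0 hr]
  show _ < volume.real K * _
  rw [← int_bound m _ hr0]
  refine intervalIntegral.integral_lt_integral_of_ae_le_of_measure_setOf_lt_ne_zero
    hr0.le (gg_anti hK).intervalIntegrable ((bound_cont m _ r).intervalIntegrable _ _) ?_ ?_
  · refine (ae_restrict_iff' measurableSet_Ioc).2 (Filter.Eventually.of_forall fun t ht => ?_)
    exact gg_le hK (star_of_convex hc h0) hr0 hr ht.1 ht.2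
  · set a : ℝ := min (ε ^ 2 / 4) r with ha
    have ha0 : 0 < a := lt_min (by positivity) hr0
    have h2 : Ioo (0 : ℝ) a ⊆ {t | gg K t < volume.real K * (1 - √(t / r) ^ m)} :=
      fun t ht => hlt t ht.1 (ht.2.le.trans (min_le_left _ _))
    have h3 : 0 < (volume.restrict (Ioc (0 : ℝ) r)) (Ioo (0 : ℝ) a) := by
      have h4 : Ioo (0 : ℝ) a ∩ Ioc 0 r = Ioo 0 a := by
        refine inter_eq_left.2 fun t ht => ?_
        exact ⟨ht.1, ht.2.le.trans (min_le_right _ _)⟩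
      rw [Measure.restrict_apply measurableSet_Ioo, h4, Real.volume_Ioo]
      simpa using ha0
    exact (h3.trans_le (measure_mono h2)).ne'

end Pool.Agent.H99G
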