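import Pool.Agent.H99G.Cfo

set_option autoImplicit false

/-!
# The volume of a cone
-/

namespace Pool.Agent.H99G

open MeasureTheory Matrix

variable {m : ℕ} {L : AddSubgroup (Fin (m + 1) → ℝ)} {μ : ℝ}

theorem cone_vol (h : Good L μ) {l : Fin (m + 1) → ℝ} (hl : l ∈ L) (hl0 : l ≠ 0) :
    (volume (Cn L l)).toReal = len l / (2 * (m + 1)) * aF L l := by
  have h1 := cone_hom (d := 0) h hl hl0 (f := fun _ => 1) continuous_const
    (fun t y => by rw [pow_zero, mul_one])
  simp only [integral_const, smul_eq_mul, mul_one, Measure.real, Measure.restrict_apply,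
    MeasurableSet.univ, Set.univ_inter] at h1
  rw [h1, aF]
  push_cast
  ring_nf

end Pool.Agent.H99G
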