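import Pool.Agent.H99G.Vdef

set_option autoImplicit false

/-!
# `D5*`: the cell, the covering radius and the cone of the first unit vector
-/

namespace Pool.Agent.H99G

open MeasureTheory Matrix

private theorem v1_odd {k : ℤ} (hk : k % 2 = 1) {y M : ℝ} (hM : |y| ≤ M) :
    y * ((k : ℝ) / 2) ≤ |y| / 2 + M * (((k : ℝ) / 2) * ((k : ℝ) / 2) - 1 / 4) := by
  have h1 : (1 : ℤ) ≤ |k| := by
    have : k ≠ 0 := by
      intro h
      rw [h] at hk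
      norm_num at hk
    exact Int.one_le_abs this
  have h2 : (1 : ℝ) ≤ |(k : ℝ)| := by exact_mod_cast h1
  have h3 : (k : ℝ) ^ 2 = |(k : ℝ)| ^ 2 := (sq_abs _).symm
  have h4 : y * (k : ℝ) ≤ |y| * |(k : ℝ)| := by
    rw [← abs_mul]
    exact le_abs_self _
  have h5 : |y| * (|(k : ℝ)| - 1) ≤ M * (|(k : ℝ)| - 1) :=
    mul_le_mul_of_nonneg_right hM (by linarith)
  have hM0 : 0 ≤ M := (abs_nonneg y).trans hM
  have h6 : M * (|(k : ℝ)| - 1) * 2 ≤ M * (|(k : ℝ)| - 1) * (|(k : ℝ)| + 1) :=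
    mul_le_mul_of_nonneg_left (by linarith) (mul_nonneg hM0 (by linarith))
  nlinarith

private theorem v1_even {k : ℤ} (hk : k % 2 = 0) {y M : ℝ} (hM : |y| ≤ M) :
    y * ((k : ℝ) / 2) ≤ M * (((k : ℝ) / 2) * ((k : ℝ) / 2)) := by
  obtain ⟨n, hn⟩ : ∃ n, k = 2 * n := ⟨k / 2, by omega⟩
  have h0 : (k : ℝ) / 2 = (n : ℝ) := by
    rw [hn]
    push_cast
    ring
  rw [h0]
  have hM0 : 0 ≤ M := (abs_nonneg y).trans hM
  have h1 : |(n : ℝ)| ≤ (n : ℝ) * n := by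
    rcases eq_or_ne n 0 with h | h
    · rw [h]; simp
    · have h2 : (1 : ℝ) ≤ |(n : ℝ)| := by exact_mod_cast Int.one_le_abs h
      have h3 : (n : ℝ) * n = |(n : ℝ)| * |(n : ℝ)| := (abs_mul_abs_self _).symm
      rw [h3]
      nlinarith
  calc y * (n : ℝ) ≤ |y| * |(n : ℝ)| := by
        rw [← abs_mul]
        exact le_abs_self _
    _ ≤ M * |(n : ℝ)| := mul_le_mul_of_nonneg_right hM (abs_nonneg _)
    _ ≤ M * ((n : ℝ) * n) := mul_le_mul_of_nonneg_left h1 hM0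

/-- The inequalities of the ten and of the `32` short vectors imply all others. -/
private theorem v1_core {y : Fin (4 + 1) → ℝ} {M : ℝ} (h1 : ∀ i, |y i| ≤ M)
    (h2 : 2 * ∑ i, |y i| ≤ 5 * M) {l : Fin (4 + 1) → ℝ} (hl : l ∈ D5s) :
    y ⬝ᵥ l ≤ M * (l ⬝ᵥ l) := by
  obtain ⟨k, hk, rfl⟩ := hl
  rw [dotProduct, dotProduct, Finset.mul_sum]
  rcases Int.emod_two_eq_zero_or_one (k 0) with h | h
  · exact Finset.sum_le_sum fun i _ => v1_even (by rw [hk i, h]) (h1 i)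
  · have h3 : ∑ i, y i * ((k i : ℝ) / 2) ≤
        ∑ i, (|y i| / 2 + M * (((k i : ℝ) / 2) * ((k i : ℝ) / 2) - 1 / 4)) :=
      Finset.sum_le_sum fun i _ => v1_odd (by rw [hk i, h]) (h1 i)
    refine h3.trans ?_
    have h4 : ∑ i, (|y i| / 2 + M * (((k i : ℝ) / 2) * ((k i : ℝ) / 2) - 1 / 4)) =
        (∑ i, |y i|) / 2 + ∑ i, M * (((k i : ℝ) / 2) * ((k i : ℝ) / 2)) - 5 / 4 * M := by
      have h5 : ∀ i, |y i| / 2 + M * (((k i : ℝ) / 2) * ((k i : ℝ) / 2) - 1 / 4) =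
          |y i| / 2 + M * (((k i : ℝ) / 2) * ((k i : ℝ) / 2)) - M / 4 := fun i => by ring
      rw [Finset.sum_congr rfl fun i _ => h5 i, Finset.sum_sub_distrib, Finset.sum_add_distrib,
        ← Finset.sum_div]
      simp
      ring
    rw [h4]
    linarith

private theorem v1_unit (i : Fin (4 + 1)) (a : ℤ) : (Pi.single i (a : ℝ) : Fin (4 + 1) → ℝ) ∈ D5s := by
  refine ⟨Pi.single i (2 * a), fun j => ?_, ?_⟩
  · have h : ∀ j, (Pi.single i (2 * a) : Fin (4 + 1) → ℤ) j % 2 = 0 := by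
      intro j
      by_cases hj : j = i
      · subst hj
        rw [Pi.single_eq_same]
        omega
      · rw [Pi.single_eq_of_ne hj]
        rfl
    rw [h j, h 0]
  · funext j
    by_cases hj : j = i
    · subst hj
      rw [Pi.single_eq_same, Pi.single_eq_same]
      push_cast
      ring
    · rw [Pi.single_eq_of_ne hj, Pi.single_eq_of_ne hj]
      simp

/-- The signs of the coordinates, halved. -/
private noncomputable def v1_s (y : Fin (4 + 1) → ℝ) : Fin (4 + 1) → ℝ :=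
  fun i => (((if 0 ≤ y i then 1 else -1 : ℤ) : ℤ) : ℝ) / 2

private theorem v1_s_mem (y : Fin (4 + 1) → ℝ) : v1_s y ∈ D5s := by
  refine ⟨fun i => if 0 ≤ y i then 1 else -1, fun i => ?_, rfl⟩
  have h : ∀ j, (if 0 ≤ y j then 1 else -1 : ℤ) % 2 = 1 := by
    intro j
    split_ifs <;> rfl
  show (if 0 ≤ y i then 1 else -1 : ℤ) % 2 = (if 0 ≤ y 0 then 1 else -1 : ℤ) % 2
  rw [h i, h 0]

private theorem v1_s_dot (y : Fin (4 + 1) → ℝ) : y ⬝ᵥ v1_s y = (∑ i, |y i|) / 2 := by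
  rw [dotProduct, Finset.sum_div]
  refine Finset.sum_congr rfl fun i _ => ?_
  unfold v1_s
  by_cases h : 0 ≤ y i
  · rw [if_pos h, abs_of_nonneg h]
    push_cast
    ring
  · rw [if_neg h, abs_of_neg (not_le.mp h)]
    push_cast
    ring

private theorem v1_s_nrm (y : Fin (4 + 1) → ℝ) : v1_s y ⬝ᵥ v1_s y = 5 / 4 := by
  have h : ∀ i, v1_s y i * v1_s y i = 1 / 4 := by
    intro i
    unfold v1_s
    split_ifs <;> norm_num
  rw [dotProduct, Finset.sum_congr rfl fun i _ => h i]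
  simp
  norm_num

private theorem v1_dot_single (y : Fin (4 + 1) → ℝ) (i : Fin (4 + 1)) (a : ℝ) :
    y ⬝ᵥ Pi.single i a = y i * a := by
  rw [dotProduct_single]

private theorem v1_abs {y : Fin (4 + 1) → ℝ} {c : ℝ}
    (h : ∀ l ∈ D5s, l ≠ 0 → y ⬝ᵥ l ≤ c * (l ⬝ᵥ l)) (i : Fin (4 + 1)) : |y i| ≤ c := by
  have h1 := h (Pi.single i ((1 : ℤ) : ℝ)) (v1_unit i 1) (by simp)
  have h2 := h (Pi.single i ((-1 : ℤ) : ℝ)) (v1_unit i (-1)) (by simp)
  rw [v1_dot_single, v1_dot_single, Pi.single_eq_same] at h1 h2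
  push_cast at h1 h2
  rw [abs_le]
  constructor <;> linarith

private theorem v1_sum {y : Fin (4 + 1) → ℝ} {c : ℝ}
    (h : ∀ l ∈ D5s, l ≠ 0 → y ⬝ᵥ l ≤ c * (l ⬝ᵥ l)) : 2 * ∑ i, |y i| ≤ 5 * c := by
  have h0 : v1_s y ≠ 0 := by
    intro h0
    have := v1_s_nrm y
    rw [h0] at this
    simp at this
    norm_num at this
  have h1 := h (v1_s y) (v1_s_mem y) h0
  rw [v1_s_dot, v1_s_nrm] at h1
  linarith

theorem mem_PP5 {y : Fin (4 + 1) → ℝ} :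
    y ∈ PP D5s ↔ (∀ i, |y i| ≤ 1 / 2) ∧ ∑ i, |y i| ≤ 5 / 4 := by
  constructor
  · intro hy
    have h : ∀ l ∈ D5s, l ≠ 0 → y ⬝ᵥ l ≤ 1 / 2 * (l ⬝ᵥ l) := by
      intro l hl _
      have := hy l hl
      linarith
    refine ⟨v1_abs h, ?_⟩
    have := v1_sum h
    linarith
  · rintro ⟨h1, h2⟩ l hl
    have := v1_core h1 (by linarith) hl
    linarith

/-- the cone of the first unit vector -/
theorem mem_CnA {y : Fin (4 + 1) → ℝ} :
    y ∈ Cn D5s e5 ↔ 0 < y 0 ∧ y 0 ≤ 1 / 2 ∧ (∀ i, |y i| ≤ y 0) ∧ 2 * ∑ i, |y i| ≤ 5 * y 0 := by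
  have he : y ⬝ᵥ e5 = y 0 := by
    unfold e5
    rw [v1_dot_single, mul_one]
  have hee : (e5 : Fin (4 + 1) → ℝ) ⬝ᵥ e5 = 1 := by
    unfold e5
    rw [v1_dot_single, Pi.single_eq_same, mul_one]
  constructor
  · rintro ⟨hy, h0, h1⟩
    rw [he] at h0
    have h : ∀ l ∈ D5s, l ≠ 0 → y ⬝ᵥ l ≤ y 0 * (l ⬝ᵥ l) := by
      intro l hl hl0
      have := h1 l hl hl0
      rw [he, hee, mul_one] at this
      exact this
    refine ⟨h0, ?_, v1_abs h, v1_sum h⟩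
    have := (mem_PP5.mp hy).1 0
    exact (le_abs_self _).trans this
  · rintro ⟨h0, h1, h2, h3⟩
    refine ⟨mem_PP5.mpr ⟨fun i => (h2 i).trans h1, by linarith⟩, by rw [he]; exact h0, ?_⟩
    intro l hl _
    rw [he, hee, mul_one]
    exact v1_core h2 h3 hl

private theorem v1_coord_le {y : Fin (4 + 1) → ℝ} {r : ℝ} (h : y ⬝ᵥ y ≤ r) (i : Fin (4 + 1)) :
    y i * y i ≤ r := by
  refine le_trans ?_ h
  rw [dotProduct]
  exact Finset.single_le_sum (f := fun j => y j * y j) (fun j _ => mul_self_nonneg (y j))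
    (Finset.mem_univ i)

private theorem v1_fin (r : ℝ) : {l : Fin (4 + 1) → ℝ | l ∈ D5s ∧ l ⬝ᵥ l ≤ r}.Finite := by
  obtain ⟨N, hN⟩ := exists_nat_ge (4 * |r| + 1)
  have hfin : ((fun k : Fin (4 + 1) → ℤ => fun i => (k i : ℝ) / 2) ''
      (Set.Icc (fun _ => -(N : ℤ)) (fun _ => (N : ℤ)))).Finite := (Set.finite_Icc _ _).image _
  refine hfin.subset ?_
  rintro l ⟨⟨k, hk, rfl⟩, hl⟩
  refine ⟨k, ?_, rfl⟩
  have hb : ∀ i, |(k i : ℝ)| ≤ N := by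
    intro i
    have h1 : (k i : ℝ) / 2 * ((k i : ℝ) / 2) ≤ r := v1_coord_le hl i
    have h3 : (k i : ℝ) ^ 2 ≤ 4 * r := by nlinarith
    have h4 : (k i : ℝ) ^ 2 ≤ 4 * |r| := le_trans h3 (by linarith [le_abs_self r])
    by_contra hc
    push Not at hc
    have h5 : (1 : ℝ) ≤ N := by linarith [abs_nonneg r]
    have h7 : |(k i : ℝ)| ^ 2 = (k i : ℝ) ^ 2 := sq_abs _
    nlinarith [abs_nonneg (k i : ℝ)]
  constructor
  · intro i
    have h1 := (abs_le.1 (hb i)).1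
    show -(N : ℤ) ≤ k i
    exact_mod_cast h1
  · intro i
    have h1 := (abs_le.1 (hb i)).2
    show k i ≤ (N : ℤ)
    exact_mod_cast h1

private theorem v1_dot_nonneg (y : Fin (4 + 1) → ℝ) : 0 ≤ y ⬝ᵥ y := by
  rw [dotProduct]
  exact Finset.sum_nonneg fun i _ => mul_self_nonneg (y i)

private theorem v1_dot_sub (y l : Fin (4 + 1) → ℝ) :
    (y - l) ⬝ᵥ (y - l) = y ⬝ᵥ y - 2 * (y ⬝ᵥ l) + l ⬝ᵥ l := by
  rw [sub_dotProduct, dotProduct_sub, dotProduct_sub, dotProduct_comm l y]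
  ring

private theorem v1_near (y : Fin (4 + 1) → ℝ) :
    ∃ l ∈ D5s, ∀ l' ∈ D5s, (y - l) ⬝ᵥ (y - l) ≤ (y - l') ⬝ᵥ (y - l') := by
  have hfin := v1_fin (4 * (y ⬝ᵥ y))
  have hne : {l : Fin (4 + 1) → ℝ | l ∈ D5s ∧ l ⬝ᵥ l ≤ 4 * (y ⬝ᵥ y)}.Nonempty :=
    ⟨0, D5s.zero_mem, by simp [v1_dot_nonneg y]⟩
  obtain ⟨l, hl, hmin⟩ := Set.exists_min_image _ (fun l => (y - l) ⬝ᵥ (y - l)) hfin hne
  refine ⟨l, hl.1, fun l' hl' => ?_⟩
  by_cases h : l' ⬝ᵥ l' ≤ 4 * (y ⬝ᵥ y)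
  · exact hmin l' ⟨hl', h⟩
  · push Not at h
    have h0 := hmin 0 ⟨D5s.zero_mem, by simp [v1_dot_nonneg y]⟩
    simp only [sub_zero] at h0
    refine le_trans h0 ?_
    have h1 := v1_dot_nonneg ((2 : ℝ) • y - l')
    have h2 := v1_dot_sub y l'
    have h3 : ((2 : ℝ) • y - l') ⬝ᵥ ((2 : ℝ) • y - l') =
        4 * (y ⬝ᵥ y) - 4 * (y ⬝ᵥ l') + l' ⬝ᵥ l' := by
      rw [v1_dot_sub]
      simp only [smul_dotProduct, dotProduct_smul, smul_eq_mul]
      ring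
    rw [h3] at h1
    rw [h2]
    linarith

private theorem v1_sorted {r0 r1 r2 r3 r4 : ℝ} (d0 : 0 ≤ r0 - r1) (d1 : 0 ≤ r1 - r2)
    (d2 : 0 ≤ r2 - r3) (d3 : 0 ≤ r3 - r4) (h4 : 0 ≤ r4) (hH : 0 ≤ 1 - 2 * r0)
    (hS : 0 ≤ 5 - 4 * r0 - 4 * r1 - 4 * r2 - 4 * r3 - 4 * r4) :
    r0 ^ 2 + r1 ^ 2 + r2 ^ 2 + r3 ^ 2 + r4 ^ 2 ≤ 9 / 16 := by
  have p1 := mul_nonneg d0 d1
  have p2 := mul_nonneg d0 hH
  have p3 := mul_nonneg d0 hS
  have p4 := mul_nonneg d1 hH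
  have p5 := mul_nonneg d1 hS
  have p6 := mul_nonneg d2 d3
  have p7 := mul_nonneg d2 h4
  have p8 := mul_nonneg d2 hS
  have p9 := mul_nonneg d3 h4
  have p10 := mul_nonneg d3 hS
  have p11 := mul_nonneg h4 hS
  have p12 := mul_nonneg hS hS
  linarith

private theorem v1_ball {y : Fin (4 + 1) → ℝ} (h1 : ∀ i, |y i| ≤ 1 / 2)
    (h2 : ∑ i, |y i| ≤ 5 / 4) : y ⬝ᵥ y ≤ 9 / 16 := by
  set π : Equiv.Perm (Fin 5) := Tuple.sort fun i => -|y i| with hπ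
  have hmono := Tuple.monotone_sort fun i => -|y i|
  have ho : ∀ i j : Fin 5, i ≤ j → |y (π j)| ≤ |y (π i)| := by
    intro i j hij
    have := hmono hij
    simp only [Function.comp_apply] at this
    linarith
  have e1 : y ⬝ᵥ y = ∑ i, |y (π i)| ^ 2 := by
    have h3 : ∑ i, |y (π i)| ^ 2 = ∑ i, |y i| ^ 2 := Equiv.sum_comp π fun i => |y i| ^ 2
    rw [h3, dotProduct]
    exact Finset.sum_congr rfl fun i _ => by rw [sq_abs]; ring
  have e2 : ∑ i, |y i| = ∑ i, |y (π i)| := (Equiv.sum_comp π fun i => |y i|).symm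
  rw [e2, Fin.sum_univ_five] at h2
  rw [e1, Fin.sum_univ_five]
  exact v1_sorted (by linarith [ho 0 1 (by decide)]) (by linarith [ho 1 2 (by decide)])
    (by linarith [ho 2 3 (by decide)]) (by linarith [ho 3 4 (by decide)]) (abs_nonneg _)
    (by linarith [h1 (π 0)]) (by linarith)

theorem D5s_good : Good D5s (9 / 8) where
  fin := v1_fin
  pos := by norm_num
  cov := by
    intro y
    obtain ⟨l, hl, hmin⟩ := v1_near y
    refine ⟨l, hl, ?_⟩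
    have hV : y - l ∈ PP D5s := by
      intro l' hl'
      have h2 := hmin (l + l') (D5s.add_mem hl hl')
      have h3 : y - (l + l') = (y - l) - l' := by abel
      rw [h3, v1_dot_sub (y - l) l'] at h2
      linarith
    have h6 := v1_ball (mem_PP5.mp hV).1 (mem_PP5.mp hV).2
    linarith

end Pool.Agent.H99G
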