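import Pool.Agent.H99G.Vdef

set_option autoImplicit false

/-!
# Automorphisms of `D5*`, transport of cone integrals
-/

namespace Pool.Agent.H99G

open MeasureTheory Matrix Filter Topology

section

variable {m : ℕ} {L : AddSubgroup (Fin (m + 1) → ℝ)}

/-! ### orthogonal matrices -/

private theorem w_dot {g : Matrix (Fin (m + 1)) (Fin (m + 1)) ℝ} (hg : gᵀ * g = 1)
    (x y : Fin (m + 1) → ℝ) : (g *ᵥ x) ⬝ᵥ (g *ᵥ y) = x ⬝ᵥ y := by
  rw [Matrix.dotProduct_mulVec, ← Matrix.mulVec_transpose, Matrix.mulVec_mulVec, hg,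
    Matrix.one_mulVec]

private theorem w_inv {g : Matrix (Fin (m + 1)) (Fin (m + 1)) ℝ} (hg : gᵀ * g = 1)
    (x : Fin (m + 1) → ℝ) : gᵀ *ᵥ (g *ᵥ x) = x := by
  rw [Matrix.mulVec_mulVec, hg, Matrix.one_mulVec]

private theorem w_inv' {g : Matrix (Fin (m + 1)) (Fin (m + 1)) ℝ} (hg : g * gᵀ = 1)
    (x : Fin (m + 1) → ℝ) : g *ᵥ (gᵀ *ᵥ x) = x := by
  rw [Matrix.mulVec_mulVec, hg, Matrix.one_mulVec]

private theorem w_memT {g : Matrix (Fin (m + 1)) (Fin (m + 1)) ℝ} (hg : IsAut L g)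
    {x : Fin (m + 1) → ℝ} : gᵀ *ᵥ x ∈ L ↔ x ∈ L := by
  rw [← hg.2.2 (gᵀ *ᵥ x), w_inv' hg.2.1]

private theorem w_len {g : Matrix (Fin (m + 1)) (Fin (m + 1)) ℝ} (hg : gᵀ * g = 1)
    (x : Fin (m + 1) → ℝ) : len (g *ᵥ x) = len x := by
  unfold len; rw [w_dot hg]

private theorem w_mp {g : Matrix (Fin (m + 1)) (Fin (m + 1)) ℝ} (hg : gᵀ * g = 1) :
    MeasurePreserving (fun y : Fin (m + 1) → ℝ => g *ᵥ y) volume volume := by
  have hdet : g.det ^ 2 = 1 := by
    have := congrArg Matrix.det hg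
    rw [Matrix.det_mul, Matrix.det_transpose, Matrix.det_one] at this
    rw [sq]; exact this
  have habs : |g.det| = 1 := by
    have h1 : |g.det| ^ 2 = 1 := by rw [sq_abs]; exact hdet
    have h2 := abs_nonneg g.det
    nlinarith
  have hne : g.det ≠ 0 := by
    intro h; rw [h] at hdet; norm_num at hdet
  refine ⟨(Continuous.matrix_mulVec continuous_const continuous_id).measurable, ?_⟩
  have := Real.map_matrix_volume_pi_eq_smul_volume_pi hne
  have h3 : (⇑(Matrix.toLin' g)) = fun y : Fin (m + 1) → ℝ => g *ᵥ y := by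
    funext y; exact Matrix.toLin'_apply g y
  rw [h3] at this
  rw [this, abs_inv, habs]
  simp

private theorem w_emb {g : Matrix (Fin (m + 1)) (Fin (m + 1)) ℝ} (hg : gᵀ * g = 1)
    (hg' : g * gᵀ = 1) : MeasurableEmbedding (fun y : Fin (m + 1) → ℝ => g *ᵥ y) := by
  have hc : ∀ g : Matrix (Fin (m + 1)) (Fin (m + 1)) ℝ,
      Continuous (fun y : Fin (m + 1) → ℝ => g *ᵥ y) := fun g =>
    Continuous.matrix_mulVec continuous_const continuous_id
  let e : (Fin (m + 1) → ℝ) ≃ₜ (Fin (m + 1) → ℝ) :=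
    { toFun := fun y => g *ᵥ y
      invFun := fun y => gᵀ *ᵥ y
      left_inv := w_inv hg
      right_inv := w_inv' hg'
      continuous_toFun := hc g
      continuous_invFun := hc gᵀ }
  exact e.measurableEmbedding

private theorem w_PP {g : Matrix (Fin (m + 1)) (Fin (m + 1)) ℝ} (hg : IsAut L g)
    (y : Fin (m + 1) → ℝ) : g *ᵥ y ∈ PP L ↔ y ∈ PP L := by
  constructor
  · intro h l hl
    have := h (g *ᵥ l) ((hg.2.2 l).2 hl)
    rwa [w_dot hg.1, w_dot hg.1] at this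
  · intro h l hl
    have := h (gᵀ *ᵥ l) ((w_memT hg).2 hl)
    rw [← w_dot hg.1, ← w_dot hg.1 (gᵀ *ᵥ l), w_inv' hg.2.1] at this
    exact this

private theorem w_Cn {g : Matrix (Fin (m + 1)) (Fin (m + 1)) ℝ} (hg : IsAut L g)
    (l : Fin (m + 1) → ℝ) :
    (fun y : Fin (m + 1) → ℝ => g *ᵥ y) ⁻¹' (Cn L (g *ᵥ l)) = Cn L l := by
  ext y
  simp only [Set.mem_preimage, Cn, Set.mem_ofPred_eq]
  rw [w_PP hg, w_dot hg.1, w_dot hg.1]
  refine and_congr Iff.rfl (and_congr Iff.rfl ⟨?_, ?_⟩)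
  · intro h l' hl' h0
    have := h (g *ᵥ l') ((hg.2.2 l').2 hl') (by
      intro h1; apply h0; rw [← w_inv hg.1 l', h1, Matrix.mulVec_zero])
    rwa [w_dot hg.1, w_dot hg.1] at this
  · intro h l' hl' h0
    have := h (gᵀ *ᵥ l') ((w_memT hg).2 hl') (by
      intro h1; apply h0; rw [← w_inv' hg.2.1 l', h1, Matrix.mulVec_zero])
    rw [← w_dot hg.1 y (gᵀ *ᵥ l'), ← w_dot hg.1 (gᵀ *ᵥ l') (gᵀ *ᵥ l'), w_inv' hg.2.1] at this
    exact this

end

/-- transport of cone integrals (any lattice) -/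
theorem cone_aut {m : ℕ} {L : AddSubgroup (Fin (m + 1) → ℝ)}
    {g : Matrix (Fin (m + 1)) (Fin (m + 1)) ℝ} (hg : IsAut L g) (l : Fin (m + 1) → ℝ)
    (f : (Fin (m + 1) → ℝ) → ℝ) :
    ∫ y in Cn L (g *ᵥ l), f y = ∫ y in Cn L l, f (g *ᵥ y) := by
  rw [← w_Cn hg l]
  exact ((w_mp hg.1).setIntegral_preimage_emb (w_emb hg.1 hg.2.1) f _).symm

theorem aut_sgn (s : Fin (4 + 1) → ℝ) (hs : ∀ i, s i = 1 ∨ s i = -1) :
    IsAut D5s (Matrix.diagonal s) := by
  have hss : ∀ i, s i * s i = 1 := fun i => by rcases hs i with h | h <;> rw [h] <;> norm_num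
  have h1 : Matrix.diagonal s * Matrix.diagonal s = 1 := by
    rw [diagonal_mul_diagonal, ← diagonal_one]
    congr 1
    ext i
    exact hss i
  have h2 : ∀ x ∈ D5s, Matrix.diagonal s *ᵥ x ∈ D5s := by
    rintro x ⟨k, hk, rfl⟩
    refine ⟨fun i => if s i = 1 then k i else -k i, fun i => ?_, ?_⟩
    · have h3 := hk i
      dsimp only
      split_ifs <;> omega
    · ext i
      rw [mulVec_diagonal]
      rcases hs i with h | h
      · simp [h]
      · have : ¬ (-1 : ℝ) = 1 := by norm_num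
        simp [h, this, neg_div]
  refine ⟨by rw [diagonal_transpose, h1], by rw [diagonal_transpose, h1], fun x => ⟨fun hx => ?_,
    h2 x⟩⟩
  have := h2 _ hx
  rwa [mulVec_mulVec, h1, one_mulVec] at this

theorem aut_perm (σ : Equiv.Perm (Fin (4 + 1))) :
    IsAut D5s (σ.permMatrix ℝ) := by
  have h2 : ∀ (τ : Equiv.Perm (Fin (4 + 1))), ∀ x ∈ D5s, τ.permMatrix ℝ *ᵥ x ∈ D5s := by
    rintro τ x ⟨k, hk, rfl⟩
    refine ⟨fun i => k (τ i), fun i => ?_, ?_⟩
    · have h3 := hk (τ i)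
      have h4 := hk (τ 0)
      dsimp only
      omega
    · rw [permMatrix_mulVec]
      rfl
  have h3 : (σ⁻¹).permMatrix ℝ * σ.permMatrix ℝ = 1 := by
    rw [← permMatrix_mul, mul_inv_cancel, permMatrix_one]
  have h4 : σ.permMatrix ℝ * (σ⁻¹).permMatrix ℝ = 1 := by
    rw [← permMatrix_mul, inv_mul_cancel, permMatrix_one]
  refine ⟨by rw [transpose_permMatrix, h3], by rw [transpose_permMatrix, h4],
    fun x => ⟨fun hx => ?_, h2 σ x⟩⟩
  have := h2 σ⁻¹ _ hx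
  rwa [mulVec_mulVec, h3, one_mulVec] at this

end Pool.Agent.H99G
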