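import Pool.Agent.H99G.Vdef
import Pool.Agent.H99G.Cvo
import Pool.Agent.H99G.Bal
import Pool.Agent.H99G.V1
import Pool.Agent.H99G.V2

set_option autoImplicit false

/-!
# Relations in the cones of `D5*` (helper86)
-/

namespace Pool.Agent.H99G

open MeasureTheory Matrix

namespace V6

theorem e5_mem : e5 ∈ D5s := by
  refine ⟨fun i => if i = 0 then 2 else 0, fun i => ?_, ?_⟩
  · by_cases h : i = 0 <;> simp [h]
  · funext i
    by_cases h : i = 0
    · simp [e5, h]
    · simp [e5, h]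

theorem h5_mem : h5 ∈ D5s := ⟨fun _ => 1, fun _ => rfl, by funext i; simp [h5]⟩

theorem dot_e5 (y : Fin (4 + 1) → ℝ) : y ⬝ᵥ e5 = y 0 := by
  unfold e5
  rw [dotProduct_single, mul_one]

theorem dot_h5 (y : Fin (4 + 1) → ℝ) : y ⬝ᵥ h5 = 5 / 2 * av y := by
  unfold h5 dotProduct av
  rw [← Finset.sum_mul]
  ring

theorem e5_sq : e5 ⬝ᵥ e5 = 1 := by
  rw [dot_e5]
  simp [e5]

theorem av_h5 : av h5 = 1 / 2 := by
  unfold av h5
  rw [Fin.sum_univ_five]
  norm_num

theorem h5_sq : h5 ⬝ᵥ h5 = 5 / 4 := by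
  rw [dot_h5, av_h5]
  norm_num

theorem e5_ne : e5 ≠ 0 := fun h => by
  have := e5_sq
  rw [h, zero_dotProduct] at this
  norm_num at this

theorem h5_ne : h5 ≠ 0 := fun h => by
  have := h5_sq
  rw [h, zero_dotProduct] at this
  norm_num at this

theorem len_e5 : len e5 = 1 := by
  unfold len
  rw [e5_sq, Real.sqrt_one]

theorem len_h5_sq : len h5 * len h5 = 5 / 4 := by
  unfold len
  rw [h5_sq]
  exact Real.mul_self_sqrt (by norm_num)

theorem av_cont : Continuous av := by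
  unfold av
  fun_prop

theorem av_smul (t : ℝ) (y : Fin (4 + 1) → ℝ) : av (t • y) = t * av y := by
  unfold av
  simp only [Pi.smul_apply, smul_eq_mul]
  rw [← Finset.mul_sum]
  ring

theorem pt_e5 (z : Fin 4 → ℝ) : pt e5 (len e5 / 2) z 0 = 1 / 2 := by
  rw [← dot_e5 (pt e5 (len e5 / 2) z), pt_dot_l, len_e5]
  norm_num

theorem pt_h5 (z : Fin 4 → ℝ) : av (pt h5 (len h5 / 2) z) = 1 / 4 := by
  have h := dot_h5 (pt h5 (len h5 / 2) z)
  rw [pt_dot_l] at h
  have h2 := len_h5_sq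
  linarith

theorem intg {f : (Fin (4 + 1) → ℝ) → ℝ} (hf : Continuous f) (l : Fin (4 + 1) → ℝ) :
    IntegrableOn f (Cn D5s l) :=
  (hf.continuousOn.integrableOn_compact (PP_compact D5s_good)).mono_set fun _ hy => hy.1

theorem cadd {f g : (Fin (4 + 1) → ℝ) → ℝ} (hf : Continuous f) (hg : Continuous g) :
    Continuous fun y => f y + g y := hf.add hg

theorem add_int {f g : (Fin (4 + 1) → ℝ) → ℝ} (hf : Continuous f) (hg : Continuous g) :
    (∫ y in Cn D5s h5, f y) + ∫ y in Cn D5s h5, g y = ∫ y in Cn D5s h5, (f y + g y) :=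
  (integral_add (intg hf h5) (intg hg h5)).symm

theorem sub_int {f g : (Fin (4 + 1) → ℝ) → ℝ} (hf : Continuous f) (hg : Continuous g) :
    (∫ y in Cn D5s h5, f y) - ∫ y in Cn D5s h5, g y = ∫ y in Cn D5s h5, (f y - g y) :=
  (integral_sub (intg hf h5) (intg hg h5)).symm

theorem mul_int (c : ℝ) (f : (Fin (4 + 1) → ℝ) → ℝ) :
    c * ∫ y in Cn D5s h5, f y = ∫ y in Cn D5s h5, c * f y :=
  (integral_const_mul c f).symm

theorem perm_int (σ : Equiv.Perm (Fin (4 + 1))) (f : (Fin (4 + 1) → ℝ) → ℝ) :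
    ∫ y in Cn D5s h5, f (y ∘ σ) = ∫ y in Cn D5s h5, f y := by
  have h := cone_aut (aut_perm σ) h5 f
  simp only [permMatrix_mulVec] at h
  exact h.symm

theorem av_perm (σ : Equiv.Perm (Fin (4 + 1))) (y : Fin (4 + 1) → ℝ) : av (y ∘ σ) = av y := by
  unfold av
  rw [← Equiv.sum_comp σ y]
  rfl

/-- the moments of the deviations from the mean -/
noncomputable def II (i j : Fin (4 + 1)) : ℝ :=
  ∫ y in Cn D5s h5, (y i - av y) * (y j - av y)

theorem II_perm (σ : Equiv.Perm (Fin (4 + 1))) (i j : Fin (4 + 1)) : II (σ i) (σ j) = II i j := by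
  have h := perm_int σ (fun y => (y i - av y) * (y j - av y))
  simp only [av_perm] at h
  exact h

theorem II_cont (i j : Fin (4 + 1)) :
    Continuous fun y : Fin (4 + 1) → ℝ => (y i - av y) * (y j - av y) := by
  have := av_cont
  fun_prop

theorem II_diag (i : Fin (4 + 1)) : II i i = sB := by
  have h := II_perm (Equiv.swap 0 i) 0 0
  rw [Equiv.swap_apply_left] at h
  rw [h]
  unfold II sB
  refine integral_congr_ae (Filter.Eventually.of_forall fun y => ?_)
  show (y 0 - av y) * (y 0 - av y) = (y 0 - av y) ^ 2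
  ring

theorem II_off {j : Fin (4 + 1)} (hj : j ≠ 0) : II 0 j = II 0 1 := by
  have h := II_perm (Equiv.swap 1 j) 0 1
  rw [Equiv.swap_apply_left, Equiv.swap_apply_of_ne_of_ne (by decide) hj.symm] at h
  exact h

theorem II_01 : II 0 1 = -(sB / 4) := by
  have h : II 0 0 + II 0 1 + II 0 2 + II 0 3 + II 0 4 = 0 := by
    unfold II
    rw [add_int (II_cont 0 0) (II_cont 0 1),
      add_int (cadd (II_cont 0 0) (II_cont 0 1)) (II_cont 0 2),
      add_int (cadd (cadd (II_cont 0 0) (II_cont 0 1)) (II_cont 0 2)) (II_cont 0 3),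
      add_int (cadd (cadd (cadd (II_cont 0 0) (II_cont 0 1)) (II_cont 0 2)) (II_cont 0 3))
        (II_cont 0 4)]
    have e : ∀ y : Fin (4 + 1) → ℝ, (y 0 - av y) * (y 0 - av y) + (y 0 - av y) * (y 1 - av y) +
        (y 0 - av y) * (y 2 - av y) + (y 0 - av y) * (y 3 - av y) +
        (y 0 - av y) * (y 4 - av y) = 0 := fun y => by
      unfold av
      rw [Fin.sum_univ_five]
      ring
    simp only [e]
    simp
  rw [II_off (by decide : (2 : Fin (4 + 1)) ≠ 0), II_off (by decide : (3 : Fin (4 + 1)) ≠ 0),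
    II_off (by decide : (4 : Fin (4 + 1)) ≠ 0), II_diag] at h
  linarith

end V6

open V6

theorem gA_eq : gA = 5 / 28 * vA := by
  unfold gA vA
  rw [cone_formula D5s_good e5_mem e5_ne (f := fun y => y 0 ^ 2) (by fun_prop)
    (fun t y => by simp only [Pi.smul_apply, smul_eq_mul]; ring),
    cone_vol D5s_good e5_mem e5_ne]
  simp only [pt_e5]
  rw [setIntegral_const, len_e5]
  unfold aF Measure.real
  rw [smul_eq_mul]
  push_cast
  ring

theorem gB_eq : gB = 25 / 112 * vB := by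
  unfold gB vB
  have hc := av_cont
  rw [cone_formula D5s_good h5_mem h5_ne (f := fun y => 5 * av y ^ 2) (by fun_prop)
    (fun t y => by rw [av_smul]; ring), cone_vol D5s_good h5_mem h5_ne]
  simp only [pt_h5]
  rw [setIntegral_const]
  unfold aF Measure.real
  rw [smul_eq_mul]
  push_cast
  ring

theorem sB_le : sB ≤ vB / 42 := by
  -- five times the integral
  have h1 : 5 * sB = ∫ y in Cn D5s h5, (y ⬝ᵥ y - 5 * av y ^ 2) := by
    have h : II 0 0 + II 1 1 + II 2 2 + II 3 3 + II 4 4 =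
        ∫ y in Cn D5s h5, (y ⬝ᵥ y - 5 * av y ^ 2) := by
      unfold II
      rw [add_int (II_cont 0 0) (II_cont 1 1),
        add_int (cadd (II_cont 0 0) (II_cont 1 1)) (II_cont 2 2),
        add_int (cadd (cadd (II_cont 0 0) (II_cont 1 1)) (II_cont 2 2)) (II_cont 3 3),
        add_int (cadd (cadd (cadd (II_cont 0 0) (II_cont 1 1)) (II_cont 2 2)) (II_cont 3 3))
          (II_cont 4 4)]
      refine integral_congr_ae (Filter.Eventually.of_forall fun y => ?_)
      show (y 0 - av y) * (y 0 - av y) + (y 1 - av y) * (y 1 - av y) +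
        (y 2 - av y) * (y 2 - av y) + (y 3 - av y) * (y 3 - av y) +
        (y 4 - av y) * (y 4 - av y) = y ⬝ᵥ y - 5 * av y ^ 2
      unfold av dotProduct
      rw [Fin.sum_univ_five, Fin.sum_univ_five]
      ring
    rw [II_diag, II_diag, II_diag, II_diag, II_diag] at h
    linarith
  have hc := av_cont
  have hd : Continuous fun y : Fin (4 + 1) → ℝ => y ⬝ᵥ y := by
    unfold dotProduct
    fun_prop
  rw [cone_formula D5s_good h5_mem h5_ne (f := fun y => y ⬝ᵥ y - 5 * av y ^ 2)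
    (hd.sub (by fun_prop))
    (fun t y => by rw [av_smul, smul_dotProduct, dotProduct_smul, smul_eq_mul, smul_eq_mul]; ring)]
    at h1
  have h2 : ∀ z : Fin 4 → ℝ, pt h5 (len h5 / 2) z ⬝ᵥ pt h5 (len h5 / 2) z -
      5 * av (pt h5 (len h5 / 2) z) ^ 2 = z ⬝ᵥ z := fun z => by
    rw [pt_h5, pt_dot]
    have := len_h5_sq
    linarith
  simp only [h2] at h1
  have h3 : 6 * ∫ z in Fc D5s h5, z ⬝ᵥ z ≤ aF D5s h5 := by
    have hr : ∀ z ∈ Fc D5s h5, z ⬝ᵥ z ≤ 1 / 4 := fun z hz => by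
      have := Fc_ball D5s_good h5_mem h5_ne hz
      rw [h5_sq] at this
      linarith
    rcases (Fc D5s h5).eq_empty_or_nonempty with he | ⟨z, hz⟩
    · unfold aF
      rw [he]
      simp
    · have h0 : (0 : Fin 4 → ℝ) ∈ Fc D5s h5 := by
        have hn := Fc_neg h5_mem h5_ne hz
        have := Fc_convex (L := D5s) h5 hz hn (a := 1 / 2) (b := 1 / 2) (by norm_num)
          (by norm_num) (by norm_num)
        rwa [smul_neg, add_neg_cancel] at this
      have h4 := ball_le (Fc_compact D5s_good h5) (Fc_convex h5) h0 hr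
      unfold aF
      push_cast at h4
      linarith
  have h5v : vB = len h5 / (2 * ((4 : ℕ) + 1)) * aF D5s h5 := cone_vol D5s_good h5_mem h5_ne
  have hl : 0 ≤ len h5 := Real.sqrt_nonneg _
  have h6 : len h5 * (6 * ∫ z in Fc D5s h5, z ⬝ᵥ z) ≤ len h5 * aF D5s h5 :=
    mul_le_mul_of_nonneg_left h3 hl
  push_cast at h1 h5v
  rw [h5v]
  linarith

/-- symmetry in the cone of `h5` -/
theorem cB_pair : ∫ y in Cn D5s h5, ((y 0 - av y) + (y 1 - av y)) ^ 2 = 3 / 2 * sB ∧
    ∫ y in Cn D5s h5, ((y 0 - av y) - (y 1 - av y)) ^ 2 = 5 / 2 * sB := by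
  have e0 := II_diag 0
  have e1 := II_diag 1
  have e2 := II_01
  constructor
  · have h : ∫ y in Cn D5s h5, ((y 0 - av y) + (y 1 - av y)) ^ 2 =
        II 0 0 + II 1 1 + 2 * II 0 1 := by
      unfold II
      rw [mul_int 2, add_int (II_cont 0 0) (II_cont 1 1),
        add_int (cadd (II_cont 0 0) (II_cont 1 1)) ((II_cont 0 1).const_mul 2)]
      refine integral_congr_ae (Filter.Eventually.of_forall fun y => ?_)
      show ((y 0 - av y) + (y 1 - av y)) ^ 2 = (y 0 - av y) * (y 0 - av y) +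
        (y 1 - av y) * (y 1 - av y) + 2 * ((y 0 - av y) * (y 1 - av y))
      ring
    rw [h, e0, e1, e2]
    ring
  · have h : ∫ y in Cn D5s h5, ((y 0 - av y) - (y 1 - av y)) ^ 2 =
        II 0 0 + II 1 1 - 2 * II 0 1 := by
      unfold II
      rw [mul_int 2, add_int (II_cont 0 0) (II_cont 1 1),
        sub_int (cadd (II_cont 0 0) (II_cont 1 1)) ((II_cont 0 1).const_mul 2)]
      refine integral_congr_ae (Filter.Eventually.of_forall fun y => ?_)
      show ((y 0 - av y) - (y 1 - av y)) ^ 2 = (y 0 - av y) * (y 0 - av y) +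
        (y 1 - av y) * (y 1 - av y) - 2 * ((y 0 - av y) * (y 1 - av y))
      ring
    rw [h, e0, e1, e2]
    ring

end Pool.Agent.H99G
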