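import Pool.Agent.H99G.V1

set_option autoImplicit false

/-!
# `D5*`: explicit integrals in the cone of a unit vector
-/

namespace Pool.Agent.H99G

open MeasureTheory Matrix

/-- adding a first coordinate -/
private def v7c {n : ℕ} (q : ℝ × (Fin n → ℝ)) : Fin (n + 1) → ℝ := Fin.cons q.1 q.2

private theorem v7c_eq (n : ℕ) : (v7c (n := n)) =
    (MeasurableEquiv.piFinSuccAbove (fun _ : Fin (n + 1) => ℝ) 0).symm := by
  funext q
  simp [v7c, MeasurableEquiv.piFinSuccAbove, Fin.insertNthEquiv]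

private theorem v7c_mp (n : ℕ) : MeasurePreserving (v7c (n := n)) volume volume := by
  rw [v7c_eq]
  exact (volume_preserving_piFinSuccAbove (fun _ : Fin (n + 1) => ℝ) 0).symm

private theorem v7c_emb (n : ℕ) : MeasurableEmbedding (v7c (n := n)) := by
  rw [v7c_eq]
  exact (MeasurableEquiv.piFinSuccAbove (fun _ : Fin (n + 1) => ℝ) 0).symm.measurableEmbedding

private theorem v7_int {n : ℕ} {F : (Fin (n + 1) → ℝ) → ℝ} (hF : Integrable F) :
    Integrable (fun q : ℝ × (Fin n → ℝ) => F (v7c q)) (volume.prod volume) := by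
  rw [← Measure.volume_eq_prod]
  exact ((v7c_mp n).integrable_comp_emb (v7c_emb n)).2 hF

private theorem v7_fub {n : ℕ} {F : (Fin (n + 1) → ℝ) → ℝ} (hF : Integrable F) :
    ∫ y, F y = ∫ t, ∫ z, F (v7c (t, z)) := by
  have h1 : ∫ q, F (v7c q) = ∫ y, F y := (v7c_mp n).integral_comp (v7c_emb n) _
  rw [← h1, Measure.volume_eq_prod, integral_prod _ (v7_int hF)]

/-- the ball of the `1`-norm -/
private def LB (n : ℕ) (r : ℝ) : Set (Fin n → ℝ) := {z | ∑ i, |z i| ≤ r}

private theorem LB_compact (n : ℕ) (r : ℝ) : IsCompact (LB n r) := by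
  refine Metric.isCompact_of_isClosed_isBounded ?_ ?_
  · exact isClosed_le (continuous_finsetSum _ fun i _ => (continuous_apply i).abs)
      continuous_const
  · refine (Metric.isBounded_closedBall (x := (0 : Fin n → ℝ)) (r := r)).subset ?_
    intro z hz
    have hz' : ∑ i, |z i| ≤ r := hz
    have h0 : 0 ≤ ∑ i, |z i| := Finset.sum_nonneg fun i _ => abs_nonneg _
    rw [mem_closedBall_zero_iff, pi_norm_le_iff_of_nonneg (h0.trans hz')]
    intro i
    rw [Real.norm_eq_abs]
    exact (Finset.single_le_sum (f := fun i => |z i|) (fun j _ => abs_nonneg _)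
      (Finset.mem_univ i)).trans hz'

private theorem LB_vol {n : ℕ} [NeZero n] {r : ℝ} (hr : 0 ≤ r) :
    (volume (LB n r)).toReal = r ^ n * (2 ^ n / (n.factorial : ℝ)) := by
  have : Nonempty (Fin n) := ⟨0⟩
  have h := MeasureTheory.volume_sum_rpow_le (ι := Fin n) (p := 1) le_rfl r
  have h2 : {x : Fin n → ℝ | (∑ i, |x i| ^ (1 : ℝ)) ^ (1 / (1 : ℝ)) ≤ r} = LB n r := by
    ext x
    simp [LB, Real.rpow_one]
  have h3 : (1 / (1 : ℝ) + 1) = 2 := by norm_num
  rw [h2, h3, Real.Gamma_two, mul_one, Fintype.card_fin, div_one,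
    Real.Gamma_nat_eq_factorial] at h
  rw [h, ENNReal.toReal_mul, ENNReal.toReal_pow, ENNReal.toReal_ofReal hr,
    ENNReal.toReal_ofReal (by positivity)]

private theorem LB_vol3 {r : ℝ} (hr : 0 ≤ r) : (volume (LB 3 r)).toReal = 4 / 3 * r ^ 3 := by
  rw [LB_vol hr]
  norm_num [Nat.factorial]
  ring

private theorem LB_vol4 {r : ℝ} (hr : 0 ≤ r) : (volume (LB 4 r)).toReal = 2 / 3 * r ^ 4 := by
  rw [LB_vol hr]
  norm_num [Nat.factorial]
  ring

private theorem LB_cons {n : ℕ} {r t : ℝ} {z : Fin n → ℝ} :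
    v7c (t, z) ∈ LB (n + 1) r ↔ z ∈ LB n (r - |t|) := by
  have h1 : ∑ i, |(v7c (t, z)) i| = |t| + ∑ i, |z i| := by
    rw [Fin.sum_univ_succ]
    rfl
  unfold LB
  rw [Set.mem_ofPred_eq, Set.mem_ofPred_eq, h1]
  constructor <;> intro h <;> linarith

private theorem v7_poly (r : ℝ) : ∫ s in (0 : ℝ)..r, s ^ 2 * (4 / 3 * (r - s) ^ 3) =
    1 / 45 * r ^ 6 := by
  have h : ∀ s : ℝ, s ^ 2 * (4 / 3 * (r - s) ^ 3) =
      4 / 3 * r ^ 3 * s ^ 2 - 4 * r ^ 2 * s ^ 3 + 4 * r * s ^ 4 - 4 / 3 * s ^ 5 := by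
    intro s
    ring
  simp only [h]
  rw [intervalIntegral.integral_sub, intervalIntegral.integral_add, intervalIntegral.integral_sub,
    intervalIntegral.integral_const_mul, intervalIntegral.integral_const_mul,
    intervalIntegral.integral_const_mul, intervalIntegral.integral_const_mul, integral_pow,
    integral_pow, integral_pow, integral_pow]
  · push_cast
    ring
  all_goals exact Continuous.intervalIntegrable (by fun_prop) _ _

private theorem v7_moment {r : ℝ} (hr : 0 ≤ r) : ∫ z in LB 4 r, z 0 ^ 2 = 2 / 45 * r ^ 6 := by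
  have hcont : Continuous fun z : Fin 4 → ℝ => z 0 ^ 2 := by fun_prop
  have hint : Integrable ((LB 4 r).indicator fun z : Fin 4 → ℝ => z 0 ^ 2) :=
    (integrable_indicator_iff (LB_compact 4 r).measurableSet).2
      (hcont.continuousOn.integrableOn_compact (LB_compact 4 r))
  rw [← integral_indicator (LB_compact 4 r).measurableSet, v7_fub hint]
  have h1 : ∀ t : ℝ, ∫ z : Fin 3 → ℝ, (LB 4 r).indicator (fun z => z 0 ^ 2) (v7c (t, z)) =
      (Set.Iic r).indicator (fun s => s ^ 2 * (4 / 3 * (r - s) ^ 3)) |t| := by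
    intro t
    have h2 : ∀ z : Fin 3 → ℝ, (LB 4 r).indicator (fun z => z 0 ^ 2) (v7c (t, z)) =
        (LB 3 (r - |t|)).indicator (fun _ => t ^ 2) z := by
      intro z
      by_cases hz : z ∈ LB 3 (r - |t|)
      · rw [Set.indicator_of_mem hz, Set.indicator_of_mem (LB_cons.2 hz)]
        rfl
      · rw [Set.indicator_of_notMem hz, Set.indicator_of_notMem fun h => hz (LB_cons.1 h)]
    simp only [h2]
    rw [integral_indicator (LB_compact _ _).measurableSet, setIntegral_const]
    by_cases ht : |t| ≤ r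
    · rw [Set.indicator_of_mem (Set.mem_Iic.2 ht), Measure.real, LB_vol3 (by linarith),
        smul_eq_mul, sq_abs]
      ring
    · rw [Set.indicator_of_notMem fun h => ht (Set.mem_Iic.1 h)]
      have h3 : LB 3 (r - |t|) = ∅ := by
        rw [Set.eq_empty_iff_forall_notMem]
        intro z hz
        have hz' : ∑ i, |z i| ≤ r - |t| := hz
        have h0 : 0 ≤ ∑ i, |z i| := Finset.sum_nonneg fun i _ => abs_nonneg _
        exact ht (by linarith)
      rw [h3]
      simp
  simp only [h1]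
  rw [integral_comp_abs (f := (Set.Iic r).indicator (fun s => s ^ 2 * (4 / 3 * (r - s) ^ 3))),
    setIntegral_indicator measurableSet_Iic, Set.Ioi_inter_Iic,
    ← intervalIntegral.integral_of_le hr, v7_poly]
  ring

/-! ### the cone -/

private theorem v7_meas : MeasurableSet (Cn D5s e5) := by
  have h1 : Cn D5s e5 = {y | 0 < y 0} ∩ ({y | y 0 ≤ 1 / 2} ∩
      ((⋂ i, {y : Fin (4 + 1) → ℝ | |y i| ≤ y 0}) ∩ {y | 2 * ∑ i, |y i| ≤ 5 * y 0})) := by
    ext y
    rw [mem_CnA]
    simp only [Set.mem_inter_iff, Set.mem_ofPred_eq, Set.mem_iInter]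
  have hc : Continuous fun y : Fin (4 + 1) → ℝ => y 0 := continuous_apply 0
  rw [h1]
  refine (isOpen_lt continuous_const hc).measurableSet.inter
    ((isClosed_le hc continuous_const).measurableSet.inter
      ((MeasurableSet.iInter fun i => ?_).inter ?_))
  · exact (isClosed_le (continuous_apply i).abs hc).measurableSet
  · exact (isClosed_le (continuous_const.mul
      (continuous_finsetSum _ fun i _ => (continuous_apply i).abs))
      (continuous_const.mul hc)).measurableSet

/-- the larger cone -/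
private def v7K : Set (Fin (4 + 1) → ℝ) :=
  {y | 0 < y 0 ∧ y 0 ≤ 1 / 2 ∧ ∑ j : Fin 4, |y j.succ| ≤ 3 / 2 * y 0}

private theorem v7K_meas : MeasurableSet v7K := by
  have hc : Continuous fun y : Fin (4 + 1) → ℝ => y 0 := continuous_apply 0
  refine (isOpen_lt continuous_const hc).measurableSet.inter
    ((isClosed_le hc continuous_const).measurableSet.inter
      (isClosed_le (continuous_finsetSum _ fun j _ => (continuous_apply j.succ).abs)
        (continuous_const.mul hc)).measurableSet)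

private theorem v7_sub : Cn D5s e5 ⊆ v7K := by
  intro y hy
  obtain ⟨h1, h2, h3, h4⟩ := mem_CnA.1 hy
  rw [Fin.sum_univ_succ, abs_of_pos h1] at h4
  exact ⟨h1, h2, by linarith⟩

private theorem v7K_bdd : v7K ⊆ Metric.closedBall (0 : Fin (4 + 1) → ℝ) 1 := by
  rintro y ⟨h1, h2, h3⟩
  rw [mem_closedBall_zero_iff, pi_norm_le_iff_of_nonneg zero_le_one]
  intro i
  rw [Real.norm_eq_abs]
  refine Fin.cases ?_ (fun j => ?_) i
  · rw [abs_of_pos h1]
    linarith
  · have h4 := Finset.single_le_sum (f := fun j : Fin 4 => |y j.succ|)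
      (fun j _ => abs_nonneg _) (Finset.mem_univ j)
    linarith

private theorem v7K_int {F : (Fin (4 + 1) → ℝ) → ℝ} (hF : Continuous F) :
    IntegrableOn F v7K :=
  (hF.continuousOn.integrableOn_compact (isCompact_closedBall 0 1)).mono_set v7K_bdd

private theorem v7K_cons {t : ℝ} {z : Fin 4 → ℝ} :
    v7c (t, z) ∈ v7K ↔ t ∈ Set.Ioc (0 : ℝ) (1 / 2) ∧ z ∈ LB 4 (3 / 2 * t) := by
  unfold v7K LB
  rw [Set.mem_ofPred_eq, Set.mem_ofPred_eq, Set.mem_Ioc, and_assoc]
  rfl

theorem aA_le : aA ≤ 1458 / 2580480 := by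
  have hc : Continuous fun y : Fin (4 + 1) → ℝ => y 1 ^ 2 := by fun_prop
  have h1 : aA ≤ ∫ y in v7K, y 1 ^ 2 :=
    setIntegral_mono_set (v7K_int hc) (Filter.Eventually.of_forall fun y => sq_nonneg _)
      (Filter.Eventually.of_forall v7_sub)
  have hint : Integrable (v7K.indicator fun y : Fin (4 + 1) → ℝ => y 1 ^ 2) :=
    (integrable_indicator_iff v7K_meas).2 (v7K_int hc)
  have h2 : ∀ t : ℝ, ∫ z : Fin 4 → ℝ, v7K.indicator (fun y => y 1 ^ 2) (v7c (t, z)) =
      (Set.Ioc (0 : ℝ) (1 / 2)).indicator (fun t => 2 / 45 * (3 / 2 * t) ^ 6) t := by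
    intro t
    by_cases ht : t ∈ Set.Ioc (0 : ℝ) (1 / 2)
    · rw [Set.indicator_of_mem ht, ← v7_moment (by have := ht.1; positivity),
        ← integral_indicator (LB_compact _ _).measurableSet]
      refine integral_congr_ae (Filter.Eventually.of_forall fun z => ?_)
      show v7K.indicator (fun y => y 1 ^ 2) (v7c (t, z)) =
        (LB 4 (3 / 2 * t)).indicator (fun z => z 0 ^ 2) z
      by_cases hz : z ∈ LB 4 (3 / 2 * t)
      · rw [Set.indicator_of_mem hz, Set.indicator_of_mem (v7K_cons.2 ⟨ht, hz⟩)]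
        rfl
      · rw [Set.indicator_of_notMem hz, Set.indicator_of_notMem fun h => hz (v7K_cons.1 h).2]
    · rw [Set.indicator_of_notMem ht]
      have h3 : ∀ z : Fin 4 → ℝ, v7K.indicator (fun y => y 1 ^ 2) (v7c (t, z)) = 0 := fun z =>
        Set.indicator_of_notMem (fun h => ht (v7K_cons.1 h).1) _
      simp only [h3, integral_zero]
  rw [← integral_indicator v7K_meas, v7_fub hint] at h1
  simp only [h2] at h1
  rw [integral_indicator measurableSet_Ioc, ← intervalIntegral.integral_of_le (by norm_num)] at h1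
  simp only [mul_pow] at h1
  rw [intervalIntegral.integral_const_mul, intervalIntegral.integral_const_mul, integral_pow] at h1
  refine h1.trans (le_of_eq ?_)
  norm_num

/-- the slice of the cone -/
private theorem v7_slice {t : ℝ} (ht : t ∈ Set.Ioc (0 : ℝ) (1 / 2)) :
    73 / 24 * t ^ 4 ≤ (volume {z : Fin 4 → ℝ | v7c (t, z) ∈ Cn D5s e5}).toReal := by
  have ht0 := ht.1
  set S : Set (Fin 4 → ℝ) := {z | v7c (t, z) ∈ Cn D5s e5} with hS
  let T : Fin 4 × Bool → (Fin 4 → ℝ) := fun p => if p.2 then Pi.single p.1 t else Pi.single p.1 (-t)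
  have hmem : ∀ z : Fin 4 → ℝ, z ∈ S ↔ (∀ j, |z j| ≤ t) ∧ ∑ j, |z j| ≤ 3 / 2 * t := by
    intro z
    rw [hS, Set.mem_ofPred_eq, mem_CnA]
    have e0 : v7c (t, z) 0 = t := rfl
    have e1 : ∀ j : Fin 4, v7c (t, z) j.succ = z j := fun j => rfl
    rw [Fin.sum_univ_succ, Fin.forall_fin_succ, e0, abs_of_pos ht0]
    simp only [e1]
    constructor
    · rintro ⟨_, _, ⟨_, h1⟩, h2⟩
      exact ⟨h1, by linarith⟩
    · rintro ⟨h1, h2⟩
      exact ⟨ht0, ht.2, ⟨le_rfl, h1⟩, by linarith⟩
  have hcov : LB 4 (3 / 2 * t) ⊆ S ∪ ⋃ p : Fin 4 × Bool, (fun z => z - T p) ⁻¹' LB 4 (t / 2) := by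
    intro z hz
    have hz' : ∑ j, |z j| ≤ 3 / 2 * t := hz
    by_cases h : ∀ j, |z j| ≤ t
    · exact Or.inl ((hmem z).2 ⟨h, hz'⟩)
    · right
      push Not at h
      obtain ⟨j, hj⟩ := h
      rw [← Finset.add_sum_erase _ _ (Finset.mem_univ j)] at hz'
      rcases le_or_gt 0 (z j) with h0 | h0
      · refine Set.mem_iUnion.2 ⟨(j, true), ?_⟩
        show ∑ i, |(z - T (j, true)) i| ≤ t / 2
        rw [← Finset.add_sum_erase _ _ (Finset.mem_univ j)]
        have e1 : (z - T (j, true)) j = z j - t := by simp [T]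
        have e2 : ∀ i ∈ Finset.univ.erase j, |(z - T (j, true)) i| = |z i| := by
          intro i hi
          simp [T, Pi.single_eq_of_ne (Finset.ne_of_mem_erase hi)]
        rw [abs_of_nonneg h0] at hj hz'
        rw [Finset.sum_congr rfl e2, e1, abs_of_pos (by linarith)]
        linarith
      · refine Set.mem_iUnion.2 ⟨(j, false), ?_⟩
        show ∑ i, |(z - T (j, false)) i| ≤ t / 2
        rw [← Finset.add_sum_erase _ _ (Finset.mem_univ j)]
        have e1 : (z - T (j, false)) j = z j + t := by simp [T]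
        have e2 : ∀ i ∈ Finset.univ.erase j, |(z - T (j, false)) i| = |z i| := by
          intro i hi
          simp [T, Pi.single_eq_of_ne (Finset.ne_of_mem_erase hi)]
        rw [abs_of_neg h0] at hj hz'
        rw [Finset.sum_congr rfl e2, e1, abs_of_neg (by linarith)]
        linarith
  have hfin : volume (LB 4 (t / 2)) ≠ ⊤ := (LB_compact _ _).measure_lt_top.ne
  have hSfin : volume S ≠ ⊤ := by
    refine ne_top_of_le_ne_top (LB_compact 4 (3 / 2 * t)).measure_lt_top.ne (measure_mono ?_)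
    intro z hz
    exact ((hmem z).1 hz).2
  have h1 : volume (LB 4 (3 / 2 * t)) ≤ volume S + 8 * volume (LB 4 (t / 2)) := by
    refine (measure_mono hcov).trans ((measure_union_le _ _).trans ?_)
    gcongr
    refine (measure_iUnion_fintype_le _ _).trans ?_
    have h2 : ∀ p : Fin 4 × Bool, volume ((fun z => z - T p) ⁻¹' LB 4 (t / 2)) =
        volume (LB 4 (t / 2)) := fun p => by
      simp only [sub_eq_add_neg]
      exact measure_preimage_add_right volume (-T p) _
    simp only [h2, Finset.sum_const, Finset.card_univ, Fintype.card_prod, Fintype.card_fin,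
      Fintype.card_bool, nsmul_eq_mul]
    norm_num
  have h3 := ENNReal.toReal_mono (ENNReal.add_ne_top.2
    ⟨hSfin, ENNReal.mul_ne_top (by norm_num) hfin⟩) h1
  rw [ENNReal.toReal_add hSfin (ENNReal.mul_ne_top (by norm_num) hfin), ENNReal.toReal_mul,
    LB_vol4 (by positivity), LB_vol4 (by positivity)] at h3
  have h4 : (8 : ENNReal).toReal = 8 := by norm_num
  rw [h4] at h3
  nlinarith

theorem vA_ge : 73 / 3840 ≤ vA := by
  have hK : IntegrableOn (fun _ : Fin (4 + 1) → ℝ => (1 : ℝ)) (Cn D5s e5) :=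
    (v7K_int continuous_const).mono_set v7_sub
  have hint : Integrable ((Cn D5s e5).indicator fun _ : Fin (4 + 1) → ℝ => (1 : ℝ)) :=
    (integrable_indicator_iff v7_meas).2 hK
  have h0 : vA = ∫ y, (Cn D5s e5).indicator (fun _ => (1 : ℝ)) y := by
    rw [integral_indicator v7_meas, setIntegral_const, smul_eq_mul, mul_one]
    rfl
  rw [h0, v7_fub hint]
  have h1 : ∫ t : ℝ, (Set.Ioc (0 : ℝ) (1 / 2)).indicator (fun t => 73 / 24 * t ^ 4) t =
      73 / 3840 := by
    rw [integral_indicator measurableSet_Ioc, ← intervalIntegral.integral_of_le (by norm_num),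
      intervalIntegral.integral_const_mul, integral_pow]
    norm_num
  rw [← h1]
  refine integral_mono ?_ (v7_int hint).integral_prod_left fun t => ?_
  · refine (integrable_indicator_iff measurableSet_Ioc).2 ?_
    exact ((Continuous.continuousOn (by fun_prop)).integrableOn_compact
      (isCompact_Icc (a := (0 : ℝ)) (b := 1 / 2))).mono_set Set.Ioc_subset_Icc_self
  · have h2 : ∀ z : Fin 4 → ℝ, (Cn D5s e5).indicator (fun _ => (1 : ℝ)) (v7c (t, z)) =
        {z : Fin 4 → ℝ | v7c (t, z) ∈ Cn D5s e5}.indicator (fun _ => (1 : ℝ)) z := fun z => rfl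
    have hm : MeasurableSet {z : Fin 4 → ℝ | v7c (t, z) ∈ Cn D5s e5} := by
      have h3 : Measurable fun z : Fin 4 → ℝ => v7c (t, z) :=
        (v7c_mp 4).measurable.comp measurable_prodMk_left
      exact h3 v7_meas
    show (Set.Ioc (0 : ℝ) (1 / 2)).indicator (fun t => 73 / 24 * t ^ 4) t ≤
      ∫ z, (Cn D5s e5).indicator (fun _ => (1 : ℝ)) (v7c (t, z))
    simp only [h2]
    rw [integral_indicator hm, setIntegral_const, smul_eq_mul, mul_one, Measure.real]
    by_cases ht : t ∈ Set.Ioc (0 : ℝ) (1 / 2)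
    · rw [Set.indicator_of_mem ht]
      exact v7_slice ht
    · rw [Set.indicator_of_notMem ht]
      exact ENNReal.toReal_nonneg

end Pool.Agent.H99G
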