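import Pool.Agent.H99G.Cel

set_option autoImplicit false

/-!
# The cones cover the cell
-/

namespace Pool.Agent.H99G

open MeasureTheory Matrix Filter Topology

variable {m : ℕ} {L : AddSubgroup (Fin (m + 1) → ℝ)} {μ : ℝ}

private theorem cv_cs (y l : Fin (m + 1) → ℝ) : (y ⬝ᵥ l) ^ 2 ≤ (y ⬝ᵥ y) * (l ⬝ᵥ l) := by
  have h := Finset.sum_mul_sq_le_sq_mul_sq Finset.univ y l
  simp only [dotProduct]
  simpa only [sq] using h

private theorem cv_nn (y : Fin (m + 1) → ℝ) : 0 ≤ y ⬝ᵥ y :=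
  Finset.sum_nonneg fun i _ => mul_self_nonneg (y i)

private theorem cv_pos {y : Fin (m + 1) → ℝ} (hy : y ≠ 0) : 0 < y ⬝ᵥ y :=
  lt_of_le_of_ne (cv_nn y) fun h => hy (dotProduct_self_eq_zero.1 h.symm)

/-- the largest multiple of a point in the cell -/
private theorem cv_max (h : Good L μ) {y : Fin (m + 1) → ℝ} (hy : y ∈ PP L) (hy0 : y ≠ 0) :
    ∃ c : ℝ, 0 < c ∧ c • y ∈ PP L ∧ ∀ c', c < c' → c' • y ∉ PP L := by
  have hyy := cv_pos hy0
  have hcl : IsClosed {c : ℝ | 0 ≤ c ∧ c • y ∈ PP L} := by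
    refine (isClosed_le continuous_const continuous_id).inter ?_
    exact PP_closed.preimage (continuous_id.smul continuous_const)
  have hbd : {c : ℝ | 0 ≤ c ∧ c • y ∈ PP L} ⊆ Set.Icc 0 (1 + μ / (2 * (y ⬝ᵥ y))) := by
    rintro c ⟨hc, hc'⟩
    refine ⟨hc, ?_⟩
    have h1 := PP_ball h hc'
    rw [smul_dotProduct, dotProduct_smul, smul_eq_mul, smul_eq_mul] at h1
    have h2 : c * c ≤ μ / (2 * (y ⬝ᵥ y)) := by
      rw [le_div_iff₀ (by positivity)]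
      linarith
    have h3 : 0 ≤ μ / (2 * (y ⬝ᵥ y)) := (mul_self_nonneg c).trans h2
    by_cases h4 : c ≤ 1
    · linarith
    · push Not at h4
      nlinarith
  have hcomp : IsCompact {c : ℝ | 0 ≤ c ∧ c • y ∈ PP L} :=
    isCompact_Icc.of_isClosed_subset hcl hbd
  have hne : ({c : ℝ | 0 ≤ c ∧ c • y ∈ PP L}).Nonempty := ⟨1, zero_le_one, by rwa [one_smul]⟩
  obtain ⟨c, hc, hmax⟩ := hcomp.exists_isGreatest hne
  have h1 : (1 : ℝ) ≤ c := hmax ⟨zero_le_one, by rwa [one_smul]⟩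
  refine ⟨c, by linarith, hc.2, fun c' hc' hm => ?_⟩
  have h2 : c' ≤ c := hmax ⟨by linarith, hm⟩
  linarith

private theorem cv_mem (h : Good L μ) {y : Fin (m + 1) → ℝ} (hy : y ∈ PP L) (hy0 : y ≠ 0) :
    ∃ l ∈ Lam L μ, y ∈ Cn L l := by
  obtain ⟨c, hc, hcy, hmax⟩ := cv_max h hy hy0
  have hdot : ∀ l : Fin (m + 1) → ℝ, (c • y) ⬝ᵥ l = c * (y ⬝ᵥ l) := fun l => by
    rw [smul_dotProduct, smul_eq_mul]
  by_cases hex : ∃ l ∈ Lam L μ, l ⬝ᵥ l ≤ 2 * (c * (y ⬝ᵥ l))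
  · obtain ⟨l, hl, hle⟩ := hex
    refine ⟨l, hl, hy, ?_, fun l' hl' _ => ?_⟩
    · have h1 := cv_pos ((mem_Lam h).1 hl).2.1
      have h2 : 0 < c * (y ⬝ᵥ l) := by linarith
      exact (mul_pos_iff_of_pos_left hc).1 h2
    · have h1 := hcy l' hl'
      rw [hdot] at h1
      have h2 := cv_nn l
      have h3 := cv_nn l'
      have h4 : (2 * (c * (y ⬝ᵥ l'))) * (l ⬝ᵥ l) ≤ (l' ⬝ᵥ l') * (2 * (c * (y ⬝ᵥ l))) :=
        (mul_le_mul_of_nonneg_right h1 h2).trans (mul_le_mul_of_nonneg_left hle h3)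
      have h5 : 2 * c * ((y ⬝ᵥ l') * (l ⬝ᵥ l)) ≤ 2 * c * ((y ⬝ᵥ l) * (l' ⬝ᵥ l')) := by linarith
      exact le_of_mul_le_mul_left h5 (by linarith)
  · exfalso
    push Not at hex
    have e1 : ∀ᶠ d : ℝ in 𝓝[>] 0, ∀ l ∈ Lam L μ, 2 * ((c + d) * (y ⬝ᵥ l)) < l ⬝ᵥ l := by
      rw [Filter.eventually_all_finset]
      intro l hl
      have h1 : Tendsto (fun d : ℝ => 2 * ((c + d) * (y ⬝ᵥ l))) (𝓝[>] 0)
          (𝓝 (2 * ((c + 0) * (y ⬝ᵥ l)))) := by
        refine Tendsto.mono_left (Continuous.tendsto ?_ 0) nhdsWithin_le_nhds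
        fun_prop
      rw [add_zero] at h1
      exact h1.eventually_lt_const (hex l hl)
    have e2 : ∀ᶠ d : ℝ in 𝓝[>] 0, (c + d) ^ 2 < 3 / 2 * c ^ 2 := by
      have h1 : Tendsto (fun d : ℝ => (c + d) ^ 2) (𝓝[>] 0) (𝓝 ((c + 0) ^ 2)) := by
        refine Tendsto.mono_left (Continuous.tendsto ?_ 0) nhdsWithin_le_nhds
        fun_prop
      rw [add_zero] at h1
      refine h1.eventually_lt_const ?_
      have : 0 < c ^ 2 := by positivity
      linarith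
    obtain ⟨d, ⟨h1, h2⟩, hd⟩ := ((e1.and e2).and self_mem_nhdsWithin).exists
    have hd0 : (0 : ℝ) < d := hd
    refine hmax (c + d) (by linarith) fun l hl => ?_
    rw [smul_dotProduct, smul_eq_mul]
    by_cases hl0 : l = 0
    · rw [hl0, dotProduct_zero, dotProduct_zero, mul_zero, mul_zero]
    · by_cases hlL : l ∈ Lam L μ
      · exact (h1 l hlL).le
      · have h3 : 3 * μ < l ⬝ᵥ l := by
          by_contra h'
          exact hlL ((mem_Lam h).2 ⟨hl, hl0, not_lt.1 h'⟩)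
        have h4 := PP_ball h hcy
        rw [smul_dotProduct, dotProduct_smul, smul_eq_mul, smul_eq_mul] at h4
        have h5 := cv_cs y l
        have h6 := cv_nn l
        have h7 := cv_nn y
        have h8 : (2 * ((c + d) * (y ⬝ᵥ l))) ^ 2 ≤ (l ⬝ᵥ l) ^ 2 := by
          calc (2 * ((c + d) * (y ⬝ᵥ l))) ^ 2 = 4 * (c + d) ^ 2 * (y ⬝ᵥ l) ^ 2 := by ring
            _ ≤ 4 * (c + d) ^ 2 * ((y ⬝ᵥ y) * (l ⬝ᵥ l)) :=
                mul_le_mul_of_nonneg_left h5 (by positivity)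
            _ = (c + d) ^ 2 * (4 * ((y ⬝ᵥ y) * (l ⬝ᵥ l))) := by ring
            _ ≤ (3 / 2 * c ^ 2) * (4 * ((y ⬝ᵥ y) * (l ⬝ᵥ l))) :=
                mul_le_mul_of_nonneg_right h2.le (by positivity)
            _ = 3 * (2 * (c * (c * (y ⬝ᵥ y)))) * (l ⬝ᵥ l) := by ring
            _ ≤ 3 * μ * (l ⬝ᵥ l) :=
                mul_le_mul_of_nonneg_right (mul_le_mul_of_nonneg_left h4 (by norm_num)) h6
            _ ≤ (l ⬝ᵥ l) * (l ⬝ᵥ l) := mul_le_mul_of_nonneg_right h3.le h6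
            _ = (l ⬝ᵥ l) ^ 2 := by ring
        exact (le_abs_self _).trans ((sq_le_sq₀ (abs_nonneg _) h6).1 (by rwa [sq_abs]))

theorem cover (h : Good L μ) :
    (volume (PP L)).toReal ≤ ∑ l ∈ Lam L μ, (volume (Cn L l)).toReal := by
  have hfin : volume (PP L) ≠ ⊤ := (PP_compact h).measure_lt_top.ne
  have hCfin : ∀ l ∈ Lam L μ, volume (Cn L l) ≠ ⊤ := fun l _ =>
    ne_top_of_le_ne_top hfin (measure_mono fun y hy => hy.1)
  have hsub : PP L ⊆ {0} ∪ ⋃ l ∈ Lam L μ, Cn L l := by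
    intro y hy
    by_cases hy0 : y = 0
    · exact Or.inl hy0
    · obtain ⟨l, hl, hyl⟩ := cv_mem h hy hy0
      exact Or.inr (Set.mem_biUnion hl hyl)
  have h0 : volume ({0} : Set (Fin (m + 1) → ℝ)) = 0 := measure_singleton 0
  have h1 : volume (PP L) ≤ ∑ l ∈ Lam L μ, volume (Cn L l) := by
    calc volume (PP L) ≤ volume ({0} ∪ ⋃ l ∈ Lam L μ, Cn L l) := measure_mono hsub
      _ ≤ volume ({0} : Set (Fin (m + 1) → ℝ)) + volume (⋃ l ∈ Lam L μ, Cn L l) :=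
          measure_union_le _ _
      _ ≤ 0 + ∑ l ∈ Lam L μ, volume (Cn L l) :=
          add_le_add h0.le (measure_biUnion_finset_le _ _)
      _ = ∑ l ∈ Lam L μ, volume (Cn L l) := zero_add _
  rw [← ENNReal.toReal_sum hCfin]
  exact ENNReal.toReal_mono (ENNReal.sum_ne_top.2 hCfin) h1

end Pool.Agent.H99G
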