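import Pool.Agent.H99G.Cel

set_option autoImplicit false

/-!
# The cones are almost disjoint
-/

namespace Pool.Agent.H99G

open MeasureTheory Matrix Filter Topology Set

variable {m : ℕ} {L : AddSubgroup (Fin (m + 1) → ℝ)} {μ : ℝ}

private theorem cs_cont (w : Fin (m + 1) → ℝ) : Continuous fun y : Fin (m + 1) → ℝ => y ⬝ᵥ w := by
  unfold dotProduct
  fun_prop

theorem Cn_meas (l : Fin (m + 1) → ℝ) : MeasurableSet (Cn L l) := by
  have e : Cn L l = PP L ∩ ({y | 0 < y ⬝ᵥ l} ∩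
      ⋂ l' ∈ {x : Fin (m + 1) → ℝ | x ∈ L ∧ x ≠ 0},
        {y : Fin (m + 1) → ℝ | (y ⬝ᵥ l') * (l ⬝ᵥ l) ≤ (y ⬝ᵥ l) * (l' ⬝ᵥ l')}) := by
    ext y
    simp only [Cn, Set.mem_inter_iff, Set.mem_iInter, Set.mem_ofPred_eq, and_imp]
  rw [e]
  refine PP_closed.measurableSet.inter (MeasurableSet.inter ?_ (IsClosed.measurableSet ?_))
  · exact measurableSet_lt measurable_const (cs_cont l).measurable
  · exact isClosed_biInter fun l' _ =>
      isClosed_le ((cs_cont l').mul continuous_const) ((cs_cont l).mul continuous_const)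

private theorem cs_null {v : Fin (m + 1) → ℝ} (h : v ≠ 0) :
    volume {y : Fin (m + 1) → ℝ | y ⬝ᵥ v = 0} = 0 := by
  let F : (Fin (m + 1) → ℝ) →ₗ[ℝ] ℝ :=
    { toFun := fun y => y ⬝ᵥ v
      map_add' := fun a b => add_dotProduct _ _ _
      map_smul' := fun c a => smul_dotProduct _ _ _ }
  have e : {y : Fin (m + 1) → ℝ | y ⬝ᵥ v = 0} = (LinearMap.ker F : Set (Fin (m + 1) → ℝ)) := by
    ext y
    rw [SetLike.mem_coe, LinearMap.mem_ker]
    rfl
  rw [e]
  apply Measure.addHaar_submodule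
  intro htop
  have h1 : F v = 0 := by
    have : v ∈ LinearMap.ker F := by rw [htop]; trivial
    exact this
  change v ⬝ᵥ v = 0 at h1
  exact h (dotProduct_self_eq_zero.1 h1)

private theorem cs_ne {l l' : Fin (m + 1) → ℝ} (hl : l ≠ 0) (hl' : l' ≠ 0) (h : l ≠ l') :
    (l ⬝ᵥ l) • l' - (l' ⬝ᵥ l') • l ≠ 0 := by
  intro h0
  have h1 := sub_eq_zero.1 h0
  have p1 : l ⬝ᵥ l ≠ 0 := fun h => hl (dotProduct_self_eq_zero.1 h)
  have p2 : l' ⬝ᵥ l' ≠ 0 := fun h => hl' (dotProduct_self_eq_zero.1 h)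
  have h2 : ((l ⬝ᵥ l) • l') ⬝ᵥ ((l ⬝ᵥ l) • l') = ((l' ⬝ᵥ l') • l) ⬝ᵥ ((l' ⬝ᵥ l') • l) := by
    rw [h1]
  simp only [smul_dotProduct, dotProduct_smul, smul_eq_mul] at h2
  have h3 : l ⬝ᵥ l = l' ⬝ᵥ l' := by
    have : (l ⬝ᵥ l) * (l' ⬝ᵥ l') * (l ⬝ᵥ l) = (l ⬝ᵥ l) * (l' ⬝ᵥ l') * (l' ⬝ᵥ l') := by
      linear_combination h2
    exact mul_left_cancel₀ (mul_ne_zero p1 p2) this
  rw [h3] at h1
  exact h (smul_right_injective _ p2 h1).symm

theorem cones_le (h : Good L μ) {f : (Fin (m + 1) → ℝ) → ℝ} (hf : Continuous f)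
    (hf0 : ∀ y, 0 ≤ f y) : ∑ l ∈ Lam L μ, ∫ y in Cn L l, f y ≤ ∫ y in PP L, f y := by
  have hint : IntegrableOn f (PP L) := hf.continuousOn.integrableOn_compact (PP_compact h)
  have h1 : ∀ l ∈ Lam L μ, ∫ y in Cn L l, f y = ∫ y in PP L, (Cn L l).indicator f y := by
    intro l _
    rw [setIntegral_indicator (Cn_meas l)]
    congr 2
    exact (Set.inter_eq_right.2 fun y hy => hy.1).symm
  rw [Finset.sum_congr rfl h1, ← integral_finsetSum _ (fun l _ => hint.indicator (Cn_meas l))]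
  have hae : ∀ᵐ y : Fin (m + 1) → ℝ, ∀ l ∈ Lam L μ, ∀ l' ∈ Lam L μ, l ≠ l' →
      y ⬝ᵥ ((l ⬝ᵥ l) • l' - (l' ⬝ᵥ l') • l) ≠ 0 := by
    rw [Filter.eventually_all_finset]
    intro l hl
    rw [Filter.eventually_all_finset]
    intro l' hl'
    by_cases hll : l = l'
    · exact Filter.Eventually.of_forall fun y h => absurd hll h
    · have h0 := cs_null (cs_ne ((mem_Lam h).1 hl).2.1 ((mem_Lam h).1 hl').2.1 hll)
      rw [measure_eq_zero_iff_ae_notMem] at h0
      filter_upwards [h0] with y hy _ using hy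
  refine integral_mono_ae ?_ hint (ae_restrict_of_ae ?_)
  · exact integrable_finsetSum _ (fun l _ => hint.indicator (Cn_meas l))
  · filter_upwards [hae] with y hy
    by_cases hex : ∃ l ∈ Lam L μ, y ∈ Cn L l
    · obtain ⟨l, hl, hyl⟩ := hex
      rw [Finset.sum_eq_single l]
      · rw [Set.indicator_of_mem hyl]
      · intro l' hl' hll
        apply Set.indicator_of_notMem
        intro hyl'
        have m1 := (mem_Lam h).1 hl
        have m2 := (mem_Lam h).1 hl'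
        apply hy l hl l' hl' (Ne.symm hll)
        have e1 := hyl.2.2 l' m2.1 m2.2.1
        have e2 := hyl'.2.2 l m1.1 m1.2.1
        rw [dotProduct_sub, dotProduct_smul, dotProduct_smul, smul_eq_mul, smul_eq_mul]
        linarith
      · intro h
        exact absurd hl h
    · push Not at hex
      rw [Finset.sum_eq_zero]
      · exact hf0 y
      · intro l hl
        exact Set.indicator_of_notMem (hex l hl) _

end Pool.Agent.H99G
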