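import Pool.Agent.H99G.Sdef
import Pool.Agent.H99G.Cel

set_option autoImplicit false

/-!
# The Voronoi cell is a fundamental domain
-/

namespace Pool.Agent.H99G

open MeasureTheory Matrix

variable {m : ℕ}

private theorem s3_countable {L : AddSubgroup (Fin (m + 1) → ℝ)} {μ : ℝ} (h : Good L μ) :
    Countable L := by
  have h1 : (L : Set (Fin (m + 1) → ℝ)) ⊆
      ⋃ n : ℕ, {l : Fin (m + 1) → ℝ | l ∈ L ∧ l ⬝ᵥ l ≤ n} := by
    intro l hl
    obtain ⟨n, hn⟩ := exists_nat_ge (l ⬝ᵥ l)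
    exact Set.mem_iUnion.2 ⟨n, hl, hn⟩
  exact ((Set.countable_iUnion fun n : ℕ => (h.fin n).countable).mono h1).to_subtype

private theorem s3_sq (x l : Fin (m + 1) → ℝ) :
    (x - l) ⬝ᵥ (x - l) = x ⬝ᵥ x - 2 * (x ⬝ᵥ l) + l ⬝ᵥ l := by
  rw [sub_dotProduct, dotProduct_sub, dotProduct_sub, dotProduct_comm l x]
  ring

private theorem s3_nonneg (x : Fin (m + 1) → ℝ) : 0 ≤ x ⬝ᵥ x :=
  Finset.sum_nonneg fun i _ => mul_self_nonneg (x i)

private theorem s3_near {L : AddSubgroup (Fin (m + 1) → ℝ)} {μ : ℝ} (h : Good L μ)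
    (x : Fin (m + 1) → ℝ) :
    ∃ v ∈ L, ∀ l ∈ L, (x - v) ⬝ᵥ (x - v) ≤ (x - l) ⬝ᵥ (x - l) := by
  classical
  have hb : ∀ l : Fin (m + 1) → ℝ, (x - l) ⬝ᵥ (x - l) ≤ x ⬝ᵥ x → l ⬝ᵥ l ≤ 4 * (x ⬝ᵥ x) := by
    intro l hl
    have h1 := s3_nonneg (x - l + x)
    have h2 : (x - l + x) ⬝ᵥ (x - l + x) =
        4 * (x ⬝ᵥ x) - 4 * (x ⬝ᵥ l) + l ⬝ᵥ l := by
      have e : x - l + x = (2 : ℝ) • x - l := by rw [two_smul]; abel
      rw [e, s3_sq, smul_dotProduct, dotProduct_smul, smul_dotProduct, smul_eq_mul, smul_eq_mul,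
        smul_eq_mul]
      ring
    rw [s3_sq] at hl
    nlinarith
  have h0 : (0 : Fin (m + 1) → ℝ) ∈ (h.fin (4 * (x ⬝ᵥ x))).toFinset := by
    rw [Set.Finite.mem_toFinset]
    refine ⟨L.zero_mem, ?_⟩
    rw [dotProduct_zero]
    have := s3_nonneg x
    positivity
  obtain ⟨v, hv, hmin⟩ := Finset.exists_min_image _
    (fun l : Fin (m + 1) → ℝ => (x - l) ⬝ᵥ (x - l)) ⟨0, h0⟩
  rw [Set.Finite.mem_toFinset] at hv
  refine ⟨v, hv.1, fun l hl => ?_⟩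
  rcases le_or_gt ((x - l) ⬝ᵥ (x - l)) (x ⬝ᵥ x) with h1 | h1
  · exact hmin l ((Set.Finite.mem_toFinset _).2 ⟨hl, hb l h1⟩)
  · have h2 := hmin 0 h0
    simp only [sub_zero] at h2
    exact h2.trans h1.le

private theorem s3_null {g : Fin (m + 1) → ℝ} (hg : g ≠ 0) :
    volume {x : Fin (m + 1) → ℝ | 2 * (x ⬝ᵥ g) = g ⬝ᵥ g} = 0 := by
  let φ : (Fin (m + 1) → ℝ) →ₗ[ℝ] ℝ :=
    { toFun := fun y => y ⬝ᵥ g
      map_add' := fun a b => add_dotProduct a b _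
      map_smul' := fun c a => smul_dotProduct c a _ }
  have hs : {x : Fin (m + 1) → ℝ | 2 * (x ⬝ᵥ g) = g ⬝ᵥ g} =
      (fun x => x + (-(1 / 2 : ℝ)) • g) ⁻¹' (LinearMap.ker φ : Set (Fin (m + 1) → ℝ)) := by
    ext y
    simp only [Set.mem_ofPred_eq, Set.mem_preimage, SetLike.mem_coe, LinearMap.mem_ker]
    change _ ↔ (y + (-(1 / 2 : ℝ)) • g) ⬝ᵥ g = 0
    rw [add_dotProduct, smul_dotProduct, smul_eq_mul]
    constructor <;> intro h <;> linarith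
  rw [hs, measure_preimage_add_right]
  refine Measure.addHaar_submodule volume (LinearMap.ker φ) ?_
  intro htop
  have h1 : g ∈ LinearMap.ker φ := by rw [htop]; exact Submodule.mem_top
  have h2 : g ⬝ᵥ g = 0 := h1
  exact hg (dotProduct_self_eq_zero.1 h2)

theorem PP_fund {L : AddSubgroup (Fin (m + 1) → ℝ)} {μ : ℝ} (h : Good L μ) :
    IsAddFundamentalDomain L (PP L) volume := by
  have hc : Countable L := s3_countable h
  refine IsAddFundamentalDomain.mk'' PP_closed.measurableSet.nullMeasurableSet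
    (Filter.Eventually.of_forall fun x => ?_) (fun g hg => ?_) fun g =>
      (measurePreserving_add_left volume (g : Fin (m + 1) → ℝ)).quasiMeasurePreserving
  · obtain ⟨v, hv, hmin⟩ := s3_near h x
    refine ⟨⟨-v, L.neg_mem hv⟩, fun l hl => ?_⟩
    have e1 : (⟨-v, L.neg_mem hv⟩ : L) +ᵥ x = x - v := by
      rw [AddSubgroup.vadd_def]
      show -v + x = x - v
      abel
    have h1 := hmin (v + l) (L.add_mem hv hl)
    have e2 : x - (v + l) = (x - v) - l := by abel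
    rw [e2, s3_sq (x - v) l] at h1
    rw [e1]
    linarith
  · refine measure_mono_null ?_ (s3_null (g := (g : Fin (m + 1) → ℝ))
      fun h0 => hg (Subtype.ext h0))
    rintro x ⟨⟨y, hy, rfl⟩, hx⟩
    have e1 : (g +ᵥ y : Fin (m + 1) → ℝ) = (g : Fin (m + 1) → ℝ) + y := AddSubgroup.vadd_def g y
    have h1 := hx g g.2
    have h2 := hy (-(g : Fin (m + 1) → ℝ)) (L.neg_mem g.2)
    rw [dotProduct_neg, neg_dotProduct, dotProduct_neg, neg_neg] at h2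
    show 2 * ((g +ᵥ y : Fin (m + 1) → ℝ) ⬝ᵥ (g : Fin (m + 1) → ℝ)) = _
    have h1' : 2 * ((g +ᵥ y : Fin (m + 1) → ℝ) ⬝ᵥ (g : Fin (m + 1) → ℝ)) ≤
        (g : Fin (m + 1) → ℝ) ⬝ᵥ (g : Fin (m + 1) → ℝ) := h1
    rw [e1, add_dotProduct] at h1' ⊢
    linarith

end Pool.Agent.H99G
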