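import Pool.Agent.H99G.Vdef
import Pool.Agent.H99G.Cel
import Pool.Agent.H99G.V1

set_option autoImplicit false

/-!
# `D5*`: only the `10 + 32` cones of the unit vectors and of the vectors `(± 1 / 2, .., ± 1 / 2)` matter
-/

namespace Pool.Agent.H99G

open MeasureTheory Matrix

private theorem v5_plane {i j : Fin (4 + 1)} (hij : i ≠ j) {a b : ℝ} (ha : a ≠ 0) :
    volume {y : Fin (4 + 1) → ℝ | a * y i = b * y j} = 0 := by
  let F : (Fin (4 + 1) → ℝ) →ₗ[ℝ] ℝ :=
    { toFun := fun y => a * y i - b * y j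
      map_add' := fun x y => by simp only [Pi.add_apply]; ring
      map_smul' := fun c x => by simp only [Pi.smul_apply, smul_eq_mul, RingHom.id_apply]; ring }
  have e : {y : Fin (4 + 1) → ℝ | a * y i = b * y j} =
      (LinearMap.ker F : Set (Fin (4 + 1) → ℝ)) := by
    ext y
    rw [SetLike.mem_coe, LinearMap.mem_ker]
    change a * y i = b * y j ↔ a * y i - b * y j = 0
    exact sub_eq_zero.symm
  rw [e]
  apply Measure.addHaar_submodule
  intro htop
  have h1 : F (Pi.single i 1) = 0 := by
    have : (Pi.single i 1 : Fin (4 + 1) → ℝ) ∈ LinearMap.ker F := by rw [htop]; trivial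
    exact this
  change a * (Pi.single i (1 : ℝ) : Fin (4 + 1) → ℝ) i -
    b * (Pi.single i (1 : ℝ) : Fin (4 + 1) → ℝ) j = 0 at h1
  rw [Pi.single_eq_same, Pi.single_eq_of_ne hij.symm] at h1
  apply ha
  linarith

private theorem v5_single (i : Fin (4 + 1)) {e : ℝ} (he : e = 1 ∨ e = -1) :
    (Pi.single i e : Fin (4 + 1) → ℝ) ∈ D5s := by
  rcases he with rfl | rfl
  · refine ⟨Pi.single i 2, fun j => ?_, ?_⟩
    · have : ∀ j, (Pi.single i 2 : Fin (4 + 1) → ℤ) j % 2 = 0 := by
        intro j
        by_cases h : j = i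
        · subst h; rw [Pi.single_eq_same]; norm_num
        · rw [Pi.single_eq_of_ne h]; norm_num
      rw [this j, this 0]
    · funext j
      by_cases h : j = i
      · subst h; rw [Pi.single_eq_same, Pi.single_eq_same]; norm_num
      · rw [Pi.single_eq_of_ne h, Pi.single_eq_of_ne h]; norm_num
  · refine ⟨Pi.single i (-2), fun j => ?_, ?_⟩
    · have : ∀ j, (Pi.single i (-2) : Fin (4 + 1) → ℤ) j % 2 = 0 := by
        intro j
        by_cases h : j = i
        · subst h; rw [Pi.single_eq_same]; norm_num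
        · rw [Pi.single_eq_of_ne h]; norm_num
      rw [this j, this 0]
    · funext j
      by_cases h : j = i
      · subst h; rw [Pi.single_eq_same, Pi.single_eq_same]; norm_num
      · rw [Pi.single_eq_of_ne h, Pi.single_eq_of_ne h]; norm_num

private theorem v5_key {l y : Fin (4 + 1) → ℝ} (hl : l ∈ D5s) (hy : y ∈ Cn D5s l)
    (i : Fin (4 + 1)) {e : ℝ} (he : e = 1 ∨ e = -1) (hne : l ≠ Pi.single i e) :
    l i * e ≤ 1 ∧ (l i * e = 1 → (y i * e) * (l ⬝ᵥ l) = y ⬝ᵥ l) := by
  obtain ⟨_, hpos, hy⟩ := hy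
  have hee : e * e = 1 := by rcases he with rfl | rfl <;> norm_num
  have he0 : e ≠ 0 := by rintro rfl; norm_num at hee
  have h1 := hy (Pi.single i e) (v5_single i he) (by
    intro h0
    apply he0
    have := congrFun h0 i
    rwa [Pi.single_eq_same, Pi.zero_apply] at this)
  have h2 := hy (l - Pi.single i e) (sub_mem hl (v5_single i he)) (sub_ne_zero.2 hne)
  rw [dotProduct_single, dotProduct_single, Pi.single_eq_same, hee, mul_one] at h1
  have e1 : (l - Pi.single i e) ⬝ᵥ (l - Pi.single i e) = l ⬝ᵥ l - 2 * (l i * e) + 1 := by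
    rw [sub_dotProduct, dotProduct_sub, dotProduct_sub, dotProduct_single, single_dotProduct,
      dotProduct_single, Pi.single_eq_same, hee]
    ring
  rw [e1, dotProduct_sub, dotProduct_single] at h2
  constructor
  · by_contra hc
    push Not at hc
    nlinarith
  · intro hc
    rw [hc] at h2
    nlinarith

theorem cone_null {l : Fin (4 + 1) → ℝ} (hl : l ∈ D5s) (hl0 : l ≠ 0)
    (hA : ∀ i, l ≠ Pi.single i 1 ∧ l ≠ Pi.single i (-1))
    (hB : ¬ ∀ i, l i = 1 / 2 ∨ l i = -(1 / 2)) : volume (Cn D5s l) = 0 := by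
  rcases Set.eq_empty_or_nonempty (Cn D5s l) with hem | ⟨y0, hy0⟩
  · rw [hem, measure_empty]
  have hle : ∀ i, l i ≤ 1 ∧ -1 ≤ l i := by
    intro i
    have h1 := (v5_key hl hy0 i (Or.inl rfl) (hA i).1).1
    have h2 := (v5_key hl hy0 i (Or.inr rfl) (hA i).2).1
    exact ⟨by linarith, by linarith⟩
  obtain ⟨k, hk, hkl⟩ := id hl
  have hki : ∀ i, l i = (k i : ℝ) / 2 := fun i => congrFun hkl i
  have hk2 : ∀ i, k i ≤ 2 ∧ -2 ≤ k i := by
    intro i
    obtain ⟨h1, h2⟩ := hle i
    rw [hki] at h1 h2
    constructor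
    · have : (k i : ℝ) ≤ 2 := by linarith
      exact_mod_cast this
    · have : (-2 : ℝ) ≤ k i := by linarith
      exact_mod_cast this
  rcases Int.emod_two_eq_zero_or_one (k 0) with h0 | h0
  swap
  · exfalso
    apply hB
    intro i
    have h1 := hk i
    obtain ⟨h2, h3⟩ := hk2 i
    have h4 : k i = 1 ∨ k i = -1 := by omega
    rcases h4 with h4 | h4
    · left; rw [hki, h4]; norm_num
    · right; rw [hki, h4]; norm_num
  have hval : ∀ i, l i = 0 ∨ l i = 1 ∨ l i = -1 := by
    intro i
    have h1 := hk i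
    obtain ⟨h2, h3⟩ := hk2 i
    have h4 : k i = 0 ∨ k i = 2 ∨ k i = -2 := by omega
    rcases h4 with h4 | h4 | h4
    · left; rw [hki, h4]; norm_num
    · right; left; rw [hki, h4]; norm_num
    · right; right; rw [hki, h4]; norm_num
  obtain ⟨i, hi⟩ : ∃ i, l i ≠ 0 := by
    by_contra hc
    push Not at hc
    exact hl0 (funext hc)
  have hi' : l i = 1 ∨ l i = -1 := (hval i).resolve_left hi
  have hli : l ≠ Pi.single i (l i) := by
    rcases hi' with h | h <;> rw [h]
    · exact (hA i).1
    · exact (hA i).2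
  obtain ⟨j, hji, hj⟩ : ∃ j, j ≠ i ∧ l j ≠ 0 := by
    by_contra hc
    push Not at hc
    apply hli
    funext j
    by_cases h : j = i
    · subst h; rw [Pi.single_eq_same]
    · rw [Pi.single_eq_of_ne h]; exact hc j h
  have hj' : l j = 1 ∨ l j = -1 := (hval j).resolve_left hj
  have hlj : l ≠ Pi.single j (l j) := by
    rcases hj' with h | h <;> rw [h]
    · exact (hA j).1
    · exact (hA j).2
  have hll : l ⬝ᵥ l ≠ 0 := fun h => hl0 (dotProduct_self_eq_zero.1 h)
  refine measure_mono_null ?_ (v5_plane (Ne.symm hji) (a := l i) (b := l j) hi)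
  intro y hy
  have h1 := (v5_key hl hy i hi' hli).2 (by rcases hi' with h | h <;> rw [h] <;> norm_num)
  have h2 := (v5_key hl hy j hj' hlj).2 (by rcases hj' with h | h <;> rw [h] <;> norm_num)
  have h3 : (y i * l i) * (l ⬝ᵥ l) = (y j * l j) * (l ⬝ᵥ l) := h1.trans h2.symm
  have h4 := mul_right_cancel₀ hll h3
  change l i * y i = l j * y j
  rw [mul_comm, h4, mul_comm]

private noncomputable def v5_g : (Fin (4 + 1) × Bool) ⊕ (Fin (4 + 1) → Bool) → (Fin (4 + 1) → ℝ)
  | Sum.inl p => if p.2 then Pi.single p.1 1 else Pi.single p.1 (-1)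
  | Sum.inr s => fun i => if s i then 1 / 2 else -(1 / 2)

private theorem v5_inj : Function.Injective v5_g := by
  rintro (⟨i, b⟩ | s) (⟨j, c⟩ | t) h
  · have hij : i = j := by
      by_contra hne
      have h1 := congrFun h i
      cases b <;> cases c <;> simp [v5_g, hne] at h1
    subst hij
    have hbc : b = c := by
      have h1 := congrFun h i
      cases b <;> cases c <;> simp [v5_g] at h1 ⊢ <;> norm_num at h1
    rw [hbc]
  · exfalso
    obtain ⟨j, hj⟩ : ∃ j : Fin (4 + 1), j ≠ i := exists_ne i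
    have h1 := congrFun h j
    cases b <;> cases ht : t j <;> simp [v5_g, hj, ht] at h1
  · exfalso
    obtain ⟨i, hi⟩ : ∃ i : Fin (4 + 1), i ≠ j := exists_ne j
    have h1 := congrFun h i
    cases c <;> cases hs : s i <;> simp [v5_g, hi, hs] at h1
  · congr 1
    funext i
    have h1 := congrFun h i
    cases hs : s i <;> cases ht : t i <;> simp [v5_g, hs, ht] at h1 ⊢ <;> norm_num at h1

theorem sum_Lam {F : (Fin (4 + 1) → ℝ) → ℝ}
    (hF : ∀ l ∈ D5s, l ≠ 0 → volume (Cn D5s l) = 0 → F l = 0) :
    ∑ l ∈ Lam D5s (9 / 8), F l =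
      ∑ i : Fin (4 + 1), (F (Pi.single i 1) + F (Pi.single i (-1))) +
      ∑ s : Fin (4 + 1) → Bool, F (fun i => if s i then 1 / 2 else -(1 / 2)) := by
  classical
  have hsub : Finset.univ.image v5_g ⊆ Lam D5s (9 / 8) := by
    intro l hl
    obtain ⟨x, _, rfl⟩ := Finset.mem_image.1 hl
    rw [mem_Lam D5s_good]
    rcases x with ⟨i, b⟩ | s
    · cases b
      · change (Pi.single i (-1) : Fin (4 + 1) → ℝ) ∈ D5s ∧ _ ∧ _
        refine ⟨v5_single i (Or.inr rfl), ?_, ?_⟩
        · intro h0
          have := congrFun h0 i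
          rw [show v5_g (Sum.inl (i, false)) = Pi.single i (-1) from rfl, Pi.single_eq_same] at this
          norm_num at this
        · rw [show v5_g (Sum.inl (i, false)) = Pi.single i (-1) from rfl, dotProduct_single,
            Pi.single_eq_same]
          norm_num
      · change (Pi.single i 1 : Fin (4 + 1) → ℝ) ∈ D5s ∧ _ ∧ _
        refine ⟨v5_single i (Or.inl rfl), ?_, ?_⟩
        · intro h0
          have := congrFun h0 i
          rw [show v5_g (Sum.inl (i, true)) = Pi.single i 1 from rfl, Pi.single_eq_same] at this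
          norm_num at this
        · rw [show v5_g (Sum.inl (i, true)) = Pi.single i 1 from rfl, dotProduct_single,
            Pi.single_eq_same]
          norm_num
    · have hodd : ∀ i, (if s i then (1 : ℤ) else -1) % 2 = 1 := by
        intro i
        split_ifs <;> norm_num
      refine ⟨⟨fun i => if s i then 1 else -1, fun i => (hodd i).trans (hodd 0).symm, ?_⟩, ?_, ?_⟩
      · funext i
        change (if s i then (1 : ℝ) / 2 else -(1 / 2)) = ((if s i then 1 else -1 : ℤ) : ℝ) / 2
        split_ifs <;> norm_num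
      · intro h0
        have := congrFun h0 0
        change (if s 0 then (1 : ℝ) / 2 else -(1 / 2)) = 0 at this
        cases hs : s 0 <;> simp [hs] at this
      · have e1 : v5_g (Sum.inr s) ⬝ᵥ v5_g (Sum.inr s) = 5 / 4 := by
          unfold dotProduct
          rw [Finset.sum_congr rfl (g := fun _ => (1 / 4 : ℝ))]
          · simp; norm_num
          · intro i _
            change (if s i then (1 : ℝ) / 2 else -(1 / 2)) * (if s i then (1 : ℝ) / 2 else -(1 / 2)) = _
            cases s i <;> norm_num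
        rw [e1]
        norm_num
  rw [← Finset.sum_subset hsub]
  · rw [Finset.sum_image (fun a _ b _ h => v5_inj h), Fintype.sum_sum_type, Fintype.sum_prod_type]
    congr 1
    refine Finset.sum_congr rfl fun i _ => ?_
    rw [Fintype.sum_bool]
    rfl
  · intro l hl hn
    rw [mem_Lam D5s_good] at hl
    refine hF l hl.1 hl.2.1 (cone_null hl.1 hl.2.1 ?_ ?_)
    · intro i
      constructor
      · rintro rfl
        exact hn (Finset.mem_image.2 ⟨Sum.inl (i, true), Finset.mem_univ _, rfl⟩)
      · rintro rfl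
        exact hn (Finset.mem_image.2 ⟨Sum.inl (i, false), Finset.mem_univ _, rfl⟩)
    · intro hh
      apply hn
      refine Finset.mem_image.2 ⟨Sum.inr fun i => decide (l i = 1 / 2), Finset.mem_univ _, ?_⟩
      funext i
      change (if decide (l i = 1 / 2) then (1 : ℝ) / 2 else -(1 / 2)) = l i
      rcases hh i with h | h
      · rw [h]; simp
      · rw [h]; norm_num

end Pool.Agent.H99G
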