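import Pool.Agent.H99G.V1
import Pool.Agent.H99G.V2
import Pool.Agent.H99G.V5
import Pool.Agent.H99G.Ccv
import Pool.Agent.H99G.Csu
import Pool.Agent.H99G.S3

set_option autoImplicit false

/-!
# The volume of the cell of `D5*` and of its cones
-/

namespace Pool.Agent.H99G

open MeasureTheory Matrix

/-- the sides of the box -/
private noncomputable def bx : Fin (4 + 1) → ℝ := fun i => if i = 0 then 1 / 2 else 1

private def BX : Set (Fin (4 + 1) → ℝ) := Set.pi Set.univ fun i => Set.Ico (0 : ℝ) (bx i)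

private theorem mem_BX {y : Fin (4 + 1) → ℝ} :
    y ∈ BX ↔ (0 ≤ y 0 ∧ y 0 < 1 / 2) ∧ ∀ i, i ≠ 0 → 0 ≤ y i ∧ y i < 1 := by
  simp only [BX, Set.mem_pi, Set.mem_univ, true_implies, Set.mem_Ico, bx]
  constructor
  · intro h
    refine ⟨by simpa using h 0, fun i hi => by simpa [hi] using h i⟩
  · rintro ⟨h1, h2⟩ i
    by_cases hi : i = 0
    · subst hi; simpa using h1
    · simpa [hi] using h2 i hi

/-- the translation -/
private noncomputable def kk (y : Fin (4 + 1) → ℝ) : Fin (4 + 1) → ℤ := fun i =>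
  if i = 0 then -⌊2 * y 0⌋ else
    (-⌊2 * y 0⌋) % 2 - 2 * ⌊y i + (((-⌊2 * y 0⌋) % 2 : ℤ) : ℝ) / 2⌋

private theorem kk_mem (y : Fin (4 + 1) → ℝ) : ∀ i, kk y i % 2 = kk y 0 % 2 := by
  intro i
  unfold kk
  by_cases hi : i = 0
  · rw [hi]
  · rw [if_neg hi, if_pos rfl]
    omega

private theorem BX_fund : IsAddFundamentalDomain D5s BX volume := by
  refine IsAddFundamentalDomain.mk' ?_ ?_
  · exact (MeasurableSet.univ_pi fun _ => measurableSet_Ico).nullMeasurableSet
  · intro y
    have hm : (fun i => (kk y i : ℝ) / 2) ∈ D5s := ⟨kk y, kk_mem y, rfl⟩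
    refine ⟨⟨_, hm⟩, ?_, ?_⟩
    · show (fun i => (kk y i : ℝ) / 2) + y ∈ BX
      rw [mem_BX]
      simp only [Pi.add_apply]
      refine ⟨?_, fun i hi => ?_⟩
      · have h1 := Int.floor_le (2 * y 0)
        have h2 := Int.lt_floor_add_one (2 * y 0)
        simp only [kk, if_pos]
        push_cast
        constructor <;> linarith
      · have h1 := Int.floor_le (y i + (((-⌊2 * y 0⌋) % 2 : ℤ) : ℝ) / 2)
        have h2 := Int.lt_floor_add_one (y i + (((-⌊2 * y 0⌋) % 2 : ℤ) : ℝ) / 2)
        simp only [kk, if_neg hi]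
        rw [Int.cast_sub, Int.cast_mul]
        constructor <;> push_cast at h1 h2 ⊢ <;> linarith
    · rintro ⟨l, hl⟩ hy
      obtain ⟨k, hk, rfl⟩ := id hl
      have hy' : (fun i => (k i : ℝ) / 2) + y ∈ BX := hy
      rw [mem_BX] at hy'
      simp only [Pi.add_apply] at hy'
      have h0 : k 0 = -⌊2 * y 0⌋ := by
        have : ⌊2 * y 0⌋ = -k 0 := by
          rw [Int.floor_eq_iff]
          push_cast
          constructor <;> linarith [hy'.1.1, hy'.1.2]
        omega
      apply Subtype.ext
      show (fun i => (k i : ℝ) / 2) = fun i => (kk y i : ℝ) / 2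
      ext i
      have h1 : k i = kk y i := by
        by_cases hi : i = 0
        · subst hi
          simp only [kk, if_pos]
          exact h0
        · have h2 := hk i
          have h3 := hy'.2 i hi
          simp only [kk, if_neg hi]
          rw [← h0]
          obtain ⟨j, hj⟩ : ∃ j, k i = k 0 % 2 + 2 * j := ⟨k i / 2, by omega⟩
          have h4 : ⌊y i + ((k 0 % 2 : ℤ) : ℝ) / 2⌋ = -j := by
            rw [Int.floor_eq_iff]
            have h5 : (k i : ℝ) = ((k 0 % 2 : ℤ) : ℝ) + 2 * (j : ℝ) := by exact_mod_cast hj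
            rw [h5] at h3
            push_cast at h3 ⊢
            constructor <;> linarith [h3.1, h3.2]
          rw [h4, hj]
          ring
      rw [h1]

private theorem BX_vol : (volume BX).toReal = 1 / 2 := by
  unfold BX
  rw [Real.volume_pi_Ico_toReal (a := fun _ => 0)]
  · simp [bx, Fin.prod_univ_succ]
  · intro i
    show (0 : ℝ) ≤ bx i
    unfold bx
    split_ifs <;> norm_num

theorem vol_PP5 : (volume (PP D5s)).toReal = 1 / 2 := by
  have hcount : Countable D5s := by
    have h1 : Function.Surjective (fun k : {k : Fin (4 + 1) → ℤ // ∀ i, k i % 2 = k 0 % 2} =>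
        (⟨fun i => (k.1 i : ℝ) / 2, ⟨k.1, k.2, rfl⟩⟩ : D5s)) := by
      rintro ⟨x, k, hk, rfl⟩
      exact ⟨⟨k, hk⟩, rfl⟩
    exact h1.countable
  rw [(PP_fund D5s_good).measure_eq BX_fund, BX_vol]

private theorem one8 (S : Set (Fin (4 + 1) → ℝ)) :
    ∫ _ in S, (1 : ℝ) = (volume S).toReal := by
  simp [Measure.real]

private theorem vol_aut {g : Matrix (Fin (4 + 1)) (Fin (4 + 1)) ℝ} (hg : IsAut D5s g)
    (l : Fin (4 + 1) → ℝ) :
    (volume (Cn D5s (g *ᵥ l))).toReal = (volume (Cn D5s l)).toReal := by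
  have h := cone_aut hg l (fun _ => 1)
  rw [one8, one8] at h
  exact h

private theorem vol_single (i : Fin (4 + 1)) :
    (volume (Cn D5s (Pi.single i 1))).toReal = vA := by
  have h := vol_aut (aut_perm (Equiv.swap 0 i)) e5
  have h1 : (Equiv.swap 0 i).permMatrix ℝ *ᵥ e5 = Pi.single i 1 := by
    rw [permMatrix_mulVec]
    ext j
    simp only [Function.comp, e5, Pi.single_apply]
    by_cases hj : j = i
    · subst hj; simp
    · have : Equiv.swap 0 i j ≠ 0 := by
        intro h2
        apply hj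
        have := congrArg (Equiv.swap 0 i) h2
        simpa using this
      simp [this, hj]
  rw [h1] at h
  exact h

private theorem vol_neg (i : Fin (4 + 1)) :
    (volume (Cn D5s (Pi.single i (-1)))).toReal = vA := by
  rw [← vol_single i, ← vol_aut (aut_sgn (fun _ => -1) (fun _ => Or.inr rfl)) (Pi.single i 1)]
  congr 3
  ext j
  rw [mulVec_diagonal]
  by_cases hj : j = i
  · subst hj; simp
  · simp [hj]

private theorem vol_half (s : Fin (4 + 1) → Bool) :
    (volume (Cn D5s (fun i => if s i then 1 / 2 else -(1 / 2)))).toReal = vB := by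
  have h := vol_aut (aut_sgn (fun i => if s i then 1 else -1) (fun i => by
    by_cases h : s i <;> simp [h])) h5
  have h1 : (fun i => if s i then 1 / 2 else -(1 / 2) : Fin (4 + 1) → ℝ) =
      Matrix.diagonal (fun i => if s i then (1 : ℝ) else -1) *ᵥ h5 := by
    ext j
    rw [mulVec_diagonal]
    simp only [h5]
    split_ifs <;> ring
  rw [h1, h]
  rfl

theorem vol5 : 10 * vA + 32 * vB = 1 / 2 := by
  have h1 : ∑ l ∈ Lam D5s (9 / 8), (volume (Cn D5s l)).toReal = 10 * vA + 32 * vB := by
    rw [sum_Lam (F := fun l => (volume (Cn D5s l)).toReal) (fun l _ _ h => by simp [h])]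
    simp only [vol_single, vol_neg, vol_half]
    simp
    ring
  have h2 := cover D5s_good
  have h3 := cones_le D5s_good (f := fun _ => (1 : ℝ)) continuous_const (fun _ => zero_le_one)
  simp only [one8] at h3
  rw [h1] at h2 h3
  rw [vol_PP5] at h2 h3
  linarith

end Pool.Agent.H99G
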