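import Pool.Agent.H99G.V1
import Pool.Agent.H99G.V2
import Pool.Agent.H99G.V5
import Pool.Agent.H99G.V6
import Pool.Agent.H99G.Cfo
import Pool.Agent.H99G.Csu

set_option autoImplicit false

/-! # The sums over the cones of `D5*` (helper76) -/

namespace Pool.Agent.H99G

open MeasureTheory Matrix

private theorem v9_sub (l : Fin (4 + 1) → ℝ) : Cn D5s l ⊆ PP D5s := fun _ hy => hy.1

private theorem v9_int {f : (Fin (4 + 1) → ℝ) → ℝ} (hf : Continuous f) (l : Fin (4 + 1) → ℝ) :
    IntegrableOn f (Cn D5s l) :=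
  (hf.continuousOn.integrableOn_compact (PP_compact D5s_good)).mono_set (v9_sub l)

private theorem v9_swap (i : Fin (4 + 1)) (f : (Fin (4 + 1) → ℝ) → ℝ) :
    ∫ y in Cn D5s (Pi.single i 1), f y =
      ∫ y in Cn D5s e5, f fun j => y (Equiv.swap 0 i j) := by
  have h := cone_aut (aut_perm (Equiv.swap 0 i)) e5 f
  have e1 : (Equiv.swap 0 i).permMatrix ℝ *ᵥ e5 = Pi.single i 1 := by
    rw [permMatrix_mulVec]
    funext j
    simp only [Function.comp, e5]
    by_cases hj : j = i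
    · subst hj
      simp
    · rw [Pi.single_eq_of_ne hj, Pi.single_eq_of_ne]
      intro h0
      apply hj
      have := congrArg (Equiv.swap 0 i) h0
      simpa using this
  rw [e1] at h
  rw [h]
  refine integral_congr_ae (Filter.Eventually.of_forall fun y => ?_)
  simp only [permMatrix_mulVec]
  rfl

private theorem v9_neg (l : Fin (4 + 1) → ℝ) (f : (Fin (4 + 1) → ℝ) → ℝ) :
    ∫ y in Cn D5s (-l), f y = ∫ y in Cn D5s l, f (-y) := by
  have h := cone_aut (aut_sgn (fun _ => -1) fun _ => Or.inr rfl) l f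
  have e : ∀ y : Fin (4 + 1) → ℝ, (Matrix.diagonal fun _ : Fin (4 + 1) => (-1 : ℝ)) *ᵥ y = -y := by
    intro y
    funext j
    rw [mulVec_diagonal]
    simp
  rw [e] at h
  rw [h]
  refine integral_congr_ae (Filter.Eventually.of_forall fun y => ?_)
  simp only [e]

private theorem v9_sgn (s : Fin (4 + 1) → Bool) (f : (Fin (4 + 1) → ℝ) → ℝ) :
    ∫ y in Cn D5s (fun i => if s i then 1 / 2 else -(1 / 2)), f y =
      ∫ y in Cn D5s h5, f fun j => (if s j then 1 else -1) * y j := by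
  have hs : ∀ i, (if s i then (1 : ℝ) else -1) = 1 ∨ (if s i then (1 : ℝ) else -1) = -1 := by
    intro i
    split_ifs
    · exact Or.inl rfl
    · exact Or.inr rfl
  have h := cone_aut (aut_sgn (fun i => if s i then 1 else -1) hs) h5 f
  have e1 : (Matrix.diagonal fun i : Fin (4 + 1) => if s i then (1 : ℝ) else -1) *ᵥ h5 =
      fun i => if s i then 1 / 2 else -(1 / 2) := by
    funext j
    rw [mulVec_diagonal, h5]
    split_ifs <;> norm_num
  rw [e1] at h
  rw [h]
  refine integral_congr_ae (Filter.Eventually.of_forall fun y => ?_)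
  have e2 : (Matrix.diagonal fun i : Fin (4 + 1) => if s i then (1 : ℝ) else -1) *ᵥ y =
      fun j => (if s j then 1 else -1) * y j := by
    funext j
    rw [mulVec_diagonal]
  simp only [e2]

/-- the loss at `l` as an integral over the cone -/
private noncomputable def vW (B : Matrix (Fin (4 + 1)) (Fin (4 + 1)) ℝ) (l : Fin (4 + 1) → ℝ) : ℝ :=
  7 / (l ⬝ᵥ l) * ∫ y in Cn D5s l, ((y - (y ⬝ᵥ l / (l ⬝ᵥ l)) • l) ⬝ᵥ B *ᵥ l) ^ 2

private theorem v9_dot {l : Fin (4 + 1) → ℝ} (hl0 : l ≠ 0) : 0 < l ⬝ᵥ l := by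
  refine lt_of_le_of_ne (Finset.sum_nonneg fun i _ => mul_self_nonneg (l i)) fun h => ?_
  exact hl0 (dotProduct_self_eq_zero.1 h.symm)

private theorem v9_loss (B : Matrix (Fin (4 + 1)) (Fin (4 + 1)) ℝ) {l : Fin (4 + 1) → ℝ}
    (hl : l ∈ D5s) (hl0 : l ≠ 0) : 1 / (2 * len l) * qF D5s l (B *ᵥ l) = vW B l := by
  have hp := v9_dot hl0
  have hlen : 0 < len l := Real.sqrt_pos.2 hp
  have hsq : len l * len l = l ⬝ᵥ l := Real.mul_self_sqrt hp.le
  have hf : Continuous fun y : Fin (4 + 1) → ℝ =>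
      ((y - (y ⬝ᵥ l / (l ⬝ᵥ l)) • l) ⬝ᵥ B *ᵥ l) ^ 2 := by
    unfold dotProduct
    fun_prop
  have h := cone_formula D5s_good hl hl0 hf (fun t y => by
    rw [smul_dotProduct, smul_eq_mul, mul_div_assoc, mul_smul, ← smul_sub, smul_dotProduct,
      smul_eq_mul, mul_pow])
  have e : ∀ z : Fin 4 → ℝ, pt l (len l / 2) z -
      (pt l (len l / 2) z ⬝ᵥ l / (l ⬝ᵥ l)) • l = pt l 0 z := by
    intro z
    rw [pt_dot_l, pt_eq hl0 (len l / 2) z, ← hsq]
    have : len l / 2 * len l / (len l * len l) = len l / 2 / len l := by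
      field_simp
    rw [this]
    abel
  rw [vW, h]
  simp only [e]
  rw [qF, ← hsq]
  push_cast
  field_simp
  ring

private theorem v9_QQ (B : Matrix (Fin (4 + 1)) (Fin (4 + 1)) ℝ) : QQ D5s (9 / 8) B =
    ∑ i : Fin (4 + 1), (vW B (Pi.single i 1) + vW B (Pi.single i (-1))) +
      ∑ s : Fin (4 + 1) → Bool, vW B (fun i => if s i then 1 / 2 else -(1 / 2)) := by
  rw [← sum_Lam]
  · rw [QQ]
    refine Finset.sum_congr rfl fun l hl => ?_
    rw [mem_Lam D5s_good] at hl
    exact v9_loss B hl.1 hl.2.1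
  · intro l _ _ hv
    rw [vW, setIntegral_measure_zero _ hv, mul_zero]

private theorem v9_single (i : Fin (4 + 1)) (c : ℝ) :
    (Pi.single i c : Fin (4 + 1) → ℝ) ⬝ᵥ Pi.single i c = c * c := by
  rw [single_dotProduct, Pi.single_eq_same]

private theorem v9_Wneg (B : Matrix (Fin (4 + 1)) (Fin (4 + 1)) ℝ) (i : Fin (4 + 1)) :
    vW B (Pi.single i (-1)) = vW B (Pi.single i 1) := by
  have e : (Pi.single i (-1) : Fin (4 + 1) → ℝ) = -Pi.single i 1 := by
    rw [← Pi.single_neg]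
  rw [vW, vW, e, v9_neg, neg_dotProduct_neg]
  congr 1
  refine integral_congr_ae (Filter.Eventually.of_forall fun y => ?_)
  show ((-y - (-y ⬝ᵥ -Pi.single i 1 / _) • -Pi.single i 1) ⬝ᵥ B *ᵥ -Pi.single i 1) ^ 2 = _
  rw [neg_dotProduct_neg]
  have e2 : ∀ c : ℝ, -y - c • -(Pi.single i 1 : Fin (4 + 1) → ℝ) = -(y - c • Pi.single i 1) := by
    intro c
    funext j
    simp only [Pi.sub_apply, Pi.neg_apply, Pi.smul_apply, smul_eq_mul]
    ring
  rw [e2, mulVec_neg, neg_dotProduct_neg]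

private theorem v9_single_W (B : Matrix (Fin (4 + 1)) (Fin (4 + 1)) ℝ) (i : Fin (4 + 1)) :
    vW B (Pi.single i 1) = 7 * ∫ y in Cn D5s (Pi.single i 1),
      ((y - y i • Pi.single i 1) ⬝ᵥ B *ᵥ Pi.single i 1) ^ 2 := by
  rw [vW, v9_single]
  simp only [dotProduct_single, mul_one, div_one]

private theorem v9_hh (s : Fin (4 + 1) → Bool) :
    (fun i : Fin (4 + 1) => if s i then (1 / 2 : ℝ) else -(1 / 2)) ⬝ᵥ
      (fun i => if s i then (1 / 2 : ℝ) else -(1 / 2)) = 5 / 4 := by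
  have h : ∀ i : Fin (4 + 1), (if s i then (1 / 2 : ℝ) else -(1 / 2)) *
      (if s i then (1 / 2 : ℝ) else -(1 / 2)) = 1 / 4 := by
    intro i
    split_ifs <;> norm_num
  simp only [dotProduct, h]
  norm_num

private theorem v9_hW (B : Matrix (Fin (4 + 1)) (Fin (4 + 1)) ℝ) (s : Fin (4 + 1) → Bool) :
    vW B (fun i => if s i then 1 / 2 else -(1 / 2)) = 28 / 5 * ∫ y in Cn D5s h5,
      ((fun i => (if s i then 1 else -1) * (y i - av y)) ⬝ᵥ
        B *ᵥ fun i => if s i then 1 / 2 else -(1 / 2)) ^ 2 := by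
  rw [vW, v9_hh, v9_sgn]
  congr 1
  · norm_num
  · refine integral_congr_ae (Filter.Eventually.of_forall fun y => ?_)
    simp only
    congr 2
    funext i
    have h1 : (fun j => (if s j then (1 : ℝ) else -1) * y j) ⬝ᵥ
        (fun i => if s i then (1 / 2 : ℝ) else -(1 / 2)) = (∑ j, y j) / 2 := by
      rw [dotProduct, Finset.sum_div]
      refine Finset.sum_congr rfl fun j _ => ?_
      split_ifs <;> ring
    rw [h1]
    simp only [Pi.sub_apply, Pi.smul_apply, smul_eq_mul, av]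
    split_ifs <;> ring

private theorem v9_Eo (v : Fin (4 + 1) → ℝ) : Eo 0 1 *ᵥ v = ![v 1, v 0, 0, 0, 0] := by
  funext i
  rw [Eo, add_mulVec, Pi.add_apply, single_mulVec, single_mulVec]
  fin_cases i <;> simp

private theorem v9_Ed (v : Fin (4 + 1) → ℝ) : Ed 0 1 *ᵥ v = ![v 0, -v 1, 0, 0, 0] := by
  funext i
  rw [Ed, sub_mulVec, Pi.sub_apply, single_mulVec, single_mulVec]
  fin_cases i <;> simp

private theorem v9_aA (i : Fin (4 + 1)) (hi : i ≠ 0) : ∫ y in Cn D5s e5, y i ^ 2 = aA := by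
  have h := cone_aut (aut_perm (Equiv.swap 1 i)) e5 fun y => y 1 ^ 2
  have e1 : (Equiv.swap 1 i).permMatrix ℝ *ᵥ e5 = e5 := by
    rw [permMatrix_mulVec]
    funext j
    simp only [Function.comp, e5]
    by_cases hj : j = 0
    · subst hj
      rw [Equiv.swap_apply_of_ne_of_ne (by decide) hi.symm]
    · rw [Pi.single_eq_of_ne hj, Pi.single_eq_of_ne]
      intro h0
      apply hj
      have h2 := congrArg (Equiv.swap 1 i) h0
      rw [Equiv.swap_apply_self, Equiv.swap_apply_of_ne_of_ne (by decide) hi.symm] at h2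
      exact h2
  rw [e1] at h
  rw [aA, h]
  refine integral_congr_ae (Filter.Eventually.of_forall fun y => ?_)
  simp only [permMatrix_mulVec, Function.comp, Equiv.swap_apply_left]

private theorem v9_sB (i : Fin (4 + 1)) : ∫ y in Cn D5s h5, (y i - av y) ^ 2 = sB := by
  have h := cone_aut (aut_perm (Equiv.swap 0 i)) h5 fun y => (y 0 - av y) ^ 2
  have e1 : (Equiv.swap 0 i).permMatrix ℝ *ᵥ h5 = h5 := by
    rw [permMatrix_mulVec]
    rfl
  rw [e1] at h
  rw [sB, h]
  refine integral_congr_ae (Filter.Eventually.of_forall fun y => ?_)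
  have e2 : av (y ∘ Equiv.swap 0 i) = av y := by
    unfold av
    congr 1
    exact Equiv.sum_comp (Equiv.swap 0 i) y
  simp only [permMatrix_mulVec, e2]
  simp only [Function.comp, Equiv.swap_apply_left]

private theorem v9_coord (i : Fin (4 + 1)) :
    Continuous fun y : Fin (4 + 1) → ℝ => y i ^ 2 := by fun_prop

private theorem v9_yA : ∫ y in Cn D5s e5, y ⬝ᵥ y = gA + 4 * aA := by
  have e : ∀ y : Fin (4 + 1) → ℝ, y ⬝ᵥ y = ∑ i, y i ^ 2 := by
    intro y
    rw [dotProduct]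
    exact Finset.sum_congr rfl fun i _ => by ring
  simp only [e]
  rw [integral_finsetSum _ fun i _ => v9_int (v9_coord i) e5, Fin.sum_univ_five,
    v9_aA 1 (by decide), v9_aA 2 (by decide), v9_aA 3 (by decide), v9_aA 4 (by decide), gA]
  ring

private theorem v9_avc : Continuous fun y : Fin (4 + 1) → ℝ => av y := by
  unfold av
  fun_prop

private theorem v9_yB : ∫ y in Cn D5s h5, y ⬝ᵥ y = gB + 5 * sB := by
  have hc := v9_avc
  have e : ∀ y : Fin (4 + 1) → ℝ, y ⬝ᵥ y = 5 * av y ^ 2 + ∑ i, (y i - av y) ^ 2 := by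
    intro y
    rw [dotProduct, Fin.sum_univ_five, Fin.sum_univ_five, av, Fin.sum_univ_five]
    ring
  simp only [e]
  rw [integral_add (v9_int (by fun_prop) h5) (v9_int (by fun_prop) h5),
    integral_finsetSum _ fun i _ => v9_int (by fun_prop) h5]
  simp only [v9_sB]
  rw [gB]
  simp

theorem GG5_ge : 10 * (gA + 4 * aA) + 32 * (gB + 5 * sB) ≤ GG D5s := by
  have hc : Continuous fun y : Fin (4 + 1) → ℝ => y ⬝ᵥ y := by
    unfold dotProduct
    fun_prop
  have h := cones_le D5s_good hc fun y => Finset.sum_nonneg fun i _ => mul_self_nonneg (y i)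
  rw [sum_Lam (F := fun l => ∫ y in Cn D5s l, y ⬝ᵥ y)
    (fun l _ _ hv => setIntegral_measure_zero _ hv)] at h
  have h1 : ∀ i : Fin (4 + 1), ∫ y in Cn D5s (Pi.single i 1), y ⬝ᵥ y = gA + 4 * aA := by
    intro i
    rw [v9_swap, ← v9_yA]
    refine integral_congr_ae (Filter.Eventually.of_forall fun y => ?_)
    exact Equiv.sum_comp (Equiv.swap 0 i) fun j => y j * y j
  have h2 : ∀ i : Fin (4 + 1), ∫ y in Cn D5s (Pi.single i (-1)), y ⬝ᵥ y = gA + 4 * aA := by
    intro i
    have e : (Pi.single i (-1) : Fin (4 + 1) → ℝ) = -Pi.single i 1 := by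
      rw [← Pi.single_neg]
    rw [e, v9_neg, ← h1 i]
    simp only [neg_dotProduct_neg]
  have h3 : ∀ s : Fin (4 + 1) → Bool,
      ∫ y in Cn D5s (fun i => if s i then 1 / 2 else -(1 / 2)), y ⬝ᵥ y = gB + 5 * sB := by
    intro s
    rw [v9_sgn, ← v9_yB]
    refine integral_congr_ae (Filter.Eventually.of_forall fun y => ?_)
    simp only [dotProduct]
    refine Finset.sum_congr rfl fun i _ => ?_
    split_ifs <;> ring
  simp only [h1, h2, h3] at h
  rw [Finset.sum_const, Finset.sum_const, Finset.card_univ, Finset.card_univ] at h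
  simp only [Fintype.card_fin, Fintype.card_fun, Fintype.card_bool, nsmul_eq_mul] at h
  rw [GG]
  refine le_trans (le_of_eq ?_) h
  norm_num
  ring

theorem QQ5_off : QQ D5s (9 / 8) (Eo 0 1) = 28 * aA + 336 / 5 * sB := by
  rw [v9_QQ]
  have h0 : vW (Eo 0 1) (Pi.single 0 1) = 7 * aA := by
    rw [v9_single_W, v9_Eo]
    congr 1
    refine integral_congr_ae (Filter.Eventually.of_forall fun y => ?_)
    simp [dotProduct, Fin.sum_univ_five]
  have h1 : vW (Eo 0 1) (Pi.single 1 1) = 7 * aA := by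
    rw [v9_single_W, v9_Eo, v9_swap]
    congr 1
    rw [aA]
    refine integral_congr_ae (Filter.Eventually.of_forall fun y => ?_)
    simp [dotProduct, Fin.sum_univ_five]
  have h2 : ∀ i : Fin (4 + 1), i ≠ 0 → i ≠ 1 → vW (Eo 0 1) (Pi.single i 1) = 0 := by
    intro i hi0 hi1
    rw [v9_single_W, v9_Eo, Pi.single_eq_of_ne hi0.symm, Pi.single_eq_of_ne hi1.symm]
    simp [dotProduct, Fin.sum_univ_five]
  have h3 : ∀ s : Fin (4 + 1) → Bool,
      vW (Eo 0 1) (fun i => if s i then 1 / 2 else -(1 / 2)) = 21 / 10 * sB := by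
    intro s
    rw [v9_hW, v9_Eo]
    have e : ∀ y : Fin (4 + 1) → ℝ, ((fun i => (if s i then 1 else -1) * (y i - av y)) ⬝ᵥ
        ![(if s 1 then (1 / 2 : ℝ) else -(1 / 2)), (if s 0 then 1 / 2 else -(1 / 2)), 0, 0, 0]) ^ 2 =
        1 / 4 * ((y 0 - av y) + (y 1 - av y)) ^ 2 := by
      intro y
      rw [dotProduct, Fin.sum_univ_five]
      simp
      split_ifs <;> ring
    simp only [e]
    rw [integral_const_mul, cB_pair.1]
    ring
  simp only [v9_Wneg, h3]
  rw [Fin.sum_univ_five, h0, h1, h2 2 (by decide) (by decide), h2 3 (by decide) (by decide),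
    h2 4 (by decide) (by decide), Finset.sum_const, Finset.card_univ]
  simp only [Fintype.card_fin, Fintype.card_fun, Fintype.card_bool, nsmul_eq_mul]
  norm_num
  ring

theorem QQ5_diag : QQ D5s (9 / 8) (Ed 0 1) = 112 * sB := by
  rw [v9_QQ]
  have h2 : ∀ i : Fin (4 + 1), vW (Ed 0 1) (Pi.single i 1) = 0 := by
    intro i
    rw [v9_single_W, v9_Ed]
    fin_cases i <;> simp [dotProduct, Fin.sum_univ_five]
  have h3 : ∀ s : Fin (4 + 1) → Bool,
      vW (Ed 0 1) (fun i => if s i then 1 / 2 else -(1 / 2)) = 7 / 2 * sB := by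
    intro s
    rw [v9_hW, v9_Ed]
    have e : ∀ y : Fin (4 + 1) → ℝ, ((fun i => (if s i then 1 else -1) * (y i - av y)) ⬝ᵥ
        ![(if s 0 then (1 / 2 : ℝ) else -(1 / 2)), -(if s 1 then 1 / 2 else -(1 / 2)), 0, 0, 0]) ^ 2 =
        1 / 4 * ((y 0 - av y) - (y 1 - av y)) ^ 2 := by
      intro y
      rw [dotProduct, Fin.sum_univ_five]
      simp
      split_ifs <;> ring
    simp only [e]
    rw [integral_const_mul, cB_pair.2]
    ring
  simp only [v9_Wneg, h3, h2]
  rw [Finset.sum_const, Finset.sum_const, Finset.card_univ, Finset.card_univ]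
  simp only [Fintype.card_fin, Fintype.card_fun, Fintype.card_bool, nsmul_eq_mul]
  norm_num
  ring

end Pool.Agent.H99G
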