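import Pool.Agent.H99G.V3
import Pool.Agent.H99G.V4
import Pool.Agent.H99G.V6
import Pool.Agent.H99G.V7
import Pool.Agent.H99G.V8b
import Pool.Agent.H99G.V9
import Pool.Agent.H99G.Cor2

set_option autoImplicit false

/-!
# `D5*`: the loss is smaller than the gain
-/

namespace Pool.Agent.H99G

open MeasureTheory Matrix

theorem D5s_pos : Pos D5s (9 / 8) := by
  refine ⟨?_, fun B hB => iso5 hB⟩
  have h1 := gA_eq
  have h2 := gB_eq
  have h3 := sB_le
  have h4 := aA_le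
  have h5 := vA_ge
  have h6 := vol5
  have h7 := GG5_ge
  have h8 := QQ5_off
  have h9 := QQ5_diag
  have ha : 0 ≤ aA := integral_nonneg fun y => sq_nonneg _
  have hs : 0 ≤ sB := integral_nonneg fun y => sq_nonneg _
  have i1 : QQ D5s (9 / 8) (Ed 0 1) < GG D5s / 5 := by
    rw [h9]
    linarith
  have i2 : QQ D5s (9 / 8) (Eo 0 1) < GG D5s / 5 := by
    rw [h8]
    linarith
  refine ⟨max (QQ D5s (9 / 8) (Ed 0 1) / 2) (QQ D5s (9 / 8) (Eo 0 1) / 2), ?_, fun B hB =>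
    QQ5_bound ?_ ?_ hB⟩
  · rw [max_lt_iff]
    constructor <;> norm_num <;> linarith
  · have := le_max_left (QQ D5s (9 / 8) (Ed 0 1) / 2) (QQ D5s (9 / 8) (Eo 0 1) / 2)
    linarith
  · have := le_max_right (QQ D5s (9 / 8) (Ed 0 1) / 2) (QQ D5s (9 / 8) (Eo 0 1) / 2)
    linarith

end Pool.Agent.H99G
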