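import Pool.Agent.H99G.W4

set_option autoImplicit false

/-!
# The polar of a lattice with a Cartan matrix
-/

namespace Pool.Agent.H99G

open MeasureTheory Matrix Pool.Agent.D4Q

/-- `κ` is positive and the inverse form is `κ⁻¹ • C⁻¹`. -/
private theorem scal {m : ℕ} {A : Matrix (Fin (m + 1)) (Fin (m + 1)) ℝ} {c κ : ℝ}
    (h1 : (c • A⁻¹).PosDef) (hc : 0 < c) (h2 : (κ • A).PosDef) :
    0 < κ ∧ (κ • A)⁻¹ = κ⁻¹ • A⁻¹ := by
  have hd : (κ • A).det ≠ 0 := h2.det_pos.ne'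
  rw [Matrix.det_smul] at hd
  have hA : A.det ≠ 0 := right_ne_zero_of_mul hd
  have hκ : κ ≠ 0 := by
    intro h
    apply hd
    rw [h, Fintype.card_fin, zero_pow (Nat.succ_ne_zero m), zero_mul]
  have hu : IsUnit A.det := isUnit_iff_ne_zero.mpr hA
  have h3 : (A⁻¹).PosDef := by
    have h := h1.smul (inv_pos.mpr hc)
    rwa [smul_smul, inv_mul_cancel₀ hc.ne', one_smul] at h
  have h4 : A.PosDef := by
    have h := h3.inv
    rwa [Matrix.nonsing_inv_nonsing_inv A hu] at h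
  have h5 : 0 < A 0 0 := h4.diag_pos
  have h6 : 0 < (κ • A) 0 0 := h2.diag_pos
  rw [Matrix.smul_apply, smul_eq_mul] at h6
  have h7 : 0 < κ := by
    by_contra hn
    have h8 := mul_nonpos_of_nonpos_of_nonneg (not_lt.mp hn) h5.le
    linarith
  refine ⟨h7, ?_⟩
  refine Matrix.inv_eq_right_inv ?_
  rw [Matrix.smul_mul, Matrix.mul_smul, smul_smul, mul_inv_cancel₀ hκ, one_smul,
    Matrix.mul_nonsing_inv A hu]

theorem polar_lm {m : ℕ} {C : Matrix (Fin (m + 1)) (Fin (m + 1)) ℤ}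
    {X : AddSubgroup (Fin (m + 1) → ℝ)} {c : ℝ} (hc : 0 < c)
    (hX : HasForm (sub X) (c • (C.map (fun z : ℤ => (z : ℝ)))⁻¹)) {μ : ℝ} (hG : Good X μ)
    (hP : Pos X μ) {M L : Submodule ℤ (EuclideanSpace ℝ (Fin (m + 1)))}
    [DiscreteTopology L] [IsZLattice ℝ L]
    (hM : ∃ (a : Fin (m + 1) → EuclideanSpace ℝ (Fin (m + 1))) (κ : ℝ), LinearIndependent ℝ a ∧
      M = Submodule.span ℤ (Set.range a) ∧ ∀ i j, inner ℝ (a i) (a j) = κ * (C i j : ℝ))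
    (hLM : ∀ y : EuclideanSpace ℝ (Fin (m + 1)), y ∈ L ↔ ∀ v ∈ M, ∃ k : ℤ,
      inner ℝ y v = (k : ℝ)) {b : Fin (m + 1) → EuclideanSpace ℝ (Fin (m + 1))}
    (hb : LinearIndependent ℝ b) (hE : L = Submodule.span ℤ (Set.range b)) : LM L b := by
  obtain ⟨a, κ, ha, hMa, hin⟩ := hM
  have hMf : HasForm M (κ • C.map (fun z : ℤ => (z : ℝ))) :=
    ⟨a, ha, hMa, fun i j => by rw [hin i j]; rfl⟩
  obtain ⟨hκ, hinv⟩ := scal (hasForm_posDef hX) hc (hasForm_posDef hMf)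
  have hLf := hasForm_dual hMf hLM
  rw [hinv] at hLf
  have hX' : HasForm (sub X) ((c * κ) • (κ⁻¹ • (C.map (fun z : ℤ => (z : ℝ)))⁻¹)) := by
    rw [smul_smul, mul_assoc, mul_inv_cancel₀ hκ.ne', mul_one]
    exact hX
  obtain ⟨i1, i2⟩ := hasForm_lattice hX
  have h0 : ∀ b0 : Fin (m + 1) → EuclideanSpace ℝ (Fin (m + 1)), LinearIndependent ℝ b0 →
      sub X = Submodule.span ℤ (Set.range b0) → LM (sub X) b0 := fun b0 hb0 hE0 =>
    final (L := sub X) (μ := μ) (by rw [gr_sub]; exact hG) (by rw [gr_sub]; exact hP) hb0 hE0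
  exact similar h0 hLf (mul_pos hc hκ) hX' hb hE

end Pool.Agent.H99G
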