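import Pool.Agent.H99G.Wdef

set_option autoImplicit false

/-!
# Facts about lattices
-/

namespace Pool.Agent.H99G

open MeasureTheory Matrix Pool.Agent.D4Q

variable {m : ℕ}

theorem lat_fin (L : Submodule ℤ (EuclideanSpace ℝ (Fin (m + 1)))) [DiscreteTopology L] (r : ℝ) :
    {l : Fin (m + 1) → ℝ | l ∈ gr L ∧ l ⬝ᵥ l ≤ r}.Finite := by
  have hcl : IsClosed (L : Set (EuclideanSpace ℝ (Fin (m + 1)))) := by
    have : DiscreteTopology L.toAddSubgroup := inferInstanceAs (DiscreteTopology L)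
    exact AddSubgroup.isClosed_of_discrete (H := L.toAddSubgroup)
  have hd : DiscreteTopology (L : Set (EuclideanSpace ℝ (Fin (m + 1)))) :=
    inferInstanceAs (DiscreteTopology L)
  have h1 := Metric.finite_isBounded_inter_isClosed hd.isDiscrete
    (Metric.isBounded_closedBall (x := (0 : EuclideanSpace ℝ (Fin (m + 1)))) (r := √r)) hcl
  refine (h1.image fun x => x.ofLp).subset ?_
  rintro l ⟨hl, hr⟩
  refine ⟨WithLp.toLp 2 l, ⟨?_, hl⟩, rfl⟩
  rw [mem_closedBall_zero_iff]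
  refine Real.le_sqrt_of_sq_le ?_
  rw [norm_sq_eq]
  exact hr

theorem lat_cov (L : Submodule ℤ (EuclideanSpace ℝ (Fin (m + 1)))) [DiscreteTopology L]
    [IsZLattice ℝ L] : ∃ μ : ℝ, 0 < μ ∧ ∀ y : Fin (m + 1) → ℝ, ∃ l ∈ gr L,
      2 * ((y - l) ⬝ᵥ (y - l)) ≤ μ := by
  have hfree : Module.Free ℤ L := ZLattice.module_free ℝ L
  have hfin : Module.Finite ℤ L := ZLattice.module_finite ℝ L
  let b := (Module.Free.chooseBasis ℤ L).ofZLatticeBasis ℝ L
  have hspan : Submodule.span ℤ (Set.range b) = L :=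
    (Module.Free.chooseBasis ℤ L).ofZLatticeBasis_span ℝ L
  obtain ⟨C, hC⟩ := (ZSpan.fundamentalDomain_isBounded b).exists_norm_le
  refine ⟨2 * C ^ 2 + 1, by positivity, fun y => ?_⟩
  have h1 : ((ZSpan.floor b (WithLp.toLp 2 y) : Submodule.span ℤ (Set.range b)) :
      EuclideanSpace ℝ (Fin (m + 1))) ∈ L := by
    exact hspan.le (ZSpan.floor b (WithLp.toLp 2 y)).2
  refine ⟨((ZSpan.floor b (WithLp.toLp 2 y) : Submodule.span ℤ (Set.range b)) :
      EuclideanSpace ℝ (Fin (m + 1))).ofLp, h1, ?_⟩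
  have h3 := hC _ (ZSpan.fract_mem_fundamentalDomain b (WithLp.toLp 2 y))
  have h4 : ‖ZSpan.fract b (WithLp.toLp 2 y)‖ ^ 2 ≤ C ^ 2 :=
    pow_le_pow_left₀ (norm_nonneg _) h3 2
  rw [norm_sq_eq] at h4
  have h5 : (ZSpan.fract b (WithLp.toLp 2 y)).ofLp =
      y - ((ZSpan.floor b (WithLp.toLp 2 y) : Submodule.span ℤ (Set.range b)) :
      EuclideanSpace ℝ (Fin (m + 1))).ofLp := by
    rw [ZSpan.fract_apply]
    rfl
  rw [h5] at h4
  linarith

theorem lat_vol (L : Submodule ℤ (EuclideanSpace ℝ (Fin (m + 1)))) [DiscreteTopology L]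
    [IsZLattice ℝ L] : (volume (PP (gr L))).toReal = ZLattice.covolume L := by
  have hpre : Vor L = (fun x : EuclideanSpace ℝ (Fin (m + 1)) => x.ofLp) ⁻¹' PP (gr L) := by
    ext x
    exact vor_iff L x
  have h1 : volume (Vor L) = volume (PP (gr L)) := by
    rw [hpre]
    exact (PiLp.volume_preserving_ofLp (Fin (m + 1))).measure_preimage
      PP_closed.measurableSet.nullMeasurableSet
  rw [ZLattice.covolume_eq_measure_fundamentalDomain L volume (isFund_Vor L), Measure.real, h1]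

theorem lat_min (L : Submodule ℤ (EuclideanSpace ℝ (Fin (m + 1)))) [DiscreteTopology L]
    [IsZLattice ℝ L] : ∃ w ∈ gr L, w ≠ 0 ∧ ∀ l ∈ gr L, l ≠ 0 → w ⬝ᵥ w ≤ l ⬝ᵥ l := by
  classical
  obtain ⟨w0, hw0, hw0'⟩ : ∃ w0 ∈ gr L, w0 ≠ 0 := by
    by_contra hc
    push Not at hc
    have h1 : (L : Set (EuclideanSpace ℝ (Fin (m + 1)))) ⊆ {0} := by
      intro x hx
      have h2 := hc x.ofLp hx
      rw [Set.mem_singleton_iff]
      ext i
      exact congrFun h2 i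
    have h2 := IsZLattice.span_top (K := ℝ) (L := L)
    have h3 : Submodule.span ℝ (L : Set (EuclideanSpace ℝ (Fin (m + 1)))) = ⊥ := by
      rw [Submodule.span_eq_bot]
      intro x hx
      exact h1 hx
    rw [h3] at h2
    exact bot_ne_top h2
  have hfin := lat_fin L (w0 ⬝ᵥ w0)
  have h0 : w0 ∈ hfin.toFinset.erase 0 :=
    Finset.mem_erase.2 ⟨hw0', (Set.Finite.mem_toFinset _).2 ⟨hw0, le_rfl⟩⟩
  obtain ⟨w, hw, hmin⟩ := Finset.exists_min_image _ (fun l : Fin (m + 1) → ℝ => l ⬝ᵥ l) ⟨w0, h0⟩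
  rw [Finset.mem_erase, Set.Finite.mem_toFinset] at hw
  refine ⟨w, hw.2.1, hw.1, fun l hl hl0 => ?_⟩
  rcases le_or_gt (l ⬝ᵥ l) (w0 ⬝ᵥ w0) with h1 | h1
  · exact hmin l (Finset.mem_erase.2 ⟨hl0, (Set.Finite.mem_toFinset _).2 ⟨hl, h1⟩⟩)
  · exact (hmin w0 h0).trans h1.le

end Pool.Agent.H99G
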