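import Pool.Agent.D4Q.LatA
import Pool.Agent.D4Q.LatD

set_option autoImplicit false

/-!
# Existence of the lattices with a Cartan matrix, and the determinant of the polar
-/

namespace Pool.Agent.H99G

open MeasureTheory Matrix Pool.Agent.D4Q

variable {m : ℕ}

theorem exists_M {C : Matrix (Fin (m + 1)) (Fin (m + 1)) ℤ}
    {L0 : Submodule ℤ (EuclideanSpace ℝ (Fin (m + 1)))} {c : ℝ} (hc : 0 < c)
    (hX : HasForm L0 (c • (C.map (fun z : ℤ => (z : ℝ)))⁻¹)) :
    ∃ (M : Submodule ℤ (EuclideanSpace ℝ (Fin (m + 1)))) (_ : DiscreteTopology M)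
      (_ : IsZLattice ℝ M) (a : Fin (m + 1) → EuclideanSpace ℝ (Fin (m + 1))) (κ : ℝ),
      ZLattice.covolume M = 1 ∧ LinearIndependent ℝ a ∧ M = Submodule.span ℤ (Set.range a) ∧
      ∀ i j, inner ℝ (a i) (a j) = κ * (C i j : ℝ) := by
  set Cr : Matrix (Fin (m + 1)) (Fin (m + 1)) ℝ := C.map (fun z : ℤ => (z : ℝ)) with hCr
  have hP := hasForm_posDef hX
  have hP1 : (Cr⁻¹).PosDef := by
    have h1 := hP.smul (inv_pos.2 hc)
    rwa [smul_smul, inv_mul_cancel₀ hc.ne', one_smul] at h1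
  have hu : IsUnit Cr.det :=
    Matrix.isUnit_nonsing_inv_det_iff.1 hP1.det_pos.ne'.isUnit
  have hP2 : Cr.PosDef := by
    have h1 := hP1.inv
    rwa [Matrix.nonsing_inv_nonsing_inv Cr hu] at h1
  have hd := hP2.det_pos
  set κ : ℝ := (Cr.det)⁻¹ ^ ((1 : ℝ) / ((m : ℝ) + 1)) with hκ
  have hκ0 : 0 < κ := Real.rpow_pos_of_pos (inv_pos.2 hd) _
  have hκp : κ ^ (m + 1) = (Cr.det)⁻¹ := by
    rw [hκ, ← Real.rpow_natCast, ← Real.rpow_mul (inv_pos.2 hd).le]
    push_cast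
    rw [one_div, inv_mul_cancel₀ (by positivity), Real.rpow_one]
  obtain ⟨M, hM⟩ := exists_lattice (hP2.smul hκ0)
  obtain ⟨h1, h2⟩ := hasForm_lattice hM
  have h3 := covolume_sq hM
  rw [Matrix.det_smul, Fintype.card_fin, hκp, inv_mul_cancel₀ hd.ne'] at h3
  have h4 : ZLattice.covolume M = 1 := by
    have h5 : 0 < ZLattice.covolume M := ZLattice.covolume_pos M volume
    nlinarith
  obtain ⟨a, ha, hMa, hG⟩ := hM
  refine ⟨M, h1, h2, a, κ, h4, ha, hMa, fun i j => ?_⟩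
  rw [← hG i j]
  rfl

/-- the polar of a lattice of determinant one is a lattice of determinant one -/
theorem polar_InL1 {M L : Submodule ℤ (EuclideanSpace ℝ (Fin (m + 1)))} [DiscreteTopology M]
    [IsZLattice ℝ M] (hc : ZLattice.covolume M = 1)
    (hLM : ∀ y : EuclideanSpace ℝ (Fin (m + 1)), y ∈ L ↔ ∀ v ∈ M, ∃ k : ℤ,
      inner ℝ y v = (k : ℝ)) :
    ∃ (_ : DiscreteTopology L) (_ : IsZLattice ℝ L), ZLattice.covolume L = 1 := by
  obtain ⟨R, hR⟩ := exists_form M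
  have h1 := covolume_sq hR
  rw [hc, one_pow] at h1
  have h2 := hasForm_dual hR hLM
  obtain ⟨i1, i2⟩ := hasForm_lattice h2
  refine ⟨i1, i2, ?_⟩
  have h3 := covolume_sq h2
  rw [Matrix.det_nonsing_inv, ← h1, Ring.inverse_one] at h3
  have h5 : 0 < ZLattice.covolume L := ZLattice.covolume_pos L volume
  nlinarith

end Pool.Agent.H99G
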