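import Pool.Agent.H99G.Ins
import Pool.Agent.H99G.V10
import Pool.Agent.H99G.W5
import Pool.Agent.H99G.W8
import Pool.Agent.H99G.W9
import Pool.Agent.H99G.FD4
import Pool.Agent.H99G.FD5
import Pool.Agent.H99G.FE6
import Pool.Agent.H99G.FE7
import Pool.Agent.H99G.FE8

set_option autoImplicit false

/-!
# Assembly
-/

namespace Pool.Agent.H99G

open MeasureTheory Matrix Pool.Agent.D4Q

variable {m : ℕ}

/-- The criterion for lattices. -/
theorem criterion {L : Submodule ℤ (EuclideanSpace ℝ (Fin (m + 1)))} [DiscreteTopology L]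
    [IsZLattice ℝ L] (hm : 2 ≤ m) (hI : Irr (gr L))
    (hcr : (∀ y : EuclideanSpace ℝ (Fin (m + 1)), ∃ v ∈ L, ∀ w ∈ L, w ≠ 0 →
        2 * ‖y - v‖ ^ 2 ≤ ‖w‖ ^ 2) ∨
      ∃ ν : ℝ, 0 ≤ ν ∧ (∀ w ∈ L, w ≠ 0 → ν ≤ ‖w‖ ^ 2) ∧
        2 * ((m : ℝ) + 2) * (m + 3) * (∫ x in {x : EuclideanSpace ℝ (Fin (m + 1)) |
          ∀ v ∈ L, ‖x‖ ≤ ‖x - v‖}, ‖x‖ ^ 2) < ν * (m + 1) ^ 2 * ZLattice.covolume L)
    {b : Fin (m + 1) → EuclideanSpace ℝ (Fin (m + 1))} (hb : LinearIndependent ℝ b)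
    (hE : L = Submodule.span ℤ (Set.range b)) : LM L b := by
  rcases hcr with hcr | ⟨ν, h0, h1, h2⟩
  · obtain ⟨w, hw, hw0, hmin⟩ := lat_min L
    have hpos : 0 < w ⬝ᵥ w := dot_pos hw0
    have hG : Good (gr L) (w ⬝ᵥ w) := by
      refine ⟨lat_fin L, hpos, fun y => ?_⟩
      obtain ⟨v, hv, h⟩ := hcr (WithLp.toLp 2 y)
      refine ⟨v.ofLp, hv, ?_⟩
      have h3 := h (WithLp.toLp 2 w) hw (fun h0 => hw0 (by
        have := congrArg WithLp.ofLp h0
        simpa using this))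
      rw [norm_sq_eq, norm_sq_eq] at h3
      exact h3
    exact final hG (pos_of_crit hG (Or.inl hmin) hI hm) hb hE
  · obtain ⟨μ, hμ, hcov⟩ := lat_cov L
    have hG : Good (gr L) μ := ⟨lat_fin L, hμ, hcov⟩
    refine final hG (pos_of_crit hG (Or.inr ⟨ν, h0, ?_, ?_⟩) hI hm) hb hE
    · intro l hl hl0
      have h3 := h1 (WithLp.toLp 2 l) hl (fun h0 => hl0 (by
        have := congrArg WithLp.ofLp h0
        simpa using this))
      rw [norm_sq_eq] at h3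
      exact h3
    · rw [secondMoment_eq] at h2
      rw [lat_vol]
      exact h2

end Pool.Agent.H99G
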