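import Pool.Agent.H99G.Irq
import Pool.Agent.H99G.Cel

set_option autoImplicit false

/-! # Isotropy of the cell (helper82) -/

namespace Pool.Agent.H99G

open MeasureTheory Matrix

variable {m : ℕ} {L : AddSubgroup (Fin (m + 1) → ℝ)} {μ : ℝ}

private theorem is_int {g : Matrix (Fin (m + 1)) (Fin (m + 1)) ℝ} (hg : gᵀ * g = 1)
    {V : Set (Fin (m + 1) → ℝ)} (hV : ∀ y, g *ᵥ y ∈ V ↔ y ∈ V)
    (f : (Fin (m + 1) → ℝ) → ℝ) : ∫ y in V, f (g *ᵥ y) = ∫ y in V, f y := by
  have hdet : g.det * g.det = 1 := by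
    have h1 := congrArg Matrix.det hg
    rwa [Matrix.det_mul, Matrix.det_transpose, Matrix.det_one] at h1
  have hdet0 : g.det ≠ 0 := by
    intro h
    rw [h, mul_zero] at hdet
    exact zero_ne_one hdet
  have habs : |g.det| = 1 := by
    have h1 : |g.det| * |g.det| = 1 := by rw [abs_mul_abs_self, hdet]
    nlinarith [abs_nonneg g.det]
  have hmap := Real.map_matrix_volume_pi_eq_smul_volume_pi hdet0
  have h1 : ENNReal.ofReal |g.det⁻¹| = 1 := by
    rw [abs_inv, habs, inv_one, ENNReal.ofReal_one]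
  rw [h1, one_smul] at hmap
  have hmeas : Measurable (Matrix.toLin' g) :=
    (LinearMap.continuous_of_finiteDimensional (Matrix.toLin' g)).measurable
  have hmp : MeasurePreserving (Matrix.toLin' g) (volume : Measure (Fin (m + 1) → ℝ)) volume :=
    ⟨hmeas, hmap⟩
  have hinj : Function.Injective (Matrix.toLin' g) := by
    intro x y hxy
    have h2 : gᵀ *ᵥ (g *ᵥ x) = gᵀ *ᵥ (g *ᵥ y) := by
      simpa only [Matrix.toLin'_apply] using congrArg (fun z => gᵀ *ᵥ z) hxy
    rwa [Matrix.mulVec_mulVec, Matrix.mulVec_mulVec, hg, Matrix.one_mulVec, Matrix.one_mulVec]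
      at h2
  have hemb : MeasurableEmbedding (Matrix.toLin' g) :=
    (LinearMap.continuous_of_finiteDimensional (Matrix.toLin' g)).measurableEmbedding hinj
  have h3 := hmp.setIntegral_preimage_emb hemb f V
  have hpre : (Matrix.toLin' g) ⁻¹' V = V := by
    ext y
    rw [Set.mem_preimage, Matrix.toLin'_apply]
    exact hV y
  rw [hpre] at h3
  simpa only [Matrix.toLin'_apply] using h3

private theorem is_tr {g : Matrix (Fin (m + 1)) (Fin (m + 1)) ℝ} (hg : IsAut L g) :
    IsAut L gᵀ := by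
  refine ⟨by rw [Matrix.transpose_transpose]; exact hg.2.1,
    by rw [Matrix.transpose_transpose]; exact hg.1, fun x => ?_⟩
  have h1 := hg.2.2 (gᵀ *ᵥ x)
  rw [Matrix.mulVec_mulVec, hg.2.1, Matrix.one_mulVec] at h1
  exact h1.symm

private theorem is_dot {g : Matrix (Fin (m + 1)) (Fin (m + 1)) ℝ} (x y : Fin (m + 1) → ℝ) :
    (g *ᵥ x) ⬝ᵥ y = x ⬝ᵥ (gᵀ *ᵥ y) := by
  rw [dotProduct_comm, dotProduct_mulVec, ← mulVec_transpose, dotProduct_comm]

private theorem is_PP' {g : Matrix (Fin (m + 1)) (Fin (m + 1)) ℝ} (hg : IsAut L g)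
    {y : Fin (m + 1) → ℝ} (hy : y ∈ PP L) : g *ᵥ y ∈ PP L := by
  intro l hl
  have h1 : gᵀ *ᵥ l ∈ L := ((is_tr hg).2.2 l).2 hl
  have h2 := hy _ h1
  rw [is_dot]
  refine h2.trans (le_of_eq ?_)
  rw [← is_dot, Matrix.mulVec_mulVec, hg.2.1, Matrix.one_mulVec]

private theorem is_PP {g : Matrix (Fin (m + 1)) (Fin (m + 1)) ℝ} (hg : IsAut L g)
    (y : Fin (m + 1) → ℝ) : g *ᵥ y ∈ PP L ↔ y ∈ PP L := by
  refine ⟨fun h => ?_, is_PP' hg⟩
  have h1 := is_PP' (is_tr hg) h
  rwa [Matrix.mulVec_mulVec, hg.1, Matrix.one_mulVec] at h1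

/-- the linear form -/
private noncomputable def is_T (L : AddSubgroup (Fin (m + 1) → ℝ))
    (B : Matrix (Fin (m + 1)) (Fin (m + 1)) ℝ) : ℝ :=
  ∑ i, ∑ j, B i j * ∫ y in PP L, y i * y j

private theorem is_integ (h : Good L μ) (i j : Fin (m + 1)) :
    Integrable (fun y : Fin (m + 1) → ℝ => y i * y j) (volume.restrict (PP L)) := by
  have h1 : ContinuousOn (fun y : Fin (m + 1) → ℝ => y i * y j) (PP L) := by
    apply Continuous.continuousOn
    fun_prop
  exact h1.integrableOn_compact (PP_compact h)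

private theorem is_T_eq (h : Good L μ) (B : Matrix (Fin (m + 1)) (Fin (m + 1)) ℝ) :
    ∫ y in PP L, y ⬝ᵥ B *ᵥ y = is_T L B := by
  have h1 : ∀ y : Fin (m + 1) → ℝ, y ⬝ᵥ B *ᵥ y = ∑ i, ∑ j, B i j * (y i * y j) := by
    intro y
    simp only [dotProduct, Matrix.mulVec, Finset.mul_sum]
    refine Finset.sum_congr rfl fun i _ => Finset.sum_congr rfl fun j _ => by ring
  have h0 : ∀ i, Integrable (fun y : Fin (m + 1) → ℝ => ∑ j, B i j * (y i * y j))
      (volume.restrict (PP L)) := fun i =>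
    integrable_finsetSum Finset.univ fun j _ => (is_integ h i j).const_mul (B i j)
  have h5 : ∫ y in PP L, y ⬝ᵥ B *ᵥ y = ∑ i, ∫ y in PP L, ∑ j, B i j * (y i * y j) := by
    rw [← integral_finsetSum Finset.univ fun i _ => h0 i]
    exact integral_congr_ae (Filter.Eventually.of_forall fun y => h1 y)
  rw [h5]
  unfold is_T
  refine Finset.sum_congr rfl fun i _ => ?_
  rw [integral_finsetSum Finset.univ fun j _ => (is_integ h i j).const_mul (B i j)]
  refine Finset.sum_congr rfl fun j _ => ?_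
  rw [integral_const_mul]

private theorem is_T_add (B C : Matrix (Fin (m + 1)) (Fin (m + 1)) ℝ) :
    is_T L (B + C) = is_T L B + is_T L C := by
  unfold is_T
  simp only [← Finset.sum_add_distrib, Matrix.add_apply, add_mul]

private theorem is_T_smul (c : ℝ) (B : Matrix (Fin (m + 1)) (Fin (m + 1)) ℝ) :
    is_T L (c • B) = c * is_T L B := by
  unfold is_T
  simp only [Finset.mul_sum, Matrix.smul_apply, smul_eq_mul, mul_assoc]

private theorem is_T_sub (B C : Matrix (Fin (m + 1)) (Fin (m + 1)) ℝ) :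
    is_T L (B - C) = is_T L B - is_T L C := by
  have h1 : B - C = B + (-1 : ℝ) • C := by
    ext i j
    simp only [Matrix.sub_apply, Matrix.add_apply, Matrix.smul_apply, smul_eq_mul]
    ring
  rw [h1, is_T_add, is_T_smul]
  ring

private theorem is_T_cont :
    Continuous (is_T L : Matrix (Fin (m + 1)) (Fin (m + 1)) ℝ → ℝ) := by
  unfold is_T
  refine continuous_finset_sum _ fun i _ => continuous_finset_sum _ fun j _ => ?_
  have h1 : Continuous (fun B : Matrix (Fin (m + 1)) (Fin (m + 1)) ℝ => B i j) :=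
    continuous_id.matrix_elem i j
  exact h1.mul continuous_const

private theorem is_T_inv (h : Good L μ) {g : Matrix (Fin (m + 1)) (Fin (m + 1)) ℝ}
    (hg : IsAut L g) (B : Matrix (Fin (m + 1)) (Fin (m + 1)) ℝ) :
    is_T L (g * B * gᵀ) = is_T L B := by
  rw [← is_T_eq h, ← is_T_eq h]
  have h1 := is_int (is_tr hg).1 (is_PP (is_tr hg)) (fun y => y ⬝ᵥ B *ᵥ y)
  rw [← h1]
  refine integral_congr_ae (Filter.Eventually.of_forall fun y => ?_)
  change y ⬝ᵥ (g * B * gᵀ) *ᵥ y = (gᵀ *ᵥ y) ⬝ᵥ B *ᵥ (gᵀ *ᵥ y)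
  rw [is_dot, Matrix.transpose_transpose, Matrix.mulVec_mulVec, Matrix.mulVec_mulVec,
    Matrix.mul_assoc]

/-- two traceless symmetric matrices -/
private def is_E (a b : Fin (m + 1)) : Matrix (Fin (m + 1)) (Fin (m + 1)) ℝ :=
  Matrix.of fun i j => (if i = a ∧ j = a then 1 else 0) - (if i = b ∧ j = b then 1 else 0)

private def is_F (a b : Fin (m + 1)) : Matrix (Fin (m + 1)) (Fin (m + 1)) ℝ :=
  Matrix.of fun i j => (if i = a ∧ j = b then 1 else 0) + (if i = b ∧ j = a then 1 else 0)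

private theorem is_sum_one (f : Fin (m + 1) → Fin (m + 1) → ℝ) (a b : Fin (m + 1)) :
    ∑ i, ∑ j, (if i = a ∧ j = b then 1 else 0) * f i j = f a b := by
  rw [Finset.sum_eq_single a]
  · rw [Finset.sum_eq_single b]
    · simp
    · intro j _ hj
      rw [if_neg fun h => hj h.2, zero_mul]
    · simp
  · intro i _ hi
    refine Finset.sum_eq_zero fun j _ => ?_
    rw [if_neg fun h => hi h.1, zero_mul]
  · simp

private theorem is_comb {a b : Fin (m + 1)} (hab : a ≠ b) (x y : ℝ) :
    (x • is_E a b + y • is_F a b)ᵀ = x • is_E a b + y • is_F a b ∧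
      (x • is_E a b + y • is_F a b).trace = 0 ∧
      fro (x • is_E a b + y • is_F a b) = 2 * x ^ 2 + 2 * y ^ 2 := by
  refine ⟨?_, ?_, ?_⟩
  · ext i j
    simp only [is_E, is_F, Matrix.transpose_apply, Matrix.add_apply, Matrix.smul_apply,
      Matrix.of_apply, smul_eq_mul]
    have e1 : (j = a ∧ i = a) = (i = a ∧ j = a) := propext and_comm
    have e2 : (j = b ∧ i = b) = (i = b ∧ j = b) := propext and_comm
    have e3 : (j = a ∧ i = b) = (i = b ∧ j = a) := propext and_comm
    have e4 : (j = b ∧ i = a) = (i = a ∧ j = b) := propext and_comm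
    simp only [e1, e2, e3, e4]
    ring
  · have h1 : ∀ i : Fin (m + 1), (x • is_E a b + y • is_F a b) i i =
        (if i = a then x else 0) - (if i = b then x else 0) := by
      intro i
      simp only [is_E, is_F, Matrix.add_apply, Matrix.smul_apply, Matrix.of_apply, smul_eq_mul,
        and_self]
      have e3 : ¬ (i = a ∧ i = b) := fun h => hab (h.1.symm.trans h.2)
      have e4 : ¬ (i = b ∧ i = a) := fun h => hab (h.2.symm.trans h.1)
      rw [if_neg e3, if_neg e4]
      split_ifs <;> ring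
    unfold Matrix.trace
    simp only [Matrix.diag_apply, h1, Finset.sum_sub_distrib]
    simp
  · have h1 : ∀ i j : Fin (m + 1), (x • is_E a b + y • is_F a b) i j ^ 2 =
        (if i = a ∧ j = a then 1 else 0) * x ^ 2 + (if i = b ∧ j = b then 1 else 0) * x ^ 2 +
        ((if i = a ∧ j = b then 1 else 0) * y ^ 2 +
          (if i = b ∧ j = a then 1 else 0) * y ^ 2) := by
      intro i j
      simp only [is_E, is_F, Matrix.add_apply, Matrix.smul_apply, Matrix.of_apply, smul_eq_mul]
      by_cases h1 : i = a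
      · by_cases h2 : j = a
        · have h3 : i ≠ b := fun h => hab (h1.symm.trans h)
          have h4 : j ≠ b := fun h => hab (h2.symm.trans h)
          simp [h1, h2, hab]
        · have h3 : i ≠ b := fun h => hab (h1.symm.trans h)
          by_cases h4 : j = b
          · simp [h1, h4, hab, Ne.symm hab]
          · simp [h1, h2, h4, hab]
      · by_cases h2 : i = b
        · by_cases h3 : j = a
          · simp [h2, h3, hab, Ne.symm hab]
          · by_cases h4 : j = b
            · simp [h2, h4, hab, Ne.symm hab]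
            · simp [h2, h3, h4, Ne.symm hab]
        · simp [h1, h2]
    unfold fro
    simp only [h1, Finset.sum_add_distrib]
    rw [is_sum_one (fun _ _ => x ^ 2), is_sum_one (fun _ _ => x ^ 2),
      is_sum_one (fun _ _ => y ^ 2), is_sum_one (fun _ _ => y ^ 2)]
    ring

theorem iso_PP (h : Good L μ) (hI : Irr L) (hm : 1 ≤ m)
    {B : Matrix (Fin (m + 1)) (Fin (m + 1)) ℝ} (hB : Bᵀ = B) :
    ∫ y in PP L, y ⬝ᵥ B *ᵥ y = GG L / (m + 1) * B.trace := by
  obtain ⟨q, hq⟩ := irr_quad hI (Q := fun B => is_T L B ^ 2)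
    (fun B C => by
      simp only [is_T_add, is_T_sub]
      ring)
    (fun c B => by
      simp only [is_T_smul]
      ring)
    (is_T_cont.pow 2) (fun g hg B => by simp only [is_T_inv h hg])
  have hab : (⟨0, by omega⟩ : Fin (m + 1)) ≠ ⟨1, by omega⟩ := by
    intro h1
    exact absurd (Fin.mk.inj_iff.1 h1) (by norm_num)
  set a : Fin (m + 1) := ⟨0, by omega⟩ with ha
  set b : Fin (m + 1) := ⟨1, by omega⟩ with hb
  have hq0 : q = 0 := by
    obtain ⟨e1, e2, e3⟩ := is_comb hab 1 0
    obtain ⟨e4, e5, e6⟩ := is_comb hab 0 1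
    have f1 := hq _ e1 e2
    have f2 := hq _ e4 e5
    obtain ⟨e7, e8, e9⟩ := is_comb hab (is_T L (is_F a b)) (-(is_T L (is_E a b)))
    have f3 := hq _ e7 e8
    simp only [is_T_add, is_T_smul] at f1 f2 f3
    rw [e3] at f1
    rw [e6] at f2
    rw [e9] at f3
    have g1 : is_T L (is_E a b) ^ 2 = 2 * q := by nlinarith
    have g2 : is_T L (is_F a b) ^ 2 = 2 * q := by nlinarith
    have g3 : q * (2 * (2 * q) + 2 * (2 * q)) = 0 := by
      have : (is_T L (is_F a b) * is_T L (is_E a b) +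
          -is_T L (is_E a b) * is_T L (is_F a b)) ^ 2 = 0 := by ring
      rw [this] at f3
      rw [neg_sq, g1, g2] at f3
      exact f3.symm
    have g4 : q * q = 0 := by nlinarith
    exact mul_self_eq_zero.1 g4
  have hT : ∀ B : Matrix (Fin (m + 1)) (Fin (m + 1)) ℝ, Bᵀ = B → B.trace = 0 →
      is_T L B = 0 := by
    intro C h1 h2
    have h3 := hq C h1 h2
    rw [hq0, zero_mul] at h3
    exact pow_eq_zero_iff (two_ne_zero) |>.1 h3
  have hn : ((m : ℝ) + 1) ≠ 0 := by positivity
  have h1 := hT (B - (B.trace / (m + 1)) • (1 : Matrix (Fin (m + 1)) (Fin (m + 1)) ℝ))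
    (by rw [Matrix.transpose_sub, Matrix.transpose_smul, Matrix.transpose_one, hB])
    (by
      rw [Matrix.trace_sub, Matrix.trace_smul, Matrix.trace_one, Fintype.card_fin]
      push_cast
      rw [smul_eq_mul, div_mul_cancel₀ _ hn, sub_self])
  rw [is_T_sub, is_T_smul] at h1
  have h2 : is_T L (1 : Matrix (Fin (m + 1)) (Fin (m + 1)) ℝ) = GG L := by
    rw [← is_T_eq h]
    unfold GG
    refine integral_congr_ae (Filter.Eventually.of_forall fun y => ?_)
    change y ⬝ᵥ (1 : Matrix (Fin (m + 1)) (Fin (m + 1)) ℝ) *ᵥ y = y ⬝ᵥ y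
    rw [Matrix.one_mulVec]
  rw [is_T_eq h, sub_eq_zero.1 h1, h2]
  field_simp

end Pool.Agent.H99G
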