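import Pool.Agent.H99G.Fra
import Pool.Agent.H99G.Cel
import Pool.Agent.H99G.Fac

/-!
Package Los: the loss at one lattice vector.
-/

set_option autoImplicit false

namespace Pool.Agent.H99G

open MeasureTheory Matrix Filter Topology

variable {m : ℕ} {L : AddSubgroup (Fin (m + 1) → ℝ)} {μ : ℝ}

/-- twice the linear form on the facet -/
private noncomputable def ell (l : Fin (m + 1) → ℝ) (B : Matrix (Fin (m + 1)) (Fin (m + 1)) ℝ)
    (z : Fin m → ℝ) : ℝ :=
  2 * (pt l 0 z ⬝ᵥ B *ᵥ l)

private lemma len_sq (l : Fin (m + 1) → ℝ) : len l ^ 2 = l ⬝ᵥ l :=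
  Real.sq_sqrt (by
    rw [dotProduct]
    exact Finset.sum_nonneg fun i _ => mul_self_nonneg _)

private lemma len_pos {l : Fin (m + 1) → ℝ} (hl0 : l ≠ 0) : 0 < len l := by
  refine Real.sqrt_pos.2 ?_
  rw [dotProduct]
  obtain ⟨i, hi⟩ := Function.ne_iff.1 hl0
  exact Finset.sum_pos' (fun i _ => mul_self_nonneg _)
    ⟨i, Finset.mem_univ i, mul_self_pos.2 hi⟩

private lemma DD_pt (B : Matrix (Fin (m + 1)) (Fin (m + 1)) ℝ) {l : Fin (m + 1) → ℝ}
    (hl0 : l ≠ 0) (u : ℝ) (z : Fin m → ℝ) :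
    DD B l (pt l (len l / 2 - u) z) =
      ell l B z - 2 * u * len l - 2 * u / len l * (l ⬝ᵥ B *ᵥ l) := by
  have h0 := (len_pos hl0).ne'
  rw [DD, pt_dot_l, ← len_sq, pt_eq hl0 (len l / 2 - u) z, ell, add_dotProduct, smul_dotProduct,
    smul_eq_mul]
  field_simp
  ring

private lemma ell_cont (l : Fin (m + 1) → ℝ) (B : Matrix (Fin (m + 1)) (Fin (m + 1)) ℝ) :
    Continuous (ell l B) := by
  have h : Continuous fun z : Fin m → ℝ => pt l 0 z :=
    (pt_cont l).comp (continuous_const.prodMk continuous_id)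
  unfold ell
  exact continuous_const.mul (h.dotProduct continuous_const)

private lemma pt_neg (l : Fin (m + 1) → ℝ) (z : Fin m → ℝ) : pt l 0 (-z) = -pt l 0 z := by
  rw [pt, pt, ← mulVec_neg]
  congr 1
  ext i
  refine Fin.cases ?_ (fun j => ?_) i <;> simp

private lemma ell_neg (l : Fin (m + 1) → ℝ) (B : Matrix (Fin (m + 1)) (Fin (m + 1)) ℝ)
    (z : Fin m → ℝ) : ell l B (-z) = -ell l B z := by
  rw [ell, ell, pt_neg, neg_dotProduct]
  ring

private lemma cs {n : ℕ} (f g : Fin n → ℝ) : (f ⬝ᵥ g) ^ 2 ≤ (f ⬝ᵥ f) * (g ⬝ᵥ g) := by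
  have := Finset.sum_mul_sq_le_sq_mul_sq Finset.univ f g
  simpa [dotProduct, sq] using this

private lemma dot_self_nonneg {n : ℕ} (f : Fin n → ℝ) : 0 ≤ f ⬝ᵥ f := by
  rw [dotProduct]
  exact Finset.sum_nonneg fun i _ => mul_self_nonneg _

private lemma norm_W {B : Matrix (Fin (m + 1)) (Fin (m + 1)) ℝ} {β : ℝ} (hf : fro B ≤ β ^ 2)
    (l : Fin (m + 1) → ℝ) : (B *ᵥ l) ⬝ᵥ (B *ᵥ l) ≤ β ^ 2 * (l ⬝ᵥ l) := by
  have h1 : ∀ i, (B *ᵥ l) i * (B *ᵥ l) i ≤ (∑ j, B i j ^ 2) * (l ⬝ᵥ l) := by
    intro i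
    have h2 := cs (B i) l
    have h3 : (B *ᵥ l) i = B i ⬝ᵥ l := rfl
    have h4 : B i ⬝ᵥ B i = ∑ j, B i j ^ 2 := by
      rw [dotProduct]
      exact Finset.sum_congr rfl fun j _ => (sq _).symm
    rw [h3, ← sq, ← h4]
    exact h2
  calc (B *ᵥ l) ⬝ᵥ (B *ᵥ l) = ∑ i, (B *ᵥ l) i * (B *ᵥ l) i := rfl
    _ ≤ ∑ i, (∑ j, B i j ^ 2) * (l ⬝ᵥ l) := Finset.sum_le_sum fun i _ => h1 i
    _ = fro B * (l ⬝ᵥ l) := by rw [← Finset.sum_mul, fro]
    _ ≤ β ^ 2 * (l ⬝ᵥ l) := mul_le_mul_of_nonneg_right hf (dot_self_nonneg l)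

private lemma q_bound {B : Matrix (Fin (m + 1)) (Fin (m + 1)) ℝ} {β : ℝ} (hβ : 0 ≤ β)
    (hf : fro B ≤ β ^ 2) (l : Fin (m + 1) → ℝ) : |l ⬝ᵥ B *ᵥ l| ≤ β * len l ^ 2 := by
  have h1 := cs l (B *ᵥ l)
  have h2 := norm_W hf l
  rw [← len_sq l] at h1 h2
  refine abs_le_of_sq_le_sq ?_ (by positivity)
  calc (l ⬝ᵥ B *ᵥ l) ^ 2 ≤ len l ^ 2 * ((B *ᵥ l) ⬝ᵥ (B *ᵥ l)) := h1
    _ ≤ len l ^ 2 * (β ^ 2 * len l ^ 2) := mul_le_mul_of_nonneg_left h2 (sq_nonneg _)
    _ = (β * len l ^ 2) ^ 2 := by ring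

private lemma ell_sq {B : Matrix (Fin (m + 1)) (Fin (m + 1)) ℝ} {β : ℝ}
    (hf : fro B ≤ β ^ 2) (l : Fin (m + 1) → ℝ) {z : Fin m → ℝ} (hz : 2 * (z ⬝ᵥ z) ≤ μ) :
    ell l B z ^ 2 ≤ 2 * μ * β ^ 2 * len l ^ 2 := by
  have h1 := cs (pt l 0 z) (B *ᵥ l)
  rw [pt_dot, mul_zero, zero_add] at h1
  have h2 := norm_W hf l
  rw [← len_sq l] at h2
  have h3 : (z ⬝ᵥ z) * ((B *ᵥ l) ⬝ᵥ (B *ᵥ l)) ≤ (μ / 2) * (β ^ 2 * len l ^ 2) :=
    mul_le_mul (by linarith) h2 (dot_self_nonneg _) (by linarith [dot_self_nonneg z])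
  rw [ell]
  nlinarith

private lemma z_bound (h : Good L μ) {l : Fin (m + 1) → ℝ} {t : ℝ} {z : Fin m → ℝ}
    (hz : pt l t z ∈ PP L) : 2 * (z ⬝ᵥ z) ≤ μ := by
  have h1 := PP_ball h hz
  rw [pt_dot] at h1
  nlinarith [mul_self_nonneg t]

private lemma u_nonneg {l : Fin (m + 1) → ℝ} (hl : l ∈ L) (hl0 : l ≠ 0) {u : ℝ} {z : Fin m → ℝ}
    (hz : pt l (len l / 2 - u) z ∈ PP L) : 0 ≤ u := by
  have h1 := hz l hl
  rw [pt_dot_l, ← len_sq] at h1
  have h2 := len_pos hl0
  have h3 : 0 ≤ u * len l := by nlinarith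
  exact nonneg_of_mul_nonneg_left h3 h2

/-- the union of the slices of thickness `d` -/
private def KK (L : AddSubgroup (Fin (m + 1) → ℝ)) (l : Fin (m + 1) → ℝ) (d : ℝ) :
    Set (Fin m → ℝ) :=
  {z | ∃ u ∈ Set.Icc (0 : ℝ) d, pt l (len l / 2 - u) z ∈ PP L}

private lemma KK_mono {l : Fin (m + 1) → ℝ} {d d' : ℝ} (hd : d ≤ d') : KK L l d ⊆ KK L l d' := by
  rintro z ⟨u, hu, hz⟩
  exact ⟨u, ⟨hu.1, hu.2.trans hd⟩, hz⟩

private lemma Fc_sub {l : Fin (m + 1) → ℝ} {d : ℝ} (hd : 0 ≤ d) : Fc L l ⊆ KK L l d := by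
  intro z hz
  refine ⟨0, ⟨le_rfl, hd⟩, ?_⟩
  rw [sub_zero]
  exact hz

private lemma bdd_ball (μ : ℝ) : Bornology.IsBounded {z : Fin m → ℝ | 2 * (z ⬝ᵥ z) ≤ μ} := by
  refine (Metric.isBounded_iff_subset_closedBall 0).2 ⟨Real.sqrt μ, fun z hz => ?_⟩
  rw [Metric.mem_closedBall, dist_zero_right, pi_norm_le_iff_of_nonneg (Real.sqrt_nonneg _)]
  intro i
  refine Real.le_sqrt_of_sq_le ?_
  rw [Real.norm_eq_abs, sq_abs]
  have h1 : z i * z i ≤ z ⬝ᵥ z := by
    rw [dotProduct]
    exact Finset.single_le_sum (f := fun i => z i * z i) (fun j _ => mul_self_nonneg _)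
      (Finset.mem_univ i)
  have h2 : 2 * (z ⬝ᵥ z) ≤ μ := hz
  nlinarith [mul_self_nonneg (z i)]

private lemma KK_compact (h : Good L μ) (l : Fin (m + 1) → ℝ) (d : ℝ) :
    IsCompact (KK L l d) := by
  have hc : Continuous fun q : ℝ × (Fin m → ℝ) => pt l (len l / 2 - q.1) q.2 :=
    (pt_cont l).comp ((continuous_const.sub continuous_fst).prodMk continuous_snd)
  have h1 : IsCompact {q : ℝ × (Fin m → ℝ) | q.1 ∈ Set.Icc (0 : ℝ) d ∧
      pt l (len l / 2 - q.1) q.2 ∈ PP L} := by
    refine Metric.isCompact_of_isClosed_isBounded ?_ ?_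
    · exact (isClosed_Icc.preimage continuous_fst).inter (PP_closed.preimage hc)
    · refine ((Metric.isBounded_Icc (0 : ℝ) d).prod (bdd_ball (m := m) μ)).subset ?_
      rintro q ⟨hq1, hq2⟩
      exact ⟨hq1, z_bound h hq2⟩
  have h2 : KK L l d = Prod.snd '' {q : ℝ × (Fin m → ℝ) | q.1 ∈ Set.Icc (0 : ℝ) d ∧
      pt l (len l / 2 - q.1) q.2 ∈ PP L} := by
    ext z
    constructor
    · rintro ⟨u, hu, hz⟩
      exact ⟨(u, z), ⟨hu, hz⟩, rfl⟩
    · rintro ⟨⟨u, z'⟩, ⟨hu, hz⟩, rfl⟩
      exact ⟨u, hu, hz⟩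
  rw [h2]
  exact h1.image continuous_snd

private lemma iInter_KK (l : Fin (m + 1) → ℝ) : (⋂ d, ⋂ (_ : (0 : ℝ) < d), KK L l d) = Fc L l := by
  apply Set.Subset.antisymm
  · intro z hz
    have h1 : ∀ k : ℕ, ∃ u ∈ Set.Icc (0 : ℝ) (1 / ((k : ℝ) + 1)),
        pt l (len l / 2 - u) z ∈ PP L := fun k => by
      have := Set.mem_iInter₂.1 hz (1 / ((k : ℝ) + 1)) (by positivity)
      exact this
    choose u hu hz' using h1
    have h2 : Tendsto u atTop (𝓝 0) :=
      squeeze_zero (fun k => (hu k).1) (fun k => (hu k).2) tendsto_one_div_add_atTop_nhds_zero_nat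
    have hc : Continuous fun s : ℝ => pt l (len l / 2 - s) z :=
      (pt_cont l).comp ((continuous_const.sub continuous_id).prodMk continuous_const)
    have h3 : Tendsto (fun k => pt l (len l / 2 - u k) z) atTop (𝓝 (pt l (len l / 2 - 0) z)) :=
      (hc.tendsto 0).comp h2
    rw [sub_zero] at h3
    exact PP_closed.mem_of_tendsto h3 (Filter.Eventually.of_forall hz')
  · exact Set.subset_iInter₂ fun d hd => Fc_sub hd.le

private lemma tendsto_KK (h : Good L μ) (l : Fin (m + 1) → ℝ) :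
    Tendsto (fun d => (volume (KK L l d)).toReal) (𝓝[>] 0) (𝓝 (volume (Fc L l)).toReal) := by
  have h1 : Tendsto (volume ∘ KK L l) (𝓝[>] 0) (𝓝 (volume (⋂ d, ⋂ (_ : (0 : ℝ) < d), KK L l d))) :=
    tendsto_measure_biInter_gt
      (fun d _ => (KK_compact h l d).isClosed.measurableSet.nullMeasurableSet)
      (fun i j _ hij => KK_mono hij)
      ⟨1, one_pos, (KK_compact h l 1).measure_lt_top.ne⟩
  rw [iInter_KK] at h1
  exact (ENNReal.tendsto_toReal (Fc_compact h l).measure_lt_top.ne).comp h1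

private lemma one_dim {a c : ℝ} (ha : 0 < a) :
    ∫⁻ s in Set.Ici (0 : ℝ), ENNReal.ofReal (max 0 (c - s * a)) ≤
      ENNReal.ofReal ((max 0 c) ^ 2 / (2 * a)) := by
  rcases le_or_gt c 0 with hc | hc
  · have h0 : ∫⁻ s in Set.Ici (0 : ℝ), ENNReal.ofReal (max 0 (c - s * a)) = 0 := by
      rw [setLIntegral_eq_zero_iff measurableSet_Ici (by fun_prop)]
      refine Filter.Eventually.of_forall fun s hs => ?_
      rw [ENNReal.ofReal_eq_zero]
      refine max_le le_rfl ?_
      have : 0 ≤ s * a := mul_nonneg hs ha.le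
      linarith
    rw [h0]
    exact zero_le
  · have hca : 0 ≤ c / a := by positivity
    have h1 : ∫⁻ s in Set.Ici (0 : ℝ), ENNReal.ofReal (max 0 (c - s * a)) ≤
        ∫⁻ s in Set.Icc (0 : ℝ) (c / a), ENNReal.ofReal (c - s * a) := by
      rw [← lintegral_indicator measurableSet_Ici, ← lintegral_indicator measurableSet_Icc]
      refine lintegral_mono fun s => ?_
      by_cases hs : s ∈ Set.Ici (0 : ℝ)
      · rw [Set.indicator_of_mem hs]
        by_cases hs2 : s ≤ c / a
        · rw [Set.indicator_of_mem (show s ∈ Set.Icc (0 : ℝ) (c / a) from ⟨hs, hs2⟩)]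
          refine ENNReal.ofReal_le_ofReal (max_le ?_ le_rfl)
          have := (le_div_iff₀ ha).1 hs2
          linarith
        · have h3 : c - s * a ≤ 0 := by
            have := (div_lt_iff₀ ha).1 (not_le.1 hs2)
            linarith
          rw [max_eq_left h3, ENNReal.ofReal_zero]
          exact zero_le
      · rw [Set.indicator_of_notMem hs]
        exact zero_le
    refine h1.trans (le_of_eq ?_)
    rw [← ofReal_integral_eq_lintegral_ofReal]
    · congr 1
      rw [integral_Icc_eq_integral_Ioc, ← intervalIntegral.integral_of_le hca]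
      have h4 : ∫ s in (0 : ℝ)..(c / a), (c - s * a) = c * (c / a) - (c / a) ^ 2 / 2 * a := by
        rw [intervalIntegral.integral_sub (by simp) (by
          exact (continuous_id.mul continuous_const).intervalIntegrable _ _),
          intervalIntegral.integral_const, intervalIntegral.integral_mul_const, integral_id]
        simp
        ring
      rw [h4, max_eq_right hc.le]
      field_simp
      ring
    · refine ContinuousOn.integrableOn_compact isCompact_Icc ?_
      fun_prop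
    · refine (ae_restrict_iff' measurableSet_Icc).2 (Filter.Eventually.of_forall fun s hs => ?_)
      have := (le_div_iff₀ ha).1 hs.2
      show 0 ≤ c - s * a
      linarith

private lemma DD_cont (B : Matrix (Fin (m + 1)) (Fin (m + 1)) ℝ) (l : Fin (m + 1) → ℝ) :
    Continuous fun y : Fin (m + 1) → ℝ => max 0 (DD B l y) := by
  unfold DD
  refine continuous_const.max ?_
  have h1 : ∀ v : Fin (m + 1) → ℝ, Continuous fun y : Fin (m + 1) → ℝ => y ⬝ᵥ v := fun v =>
    continuous_id.dotProduct continuous_const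
  exact (((continuous_const.mul (h1 l)).sub continuous_const).add
    (continuous_const.mul (h1 _))).sub continuous_const

/-- the integrand -/
private noncomputable def FF (l : Fin (m + 1) → ℝ) (B : Matrix (Fin (m + 1)) (Fin (m + 1)) ℝ)
    (β u : ℝ) (z : Fin m → ℝ) : ENNReal :=
  ENNReal.ofReal (max 0 (ell l B z - u * (2 * len l * (1 - β))))

private lemma FF_meas (l : Fin (m + 1) → ℝ) (B : Matrix (Fin (m + 1)) (Fin (m + 1)) ℝ) (β : ℝ) :
    Measurable fun q : ℝ × (Fin m → ℝ) => FF l B β q.1 q.2 := by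
  have h := ell_cont l B
  unfold FF
  refine ENNReal.measurable_ofReal.comp ?_
  refine Continuous.measurable ?_
  exact continuous_const.max ((h.comp continuous_snd).sub (continuous_fst.mul continuous_const))

/-- the change of coordinates -/
private lemma lint_PP (l : Fin (m + 1) → ℝ) (G : (Fin (m + 1) → ℝ) → ENNReal)
    (hG : Measurable G) :
    ∫⁻ y in PP L, G y = ∫⁻ u : ℝ, ∫⁻ z, Set.indicator (PP L) G (pt l (len l / 2 - u) z) := by
  have hP : MeasurableSet (PP L) := PP_closed.measurableSet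
  have hTm : Measurable fun q : ℝ × (Fin m → ℝ) => pt l q.1 q.2 := (pt_mp l).measurable
  have hI : Measurable (Set.indicator (PP L) G) := hG.indicator hP
  have h1 : ∫⁻ q : ℝ × (Fin m → ℝ), Set.indicator (PP L) G (pt l q.1 q.2) =
      ∫⁻ p : ℝ, ∫⁻ z, Set.indicator (PP L) G (pt l p z) := by
    rw [Measure.volume_eq_prod]
    exact lintegral_prod (fun q : ℝ × (Fin m → ℝ) => Set.indicator (PP L) G (pt l q.1 q.2))
      (hI.comp hTm).aemeasurable
  rw [← lintegral_indicator hP, ← (pt_mp l).lintegral_comp hI, h1]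
  exact (lintegral_sub_left_eq_self
    (fun p : ℝ => ∫⁻ z, Set.indicator (PP L) G (pt l p z)) (len l / 2)).symm

private lemma point (h : Good L μ) {l : Fin (m + 1) → ℝ} (hl : l ∈ L) (hl0 : l ≠ 0)
    {B : Matrix (Fin (m + 1)) (Fin (m + 1)) ℝ} {β : ℝ} (hβ : 0 ≤ β) (hβ' : β ≤ 1 / 2)
    (hf : fro B ≤ β ^ 2) (u : ℝ) (z : Fin m → ℝ) :
    Set.indicator (PP L) (fun y => ENNReal.ofReal (max 0 (DD B l y)))
      (pt l (len l / 2 - u) z) ≤
      Set.indicator (Set.Ici (0 : ℝ)) (fun u =>
        Set.indicator (KK L l (2 * Real.sqrt μ * β)) (FF l B β u) z) u := by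
  have hlen := len_pos hl0
  by_cases hz : pt l (len l / 2 - u) z ∈ PP L
  · have hu := u_nonneg hl hl0 hz
    rw [Set.indicator_of_mem hz, Set.indicator_of_mem (show u ∈ Set.Ici (0 : ℝ) from hu)]
    have h1 : DD B l (pt l (len l / 2 - u) z) ≤ ell l B z - u * (2 * len l * (1 - β)) := by
      rw [DD_pt B hl0]
      have h2 := (abs_le.1 (q_bound hβ hf l)).1
      have h3 : 2 * u / len l * (l ⬝ᵥ B *ᵥ l) ≥ 2 * u / len l * (-(β * len l ^ 2)) :=
        mul_le_mul_of_nonneg_left h2 (by positivity)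
      have h4 : 2 * u / len l * (-(β * len l ^ 2)) = -(2 * u * β * len l) := by
        field_simp
      rw [h4] at h3
      nlinarith
    by_cases hk : z ∈ KK L l (2 * Real.sqrt μ * β)
    · rw [Set.indicator_of_mem hk]
      exact ENNReal.ofReal_le_ofReal (max_le_max le_rfl h1)
    · rw [Set.indicator_of_notMem hk]
      have h5 : 2 * Real.sqrt μ * β < u := by
        by_contra h6
        exact hk ⟨u, ⟨hu, not_lt.1 h6⟩, hz⟩
      have h6 : ell l B z ≤ 2 * Real.sqrt μ * β * len l := by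
        have h7 := ell_sq hf l (z_bound h hz)
        refine (abs_le.1 (abs_le_of_sq_le_sq (b := 2 * Real.sqrt μ * β * len l) ?_
          (by positivity))).2
        have h8 := Real.sq_sqrt h.pos.le
        have h9 : 0 ≤ μ * β ^ 2 * len l ^ 2 := by
          have := h.pos.le
          positivity
        calc ell l B z ^ 2 ≤ 2 * μ * β ^ 2 * len l ^ 2 := h7
          _ ≤ 4 * μ * β ^ 2 * len l ^ 2 := by nlinarith
          _ = (2 * Real.sqrt μ * β * len l) ^ 2 := by
            rw [mul_pow, mul_pow, mul_pow, h8]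
            ring
      have h7 : DD B l (pt l (len l / 2 - u) z) ≤ 0 := by
        refine h1.trans ?_
        have h8 : u * (2 * len l * (1 - β)) ≥ u * len l := by
          have : 0 ≤ u * len l * (1 - 2 * β) := by
            have : 0 ≤ 1 - 2 * β := by linarith
            positivity
          nlinarith
        have h9 : 2 * Real.sqrt μ * β * len l ≤ u * len l :=
          mul_le_mul_of_nonneg_right h5.le hlen.le
        linarith
      rw [max_eq_left h7, ENNReal.ofReal_zero]
  · rw [Set.indicator_of_notMem hz]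
    exact zero_le

/-- the bound as a Lebesgue integral -/
private lemma lint_bound (h : Good L μ) {l : Fin (m + 1) → ℝ} (hl : l ∈ L) (hl0 : l ≠ 0)
    {B : Matrix (Fin (m + 1)) (Fin (m + 1)) ℝ} {β : ℝ} (hβ : 0 ≤ β) (hβ' : β ≤ 1 / 2)
    (hf : fro B ≤ β ^ 2) :
    ∫⁻ y in PP L, ENNReal.ofReal (max 0 (DD B l y)) ≤
      ∫⁻ z in KK L l (2 * Real.sqrt μ * β),
        ENNReal.ofReal ((max 0 (ell l B z)) ^ 2 / (2 * (2 * len l * (1 - β)))) := by
  have hlen := len_pos hl0
  set K := KK L l (2 * Real.sqrt μ * β) with hK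
  have hKm : MeasurableSet K := (KK_compact h l _).isClosed.measurableSet
  have hQ : Measurable fun q : ℝ × (Fin m → ℝ) => Set.indicator K (FF l B β q.1) q.2 := by
    have : (fun q : ℝ × (Fin m → ℝ) => Set.indicator K (FF l B β q.1) q.2) =
        Set.indicator (Prod.snd ⁻¹' K) (fun q : ℝ × (Fin m → ℝ) => FF l B β q.1 q.2) := by
      ext q
      by_cases hq : q.2 ∈ K
      · rw [Set.indicator_of_mem hq, Set.indicator_of_mem (show q ∈ Prod.snd ⁻¹' K from hq)]
      · rw [Set.indicator_of_notMem hq,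
          Set.indicator_of_notMem (show q ∉ Prod.snd ⁻¹' K from hq)]
    rw [this]
    exact (FF_meas l B β).indicator (measurable_snd hKm)
  rw [lint_PP l (fun y => ENNReal.ofReal (max 0 (DD B l y)))
    (ENNReal.measurable_ofReal.comp (DD_cont B l).measurable)]
  calc _ ≤ ∫⁻ u, Set.indicator (Set.Ici (0 : ℝ)) (fun u =>
      ∫⁻ z, Set.indicator K (FF l B β u) z) u := by
        refine lintegral_mono fun u => ?_
        by_cases hu : u ∈ Set.Ici (0 : ℝ)
        · rw [Set.indicator_of_mem hu]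
          refine lintegral_mono fun z => ?_
          have := point h hl hl0 hβ hβ' hf u z
          rwa [Set.indicator_of_mem hu] at this
        · rw [Set.indicator_of_notMem hu]
          refine le_of_eq ?_
          rw [lintegral_eq_zero_iff']
          · refine Filter.Eventually.of_forall fun z => ?_
            have := point h hl hl0 hβ hβ' hf u z
            rw [Set.indicator_of_notMem hu] at this
            exact le_antisymm this zero_le
          · refine Measurable.aemeasurable ?_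
            have h1 : Measurable fun z : Fin m → ℝ => pt l (len l / 2 - u) z :=
              ((pt_cont l).comp (continuous_const.prodMk continuous_id)).measurable
            exact ((ENNReal.measurable_ofReal.comp (DD_cont B l).measurable).indicator
              PP_closed.measurableSet).comp h1
    _ = ∫⁻ u in Set.Ici (0 : ℝ), ∫⁻ z, Set.indicator K (FF l B β u) z :=
        lintegral_indicator measurableSet_Ici _
    _ = ∫⁻ z, ∫⁻ u in Set.Ici (0 : ℝ), Set.indicator K (FF l B β u) z := by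
        rw [lintegral_lintegral_swap hQ.aemeasurable]
    _ ≤ ∫⁻ z, Set.indicator K (fun z =>
        ENNReal.ofReal ((max 0 (ell l B z)) ^ 2 / (2 * (2 * len l * (1 - β))))) z := by
        refine lintegral_mono fun z => ?_
        by_cases hz : z ∈ K
        · rw [Set.indicator_of_mem hz]
          have h1 : ∀ u, Set.indicator K (FF l B β u) z =
              ENNReal.ofReal (max 0 (ell l B z - u * (2 * len l * (1 - β)))) := fun u =>
            Set.indicator_of_mem hz _
          simp only [h1]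
          refine one_dim ?_
          have : 0 < 1 - β := by linarith
          positivity
        · have h1 : ∀ u, Set.indicator K (FF l B β u) z = 0 := fun u =>
            Set.indicator_of_notMem hz _
          simp [h1, Set.indicator_of_notMem hz]
    _ = _ := by rw [lintegral_indicator hKm]

private lemma half (h : Good L μ) {l : Fin (m + 1) → ℝ} (hl : l ∈ L) (hl0 : l ≠ 0)
    (B : Matrix (Fin (m + 1)) (Fin (m + 1)) ℝ) :
    ∫ z in Fc L l, (max 0 (ell l B z)) ^ 2 = 2 * qF L l (B *ᵥ l) := by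
  have hc := ell_cont l B
  have hFc := Fc_compact h l
  have hFm : MeasurableSet (Fc L l) := hFc.isClosed.measurableSet
  have h1 : ∫ z in Fc L l, (max 0 (ell l B z)) ^ 2 = ∫ z in Fc L l, (max 0 (-ell l B z)) ^ 2 := by
    rw [← integral_indicator hFm, ← integral_indicator hFm, ← integral_neg_eq_self]
    refine integral_congr_ae (Filter.Eventually.of_forall fun z => ?_)
    show Set.indicator (Fc L l) _ (-z) = Set.indicator (Fc L l) _ z
    by_cases hz : z ∈ Fc L l
    · rw [Set.indicator_of_mem (Fc_neg hl hl0 hz), Set.indicator_of_mem hz, ell_neg]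
    · have hz' : -z ∉ Fc L l := fun h' => hz (by simpa using Fc_neg hl hl0 h')
      rw [Set.indicator_of_notMem hz', Set.indicator_of_notMem hz]
  have i1 : IntegrableOn (fun z => (max 0 (ell l B z)) ^ 2) (Fc L l) :=
    ContinuousOn.integrableOn_compact hFc (by fun_prop)
  have i2 : IntegrableOn (fun z => (max 0 (-ell l B z)) ^ 2) (Fc L l) :=
    ContinuousOn.integrableOn_compact hFc (by fun_prop)
  have h3 : ∫ z in Fc L l, ell l B z ^ 2 =
      (∫ z in Fc L l, (max 0 (ell l B z)) ^ 2) + ∫ z in Fc L l, (max 0 (-ell l B z)) ^ 2 := by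
    rw [← integral_add i1 i2]
    refine integral_congr_ae (Filter.Eventually.of_forall fun z => ?_)
    show ell l B z ^ 2 = (max 0 (ell l B z)) ^ 2 + (max 0 (-ell l B z)) ^ 2
    rcases le_total (ell l B z) 0 with h | h
    · rw [max_eq_left h, max_eq_right (by linarith : 0 ≤ -ell l B z)]
      ring
    · rw [max_eq_right h, max_eq_left (by linarith : -ell l B z ≤ 0)]
      ring
  have h4 : ∫ z in Fc L l, ell l B z ^ 2 = 4 * qF L l (B *ᵥ l) := by
    rw [qF, ← integral_const_mul]
    refine integral_congr_ae (Filter.Eventually.of_forall fun z => ?_)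
    show ell l B z ^ 2 = 4 * (pt l 0 z ⬝ᵥ B *ᵥ l) ^ 2
    rw [ell]
    ring
  rw [← h1] at h3
  linarith

private lemma qF_le (h : Good L μ) {l : Fin (m + 1) → ℝ} {B : Matrix (Fin (m + 1)) (Fin (m + 1)) ℝ}
    {β : ℝ} (hf : fro B ≤ β ^ 2) :
    qF L l (B *ᵥ l) ≤ μ / 2 * β ^ 2 * len l ^ 2 * aF L l := by
  have h1 := norm_setIntegral_le_of_norm_le_const (μ := volume) (s := Fc L l)
    (f := fun z => (pt l 0 z ⬝ᵥ B *ᵥ l) ^ 2) (C := μ / 2 * β ^ 2 * len l ^ 2)
    (Fc_compact h l).measure_lt_top (fun z hz => by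
      rw [Real.norm_eq_abs, abs_of_nonneg (sq_nonneg _)]
      have h2 := ell_sq hf l (z_bound h hz)
      rw [ell] at h2
      nlinarith)
  exact (le_abs_self _).trans h1

/-- the loss at one lattice vector -/
theorem loss (h : Good L μ) {l : Fin (m + 1) → ℝ} (hl : l ∈ L) (hl0 : l ≠ 0) :
    ∃ e : ℝ → ℝ, Tendsto e (𝓝[>] 0) (𝓝 0) ∧ ∀ β : ℝ, 0 < β → β < 1 / 20 →
      ∀ B : Matrix (Fin (m + 1)) (Fin (m + 1)) ℝ, Bᵀ = B → fro B ≤ β ^ 2 →
        ∫ y in PP L, max 0 (DD B l y) ≤ 1 / (2 * len l) * qF L l (B *ᵥ l) + β ^ 2 * e β := by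
  have hlen := len_pos hl0
  have hμ := h.pos
  have hr := Real.sqrt_pos.2 hμ
  refine ⟨fun β => β * (μ / 2 * len l * aF L l) +
    μ * len l * ((volume (KK L l (2 * Real.sqrt μ * β))).toReal - aF L l), ?_, ?_⟩
  · have h1 : Tendsto (fun β : ℝ => 2 * Real.sqrt μ * β) (𝓝[>] 0) (𝓝[>] 0) := by
      refine tendsto_nhdsWithin_iff.2 ⟨?_, ?_⟩
      · have : Continuous fun β : ℝ => 2 * Real.sqrt μ * β := continuous_const.mul continuous_id
        have h2 := this.tendsto 0
        rw [mul_zero] at h2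
        exact h2.mono_left nhdsWithin_le_nhds
      · filter_upwards [self_mem_nhdsWithin] with β hβ
        have : (0 : ℝ) < β := hβ
        show 0 < 2 * Real.sqrt μ * β
        positivity
    have h2 := (tendsto_KK h l).comp h1
    have h3 : Tendsto (fun β : ℝ => β * (μ / 2 * len l * aF L l)) (𝓝[>] 0) (𝓝 0) := by
      have : Continuous fun β : ℝ => β * (μ / 2 * len l * aF L l) :=
        continuous_id.mul continuous_const
      have h2 := this.tendsto 0
      rw [zero_mul] at h2
      exact h2.mono_left nhdsWithin_le_nhds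
    have h4 := h3.add ((h2.sub_const (aF L l)).const_mul (μ * len l))
    rw [← aF, sub_self, mul_zero, add_zero] at h4
    exact h4
  · intro β hβ hβ' B _ hf
    set K := KK L l (2 * Real.sqrt μ * β) with hK
    have hKc : IsCompact K := KK_compact h l _
    have hKm : MeasurableSet K := hKc.isClosed.measurableSet
    have hFm : MeasurableSet (Fc L l) := (Fc_compact h l).isClosed.measurableSet
    have hsub : Fc L l ⊆ K := Fc_sub (by positivity)
    have hc := ell_cont l B
    have hβ1 : 0 < 1 - β := by linarith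
    have ha : 0 < 2 * len l * (1 - β) := by positivity
    have i0 : IntegrableOn (fun y => max 0 (DD B l y)) (PP L) :=
      ContinuousOn.integrableOn_compact (PP_compact h) (DD_cont B l).continuousOn
    have i1 : IntegrableOn (fun z => (max 0 (ell l B z)) ^ 2 / (2 * (2 * len l * (1 - β)))) K :=
      ContinuousOn.integrableOn_compact hKc (by fun_prop)
    have i2 : IntegrableOn (fun z => (max 0 (ell l B z)) ^ 2) K :=
      ContinuousOn.integrableOn_compact hKc (by fun_prop)
    have h1 := lint_bound h hl hl0 hβ.le (by linarith) hf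
    rw [← hK] at h1
    rw [← ofReal_integral_eq_lintegral_ofReal i0
        (Filter.Eventually.of_forall fun y => le_max_left _ _),
      ← ofReal_integral_eq_lintegral_ofReal i1
        (Filter.Eventually.of_forall fun z => by positivity)] at h1
    have h2 : 0 ≤ ∫ z in K, (max 0 (ell l B z)) ^ 2 / (2 * (2 * len l * (1 - β))) :=
      integral_nonneg fun z => by positivity
    have h3 := (ENNReal.ofReal_le_ofReal_iff h2).1 h1
    rw [integral_div] at h3
    -- the part outside the facet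
    have h4 : ∫ z in K \ Fc L l, (max 0 (ell l B z)) ^ 2 ≤
        2 * μ * β ^ 2 * len l ^ 2 * ((volume K).toReal - aF L l) := by
      have h5 := norm_setIntegral_le_of_norm_le_const (μ := volume) (s := K \ Fc L l)
        (f := fun z => (max 0 (ell l B z)) ^ 2) (C := 2 * μ * β ^ 2 * len l ^ 2)
        (lt_of_le_of_lt (measure_mono Set.sdiff_subset) hKc.measure_lt_top) (fun z hz => by
          rw [Real.norm_eq_abs, abs_of_nonneg (sq_nonneg _)]
          obtain ⟨u, _, hu⟩ := hz.1
          have h2 := ell_sq hf l (z_bound h hu)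
          refine le_trans ?_ h2
          rcases le_total (ell l B z) 0 with h' | h'
          · rw [max_eq_left h']
            nlinarith [sq_nonneg (ell l B z)]
          · rw [max_eq_right h'])
      have h6 : volume.real (K \ Fc L l) = (volume K).toReal - aF L l := by
        rw [measureReal_def, measure_sdiff hsub hFm.nullMeasurableSet
          (Fc_compact h l).measure_lt_top.ne, ENNReal.toReal_sub_of_le (measure_mono hsub)
          hKc.measure_lt_top.ne, aF]
      rw [h6] at h5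
      exact (le_abs_self _).trans h5
    rw [setIntegral_sdiff hFm i2 hsub, half h hl hl0] at h4
    have h7 := qF_le h (l := l) hf
    have h8 : 0 ≤ qF L l (B *ᵥ l) := integral_nonneg fun z => sq_nonneg _
    have h9 : 0 ≤ (volume K).toReal - aF L l := by
      rw [aF, sub_nonneg]
      exact ENNReal.toReal_mono hKc.measure_lt_top.ne (measure_mono hsub)
    have h10 : 0 ≤ aF L l := ENNReal.toReal_nonneg
    refine h3.trans ?_
    beta_reduce
    rw [div_le_iff₀ (by positivity), ← hK]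
    generalize (volume K).toReal - aF L l = v at *
    generalize qF L l (B *ᵥ l) = q at *
    generalize (∫ z in K, (max 0 (ell l B z)) ^ 2) = I at *
    generalize aF L l = a at *
    generalize len l = n at *
    have e1 : (1 / (2 * n) * q + β ^ 2 * (β * (μ / 2 * n * a) + μ * n * v)) *
        (2 * (2 * n * (1 - β))) = 2 * q * (1 - β) +
        4 * n * (1 - β) * (β ^ 2 * (β * (μ / 2 * n * a) + μ * n * v)) := by
      field_simp
      ring
    rw [e1]
    have e2 : I ≤ 2 * q + 2 * μ * β ^ 2 * n ^ 2 * v := by linarith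
    refine e2.trans ?_
    have e3 : 2 * β * q ≤ 2 * β * (μ / 2 * β ^ 2 * n ^ 2 * a) :=
      mul_le_mul_of_nonneg_left h7 (by positivity)
    have e4 : 0 ≤ μ * β ^ 3 * n ^ 2 * a * (1 - 2 * β) := by
      have : 0 ≤ 1 - 2 * β := by linarith
      positivity
    have e5 : 0 ≤ μ * β ^ 2 * n ^ 2 * v * (1 - 2 * β) := by
      have : 0 ≤ 1 - 2 * β := by linarith
      positivity
    nlinarith

end Pool.Agent.H99G
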