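import Pool.Agent.H99G.Fra
import Pool.Agent.H99G.Cel

/-! # A facet is not a ball (helper48) -/

set_option autoImplicit false

namespace Pool.Agent.H99G

open MeasureTheory Matrix Filter Topology

variable {m : ℕ} {L : AddSubgroup (Fin (m + 1) → ℝ)} {μ : ℝ}

private theorem pt_lin (l v : Fin (m + 1) → ℝ) (t a b : ℝ) (z w : Fin m → ℝ) :
    pt l t (a • z + b • w) ⬝ᵥ v = pt l t 0 ⬝ᵥ v + a * (pt l 0 z ⬝ᵥ v) + b * (pt l 0 w ⬝ᵥ v) := by
  have h1 : (Fin.cons t (a • z + b • w) : Fin (m + 1) → ℝ) =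
      Fin.cons t 0 + a • (Fin.cons 0 z : Fin (m + 1) → ℝ) +
        b • (Fin.cons 0 w : Fin (m + 1) → ℝ) := by
    funext i
    refine Fin.cases ?_ (fun j => ?_) i <;> simp
  simp only [pt]
  rw [h1, mulVec_add, mulVec_add, mulVec_smul, mulVec_smul, add_dotProduct, add_dotProduct,
    smul_dotProduct, smul_dotProduct, smul_eq_mul, smul_eq_mul]

private theorem cs (x y : Fin (m + 1) → ℝ) : (x ⬝ᵥ y) ^ 2 ≤ (x ⬝ᵥ x) * (y ⬝ᵥ y) := by
  simp only [dotProduct]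
  have h1 := Finset.sum_mul_sq_le_sq_mul_sq Finset.univ x y
  simpa [sq] using h1

/-- a facet vector `w` orthogonal to the active lattice vectors gives points of the cell -/
private theorem exists_step (h : Good L μ) {y w : Fin (m + 1) → ℝ} (hy : y ∈ PP L)
    (hyy : 2 * (y ⬝ᵥ y) = μ) (hww : w ⬝ᵥ w = 1) (hyw : y ⬝ᵥ w = 0)
    (hw : ∀ l' ∈ L, 2 * (y ⬝ᵥ l') = l' ⬝ᵥ l' → w ⬝ᵥ l' = 0) :
    ∃ e : ℝ, 0 < e ∧ y + e • w ∈ PP L := by
  have hfin := h.fin (2 * μ + 4)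
  have hev : ∀ᶠ e : ℝ in 𝓝[>] 0, ∀ l' ∈ {l : Fin (m + 1) → ℝ | l ∈ L ∧ l ⬝ᵥ l ≤ 2 * μ + 4},
      2 * ((y + e • w) ⬝ᵥ l') ≤ l' ⬝ᵥ l' := by
    rw [eventually_all_finite hfin]
    rintro l' ⟨hl', _⟩
    rcases (hy l' hl').lt_or_eq with hlt | heq
    · have hc : Tendsto (fun e : ℝ => 2 * ((y + e • w) ⬝ᵥ l')) (𝓝[>] 0) (𝓝 (2 * (y ⬝ᵥ l'))) := by
        have hcc : Continuous fun e : ℝ => 2 * ((y + e • w) ⬝ᵥ l') := by
          simp only [dotProduct]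
          fun_prop
        have := (hcc.tendsto 0).mono_left (nhdsWithin_le_nhds (s := Set.Ioi (0 : ℝ)))
        simpa using this
      filter_upwards [hc.eventually_lt_const hlt] with e he
      exact he.le
    · refine Eventually.of_forall fun e => ?_
      rw [add_dotProduct, smul_dotProduct, hw l' hl' heq, smul_zero, add_zero, heq]
  obtain ⟨e, he, he0, he1⟩ := (hev.and ((eventually_nhdsWithin_of_forall fun _ hx => hx).and
    (nhdsWithin_le_nhds (Iio_mem_nhds (show (0 : ℝ) < 1 by norm_num))))).exists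
  have he0' : 0 < e := he0
  have he1' : e < 1 := he1
  refine ⟨e, he0', fun l' hl' => ?_⟩
  by_cases hle : l' ⬝ᵥ l' ≤ 2 * μ + 4
  · exact he l' ⟨hl', hle⟩
  · push Not at hle
    have h1 := cs (y + e • w) l'
    have h2 : (y + e • w) ⬝ᵥ (y + e • w) = y ⬝ᵥ y + e ^ 2 := by
      rw [add_dotProduct, dotProduct_add, dotProduct_add, smul_dotProduct, smul_dotProduct,
        dotProduct_smul, dotProduct_smul, dotProduct_comm w y, hyw, hww]
      simp only [smul_eq_mul]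
      ring
    rw [h2] at h1
    have hμ := h.pos
    have h3 : y ⬝ᵥ y + e ^ 2 ≤ μ / 2 + 1 := by nlinarith
    have h4 : (2 * ((y + e • w) ⬝ᵥ l')) ^ 2 ≤ (l' ⬝ᵥ l') ^ 2 := by
      have h5 : (y ⬝ᵥ y + e ^ 2) * (l' ⬝ᵥ l') ≤ (μ / 2 + 1) * (l' ⬝ᵥ l') :=
        mul_le_mul_of_nonneg_right h3 (by linarith)
      nlinarith
    exact abs_le_of_sq_le_sq' h4 (by linarith) |>.2

theorem not_ball (h : Good L μ) (hm : 2 ≤ m) {l : Fin (m + 1) → ℝ} (hl : l ∈ L) (hl0 : l ≠ 0)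
    (hr : 0 < μ / 2 - l ⬝ᵥ l / 4) :
    ∃ z : Fin m → ℝ, z ⬝ᵥ z ≤ μ / 2 - l ⬝ᵥ l / 4 ∧ z ∉ Fc L l := by
  by_contra hcon
  push Not at hcon
  obtain ⟨r, hrr⟩ : ∃ r, r = μ / 2 - l ⬝ᵥ l / 4 := ⟨_, rfl⟩
  rw [← hrr] at hr hcon
  obtain ⟨i, j, hij⟩ : ∃ i j : Fin m, i ≠ j :=
    ⟨⟨0, by omega⟩, ⟨1, by omega⟩, by simp⟩
  obtain ⟨z₀, hz₀⟩ : ∃ z : Fin m → ℝ, z = Pi.single i (√r) := ⟨_, rfl⟩
  obtain ⟨τ, hτ⟩ : ∃ z : Fin m → ℝ, z = Pi.single j 1 := ⟨_, rfl⟩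
  have hs : √r * √r = r := Real.mul_self_sqrt hr.le
  have hs0 : 0 < √r := Real.sqrt_pos.2 hr
  have e1 : z₀ ⬝ᵥ z₀ = r := by rw [hz₀]; simp [hs]
  have e2 : τ ⬝ᵥ τ = 1 := by rw [hτ]; simp
  have e3 : z₀ ⬝ᵥ τ = 0 := by rw [hz₀, hτ]; simp [hij]
  obtain ⟨y, hy⟩ : ∃ y, y = pt l (len l / 2) z₀ := ⟨_, rfl⟩
  obtain ⟨w, hw⟩ : ∃ w, w = pt l 0 τ := ⟨_, rfl⟩
  have hll : 0 ≤ l ⬝ᵥ l := by
    simp only [dotProduct]
    exact Finset.sum_nonneg fun i _ => mul_self_nonneg _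
  have hlen : len l * len l = l ⬝ᵥ l := Real.mul_self_sqrt hll
  have hyy : 2 * (y ⬝ᵥ y) = μ := by
    rw [hy, pt_dot, e1, hrr]
    nlinarith
  have hww : w ⬝ᵥ w = 1 := by rw [hw, pt_dot, e2]; ring
  have hyw : y ⬝ᵥ w = 0 := by rw [hy, hw, pt_dot, e3]; ring
  -- the circle
  have hcirc : ∀ a b : ℝ, a ^ 2 + b ^ 2 = 1 → ∀ l' ∈ L,
      2 * (pt l (len l / 2) 0 ⬝ᵥ l' + a * (pt l 0 z₀ ⬝ᵥ l') + (b * √r) * (w ⬝ᵥ l')) ≤ l' ⬝ᵥ l' := by
    intro a b hab l' hl'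
    have h1 : (a • z₀ + (b * √r) • τ) ⬝ᵥ (a • z₀ + (b * √r) • τ) ≤ r := by
      rw [add_dotProduct, dotProduct_add, dotProduct_add, smul_dotProduct, smul_dotProduct,
        dotProduct_smul, dotProduct_smul, smul_dotProduct, smul_dotProduct, dotProduct_smul,
        dotProduct_smul, dotProduct_comm τ z₀, e1, e2, e3]
      simp only [smul_eq_mul]
      have : b * √r * (b * √r * 1) = b ^ 2 * r := by
        calc b * √r * (b * √r * 1) = b ^ 2 * (√r * √r) := by ring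
          _ = b ^ 2 * r := by rw [hs]
      rw [this]
      nlinarith
    have h2 := hcon _ h1 l' hl'
    rwa [pt_lin, ← hw] at h2
  have hyPP : y ∈ PP L := by
    rw [hy]
    exact hcon z₀ e1.le
  have hexp : ∀ l' : Fin (m + 1) → ℝ, y ⬝ᵥ l' = pt l (len l / 2) 0 ⬝ᵥ l' + pt l 0 z₀ ⬝ᵥ l' := by
    intro l'
    have := pt_lin l l' (len l / 2) 1 0 z₀ 0
    rw [one_smul, zero_smul, add_zero] at this
    rw [hy, this]
    ring
  obtain ⟨e, he, heP⟩ := exists_step h hyPP hyy hww hyw (by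
    intro l' hl' hact
    obtain ⟨A, hA⟩ : ∃ A, A = pt l 0 z₀ ⬝ᵥ l' := ⟨_, rfl⟩
    obtain ⟨Bb, hB⟩ : ∃ Bb, Bb = √r * (w ⬝ᵥ l') := ⟨_, rfl⟩
    have key : ∀ s : ℝ, Bb * s ≤ A * s ^ 2 := by
      intro s
      have hp : 0 < 1 + s ^ 2 := by positivity
      have h1 := hcirc ((1 - s ^ 2) / (1 + s ^ 2)) (2 * s / (1 + s ^ 2))
        (by field_simp; ring) l' hl'
      rw [← hact, hexp, ← hA] at h1
      have h2 : (2 * s / (1 + s ^ 2) * √r) * (w ⬝ᵥ l') = 2 * s / (1 + s ^ 2) * Bb := by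
        rw [hB]; ring
      rw [h2] at h1
      have h3 : (1 - s ^ 2) / (1 + s ^ 2) * A + 2 * s / (1 + s ^ 2) * Bb ≤ A := by linarith
      have h4 : ((1 - s ^ 2) / (1 + s ^ 2) * A + 2 * s / (1 + s ^ 2) * Bb) * (1 + s ^ 2) =
          (1 - s ^ 2) * A + 2 * s * Bb := by field_simp
      have h5 := mul_le_mul_of_nonneg_right h3 hp.le
      rw [h4] at h5
      linarith
    have hB0 : Bb = 0 := by
      by_contra hne
      have hp : 0 < |A| + 1 := by positivity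
      have h1 := key (Bb / (|A| + 1))
      have h2 : Bb * (Bb / (|A| + 1)) = Bb ^ 2 / (|A| + 1) := by ring
      have h3 : A * (Bb / (|A| + 1)) ^ 2 = A * Bb ^ 2 / (|A| + 1) ^ 2 := by
        rw [div_pow, mul_div_assoc]
      rw [h2, h3, div_le_div_iff₀ hp (by positivity)] at h1
      have h4 : 0 < Bb ^ 2 := by positivity
      have h5 : A ≤ |A| := le_abs_self A
      have h6 : Bb ^ 2 * (|A| + 1) ^ 2 = (Bb ^ 2 * (|A| + 1)) * (|A| + 1) := by ring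
      rw [h6] at h1
      have h7 := le_of_mul_le_mul_right h1 hp
      nlinarith
    rw [hB] at hB0
    rcases mul_eq_zero.1 hB0 with h1 | h1
    · exact absurd h1 hs0.ne'
    · exact h1)
  have h1 := PP_ball h heP
  have h2 : (y + e • w) ⬝ᵥ (y + e • w) = y ⬝ᵥ y + e ^ 2 := by
    rw [add_dotProduct, dotProduct_add, dotProduct_add, smul_dotProduct, smul_dotProduct,
      dotProduct_smul, dotProduct_smul, dotProduct_comm w y, hyw, hww]
    simp only [smul_eq_mul]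
    ring
  rw [h2] at h1
  nlinarith [pow_pos he 2]

end Pool.Agent.H99G
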