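import Pool.Agent.H99G.Cel

set_option autoImplicit false

/-!
# The pointwise bound
-/

namespace Pool.Agent.H99G

open MeasureTheory Matrix Filter Topology

variable {m : ℕ} {L : AddSubgroup (Fin (m + 1) → ℝ)} {μ : ℝ}

private theorem poi_cs {n : ℕ} (u v : Fin n → ℝ) : (u ⬝ᵥ v) ^ 2 ≤ (u ⬝ᵥ u) * (v ⬝ᵥ v) := by
  simp only [dotProduct]
  have := Finset.sum_mul_sq_le_sq_mul_sq Finset.univ u v
  simp only [sq] at this ⊢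
  exact this

private theorem poi_nonneg {n : ℕ} (v : Fin n → ℝ) : 0 ≤ v ⬝ᵥ v := by
  rw [dotProduct]
  exact Finset.sum_nonneg fun i _ => mul_self_nonneg _

private theorem poi_B (B : Matrix (Fin (m + 1)) (Fin (m + 1)) ℝ) (v : Fin (m + 1) → ℝ) :
    (B *ᵥ v) ⬝ᵥ (B *ᵥ v) ≤ fro B * (v ⬝ᵥ v) := by
  have h : ∀ i, (B *ᵥ v) i * (B *ᵥ v) i ≤ (∑ j, B i j ^ 2) * (v ⬝ᵥ v) := by
    intro i
    have h1 := poi_cs (B i) v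
    have h2 : B i ⬝ᵥ B i = ∑ j, B i j ^ 2 := by
      rw [dotProduct]
      exact Finset.sum_congr rfl fun j _ => by ring
    rw [h2] at h1
    have h3 : (B *ᵥ v) i = B i ⬝ᵥ v := rfl
    rw [h3, ← sq]
    exact h1
  calc (B *ᵥ v) ⬝ᵥ (B *ᵥ v) = ∑ i, (B *ᵥ v) i * (B *ᵥ v) i := rfl
    _ ≤ ∑ i, (∑ j, B i j ^ 2) * (v ⬝ᵥ v) := Finset.sum_le_sum fun i _ => h i
    _ = fro B * (v ⬝ᵥ v) := by rw [← Finset.sum_mul]; rfl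

/-- `DD` is the difference of the two values of the form. -/
private theorem poi_DD {B : Matrix (Fin (m + 1)) (Fin (m + 1)) ℝ} (hB : Bᵀ = B)
    (y l : Fin (m + 1) → ℝ) :
    (y - l) ⬝ᵥ (1 + B) *ᵥ (y - l) = y ⬝ᵥ (1 + B) *ᵥ y - DD B l y := by
  have hs : l ⬝ᵥ B *ᵥ y = y ⬝ᵥ B *ᵥ l := by
    rw [dotProduct_mulVec, ← mulVec_transpose, hB, dotProduct_comm]
  have h1 : ∀ v w : Fin (m + 1) → ℝ, v ⬝ᵥ (1 + B) *ᵥ w = v ⬝ᵥ w + v ⬝ᵥ B *ᵥ w := by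
    intro v w
    rw [add_mulVec, one_mulVec, dotProduct_add]
  rw [h1, h1, mulVec_sub, sub_dotProduct, dotProduct_sub, dotProduct_sub, sub_dotProduct,
    dotProduct_sub, dotProduct_sub, hs, dotProduct_comm l y]
  unfold DD
  ring

/-- The bound for `DD` by the lengths. -/
private theorem poi_bound {B : Matrix (Fin (m + 1)) (Fin (m + 1)) ℝ} {β : ℝ} (hβ : 0 ≤ β)
    (hf : fro B ≤ β ^ 2) {y l : Fin (m + 1) → ℝ} {c : ℝ} (hc : 0 ≤ c)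
    (hyl : (y ⬝ᵥ y) * (l ⬝ᵥ l) ≤ c ^ 2) :
    DD B l y ≤ 2 * (1 + β) * c - (1 - β) * (l ⬝ᵥ l) := by
  have hy0 := poi_nonneg y
  have hl0 := poi_nonneg l
  have hBl : (B *ᵥ l) ⬝ᵥ (B *ᵥ l) ≤ β ^ 2 * (l ⬝ᵥ l) :=
    (poi_B B l).trans (mul_le_mul_of_nonneg_right hf hl0)
  have h1 : y ⬝ᵥ l ≤ c := by
    apply le_of_abs_le
    exact abs_le_of_sq_le_sq ((poi_cs y l).trans hyl) hc
  have h2 : y ⬝ᵥ B *ᵥ l ≤ β * c := by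
    apply le_of_abs_le
    apply abs_le_of_sq_le_sq _ (mul_nonneg hβ hc)
    calc (y ⬝ᵥ B *ᵥ l) ^ 2 ≤ (y ⬝ᵥ y) * ((B *ᵥ l) ⬝ᵥ (B *ᵥ l)) := poi_cs y (B *ᵥ l)
      _ ≤ (y ⬝ᵥ y) * (β ^ 2 * (l ⬝ᵥ l)) := mul_le_mul_of_nonneg_left hBl hy0
      _ = β ^ 2 * ((y ⬝ᵥ y) * (l ⬝ᵥ l)) := by ring
      _ ≤ β ^ 2 * c ^ 2 := mul_le_mul_of_nonneg_left hyl (sq_nonneg β)
      _ = (β * c) ^ 2 := by ring
  have h3 : -(l ⬝ᵥ B *ᵥ l) ≤ β * (l ⬝ᵥ l) := by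
    have h4 : |l ⬝ᵥ B *ᵥ l| ≤ β * (l ⬝ᵥ l) := by
      apply abs_le_of_sq_le_sq _ (mul_nonneg hβ hl0)
      calc (l ⬝ᵥ B *ᵥ l) ^ 2 ≤ (l ⬝ᵥ l) * ((B *ᵥ l) ⬝ᵥ (B *ᵥ l)) := poi_cs l (B *ᵥ l)
        _ ≤ (l ⬝ᵥ l) * (β ^ 2 * (l ⬝ᵥ l)) := mul_le_mul_of_nonneg_left hBl hl0
        _ = (β * (l ⬝ᵥ l)) ^ 2 := by ring
    have := (abs_le.mp h4).1
    linarith
  unfold DD
  linarith [h1, h2, h3]

theorem pointwise (h : Good L μ) {B : Matrix (Fin (m + 1)) (Fin (m + 1)) ℝ} {β : ℝ}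
    (hB : Bᵀ = B) (hβ : 0 ≤ β) (hβ' : β ≤ 1 / 20) (hf : fro B ≤ β ^ 2) {y : Fin (m + 1) → ℝ}
    (hy : y ∈ PP L) {l : Fin (m + 1) → ℝ} (hl : l ∈ L) :
    y ⬝ᵥ (1 + B) *ᵥ y - ∑ w ∈ Lam L μ, max 0 (DD B w y) ≤ (y - l) ⬝ᵥ (1 + B) *ᵥ (y - l) := by
  rw [poi_DD hB]
  have hS : 0 ≤ ∑ w ∈ Lam L μ, max 0 (DD B w y) :=
    Finset.sum_nonneg fun w _ => le_max_left _ _
  suffices hD : DD B l y ≤ ∑ w ∈ Lam L μ, max 0 (DD B w y) by linarith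
  by_cases hl0 : l = 0
  · have h0 : DD B l y = 0 := by
      rw [hl0]
      unfold DD
      simp
    rw [h0]
    exact hS
  by_cases hl3 : l ⬝ᵥ l ≤ 3 * μ
  · have hR : l ∈ Lam L μ := (mem_Lam h).mpr ⟨hl, hl0, hl3⟩
    have h3 : max 0 (DD B l y) ≤ ∑ w ∈ Lam L μ, max 0 (DD B w y) :=
      Finset.single_le_sum (f := fun w => max 0 (DD B w y)) (fun w _ => le_max_left _ _) hR
    exact (le_max_right 0 (DD B l y)).trans h3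
  · push Not at hl3
    have hball := PP_ball h hy
    have hμ := h.pos
    have hy0 := poi_nonneg y
    have hl1 := poi_nonneg l
    have hc : (y ⬝ᵥ y) * (l ⬝ᵥ l) ≤ (41 / 100 * (l ⬝ᵥ l)) ^ 2 := by
      have h6 : 6 * (y ⬝ᵥ y) ≤ l ⬝ᵥ l := by linarith
      nlinarith
    have hb := poi_bound (B := B) hβ hf (by positivity : (0 : ℝ) ≤ 41 / 100 * (l ⬝ᵥ l)) hc
    have h5 : 2 * (1 + β) * (41 / 100 * (l ⬝ᵥ l)) - (1 - β) * (l ⬝ᵥ l) ≤ 0 := by nlinarith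
    linarith

end Pool.Agent.H99G
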