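import Pool.Agent.H99G.Defs
import Pool.Agent.H99G.Fra
import Pool.Agent.H99G.Cel
import Pool.Agent.H99G.Fac
import Pool.Agent.H99G.Cfo
import Pool.Agent.H99G.Qin

set_option autoImplicit false

namespace Pool.Agent.H99G

open MeasureTheory Matrix Filter Topology

variable {m : ℕ} {L : AddSubgroup (Fin (m + 1) → ℝ)} {μ : ℝ}

/-- the symmetric matrix units -/
private noncomputable def cij (i j : Fin (m + 1)) : Matrix (Fin (m + 1)) (Fin (m + 1)) ℝ :=
  Matrix.of fun a b => ((if a = i then 1 else 0) * (if b = j then 1 else 0) +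
    (if a = j then 1 else 0) * (if b = i then 1 else 0)) / 2

private theorem cij_T (i j : Fin (m + 1)) : (cij i j)ᵀ = cij i j := by
  ext a b
  simp only [cij, Matrix.transpose_apply, Matrix.of_apply]
  ring

private theorem cij_tr (i j : Fin (m + 1)) : (cij i j).trace = if i = j then 1 else 0 := by
  simp only [cij, Matrix.trace, Matrix.diag, Matrix.of_apply]
  rw [← Finset.sum_div, Finset.sum_add_distrib]
  simp only [mul_ite, mul_one, mul_zero, Finset.sum_ite_eq', Finset.mem_univ, if_true]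
  by_cases h : i = j
  · subst h; simp
  · have h' : ¬ j = i := fun e => h e.symm
    simp [h, h']

private theorem cij_dot (i j : Fin (m + 1)) (w l : Fin (m + 1) → ℝ) :
    w ⬝ᵥ (cij i j *ᵥ l) = (w i * l j + w j * l i) / 2 := by
  simp only [dotProduct, Matrix.mulVec, cij, Matrix.of_apply]
  have h1 : ∀ a, (∑ b, ((if a = i then 1 else 0) * (if b = j then 1 else 0) +
      (if a = j then 1 else 0) * (if b = i then 1 else 0)) / 2 * l b) =
      ((if a = i then 1 else 0) * l j + (if a = j then 1 else 0) * l i) / 2 := by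
    intro a
    have h2 : ∀ b, ((if a = i then (1:ℝ) else 0) * (if b = j then 1 else 0) +
      (if a = j then 1 else 0) * (if b = i then 1 else 0)) / 2 * l b =
      (if a = i then (1:ℝ) else 0) / 2 * (if b = j then l b else 0) +
      (if a = j then (1:ℝ) else 0) / 2 * (if b = i then l b else 0) := by
      intro b
      split_ifs <;> ring
    simp_rw [h2]
    rw [Finset.sum_add_distrib, ← Finset.mul_sum, ← Finset.mul_sum]
    simp only [Finset.sum_ite_eq', Finset.mem_univ, if_true]
    ring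
  simp_rw [h1]
  have h3 : ∀ a, w a * (((if a = i then (1:ℝ) else 0) * l j +
      (if a = j then 1 else 0) * l i) / 2) =
      l j / 2 * (if a = i then w a else 0) + l i / 2 * (if a = j then w a else 0) := by
    intro a
    split_ifs <;> ring
  simp_rw [h3]
  rw [Finset.sum_add_distrib, ← Finset.mul_sum, ← Finset.mul_sum]
  simp only [Finset.sum_ite_eq', Finset.mem_univ, if_true]
  ring

private theorem cij_sum (w l : Fin (m + 1) → ℝ) (h : w ⬝ᵥ l = 0) :
    ∑ i, ∑ j, (w ⬝ᵥ (cij i j *ᵥ l)) ^ 2 = (l ⬝ᵥ l) / 2 * (w ⬝ᵥ w) := by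
  have h1 : ∀ i j, (w ⬝ᵥ (cij i j *ᵥ l)) ^ 2 =
      1 / 4 * ((w i * w i) * (l j * l j)) + 1 / 4 * ((l i * l i) * (w j * w j)) +
        1 / 2 * ((w i * l i) * (w j * l j)) := by
    intro i j
    rw [cij_dot]; ring
  simp_rw [h1]
  simp only [Finset.sum_add_distrib, ← Finset.mul_sum]
  simp only [← Finset.sum_mul]
  have hw : (∑ i, w i * w i) = w ⬝ᵥ w := rfl
  have hl : (∑ i, l i * l i) = l ⬝ᵥ l := rfl
  have hwl : (∑ i, w i * l i) = 0 := h
  rw [hw, hl, hwl]
  ring

private theorem cij_fro : ∑ i : Fin (m + 1), ∑ j, fro (cij (m := m) i j) =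
    ((m : ℝ) + 1) * (m + 2) / 2 := by
  have h1 : ∀ i j : Fin (m + 1), fro (cij (m := m) i j) = (1 + if i = j then 1 else 0) / 2 := by
    intro i j
    simp only [fro, cij, Matrix.of_apply]
    by_cases hij : i = j
    · subst hij
      have h2 : ∀ a b : Fin (m + 1), (((if a = i then (1:ℝ) else 0) * (if b = i then 1 else 0) +
        (if a = i then 1 else 0) * (if b = i then 1 else 0)) / 2) ^ 2 =
        (if a = i then (1:ℝ) else 0) * (if b = i then 1 else 0) := by
        intro a b; split_ifs <;> norm_num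
      simp_rw [h2]
      simp
    · have h2 : ∀ a b : Fin (m + 1), (((if a = i then (1:ℝ) else 0) * (if b = j then 1 else 0) +
        (if a = j then 1 else 0) * (if b = i then 1 else 0)) / 2) ^ 2 =
        ((if a = i then (1:ℝ) else 0) * (if b = j then 1 else 0) +
        (if a = j then (1:ℝ) else 0) * (if b = i then 1 else 0)) / 4 := by
        intro a b
        by_cases h3 : a = i
        · have h4 : ¬ a = j := fun e => hij (h3.symm.trans e)
          simp only [h3, if_true]
          simp only [hij, if_false]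
          split_ifs <;> norm_num
        · simp only [h3, if_false]
          split_ifs <;> norm_num
      simp_rw [h2]
      simp only [← Finset.sum_div, Finset.sum_add_distrib, ← Finset.mul_sum]
      simp [hij]
      norm_num
  simp_rw [h1]
  simp only [← Finset.sum_div, Finset.sum_add_distrib]
  simp
  ring

private theorem fro_sub (B : Matrix (Fin (m + 1)) (Fin (m + 1)) ℝ) (t : ℝ) :
    fro (B - t • 1) = fro B - 2 * t * B.trace + t ^ 2 * ((m : ℝ) + 1) := by
  have h1 : ∀ i j, (B - t • (1 : Matrix (Fin (m + 1)) (Fin (m + 1)) ℝ)) i j ^ 2 =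
      B i j ^ 2 - 2 * t * (if i = j then B i j else 0) + t ^ 2 * (if i = j then 1 else 0) := by
    intro i j
    rw [Matrix.sub_apply, Matrix.smul_apply, Matrix.one_apply, smul_eq_mul]
    split_ifs <;> ring
  unfold fro
  simp_rw [h1]
  simp only [Finset.sum_add_distrib, Finset.sum_sub_distrib, ← Finset.mul_sum]
  simp only [Finset.sum_ite_eq, Finset.mem_univ, if_true]
  simp [Matrix.trace, Matrix.diag]

private theorem QQ_shift (B : Matrix (Fin (m + 1)) (Fin (m + 1)) ℝ) (t : ℝ) :
    QQ L μ (B - t • 1) = QQ L μ B := by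
  unfold QQ
  refine Finset.sum_congr rfl fun l _ => ?_
  congr 1
  unfold qF
  congr 1
  funext z
  rw [Matrix.sub_mulVec, Matrix.smul_mulVec, Matrix.one_mulVec, dotProduct_sub, dotProduct_smul,
    pt_dot_l, zero_mul, smul_zero, sub_zero]

private theorem QQ_nonneg (B : Matrix (Fin (m + 1)) (Fin (m + 1)) ℝ) : 0 ≤ QQ L μ B := by
  unfold QQ
  refine Finset.sum_nonneg fun l _ => mul_nonneg ?_ ?_
  · have : 0 ≤ len l := Real.sqrt_nonneg _
    positivity
  · exact integral_nonneg fun z => sq_nonneg _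

theorem QQ_bound (h : Good L μ) (hm : 1 ≤ m) {q : ℝ}
    (hq : ∀ B : Matrix (Fin (m + 1)) (Fin (m + 1)) ℝ, Bᵀ = B → B.trace = 0 →
      QQ L μ B = q * fro B) :
    q * (m * (m + 3) / 2) = ∑ l ∈ Lam L μ, len l * jF L l / 4 ∧
      ∀ B : Matrix (Fin (m + 1)) (Fin (m + 1)) ℝ, Bᵀ = B → QQ L μ B ≤ q * fro B := by
  have hn : (0 : ℝ) < (m : ℝ) + 1 := by positivity
  have key : ∀ B : Matrix (Fin (m + 1)) (Fin (m + 1)) ℝ, Bᵀ = B →
      QQ L μ B = q * (fro B - B.trace ^ 2 / (m + 1)) := by
    intro B hB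
    have h1 := hq (B - (B.trace / ((m : ℝ) + 1)) • 1) (by
      rw [Matrix.transpose_sub, Matrix.transpose_smul, Matrix.transpose_one, hB]) (by
      rw [Matrix.trace_sub, Matrix.trace_smul, Matrix.trace_one, Fintype.card_fin, smul_eq_mul]
      push_cast
      field_simp
      ring)
    rw [QQ_shift, fro_sub] at h1
    rw [h1]
    congr 1
    field_simp
    ring
  have hq0 : 0 ≤ q := by
    have h01 : (0 : Fin (m + 1)) ≠ ⟨1, by omega⟩ := by
      intro e; have := congrArg Fin.val e; simp at this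
    have h1 := key (cij 0 ⟨1, by omega⟩) (cij_T _ _)
    rw [cij_tr, if_neg h01] at h1
    have h2 : 0 < fro (cij (m := m) 0 ⟨1, by omega⟩) := by
      unfold fro
      have h3 : (0:ℝ) < (cij (m := m) 0 ⟨1, by omega⟩) 0 ⟨1, by omega⟩ ^ 2 := by
        have : (cij (m := m) 0 ⟨1, by omega⟩) 0 ⟨1, by omega⟩ = 1 / 2 := by
          simp only [cij, Matrix.of_apply]
          simp only [if_neg h01, if_true]
          norm_num
        rw [this]; norm_num
      have h4 : (cij (m := m) 0 ⟨1, by omega⟩) 0 ⟨1, by omega⟩ ^ 2 ≤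
          ∑ j, (cij (m := m) 0 ⟨1, by omega⟩) 0 j ^ 2 :=
        Finset.single_le_sum (f := fun j => (cij (m := m) 0 ⟨1, by omega⟩) 0 j ^ 2)
          (fun j _ => sq_nonneg _) (Finset.mem_univ _)
      have h5 : (∑ j, (cij (m := m) 0 ⟨1, by omega⟩) 0 j ^ 2) ≤
          ∑ i, ∑ j, (cij (m := m) 0 ⟨1, by omega⟩) i j ^ 2 :=
        Finset.single_le_sum (f := fun i => ∑ j, (cij (m := m) 0 ⟨1, by omega⟩) i j ^ 2)
          (fun i _ => Finset.sum_nonneg fun j _ => sq_nonneg _) (Finset.mem_univ _)
      linarith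
    have h3 := QQ_nonneg (L := L) (μ := μ) (cij 0 ⟨1, by omega⟩)
    rw [h1] at h3
    by_contra hneg
    push Not at hneg
    have h4 : q * (fro (cij (m := m) 0 ⟨1, by omega⟩) - 0 ^ 2 / (m + 1)) < 0 := by
      have : fro (cij (m := m) 0 ⟨1, by omega⟩) - 0 ^ 2 / ((m : ℝ) + 1) =
        fro (cij (m := m) 0 ⟨1, by omega⟩) := by simp
      rw [this]
      exact mul_neg_of_neg_of_pos hneg h2
    linarith
  refine ⟨?_, ?_⟩
  · have hL : ∑ i : Fin (m + 1), ∑ j, QQ L μ (cij i j) = q * (m * (m + 3) / 2) := by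
      have h1 : ∀ i j : Fin (m + 1), QQ L μ (cij i j) =
          q * fro (cij (m := m) i j) - q / (m + 1) * (if i = j then 1 else 0) := by
        intro i j
        rw [key _ (cij_T i j), cij_tr]
        split_ifs <;> ring
      simp_rw [h1]
      simp only [Finset.sum_sub_distrib, ← Finset.mul_sum]
      rw [cij_fro]
      simp
      field_simp
      ring
    have hR : ∑ i : Fin (m + 1), ∑ j, QQ L μ (cij i j) = ∑ l ∈ Lam L μ, len l * jF L l / 4 := by
      unfold QQ
      have hs : ∀ i : Fin (m + 1), (∑ j, ∑ l ∈ Lam L μ, 1 / (2 * len l) * qF L l (cij i j *ᵥ l)) =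
          ∑ l ∈ Lam L μ, ∑ j, 1 / (2 * len l) * qF L l (cij i j *ᵥ l) :=
        fun i => Finset.sum_comm
      simp_rw [hs]
      rw [Finset.sum_comm]
      refine Finset.sum_congr rfl fun l hl => ?_
      have hc : ∀ i j : Fin (m + 1), IntegrableOn
          (fun z => (pt l 0 z ⬝ᵥ (cij i j *ᵥ l)) ^ 2) (Fc L l) := fun i j =>
        ((Continuous.dotProduct ((pt_cont l).comp (Continuous.prodMk continuous_const
          continuous_id)) continuous_const).pow 2).continuousOn.integrableOn_compact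
          (Fc_compact h l)
      simp only [← Finset.mul_sum]
      have h1 : (∑ i : Fin (m + 1), ∑ j, qF L l (cij i j *ᵥ l)) = (l ⬝ᵥ l) / 2 * jF L l := by
        unfold qF jF
        have h2 : ∀ i : Fin (m + 1), (∑ j, ∫ z in Fc L l, (pt l 0 z ⬝ᵥ (cij i j *ᵥ l)) ^ 2) =
            ∫ z in Fc L l, ∑ j, (pt l 0 z ⬝ᵥ (cij i j *ᵥ l)) ^ 2 := fun i =>
          (integral_finsetSum _ fun j _ => hc i j).symm
        simp_rw [h2]
        rw [← integral_finsetSum _ fun i _ => integrable_finsetSum _ fun j _ => hc i j,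
          ← integral_const_mul]
        congr 1
        funext z
        rw [cij_sum _ _ (by rw [pt_dot_l, zero_mul]), pt_dot, zero_mul, zero_add]
      rw [h1]
      have hll : 0 < l ⬝ᵥ l := by
        rw [mem_Lam h] at hl
        rcases lt_or_eq_of_le (show (0:ℝ) ≤ l ⬝ᵥ l from
          Finset.sum_nonneg fun i _ => mul_self_nonneg _) with h' | h'
        · exact h'
        · exact absurd (dotProduct_self_eq_zero.1 h'.symm) hl.2.1
      have hlen : 0 < len l := Real.sqrt_pos.2 hll
      have hsq : len l * len l = l ⬝ᵥ l := Real.mul_self_sqrt hll.le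
      rw [← hsq]
      field_simp
      ring
    rw [← hL, hR]
  · intro B hB
    rw [key B hB]
    refine mul_le_mul_of_nonneg_left ?_ hq0
    have : 0 ≤ B.trace ^ 2 / ((m : ℝ) + 1) := by positivity
    linarith

end Pool.Agent.H99G
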