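import Pool.Agent.H99G.Fra
import Pool.Agent.H99G.Cel
import Pool.Agent.H99G.Fac
import Pool.Agent.H99G.Los
import Pool.Agent.H99G.Poi
import Pool.Agent.H99G.Cvo
import Pool.Agent.H99G.Csu
import Pool.Agent.H99G.Bal
import Pool.Agent.H99G.Nba
import Pool.Agent.H99G.Iso
import Pool.Agent.H99G.Qin
import Pool.Agent.H99G.Qtr
import Pool.Agent.H99G.Det
import Pool.Agent.H99G.Ccv

set_option autoImplicit false

/-!
# The core theorem
-/

namespace Pool.Agent.H99G

open MeasureTheory Matrix Filter Topology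

variable {m : ℕ} {L : AddSubgroup (Fin (m + 1) → ℝ)} {μ : ℝ}

theorem fro_nonneg (B : Matrix (Fin (m + 1)) (Fin (m + 1)) ℝ) : 0 ≤ fro B :=
  Finset.sum_nonneg fun _ _ => Finset.sum_nonneg fun _ _ => sq_nonneg _

theorem fro_pos {B : Matrix (Fin (m + 1)) (Fin (m + 1)) ℝ} (hB : B ≠ 0) : 0 < fro B := by
  refine lt_of_le_of_ne (fro_nonneg B) fun h => hB ?_
  ext i j
  have h1 : ∑ j, B i j ^ 2 = 0 :=
    (Finset.sum_eq_zero_iff_of_nonneg fun _ _ => Finset.sum_nonneg fun _ _ => sq_nonneg _).mp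
      h.symm i (Finset.mem_univ i)
  have h2 := (Finset.sum_eq_zero_iff_of_nonneg fun _ _ => sq_nonneg _).mp h1 j (Finset.mem_univ j)
  simpa using h2

theorem dot_nonneg' {n : ℕ} (x : Fin n → ℝ) : 0 ≤ x ⬝ᵥ x :=
  Finset.sum_nonneg fun _ _ => mul_self_nonneg _

theorem cont_dot : Continuous fun y : Fin (m + 1) → ℝ => y ⬝ᵥ y := by
  unfold dotProduct; fun_prop

theorem cont_quad (S : Matrix (Fin (m + 1)) (Fin (m + 1)) ℝ) (w : Fin (m + 1) → ℝ) :
    Continuous fun y : Fin (m + 1) → ℝ => (y - w) ⬝ᵥ S *ᵥ (y - w) := by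
  unfold dotProduct mulVec dotProduct; fun_prop

theorem cont_quad0 (S : Matrix (Fin (m + 1)) (Fin (m + 1)) ℝ) :
    Continuous fun y : Fin (m + 1) → ℝ => y ⬝ᵥ S *ᵥ y := by
  unfold dotProduct mulVec dotProduct; fun_prop

theorem cont_DD (B : Matrix (Fin (m + 1)) (Fin (m + 1)) ℝ) (w : Fin (m + 1) → ℝ) :
    Continuous fun y : Fin (m + 1) → ℝ => max 0 (DD B w y) := by
  unfold DD dotProduct mulVec dotProduct; fun_prop

theorem int_on (h : Good L μ) {f : (Fin (m + 1) → ℝ) → ℝ} (hf : Continuous f) :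
    IntegrableOn f (PP L) volume := hf.continuousOn.integrableOn_compact (PP_compact h)

theorem dot_pos {n : ℕ} {x : Fin n → ℝ} (hx : x ≠ 0) : 0 < x ⬝ᵥ x :=
  lt_of_le_of_ne (dot_nonneg' x) fun h => hx (dotProduct_self_eq_zero.mp h.symm)

theorem len_pos {l : Fin (m + 1) → ℝ} (hl0 : l ≠ 0) : 0 < len l :=
  Real.sqrt_pos.mpr (dot_pos hl0)

theorem len_sq (l : Fin (m + 1) → ℝ) : len l ^ 2 = l ⬝ᵥ l := Real.sq_sqrt (dot_nonneg' l)

/-- The comparison of the moments of one facet. -/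
theorem facet_le (h : Good L μ) (hmin : ∀ l ∈ L, l ≠ 0 → μ ≤ l ⬝ᵥ l) (hm : 2 ≤ m)
    {l : Fin (m + 1) → ℝ} (hl : l ∈ L) (hl0 : l ≠ 0) :
    ((m : ℝ) + 2) * jF L l ≤ m * (l ⬝ᵥ l / 4) * aF L l ∧
      (0 < aF L l → ((m : ℝ) + 2) * jF L l < m * (l ⬝ᵥ l / 4) * aF L l) := by
  have hK := Fc_compact h l
  have hc : Convex ℝ (Fc L l) := Fc_convex l
  have ha : 0 ≤ aF L l := ENNReal.toReal_nonneg
  have hlt : 0 < aF L l → ((m : ℝ) + 2) * jF L l < m * (l ⬝ᵥ l / 4) * aF L l := by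
    intro hpos
    have hr : 0 < μ / 2 - l ⬝ᵥ l / 4 := by
      by_contra hcon
      push Not at hcon
      have hsub : Fc L l ⊆ {0} := by
        intro z hz
        have h1 := (Fc_ball h hl hl0 hz)
        have h2 := dot_nonneg' z
        have h3 : z ⬝ᵥ z = 0 := le_antisymm (h1.trans hcon) h2
        rw [Set.mem_singleton_iff]
        exact dotProduct_self_eq_zero.mp h3
      have h0 : volume (Fc L l) = 0 := by
        refine measure_mono_null hsub ?_
        have : Nonempty (Fin m) := ⟨⟨0, by omega⟩⟩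
        exact measure_singleton _
      unfold aF at hpos
      rw [h0] at hpos
      simp at hpos
    have h1 := ball_lt (by omega) hK hc (fun z hz => Fc_neg hl hl0 hz)
      (r := μ / 2 - l ⬝ᵥ l / 4) (fun z hz => (Fc_ball h hl hl0 hz)) hpos
      (not_ball h hm hl hl0 hr)
    refine lt_of_lt_of_le h1 ?_
    refine mul_le_mul_of_nonneg_right ?_ ha
    refine mul_le_mul_of_nonneg_left ?_ (Nat.cast_nonneg m)
    have := hmin l hl hl0
    linarith
  refine ⟨?_, hlt⟩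
  rcases ha.lt_or_eq with hp | h0
  · exact (hlt hp).le
  · have hz : volume (Fc L l) = 0 := by
      have : volume (Fc L l) ≠ ⊤ := hK.measure_lt_top.ne
      unfold aF at h0
      exact (ENNReal.toReal_eq_zero_iff _).mp h0.symm |>.resolve_right this
    have hj : jF L l = 0 := by
      unfold jF
      rw [Measure.restrict_eq_zero.mpr hz]
      simp
    rw [hj, ← h0]
    simp

theorem jF_nonneg (l : Fin (m + 1) → ℝ) : 0 ≤ jF L l := integral_nonneg fun z => dot_nonneg' z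

/-- The moments of the cones. -/
theorem cone_sum (h : Good L μ) :
    (∑ l ∈ Lam L μ, len l * jF L l / (2 * ((m : ℝ) + 3))) +
      (∑ l ∈ Lam L μ, len l * (l ⬝ᵥ l / 4 * aF L l) / (2 * ((m : ℝ) + 3))) ≤ GG L := by
  rw [← Finset.sum_add_distrib]
  refine le_trans (le_of_eq ?_) (cones_le h cont_dot fun y => dot_nonneg' y)
  refine Finset.sum_congr rfl fun l hl => ?_
  obtain ⟨h1, h2, -⟩ := (mem_Lam h).mp hl
  rw [cone_formula h h1 h2 cont_dot (fun t y => by
    simp only [smul_dotProduct, dotProduct_smul, smul_eq_mul]; ring)]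
  have e : ∀ z : Fin m → ℝ, pt l (len l / 2) z ⬝ᵥ pt l (len l / 2) z =
      l ⬝ᵥ l / 4 + z ⬝ᵥ z := fun z => by
    rw [pt_dot, ← len_sq l]; ring
  simp only [e]
  have hK := Fc_compact h l
  have i1 : IntegrableOn (fun _ : Fin m → ℝ => l ⬝ᵥ l / 4) (Fc L l) volume :=
    continuous_const.continuousOn.integrableOn_compact hK
  have i2 : IntegrableOn (fun z : Fin m → ℝ => z ⬝ᵥ z) (Fc L l) volume := by
    refine Continuous.continuousOn ?_ |>.integrableOn_compact hK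
    unfold dotProduct; fun_prop
  rw [integral_add i1 i2, setIntegral_const, smul_eq_mul]
  unfold jF aF Measure.real
  ring

theorem X_eq {q : ℝ} (hq : q * (m * (m + 3) / 2) = ∑ l ∈ Lam L μ, len l * jF L l / 4) :
    q * m = ∑ l ∈ Lam L μ, len l * jF L l / (2 * ((m : ℝ) + 3)) := by
  have e : ∑ l ∈ Lam L μ, len l * jF L l / (2 * ((m : ℝ) + 3)) =
      (∑ l ∈ Lam L μ, len l * jF L l / 4) * (2 / ((m : ℝ) + 3)) := by
    rw [Finset.sum_mul]
    refine Finset.sum_congr rfl fun l _ => ?_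
    field_simp
    ring
  rw [e, ← hq]
  field_simp

/-- The margin, first criterion. -/
theorem margin (h : Good L μ) (hmin : ∀ l ∈ L, l ≠ 0 → μ ≤ l ⬝ᵥ l) (hm : 2 ≤ m) {q : ℝ}
    (hq : q * (m * (m + 3) / 2) = ∑ l ∈ Lam L μ, len l * jF L l / 4) :
    q < GG L / (2 * (m + 1)) := by
  have hm' : (2 : ℝ) ≤ m := by exact_mod_cast hm
  have hG := GG_pos h
  have hXY := cone_sum h
  have hqX := X_eq hq
  set X := ∑ l ∈ Lam L μ, len l * jF L l / (2 * ((m : ℝ) + 3)) with hX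
  set Y := ∑ l ∈ Lam L μ, len l * (l ⬝ᵥ l / 4 * aF L l) / (2 * ((m : ℝ) + 3)) with hY
  have hterm : ∀ l ∈ Lam L μ, ((m : ℝ) + 2) * (len l * jF L l / (2 * ((m : ℝ) + 3))) ≤
      m * (len l * (l ⬝ᵥ l / 4 * aF L l) / (2 * ((m : ℝ) + 3))) := by
    intro l hl
    obtain ⟨h1, h2, -⟩ := (mem_Lam h).mp hl
    have h3 := (facet_le h hmin hm h1 h2).1
    have h4 := len_pos h2
    have e1 : ((m : ℝ) + 2) * (len l * jF L l / (2 * ((m : ℝ) + 3))) =
        len l / (2 * ((m : ℝ) + 3)) * (((m : ℝ) + 2) * jF L l) := by ring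
    have e2 : m * (len l * (l ⬝ᵥ l / 4 * aF L l) / (2 * ((m : ℝ) + 3))) =
        len l / (2 * ((m : ℝ) + 3)) * (m * (l ⬝ᵥ l / 4) * aF L l) := by ring
    rw [e1, e2]
    exact mul_le_mul_of_nonneg_left h3 (by positivity)
  have hX0 : 0 ≤ X := Finset.sum_nonneg fun l hl => by
    obtain ⟨h1, h2, -⟩ := (mem_Lam h).mp hl
    have h4 := len_pos h2
    have := jF_nonneg (L := L) l
    positivity
  have key : X = 0 ∨ ((m : ℝ) + 2) * X < m * Y := by
    rcases hX0.lt_or_eq with hp | h0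
    · right
      rw [hX, hY, Finset.mul_sum, Finset.mul_sum]
      refine Finset.sum_lt_sum hterm ?_
      by_contra hcon
      push Not at hcon
      have : X = 0 := by
        rw [hX]
        refine Finset.sum_eq_zero fun l hl => ?_
        obtain ⟨h1, h2, -⟩ := (mem_Lam h).mp hl
        have h3 := hcon l hl
        have h4 := len_pos h2
        have ha : ¬ 0 < aF L l := by
          intro ha
          have h5 := (facet_le h hmin hm h1 h2).2 ha
          have e1 : ((m : ℝ) + 2) * (len l * jF L l / (2 * ((m : ℝ) + 3))) =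
              len l / (2 * ((m : ℝ) + 3)) * (((m : ℝ) + 2) * jF L l) := by ring
          have e2 : m * (len l * (l ⬝ᵥ l / 4 * aF L l) / (2 * ((m : ℝ) + 3))) =
              len l / (2 * ((m : ℝ) + 3)) * (m * (l ⬝ᵥ l / 4) * aF L l) := by ring
          rw [e1, e2] at h3
          have h6 : len l / (2 * ((m : ℝ) + 3)) * (((m : ℝ) + 2) * jF L l) <
              len l / (2 * ((m : ℝ) + 3)) * (m * (l ⬝ᵥ l / 4) * aF L l) :=
            mul_lt_mul_of_pos_left h5 (by positivity)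
          linarith
        have ha0 : aF L l = 0 := le_antisymm (not_lt.mp ha) ENNReal.toReal_nonneg
        have h7 := (facet_le h hmin hm h1 h2).1
        rw [ha0] at h7
        have h8 := jF_nonneg (L := L) l
        have h9 : jF L l = 0 := by nlinarith
        rw [h9]; simp
      linarith
    · exact Or.inl h0.symm
  rw [lt_div_iff₀ (by positivity)]
  rcases key with h0 | hlt
  · have : q = 0 := by
      rw [h0] at hqX
      rcases mul_eq_zero.mp hqX with h1 | h1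
      · exact h1
      · linarith
    rw [this]
    linarith
  · have h1 : (m : ℝ) * (X + Y) ≤ m * GG L := mul_le_mul_of_nonneg_left hXY (by positivity)
    have h2 : (m : ℝ) * (q * (2 * (m + 1))) < m * GG L := by
      have : (m : ℝ) * (q * (2 * (m + 1))) = X * (2 * m + 2) := by rw [← hqX]; ring
      rw [this]
      nlinarith
    exact lt_of_mul_lt_mul_left h2 (by positivity)

/-- The margin, second criterion. -/
theorem margin2 (h : Good L μ) {ν : ℝ} (hν : ∀ l ∈ L, l ≠ 0 → ν ≤ l ⬝ᵥ l) (hν0 : 0 ≤ ν)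
    (hm : 1 ≤ m)
    (hcrit : 2 * ((m : ℝ) + 2) * (m + 3) * GG L < ν * (m + 1) ^ 2 * (volume (PP L)).toReal)
    {q : ℝ} (hq : q * (m * (m + 3) / 2) = ∑ l ∈ Lam L μ, len l * jF L l / 4) :
    q < GG L / (2 * (m + 1)) := by
  have hm' : (1 : ℝ) ≤ m := by exact_mod_cast hm
  have hXY := cone_sum h
  have hqX := X_eq hq
  set X := ∑ l ∈ Lam L μ, len l * jF L l / (2 * ((m : ℝ) + 3)) with hX
  set Y := ∑ l ∈ Lam L μ, len l * (l ⬝ᵥ l / 4 * aF L l) / (2 * ((m : ℝ) + 3)) with hY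
  have hvol : ν * (volume (PP L)).toReal ≤ ∑ l ∈ Lam L μ,
      len l * (l ⬝ᵥ l * aF L l) / (2 * ((m : ℝ) + 1)) := by
    refine (mul_le_mul_of_nonneg_left (cover h) hν0).trans ?_
    rw [Finset.mul_sum]
    refine Finset.sum_le_sum fun l hl => ?_
    obtain ⟨h1, h2, -⟩ := (mem_Lam h).mp hl
    rw [cone_vol h h1 h2]
    have h3 := len_pos h2
    have h4 : 0 ≤ aF L l := ENNReal.toReal_nonneg
    have e1 : ν * (len l / (2 * ((m : ℝ) + 1)) * aF L l) =
        len l / (2 * ((m : ℝ) + 1)) * aF L l * ν := by ring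
    have e2 : len l * (l ⬝ᵥ l * aF L l) / (2 * ((m : ℝ) + 1)) =
        len l / (2 * ((m : ℝ) + 1)) * aF L l * (l ⬝ᵥ l) := by ring
    rw [e1, e2]
    exact mul_le_mul_of_nonneg_left (hν l h1 h2) (by positivity)
  have hYe : ∑ l ∈ Lam L μ, len l * (l ⬝ᵥ l * aF L l) / (2 * ((m : ℝ) + 1)) =
      Y * (4 * (m + 3) / (m + 1)) := by
    rw [hY, Finset.sum_mul]
    refine Finset.sum_congr rfl fun l _ => ?_
    field_simp
  rw [hYe] at hvol
  have h1 : ν * (m + 1) ^ 2 * (volume (PP L)).toReal ≤ 4 * (m + 1) * (m + 3) * Y := by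
    have h2 := mul_le_mul_of_nonneg_left hvol (show (0 : ℝ) ≤ (m + 1) ^ 2 by positivity)
    have e : ((m : ℝ) + 1) ^ 2 * (Y * (4 * (m + 3) / (m + 1))) = 4 * (m + 1) * (m + 3) * Y := by
      field_simp
    rw [e] at h2
    linarith
  have h3 : 2 * ((m : ℝ) + 3) * (((m : ℝ) + 2) * GG L) < 2 * ((m : ℝ) + 3) * (2 * (m + 1) * Y) := by
    nlinarith
  have h4 : ((m : ℝ) + 2) * GG L < 2 * (m + 1) * Y :=
    lt_of_mul_lt_mul_left h3 (by positivity)
  rw [lt_div_iff₀ (by positivity)]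
  have h5 : (m : ℝ) * (q * (2 * (m + 1))) < m * GG L := by
    have : (m : ℝ) * (q * (2 * (m + 1))) = X * (2 * m + 2) := by rw [← hqX]; ring
    rw [this]
    nlinarith
  exact lt_of_mul_lt_mul_left h5 (by positivity)

/-- The two sufficient conditions. -/
def Crit (L : AddSubgroup (Fin (m + 1) → ℝ)) (μ : ℝ) : Prop :=
  (∀ l ∈ L, l ≠ 0 → μ ≤ l ⬝ᵥ l) ∨
    ∃ ν : ℝ, 0 ≤ ν ∧ (∀ l ∈ L, l ≠ 0 → ν ≤ l ⬝ᵥ l) ∧
      2 * ((m : ℝ) + 2) * (m + 3) * GG L < ν * (m + 1) ^ 2 * (volume (PP L)).toReal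

theorem margin3 (h : Good L μ) (hcr : Crit L μ) (hm : 2 ≤ m) {q : ℝ}
    (hq : q * (m * (m + 3) / 2) = ∑ l ∈ Lam L μ, len l * jF L l / 4) :
    q < GG L / (2 * (m + 1)) := by
  rcases hcr with h1 | ⟨ν, h0, h1, h2⟩
  · exact margin h h1 hm hq
  · exact margin2 h h1 h0 (by omega) h2 hq

end Pool.Agent.H99G
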