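import Pool.Agent.H99G.D4def

set_option autoImplicit false

/-!
# The lattice `D4` satisfies the covering condition (helper51)
-/

namespace Pool.Agent.H99G

open Matrix

private theorem d4_coord {y : Fin (3 + 1) → ℝ} {r : ℝ} (h : y ⬝ᵥ y ≤ r) (i : Fin (3 + 1)) :
    y i * y i ≤ r := by
  refine le_trans ?_ h
  rw [dotProduct]
  exact Finset.single_le_sum (f := fun j => y j * y j) (fun j _ => mul_self_nonneg (y j))
    (Finset.mem_univ i)

private theorem D4_fin (r : ℝ) : {l : Fin (3 + 1) → ℝ | l ∈ D4 ∧ l ⬝ᵥ l ≤ r}.Finite := by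
  obtain ⟨N, hN⟩ := exists_nat_ge (|r| + 1)
  have hfin : ((fun (k : Fin (3 + 1) → ℤ) (i : Fin (3 + 1)) => (k i : ℝ)) ''
      (Set.Icc (fun _ => -(N : ℤ)) (fun _ => (N : ℤ)))).Finite := (Set.finite_Icc _ _).image _
  refine hfin.subset ?_
  rintro l ⟨hl, hr⟩
  obtain ⟨k, hk, hkl⟩ := mem_D4.1 hl
  obtain rfl : l = fun i => (k i : ℝ) := funext hkl
  refine ⟨k, ?_, rfl⟩
  have hb : ∀ i, |(k i : ℝ)| ≤ N := by
    intro i
    have h1 := d4_coord hr i
    have h4 : (k i : ℝ) * k i ≤ |r| := le_trans h1 (le_abs_self r)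
    by_contra hc
    push Not at hc
    have h7 : |(k i : ℝ)| ^ 2 = (k i : ℝ) ^ 2 := sq_abs _
    nlinarith [abs_nonneg (k i : ℝ), abs_nonneg r]
  constructor
  · intro i
    have h1 := (abs_le.1 (hb i)).1
    show -(N : ℤ) ≤ k i
    exact_mod_cast h1
  · intro i
    have h1 := (abs_le.1 (hb i)).2
    show k i ≤ (N : ℤ)
    exact_mod_cast h1

private theorem d4_mem_of {l : Fin (3 + 1) → ℝ} (k : Fin (3 + 1) → ℤ) (hk : Even (∑ i, k i))
    (h : l = fun i => (k i : ℝ)) : l ∈ D4 := mem_D4.2 ⟨k, hk, fun i => by rw [h]⟩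

private theorem d4_sq {d : ℝ} (h : |d| ≤ 1 / 2) : d * d ≤ 1 / 4 := by
  have := abs_le.1 h
  nlinarith

/-- Flipping the worst coordinate. -/
private theorem d4_flip (k : Fin (3 + 1) → ℤ) (d : Fin (3 + 1) → ℝ) (hd : ∀ i, |d i| ≤ 1 / 2)
    (hk : ¬ Even (∑ i, k i)) : ∃ k' : Fin (3 + 1) → ℤ, Even (∑ i, k' i) ∧
      ∑ i, (d i + k i - k' i) * (d i + k i - k' i) ≤ 1 := by
  obtain ⟨i, -, hi⟩ := Finset.exists_max_image (Finset.univ : Finset (Fin (3 + 1)))
    (fun j => |d j|) Finset.univ_nonempty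
  obtain ⟨s, hs, hs1⟩ : ∃ s : ℤ, (s = 1 ∨ s = -1) ∧ (s : ℝ) * d i = |d i| := by
    rcases le_total 0 (d i) with h | h
    · exact ⟨1, Or.inl rfl, by rw [abs_of_nonneg h]; push_cast; ring⟩
    · exact ⟨-1, Or.inr rfl, by rw [abs_of_nonpos h]; push_cast; ring⟩
  refine ⟨Function.update k i (k i + s), ?_, ?_⟩
  · rw [Finset.sum_update_of_mem (Finset.mem_univ i)]
    have h1 : ∑ j, k j = k i + ∑ j ∈ Finset.univ \ {i}, k j := by
      rw [Finset.sdiff_singleton_eq_erase, Finset.add_sum_erase _ _ (Finset.mem_univ i)]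
    rw [h1] at hk
    rw [Int.not_even_iff_odd] at hk
    have h2 : Odd s := by
      rcases hs with rfl | rfl
      · decide
      · decide
    have h3 := hk.add_odd h2
    have h4 : k i + s + ∑ j ∈ Finset.univ \ {i}, k j =
        k i + ∑ j ∈ Finset.univ \ {i}, k j + s := by
      rw [add_right_comm]
    rw [h4]
    exact h3
  · have h1 : ∑ j, (d j + k j - (Function.update k i (k i + s) j : ℤ)) *
        (d j + k j - (Function.update k i (k i + s) j : ℤ)) =
        (d i - s) * (d i - s) + ∑ j ∈ Finset.univ.erase i, d j * d j := by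
      rw [← Finset.add_sum_erase _ _ (Finset.mem_univ i)]
      congr 1
      · rw [Function.update_self]
        push_cast
        ring
      · refine Finset.sum_congr rfl fun j hj => ?_
        rw [Function.update_of_ne (Finset.ne_of_mem_erase hj)]
        ring
    have h2 : ∑ j ∈ Finset.univ.erase i, d j * d j ≤ ∑ j ∈ Finset.univ.erase i, |d i| * |d i| := by
      refine Finset.sum_le_sum fun j _ => ?_
      rw [← abs_mul_abs_self (d j)]
      exact mul_self_le_mul_self (abs_nonneg _) (hi j (Finset.mem_univ j))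
    have h3 : ∑ j ∈ (Finset.univ : Finset (Fin (3 + 1))).erase i, |d i| * |d i| =
        3 * (|d i| * |d i|) := by
      rw [Finset.sum_const, Finset.card_erase_of_mem (Finset.mem_univ i)]
      simp
    have h4 : (d i - s) * (d i - s) = (1 - |d i|) * (1 - |d i|) := by
      have h5 : (s : ℝ) * s = 1 := by
        rcases hs with rfl | rfl <;> norm_num
      have h6 : |d i| * |d i| = d i * d i := abs_mul_abs_self _
      have h7 : (1 - |d i|) * (1 - |d i|) = 1 - 2 * |d i| + |d i| * |d i| := by ring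
      rw [h7, h6, ← hs1]
      have h8 : (d i - s) * (d i - s) = d i * d i - 2 * (s * d i) + s * s := by ring
      rw [h8, h5]
      ring
    rw [h1, h4]
    have h9 := hd i
    have h10 := abs_nonneg (d i)
    nlinarith

private theorem D4_cov (y : Fin (3 + 1) → ℝ) : ∃ l ∈ D4, 2 * ((y - l) ⬝ᵥ (y - l)) ≤ 2 := by
  set k : Fin (3 + 1) → ℤ := fun i => round (y i) with hk
  set d : Fin (3 + 1) → ℝ := fun i => y i - k i with hd
  have hd1 : ∀ i, |d i| ≤ 1 / 2 := fun i => abs_sub_round (y i)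
  by_cases he : Even (∑ i, k i)
  · refine ⟨_, d4_mem_of k he rfl, ?_⟩
    have h1 : ∀ i, d i * d i ≤ 1 / 4 := fun i => d4_sq (hd1 i)
    have h2 : (y - fun i => (k i : ℝ)) ⬝ᵥ (y - fun i => (k i : ℝ)) ≤
        ∑ _i : Fin (3 + 1), (1 / 4 : ℝ) := Finset.sum_le_sum fun i _ => h1 i
    have h3 : ∑ _i : Fin (3 + 1), (1 / 4 : ℝ) = 1 := by
      rw [Finset.sum_const, Finset.card_univ, Fintype.card_fin]
      norm_num
    rw [h3] at h2
    linarith
  · obtain ⟨k', h1, h2⟩ := d4_flip k d hd1 he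
    refine ⟨_, d4_mem_of k' h1 rfl, ?_⟩
    have h3 : (y - fun i => (k' i : ℝ)) ⬝ᵥ (y - fun i => (k' i : ℝ)) =
        ∑ i, (d i + k i - k' i) * (d i + k i - k' i) := by
      refine Finset.sum_congr rfl fun i _ => ?_
      have h4 : d i + k i - k' i = (y - fun i => (k' i : ℝ)) i := by
        show y i - k i + k i - k' i = y i - k' i
        ring
      rw [h4]
    rw [h3]
    linarith

/-- `D4` satisfies the covering condition. -/
theorem D4_good : Good D4 2 where
  fin := D4_fin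
  pos := two_pos
  cov := D4_cov

/-- The minimal norm of `D4`. -/
theorem D4_min : ∀ l ∈ D4, l ≠ 0 → 2 ≤ l ⬝ᵥ l := by
  intro l hl h0
  obtain ⟨k, hk, hkl⟩ := mem_D4.1 hl
  obtain rfl : l = fun i => (k i : ℝ) := funext hkl
  have h1 : (fun i => (k i : ℝ)) ⬝ᵥ (fun i => (k i : ℝ)) = ((∑ i, k i * k i : ℤ) : ℝ) := by
    push_cast
    rfl
  rw [h1]
  have h2 : Even (∑ i, k i * k i) := by
    have h3 : Even (∑ i, k i * k i + ∑ i, k i) := by
      rw [← Finset.sum_add_distrib]
      refine Finset.even_sum _ fun i _ => ?_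
      have := Int.even_mul_succ_self (k i)
      rwa [mul_add, mul_one] at this
    exact (Int.even_add.1 h3).2 hk
  have h4 : 0 < ∑ i, k i * k i := by
    obtain ⟨i, hi⟩ : ∃ i, k i ≠ 0 := by
      by_contra hcon
      push Not at hcon
      exact h0 (by ext i; simp [hcon i])
    exact Finset.sum_pos' (fun j _ => mul_self_nonneg _) ⟨i, Finset.mem_univ i, mul_self_pos.2 hi⟩
  have h5 : 2 ≤ ∑ i, k i * k i := by
    obtain ⟨c, hc⟩ := h2
    omega
  exact_mod_cast h5

end Pool.Agent.H99G
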