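import Pool.Agent.H99G.Defs

set_option autoImplicit false

/-!
# Reflections and invariant spaces of symmetric matrices
-/

namespace Pool.Agent.H99G

open Matrix

variable {m : ℕ}

namespace Refl

/-- The reflection in the hyperplane orthogonal to `v`. -/
noncomputable def rf (v : Fin (m + 1) → ℝ) : Matrix (Fin (m + 1)) (Fin (m + 1)) ℝ :=
  1 - (2 / (v ⬝ᵥ v)) • vecMulVec v v

theorem rf_transpose (v : Fin (m + 1) → ℝ) : (rf v)ᵀ = rf v := by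
  simp [rf, transpose_vecMulVec]

theorem rf_mulVec (v x : Fin (m + 1) → ℝ) : rf v *ᵥ x = x - (2 / (v ⬝ᵥ v) * (v ⬝ᵥ x)) • v := by
  rw [rf, sub_mulVec, one_mulVec, smul_mulVec, vecMulVec_mulVec]
  ext i
  simp
  ring

theorem dot_pos {v : Fin (m + 1) → ℝ} (hv : v ≠ 0) : v ⬝ᵥ v ≠ 0 := by
  intro h
  exact hv (dotProduct_self_eq_zero.1 h)

theorem rf_sq {v : Fin (m + 1) → ℝ} (hv : v ≠ 0) : rf v * rf v = 1 := by
  have h0 := dot_pos hv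
  rw [rf, sub_mul, one_mul, mul_sub, mul_one, smul_mul_assoc, Matrix.mul_smul,
    vecMulVec_mul_vecMulVec]
  ext i j
  simp [vecMulVec_apply]
  field_simp
  ring

theorem rf_conj {B : Matrix (Fin (m + 1)) (Fin (m + 1)) ℝ} (hB : Bᵀ = B) (v : Fin (m + 1) → ℝ) :
    rf v * B * (rf v)ᵀ = B - (2 / (v ⬝ᵥ v)) • (vecMulVec v (B *ᵥ v) + vecMulVec (B *ᵥ v) v)
      + ((2 / (v ⬝ᵥ v)) ^ 2 * (v ⬝ᵥ B *ᵥ v)) • vecMulVec v v := by
  have h2 : v ᵥ* B = B *ᵥ v := by rw [← mulVec_transpose, hB]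
  rw [rf_transpose, rf, sub_mul, one_mul, mul_sub, mul_one, smul_mul_assoc, vecMulVec_mul, h2,
    Matrix.mul_smul, sub_mul, mul_vecMulVec, smul_mul_assoc, vecMulVec_mul_vecMulVec,
    dotProduct_comm v (B *ᵥ v)]
  ext i j
  simp [vecMulVec_apply]
  ring

/-- The reflection in `v` is an automorphism of `L` when it maps `L` into `L`. -/
theorem isAut_rf {L : AddSubgroup (Fin (m + 1) → ℝ)} {v : Fin (m + 1) → ℝ} (hv : v ≠ 0)
    (h : ∀ x ∈ L, x - (2 / (v ⬝ᵥ v) * (v ⬝ᵥ x)) • v ∈ L) : IsAut L (rf v) := by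
  refine ⟨by rw [rf_transpose, rf_sq hv], by rw [rf_transpose, rf_sq hv], fun x => ⟨fun hx => ?_,
    fun hx => by rw [rf_mulVec]; exact h x hx⟩⟩
  have := h _ hx
  rw [← rf_mulVec, mulVec_mulVec, rf_sq hv, one_mulVec] at this
  exact this

/-- The key lemma. -/
theorem key {L : AddSubgroup (Fin (m + 1) → ℝ)}
    {U : Submodule ℝ (Matrix (Fin (m + 1)) (Fin (m + 1)) ℝ)}
    (hU : ∀ B ∈ U, Bᵀ = B ∧ B.trace = 0) (hg : ∀ g, IsAut L g → ∀ B ∈ U, g * B * gᵀ ∈ U)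
    {v w : Fin (m + 1) → ℝ} (hv : IsAut L (rf v)) (hw : IsAut L (rf w)) (hv0 : v ≠ 0) (hw0 : w ≠ 0)
    (hvw : v ⬝ᵥ w = 0) {B : Matrix (Fin (m + 1)) (Fin (m + 1)) ℝ} (hB : B ∈ U)
    (h : v ⬝ᵥ B *ᵥ w ≠ 0) : vecMulVec v w + vecMulVec w v ∈ U := by
  have hBt := (hU B hB).1
  have hsym : v ⬝ᵥ B *ᵥ w = (B *ᵥ v) ⬝ᵥ w := by
    rw [dotProduct_mulVec, ← mulVec_transpose, hBt]
  set a : ℝ := 2 / (v ⬝ᵥ v) with ha
  set b : ℝ := 2 / (w ⬝ᵥ w) with hb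
  have ha0 : a ≠ 0 := div_ne_zero two_ne_zero (dot_pos hv0)
  have hb0 : b ≠ 0 := div_ne_zero two_ne_zero (dot_pos hw0)
  set C : Matrix (Fin (m + 1)) (Fin (m + 1)) ℝ := a • (vecMulVec v (B *ᵥ v) + vecMulVec (B *ᵥ v) v)
      - (a ^ 2 * (v ⬝ᵥ B *ᵥ v)) • vecMulVec v v with hCdef
  have hC : C ∈ U := by
    have h1 := U.sub_mem hB (hg _ hv B hB)
    rw [rf_conj hBt v, ← ha] at h1
    convert h1 using 1
    rw [hCdef]
    abel
  have hCw : C *ᵥ w = (a * (v ⬝ᵥ B *ᵥ w)) • v := by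
    rw [hCdef, sub_mulVec, smul_mulVec, smul_mulVec, add_mulVec, vecMulVec_mulVec,
      vecMulVec_mulVec, vecMulVec_mulVec, hvw, ← hsym]
    ext i
    simp
    ring
  have hD : C - rf w * C * (rf w)ᵀ ∈ U := U.sub_mem hC (hg _ hw C hC)
  rw [rf_conj (hU C hC).1 w, ← hb, hCw] at hD
  have hwv : w ⬝ᵥ v = 0 := by rw [dotProduct_comm]; exact hvw
  have hD2 : C - (C - b • (vecMulVec w ((a * (v ⬝ᵥ B *ᵥ w)) • v) +
      vecMulVec ((a * (v ⬝ᵥ B *ᵥ w)) • v) w) +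
      (b ^ 2 * (w ⬝ᵥ (a * (v ⬝ᵥ B *ᵥ w)) • v)) • vecMulVec w w)
      = (b * (a * (v ⬝ᵥ B *ᵥ w))) • (vecMulVec v w + vecMulVec w v) := by
    rw [dotProduct_smul, hwv]
    ext i j
    simp [vecMulVec_apply]
    ring
  rw [hD2] at hD
  exact (U.smul_mem_iff (mul_ne_zero hb0 (mul_ne_zero ha0 h))).1 hD

end Refl

end Pool.Agent.H99G
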