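import Pool.Agent.H99G.D4def
import Pool.Agent.H99G.Refl

set_option autoImplicit false

/-!
# `D4` is irreducible
-/

namespace Pool.Agent.H99G

open Matrix

namespace D4i

open Refl

/-- reflections in integer vectors -/
theorem aut_of (r : Fin (3 + 1) → ℤ) (hr : r ≠ 0) (c : (Fin (3 + 1) → ℤ) → ℤ)
    (hc : ∀ k : Fin (3 + 1) → ℤ, Even (∑ i, k i) → c k * (∑ i, r i * r i) = 2 * ∑ i, r i * k i)
    (hc' : ∀ k : Fin (3 + 1) → ℤ, Even (∑ i, k i) → Even (∑ i, (k i - c k * r i))) :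
    IsAut D4 (rf (fun i => (r i : ℝ))) := by
  have hv : (fun i => (r i : ℝ)) ≠ (0 : Fin (3 + 1) → ℝ) := by
    intro h
    apply hr
    ext i
    have h1 : (r i : ℝ) = 0 := congrFun h i
    simpa using h1
  have h0 := dot_pos hv
  refine isAut_rf hv fun x hx => ?_
  obtain ⟨k, hk, hk'⟩ := mem_D4.1 hx
  refine mem_D4.2 ⟨fun i => k i - c k * r i, hc' k hk, fun i => ?_⟩
  have h1 : (c k : ℝ) * ((fun i => (r i : ℝ)) ⬝ᵥ (fun i => (r i : ℝ))) =
      2 * ((fun i => (r i : ℝ)) ⬝ᵥ x) := by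
    have := hc k hk
    have h2 : ((c k * (∑ i, r i * r i) : ℤ) : ℝ) = ((2 * ∑ i, r i * k i : ℤ) : ℝ) := by rw [this]
    push_cast at h2
    simpa [dotProduct, hk'] using h2
  have h2 : 2 / ((fun i => (r i : ℝ)) ⬝ᵥ (fun i => (r i : ℝ))) * ((fun i => (r i : ℝ)) ⬝ᵥ x) =
      (c k : ℝ) := by
    field_simp
    linarith
  rw [h2]
  simp [hk']

theorem ne_zero_of {r : Fin (3 + 1) → ℤ} (i : Fin (3 + 1)) (h : r i ≠ 0) : r ≠ 0 :=
  fun h' => h (congrFun h' i)

/-- `e_i` -/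
theorem aut_single (i : Fin (3 + 1)) :
    IsAut D4 (rf (fun p => ((Pi.single i 1 : Fin (3 + 1) → ℤ) p : ℝ))) := by
  refine aut_of _ (ne_zero_of i (by simp)) (fun k => 2 * k i) (fun k hk => ?_) (fun k hk => ?_)
  · simp [Pi.single_apply]
  · rw [Finset.sum_sub_distrib, ← Finset.mul_sum]
    simp [Pi.single_apply]
    rw [Int.even_sub]
    simp [hk]

/-- `e_i + s e_j` -/
theorem aut_pair (i j : Fin (3 + 1)) (hij : i ≠ j) (s : ℤ) (hs : s = 1 ∨ s = -1) :
    IsAut D4 (rf (fun p => ((Pi.single i 1 + s • Pi.single j 1 : Fin (3 + 1) → ℤ) p : ℝ))) := by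
  have hji : j ≠ i := hij.symm
  refine aut_of _ (ne_zero_of i (by simp [hij])) (fun k => k i + s * k j)
    (fun k hk => ?_) (fun k hk => ?_)
  · have h1 : ∑ p, (Pi.single i 1 + s • Pi.single j 1 : Fin (3 + 1) → ℤ) p *
        (Pi.single i 1 + s • Pi.single j 1 : Fin (3 + 1) → ℤ) p = 2 := by
      simp only [Pi.add_apply, Pi.smul_apply, smul_eq_mul, Pi.single_apply, add_mul, mul_add,
        Finset.sum_add_distrib]
      simp [hij, hji]
      rcases hs with rfl | rfl <;> norm_num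
    have h2 : ∑ p, (Pi.single i 1 + s • Pi.single j 1 : Fin (3 + 1) → ℤ) p * k p =
        k i + s * k j := by
      simp only [Pi.add_apply, Pi.smul_apply, smul_eq_mul, Pi.single_apply, add_mul,
        Finset.sum_add_distrib]
      simp
    rw [h1, h2]
    ring
  · rw [Finset.sum_sub_distrib, ← Finset.mul_sum]
    have h3 : ∑ p, (Pi.single i 1 + s • Pi.single j 1 : Fin (3 + 1) → ℤ) p = 1 + s := by
      simp only [Pi.add_apply, Pi.smul_apply, smul_eq_mul, Pi.single_apply,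
        Finset.sum_add_distrib]
      simp
    rw [h3, Int.even_sub]
    have h4 : Even (1 + s) := by rcases hs with rfl | rfl <;> decide
    simp [hk, h4]

/-- `(±1, ±1, ±1, ±1)` -/
theorem aut_four (s : Fin (3 + 1) → ℤ) (hs : ∀ i, s i = 1 ∨ s i = -1) :
    IsAut D4 (rf (fun p => (s p : ℝ))) := by
  have hsq : ∑ i, s i * s i = 4 := by
    have : ∀ i, s i * s i = 1 := fun i => by rcases hs i with h | h <;> simp [h]
    simp [this]
  have hev : ∀ k : Fin (3 + 1) → ℤ, Even (∑ i, k i) → Even (∑ i, s i * k i) := by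
    intro k hk
    have h1 : Even (∑ i, (s i * k i - k i)) := by
      refine Finset.even_sum _ fun i _ => ?_
      rcases hs i with h | h
      · simp [h]
      · rw [h]; exact ⟨-k i, by ring⟩
    have h2 : ∑ i, s i * k i = ∑ i, (s i * k i - k i) + ∑ i, k i := by
      rw [Finset.sum_sub_distrib]; ring
    rw [h2]
    exact h1.add hk
  refine aut_of _ (ne_zero_of 0 ?_) (fun k => (∑ i, s i * k i) / 2) (fun k hk => ?_)
    (fun k hk => ?_)
  · rcases hs 0 with h | h <;> simp [h]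
  · obtain ⟨t, ht⟩ := hev k hk
    rw [hsq, ht]
    have : (t + t) / 2 = t := by omega
    rw [this]; ring
  · rw [Finset.sum_sub_distrib, ← Finset.mul_sum, Int.even_sub]
    have h4 : Even (∑ i, s i) := by
      have h1 : Even (∑ i, (s i - 1)) := by
        refine Finset.even_sum _ fun i _ => ?_
        rcases hs i with h | h
        · simp [h]
        · rw [h]; decide
      have h2 : ∑ i, s i = ∑ i, (s i - 1) + 4 := by
        rw [Finset.sum_sub_distrib]; simp
      rw [h2]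
      exact h1.add (by decide)
    simp [hk, h4]

variable {U : Submodule ℝ (Matrix (Fin (3 + 1)) (Fin (3 + 1)) ℝ)}

/-- `e_i` in real coordinates -/
def e (i : Fin (3 + 1)) : Fin (3 + 1) → ℝ := Pi.single i 1

theorem aut_e (i : Fin (3 + 1)) : IsAut D4 (rf (e i)) := by
  have h := aut_single i
  have h1 : (fun p => ((Pi.single i 1 : Fin (3 + 1) → ℤ) p : ℝ)) = e i := by
    ext p
    by_cases h : p = i
    · subst h; simp [e]
    · simp [e, h]
  rwa [h1] at h

theorem aut_ee (i j : Fin (3 + 1)) (hij : i ≠ j) : IsAut D4 (rf (e i + e j)) := by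
  have h := aut_pair i j hij 1 (Or.inl rfl)
  have h1 : (fun p => ((Pi.single i 1 + (1 : ℤ) • Pi.single j 1 : Fin (3 + 1) → ℤ) p : ℝ)) =
      e i + e j := by
    ext p
    simp [e, Pi.single_apply]
  rwa [h1] at h

theorem aut_es (i j : Fin (3 + 1)) (hij : i ≠ j) : IsAut D4 (rf (e i - e j)) := by
  have h := aut_pair i j hij (-1) (Or.inr rfl)
  have h1 : (fun p => ((Pi.single i 1 + (-1 : ℤ) • Pi.single j 1 : Fin (3 + 1) → ℤ) p : ℝ)) =
      e i - e j := by
    ext p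
    simp [e, Pi.single_apply]
    split_ifs <;> simp
  rwa [h1] at h

theorem e_ne (i : Fin (3 + 1)) : e i ≠ 0 := fun h => by
  have := congrFun h i
  simp [e] at this

theorem ee_ne (i j : Fin (3 + 1)) (hij : i ≠ j) : e i + e j ≠ 0 := fun h => by
  have := congrFun h i
  simp [e, hij] at this

theorem es_ne (i j : Fin (3 + 1)) (hij : i ≠ j) : e i - e j ≠ 0 := fun h => by
  have := congrFun h i
  simp [e, hij] at this

theorem dot_e (v : Fin (3 + 1) → ℝ) (i : Fin (3 + 1)) : v ⬝ᵥ e i = v i := by simp [e]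

theorem e_dot (v : Fin (3 + 1) → ℝ) (i : Fin (3 + 1)) : e i ⬝ᵥ v = v i := by simp [e]

/-- off-diagonal unit -/
def O (i j : Fin (3 + 1)) : Matrix (Fin (3 + 1)) (Fin (3 + 1)) ℝ :=
  vecMulVec (e i) (e j) + vecMulVec (e j) (e i)

/-- diagonal unit -/
def Dg (i j : Fin (3 + 1)) : Matrix (Fin (3 + 1)) (Fin (3 + 1)) ℝ :=
  vecMulVec (e i) (e i) - vecMulVec (e j) (e j)

theorem O_comm (i j : Fin (3 + 1)) : O i j = O j i := add_comm (vecMulVec _ _) (vecMulVec _ _)

theorem quad_e (B : Matrix (Fin (3 + 1)) (Fin (3 + 1)) ℝ) (i j : Fin (3 + 1)) :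
    e i ⬝ᵥ B *ᵥ e j = B i j := by simp [e]

section
variable (hU : ∀ B ∈ U, Bᵀ = B ∧ B.trace = 0) (hg : ∀ g, IsAut D4 g → ∀ B ∈ U, g * B * gᵀ ∈ U)
include hU hg

theorem stepA {B : Matrix (Fin (3 + 1)) (Fin (3 + 1)) ℝ} (hB : B ∈ U) {i j : Fin (3 + 1)}
    (hij : i ≠ j) (h : B i j ≠ 0) : O i j ∈ U :=
  key hU hg (aut_e i) (aut_e j) (e_ne i) (e_ne j) (by rw [dot_e]; simp [e, hij.symm]) hB
    (by rw [quad_e]; exact h)

theorem stepB {B : Matrix (Fin (3 + 1)) (Fin (3 + 1)) ℝ} (hB : B ∈ U) {i j : Fin (3 + 1)}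
    (hij : i ≠ j) (h : B i i ≠ B j j) : Dg i j ∈ U := by
  have hBt : B j i = B i j := by
    have := congrFun (congrFun (hU B hB).1 i) j
    simpa using this
  have h1 := key hU hg (aut_ee i j hij) (aut_es i j hij) (ee_ne i j hij) (es_ne i j hij)
    (by rw [dotProduct_sub, dot_e, dot_e]; simp [e, hij, hij.symm]) hB
    (by
      rw [mulVec_sub, add_dotProduct, dotProduct_sub, dotProduct_sub, quad_e, quad_e, quad_e,
        quad_e, hBt]
      intro h'
      apply h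
      linarith)
  have h2 : vecMulVec (e i + e j) (e i - e j) + vecMulVec (e i - e j) (e i + e j) =
      (2 : ℝ) • Dg i j := by
    ext p q
    simp [Dg, vecMulVec_apply]
    ring
  rw [h2] at h1
  exact (U.smul_mem_iff two_ne_zero).1 h1

theorem stepC {B : Matrix (Fin (3 + 1)) (Fin (3 + 1)) ℝ} (hB : B ∈ U) (s : Fin (3 + 1) → ℤ)
    (hs : ∀ i, s i = 1 ∨ s i = -1) (hsum : ∑ i, s i = 0)
    (h : (fun _ => (1 : ℝ)) ⬝ᵥ B *ᵥ (fun p => (s p : ℝ)) ≠ 0) :
    vecMulVec (fun _ => (1 : ℝ)) (fun p => (s p : ℝ)) +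
      vecMulVec (fun p => (s p : ℝ)) (fun _ => (1 : ℝ)) ∈ U := by
  have ha : IsAut D4 (rf (fun _ => (1 : ℝ))) := by
    have := aut_four (fun _ => 1) (fun _ => Or.inl rfl)
    simpa using this
  refine key hU hg ha (aut_four s hs) ?_ ?_ ?_ hB h
  · intro h'
    have := congrFun h' 0
    simp at this
  · intro h'
    have := congrFun h' 0
    rcases hs 0 with h1 | h1 <;> simp [h1] at this
  · have : ((∑ i, s i : ℤ) : ℝ) = 0 := by rw [hsum]; simp
    push_cast at this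
    simpa [dotProduct] using this

theorem OtoO {i j k : Fin (3 + 1)} (hij : i ≠ j) (hki : k ≠ i) (hkj : k ≠ j) (h : O i j ∈ U) :
    O i k ∈ U := by
  have h1 := key hU hg (aut_e i) (aut_ee j k hkj.symm) (e_ne i) (ee_ne j k hkj.symm)
    (by rw [dotProduct_add, dot_e, dot_e]; simp [e, hij.symm, hki]) h
    (by
      rw [mulVec_add, dotProduct_add, quad_e, quad_e]
      simp [O, vecMulVec_apply, e, hij, hij.symm, hki, hkj])
  refine stepA hU hg h1 hki.symm ?_
  simp [vecMulVec_apply, e, hij.symm, hki, hki.symm, hkj, hij]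

theorem allO {i j : Fin (3 + 1)} (hij : i ≠ j) (h : O i j ∈ U) {p q : Fin (3 + 1)} (hpq : p ≠ q) :
    O p q ∈ U := by
  have h1 : ∀ k, k ≠ i → O i k ∈ U := fun k hk => by
    by_cases hkj : k = j
    · rw [hkj]; exact h
    · exact OtoO hU hg hij hk hkj h
  by_cases hp : p = i
  · subst hp; exact h1 q hpq.symm
  · have h2 : O p i ∈ U := by rw [O_comm]; exact h1 p hp
    by_cases hq : q = i
    · rw [hq]; exact h2
    · exact OtoO hU hg hp hpq.symm hq h2

end

/-- three sign vectors -/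
def sg : Fin 3 → Fin (3 + 1) → ℤ := ![![1, 1, -1, -1], ![1, -1, 1, -1], ![1, -1, -1, 1]]

theorem sg_one : ∀ t i, sg t i = 1 ∨ sg t i = -1 := by decide

theorem sg_sum : ∀ t, ∑ i, sg t i = 0 := by decide

theorem sg_sep : ∀ i j : Fin (3 + 1), i ≠ j → ∃ t, sg t i = 1 ∧ sg t j = -1 ∨
    sg t i = -1 ∧ sg t j = 1 := by decide

theorem sg_eq : ∀ t, ∃ p q : Fin (3 + 1), p ≠ q ∧ sg t p = 1 ∧ sg t q = 1 := by decide

theorem one_quad (v w : Fin (3 + 1) → ℝ) (s : Fin (3 + 1) → ℝ) :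
    (fun _ => (1 : ℝ)) ⬝ᵥ vecMulVec v w *ᵥ s = (∑ i, v i) * (w ⬝ᵥ s) := by
  rw [vecMulVec_mulVec]
  simp [dotProduct, Finset.sum_mul]

theorem sum_e (i : Fin (3 + 1)) : ∑ p, e i p = 1 := by simp [e]

section
variable (hU : ∀ B ∈ U, Bᵀ = B ∧ B.trace = 0) (hg : ∀ g, IsAut D4 g → ∀ B ∈ U, g * B * gᵀ ∈ U)
include hU hg

theorem DtoO {i j : Fin (3 + 1)} (hij : i ≠ j) (h : Dg i j ∈ U) :
    ∃ p q : Fin (3 + 1), p ≠ q ∧ O p q ∈ U := by
  obtain ⟨t, ht⟩ := sg_sep i j hij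
  obtain ⟨p, q, hpq, hp, hq⟩ := sg_eq t
  refine ⟨p, q, hpq, ?_⟩
  have h1 := stepC hU hg h (sg t) (sg_one t) (sg_sum t) (by
    rw [Dg, sub_mulVec, dotProduct_sub, one_quad, one_quad, sum_e, sum_e, e_dot, e_dot]
    rcases ht with ⟨h1, h2⟩ | ⟨h1, h2⟩ <;> rw [h1, h2] <;> norm_num)
  refine stepA hU hg h1 hpq ?_
  simp [vecMulVec_apply, hp, hq]

theorem OtoD (hO : ∀ p q : Fin (3 + 1), p ≠ q → O p q ∈ U) {i j : Fin (3 + 1)} (hij : i ≠ j) :
    Dg i j ∈ U := by
  obtain ⟨t, ht⟩ := sg_sep i j hij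
  obtain ⟨p, q, hpq, hp, hq⟩ := sg_eq t
  have h1 := stepC hU hg (hO p q hpq) (sg t) (sg_one t) (sg_sum t) (by
    rw [O, add_mulVec, dotProduct_add, one_quad, one_quad, sum_e, sum_e, e_dot, e_dot, hp, hq]
    norm_num)
  refine stepB hU hg h1 hij ?_
  rcases ht with ⟨h1, h2⟩ | ⟨h1, h2⟩ <;> simp [vecMulVec_apply, h1, h2] <;> norm_num

end

end D4i

open D4i in
/-- `D4` is irreducible. -/
theorem D4_irr : Irr D4 := by
  intro U hU hg
  by_cases hbot : U = ⊥
  · exact Or.inl hbot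
  right
  obtain ⟨B, hB, hB0⟩ := U.ne_bot_iff.1 hbot
  have h1 : ∃ p q : Fin (3 + 1), p ≠ q ∧ O p q ∈ U := by
    by_cases hoff : ∃ i j, i ≠ j ∧ B i j ≠ 0
    · obtain ⟨i, j, hij, h⟩ := hoff
      exact ⟨i, j, hij, stepA hU hg hB hij h⟩
    · push Not at hoff
      have h2 : ∃ i j, i ≠ j ∧ B i i ≠ B j j := by
        by_contra hcon
        push Not at hcon
        apply hB0
        have htr := (hU B hB).2
        have h3 : ∀ i, B i i = B 0 0 := fun i => by
          by_cases h : i = 0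
          · rw [h]
          · exact hcon i 0 h
        have h4 : B 0 0 = 0 := by
          simp only [Matrix.trace, Matrix.diag] at htr
          rw [Finset.sum_congr rfl (fun i _ => h3 i)] at htr
          simpa using htr
        ext i j
        by_cases hij : i = j
        · subst hij; rw [h3, h4]; rfl
        · exact hoff i j hij
      obtain ⟨i, j, hij, h⟩ := h2
      exact DtoO hU hg hij (stepB hU hg hB hij h)
  obtain ⟨p, q, hpq, h⟩ := h1
  have hO : ∀ p q : Fin (3 + 1), p ≠ q → O p q ∈ U := fun a b hab => allO hU hg hpq h hab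
  have hD : ∀ i j : Fin (3 + 1), i ≠ j → Dg i j ∈ U := fun i j hij => OtoD hU hg hO hij
  intro C hC hCt
  have hs : ∀ i j, C i j = C j i := fun i j => by
    have := congrFun (congrFun hC j) i
    simpa using this
  have ht : C 0 0 = -(C 1 1 + C 2 2 + C 3 3) := by
    have h6 : C.trace = C 0 0 + C 1 1 + C 2 2 + C 3 3 :=
      Fin.sum_univ_four (fun i : Fin (3 + 1) => C i i)
    rw [h6] at hCt
    linarith
  have h5 : C = C 0 1 • O 0 1 + C 0 2 • O 0 2 + C 0 3 • O 0 3 + C 1 2 • O 1 2 + C 1 3 • O 1 3 +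
      C 2 3 • O 2 3 + C 1 1 • Dg 1 0 + C 2 2 • Dg 2 0 + C 3 3 • Dg 3 0 := by
    ext i j
    fin_cases i <;> fin_cases j <;> simp [O, Dg, e, vecMulVec_apply, ht, hs 1 0, hs 2 0, hs 3 0,
      hs 2 1, hs 3 1, hs 3 2] <;> ring
  rw [h5]
  have a1 := fun (p q : Fin (3 + 1)) (hpq : p ≠ q) => U.smul_mem (C p q) (hO p q hpq)
  have a2 := fun (p q : Fin (3 + 1)) (hpq : p ≠ q) => U.smul_mem (C p p) (hD p q hpq)
  exact U.add_mem (U.add_mem (U.add_mem (U.add_mem (U.add_mem (U.add_mem (U.add_mem (U.add_mem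
    (a1 0 1 (by decide)) (a1 0 2 (by decide))) (a1 0 3 (by decide))) (a1 1 2 (by decide)))
    (a1 1 3 (by decide))) (a1 2 3 (by decide))) (a2 1 0 (by decide))) (a2 2 0 (by decide)))
    (a2 3 0 (by decide))

end Pool.Agent.H99G
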