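import Mathlib

set_option autoImplicit false

/-!
# A criterion for strict local minima of the second moment: definitions

Dimension `m + 1`. A lattice is an additive subgroup `L` of `Fin (m + 1) → ℝ`.
-/

namespace Pool.Agent.H99G

open MeasureTheory Matrix

variable {m : ℕ}

/-- `L` is discrete and the squared covering radius is at most `μ / 2`. -/
structure Good (L : AddSubgroup (Fin (m + 1) → ℝ)) (μ : ℝ) : Prop where
  fin : ∀ r : ℝ, {l : Fin (m + 1) → ℝ | l ∈ L ∧ l ⬝ᵥ l ≤ r}.Finite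
  pos : 0 < μ
  cov : ∀ y : Fin (m + 1) → ℝ, ∃ l ∈ L, 2 * ((y - l) ⬝ᵥ (y - l)) ≤ μ

/-- `g` is an orthogonal matrix which keeps `L`. -/
def IsAut (L : AddSubgroup (Fin (m + 1) → ℝ)) (g : Matrix (Fin (m + 1)) (Fin (m + 1)) ℝ) : Prop :=
  gᵀ * g = 1 ∧ g * gᵀ = 1 ∧ ∀ x, g *ᵥ x ∈ L ↔ x ∈ L

/-- The automorphism group acts irreducibly on the symmetric matrices with trace zero. -/
def Irr (L : AddSubgroup (Fin (m + 1) → ℝ)) : Prop :=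
  ∀ U : Submodule ℝ (Matrix (Fin (m + 1)) (Fin (m + 1)) ℝ),
    (∀ B ∈ U, Bᵀ = B ∧ B.trace = 0) → (∀ g, IsAut L g → ∀ B ∈ U, g * B * gᵀ ∈ U) →
    U = ⊥ ∨ ∀ B : Matrix (Fin (m + 1)) (Fin (m + 1)) ℝ, Bᵀ = B → B.trace = 0 → B ∈ U

/-- The Voronoi cell. -/
def PP (L : AddSubgroup (Fin (m + 1) → ℝ)) : Set (Fin (m + 1) → ℝ) :=
  {y | ∀ l ∈ L, 2 * (y ⬝ᵥ l) ≤ l ⬝ᵥ l}

/-- The length. -/
noncomputable def len (l : Fin (m + 1) → ℝ) : ℝ := Real.sqrt (l ⬝ᵥ l)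

/-- A frame: an orthogonal matrix `g` whose first column has the direction of `l`. -/
def IsFrame (l : Fin (m + 1) → ℝ) (g : Matrix (Fin (m + 1)) (Fin (m + 1)) ℝ) : Prop :=
  gᵀ * g = 1 ∧ g * gᵀ = 1 ∧ g *ᵥ (Fin.cons (len l) 0 : Fin (m + 1) → ℝ) = l

open Classical in
/-- The chosen frame of `l`. -/
noncomputable def fr (l : Fin (m + 1) → ℝ) : Matrix (Fin (m + 1)) (Fin (m + 1)) ℝ :=
  if h : ∃ g, IsFrame l g then h.choose else 1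

/-- The point with the coordinate `t` in the direction of `l` and the coordinates `z` in the
orthogonal space. -/
noncomputable def pt (l : Fin (m + 1) → ℝ) (t : ℝ) (z : Fin m → ℝ) : Fin (m + 1) → ℝ :=
  fr l *ᵥ (Fin.cons t z : Fin (m + 1) → ℝ)

/-- The facet of `l`. -/
def Fc (L : AddSubgroup (Fin (m + 1) → ℝ)) (l : Fin (m + 1) → ℝ) : Set (Fin m → ℝ) :=
  {z | pt l (len l / 2) z ∈ PP L}

/-- The volume of the facet. -/
noncomputable def aF (L : AddSubgroup (Fin (m + 1) → ℝ)) (l : Fin (m + 1) → ℝ) : ℝ :=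
  (volume (Fc L l)).toReal

/-- The second moment of the facet. -/
noncomputable def jF (L : AddSubgroup (Fin (m + 1) → ℝ)) (l : Fin (m + 1) → ℝ) : ℝ :=
  ∫ z in Fc L l, z ⬝ᵥ z

/-- The second moment of the facet in the direction `v`. -/
noncomputable def qF (L : AddSubgroup (Fin (m + 1) → ℝ)) (l v : Fin (m + 1) → ℝ) : ℝ :=
  ∫ z in Fc L l, (pt l 0 z ⬝ᵥ v) ^ 2

/-- The cone over the facet of `l`. -/
def Cn (L : AddSubgroup (Fin (m + 1) → ℝ)) (l : Fin (m + 1) → ℝ) : Set (Fin (m + 1) → ℝ) :=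
  {y | y ∈ PP L ∧ 0 < y ⬝ᵥ l ∧
    ∀ l' ∈ L, l' ≠ 0 → (y ⬝ᵥ l') * (l ⬝ᵥ l) ≤ (y ⬝ᵥ l) * (l' ⬝ᵥ l')}

/-- The second moment of the cell. -/
noncomputable def GG (L : AddSubgroup (Fin (m + 1) → ℝ)) : ℝ := ∫ y in PP L, y ⬝ᵥ y

/-- The squared Frobenius norm. -/
def fro (B : Matrix (Fin (m + 1)) (Fin (m + 1)) ℝ) : ℝ := ∑ i, ∑ j, B i j ^ 2

/-- `S[y] - S[y - w]` for `S = 1 + B`, `B` symmetric. -/
def DD (B : Matrix (Fin (m + 1)) (Fin (m + 1)) ℝ) (w y : Fin (m + 1) → ℝ) : ℝ :=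
  2 * (y ⬝ᵥ w) - w ⬝ᵥ w + 2 * (y ⬝ᵥ B *ᵥ w) - w ⬝ᵥ B *ᵥ w

open Classical in
/-- The lattice vectors with `0 < l ⬝ᵥ l ≤ 3 * μ`. -/
noncomputable def Lam (L : AddSubgroup (Fin (m + 1) → ℝ)) (μ : ℝ) : Finset (Fin (m + 1) → ℝ) :=
  if h : {l : Fin (m + 1) → ℝ | l ∈ L ∧ l ⬝ᵥ l ≤ 3 * μ}.Finite then h.toFinset.erase 0 else ∅

/-- The second order loss. -/
noncomputable def QQ (L : AddSubgroup (Fin (m + 1) → ℝ)) (μ : ℝ)
    (B : Matrix (Fin (m + 1)) (Fin (m + 1)) ℝ) : ℝ :=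
  ∑ l ∈ Lam L μ, 1 / (2 * len l) * qF L l (B *ᵥ l)

/-- The squared distance to the lattice, with respect to `S`. -/
noncomputable def dS (L : AddSubgroup (Fin (m + 1) → ℝ)) (S : Matrix (Fin (m + 1)) (Fin (m + 1)) ℝ)
    (y : Fin (m + 1) → ℝ) : ℝ :=
  ⨅ l : L, (y - (l : Fin (m + 1) → ℝ)) ⬝ᵥ S *ᵥ (y - (l : Fin (m + 1) → ℝ))

end Pool.Agent.H99G
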