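import Pool.Agent.H99G.E6def

set_option autoImplicit false

/-!
# The dual of `E6`: minimal norm `4 / 3`, squared covering radius `2 / 3`
-/

namespace Pool.Agent.H99G

open Matrix

private theorem w6_cast (i : Fin 5) : w6 i.castSucc = 1 / 2 := by
  fin_cases i <;> rfl

private theorem w6_last : w6 (Fin.last 5) = √3 / 6 := rfl

private theorem dot_hv6 (y : Fin (5 + 1) → ℝ) (k : Fin (5 + 1) → ℤ) :
    y ⬝ᵥ hv6 k = (∑ i : Fin 5, y i.castSucc * (k i.castSucc : ℝ) +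
      y (Fin.last 5) * (√3 / 3) * (k (Fin.last 5) : ℝ)) / 2 := by
  rw [dotProduct, Fin.sum_univ_castSucc]
  have h1 : ∀ i : Fin 5, y i.castSucc * hv6 k i.castSucc =
      y i.castSucc * (k i.castSucc : ℝ) / 2 := by
    intro i
    rw [hv6, w6_cast]
    ring
  have h2 : y (Fin.last 5) * hv6 k (Fin.last 5) =
      y (Fin.last 5) * (√3 / 3) * (k (Fin.last 5) : ℝ) / 2 := by
    rw [hv6, w6_last]
    ring
  rw [Finset.sum_congr rfl fun i _ => h1 i, h2, ← Finset.sum_div]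
  ring

private theorem nrm_hv6 (k : Fin (5 + 1) → ℤ) :
    hv6 k ⬝ᵥ hv6 k = (∑ i : Fin 5, (k i.castSucc : ℝ) ^ 2 + (k (Fin.last 5) : ℝ) ^ 2 / 3) / 4 := by
  rw [dotProduct, Fin.sum_univ_castSucc]
  have h1 : ∀ i : Fin 5, hv6 k i.castSucc * hv6 k i.castSucc = (k i.castSucc : ℝ) ^ 2 / 4 := by
    intro i
    rw [hv6, w6_cast]
    ring
  have h2 : hv6 k (Fin.last 5) * hv6 k (Fin.last 5) = (k (Fin.last 5) : ℝ) ^ 2 / 3 / 4 := by
    have h3 : (√3 : ℝ) ^ 2 = 3 := Real.sq_sqrt (by norm_num)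
    rw [hv6, w6_last]
    calc √3 / 6 * (k (Fin.last 5) : ℝ) * (√3 / 6 * (k (Fin.last 5) : ℝ))
        = (√3) ^ 2 * (k (Fin.last 5) : ℝ) ^ 2 / 36 := by ring
      _ = (k (Fin.last 5) : ℝ) ^ 2 / 3 / 4 := by rw [h3]; ring
  rw [Finset.sum_congr rfl fun i _ => h1 i, h2, ← Finset.sum_div]
  ring

/-- Sorting the absolute values and collecting the signs. -/
private theorem cell6 {y : Fin (5 + 1) → ℝ} (hy : ∀ l ∈ E6s, 2 * (y ⬝ᵥ l) ≤ l ⬝ᵥ l) :
    ∃ (b : Fin 5 → ℝ) (t : ℝ) (c : ℤ), Antitone b ∧ (∀ i, 0 ≤ b i) ∧ 0 ≤ t ∧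
      (c % 4 = 0 ∨ c % 4 = 2) ∧ y ⬝ᵥ y = ∑ i, b i ^ 2 + 3 * t ^ 2 ∧
      ∀ (x : Fin 5 → ℤ) (q : ℤ), (∀ i, x i % 2 = q % 2) →
        (∑ i, x i + q + q % 2 * c) % 4 = 0 →
        ∑ i, b i * (x i : ℝ) + t * (q : ℝ) ≤ (∑ i, (x i : ℝ) ^ 2 + (q : ℝ) ^ 2 / 3) / 4 := by
  set a : Fin 5 → ℝ := fun i => y i.castSucc with ha
  set u : ℝ := y (Fin.last 5) * (√3 / 3) with hu
  set π : Equiv.Perm (Fin 5) := Tuple.sort fun i => -|a i| with hπ
  have hmono := Tuple.monotone_sort fun i => -|a i|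
  have hsg : ∀ x : ℝ, ∃ s : ℤ, (s = 1 ∨ s = -1) ∧ x * (s : ℝ) = |x| := by
    intro x
    by_cases h : 0 ≤ x
    · exact ⟨1, Or.inl rfl, by rw [abs_of_nonneg h]; simp⟩
    · exact ⟨-1, Or.inr rfl, by rw [abs_of_neg (not_le.mp h)]; simp⟩
  choose s hs hsa using fun i => hsg (a i)
  obtain ⟨r, hr, hru⟩ := hsg u
  refine ⟨fun i => |a (π i)|, |u|, ∑ i, (s i - 1) + (r - 1), ?_, fun i => abs_nonneg _,
    abs_nonneg _, ?_, ?_, ?_⟩
  · intro i j hij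
    have := hmono hij
    simp only [Function.comp_apply] at this
    show |a (π j)| ≤ |a (π i)|
    linarith
  · -- the sum of the `s i - 1` is even
    have h1 : ∀ i, ∃ e : ℤ, s i - 1 = 2 * e := by
      intro i
      rcases hs i with h | h
      · exact ⟨0, by rw [h]; norm_num⟩
      · exact ⟨-1, by rw [h]; norm_num⟩
    choose e he using h1
    obtain ⟨f, hf⟩ : ∃ f : ℤ, r - 1 = 2 * f := by
      rcases hr with h | h
      · exact ⟨0, by rw [h]; norm_num⟩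
      · exact ⟨-1, by rw [h]; norm_num⟩
    rw [Finset.sum_congr rfl fun i _ => he i, ← Finset.mul_sum, hf]
    omega
  · -- the norm
    have h1 : y ⬝ᵥ y = ∑ i : Fin 5, a i ^ 2 + y (Fin.last 5) ^ 2 := by
      rw [dotProduct, Fin.sum_univ_castSucc]
      congr 1
      · exact Finset.sum_congr rfl fun i _ => (sq _).symm
      · exact (sq _).symm
    have h2 : ∑ i : Fin 5, |a (π i)| ^ 2 = ∑ i : Fin 5, a i ^ 2 := by
      simp only [sq_abs]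
      exact Equiv.sum_comp π fun i => a i ^ 2
    have h3 : (√3 : ℝ) ^ 2 = 3 := Real.sq_sqrt (by norm_num)
    have h4 : 3 * |u| ^ 2 = y (Fin.last 5) ^ 2 := by
      rw [sq_abs, hu]
      calc 3 * (y (Fin.last 5) * (√3 / 3)) ^ 2 = y (Fin.last 5) ^ 2 * (√3) ^ 2 / 3 := by ring
        _ = y (Fin.last 5) ^ 2 := by rw [h3]; ring
    rw [h1, h2, h4]
  · intro x q hpar hsum
    set k : Fin (5 + 1) → ℤ := Fin.snoc (fun j => s j * x (π.symm j)) (r * q) with hk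
    have hkc : ∀ j : Fin 5, k j.castSucc = s j * x (π.symm j) := by
      intro j
      rw [hk, Fin.snoc_castSucc]
    have hkl : k (Fin.last 5) = r * q := by rw [hk, Fin.snoc_last]
    have hparity : ∀ j : Fin 5, (s j * x (π.symm j)) % 2 = q % 2 := by
      intro j
      rw [← hpar (π.symm j)]
      rcases hs j with h | h
      · rw [h, one_mul]
      · rw [h]; omega
    have hpl : (r * q) % 2 = q % 2 := by
      rcases hr with h | h
      · rw [h, one_mul]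
      · rw [h]; omega
    have hall : ∀ i, k i % 2 = q % 2 := by
      intro i
      refine Fin.lastCases ?_ (fun j => ?_) i
      · rw [hkl]; exact hpl
      · rw [hkc]; exact hparity j
    have hk4 : (∑ i, k i) % 4 = 0 := by
      rw [Fin.sum_univ_castSucc, hkl]
      simp only [hkc]
      have h1 : ∀ j : Fin 5, ∃ e : ℤ, s j * x (π.symm j) =
          x (π.symm j) + q % 2 * (s j - 1) + 4 * e := by
        intro j
        have hp := hpar (π.symm j)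
        rcases hs j with h | h
        · exact ⟨0, by rw [h]; ring⟩
        · refine ⟨-(x (π.symm j) / 2), ?_⟩
          rw [h, ← hp]
          omega
      choose e he using h1
      obtain ⟨f, hf⟩ : ∃ f : ℤ, r * q = q + q % 2 * (r - 1) + 4 * f := by
        rcases hr with h | h
        · exact ⟨0, by rw [h]; ring⟩
        · refine ⟨-(q / 2), ?_⟩
          rw [h]
          omega
      rw [Finset.sum_congr rfl fun j _ => he j, Finset.sum_add_distrib, Finset.sum_add_distrib,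
        ← Finset.mul_sum, ← Finset.mul_sum, hf]
      have h5 : ∑ j, x (π.symm j) = ∑ j, x j := Equiv.sum_comp π.symm x
      rw [h5]
      have h6 : ∑ i, x i + q + q % 2 * (∑ i, (s i - 1) + (r - 1)) =
          ∑ i, x i + q % 2 * ∑ i, (s i - 1) + (q + q % 2 * (r - 1)) := by ring
      rw [h6] at hsum
      omega
    have hIn : In6 k := ⟨fun i => by rw [hall i, hall 0], hk4⟩
    have h := hy (hv6 k) ⟨k, hIn, rfl⟩
    rw [dot_hv6, nrm_hv6, hkl] at h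
    simp only [hkc] at h
    have h7 : ∑ i : Fin 5, y i.castSucc * ((s i * x (π.symm i) : ℤ) : ℝ) =
        ∑ i, |a (π i)| * (x i : ℝ) := by
      have h8 : ∀ i : Fin 5, y i.castSucc * ((s i * x (π.symm i) : ℤ) : ℝ) =
          |a i| * (x (π.symm i) : ℝ) := by
        intro i
        rw [← hsa i]
        push_cast
        ring
      rw [Finset.sum_congr rfl fun i _ => h8 i,
        ← Equiv.sum_comp π fun i => |a i| * (x (π.symm i) : ℝ)]
      simp only [Equiv.symm_apply_apply]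
    have h9 : ∑ i : Fin 5, ((s i * x (π.symm i) : ℤ) : ℝ) ^ 2 = ∑ i, (x i : ℝ) ^ 2 := by
      have h8 : ∀ i : Fin 5, ((s i * x (π.symm i) : ℤ) : ℝ) ^ 2 = (x (π.symm i) : ℝ) ^ 2 := by
        intro i
        rcases hs i with h | h
        · rw [h]; push_cast; ring
        · rw [h]; push_cast; ring
      rw [Finset.sum_congr rfl fun i _ => h8 i]
      exact Equiv.sum_comp π.symm fun i => (x i : ℝ) ^ 2
    have h10 : y (Fin.last 5) * (√3 / 3) * ((r * q : ℤ) : ℝ) = |u| * (q : ℝ) := by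
      rw [← hru, hu]
      push_cast
      ring
    have h11 : ((r * q : ℤ) : ℝ) ^ 2 = (q : ℝ) ^ 2 := by
      rcases hr with h | h
      · rw [h]; push_cast; ring
      · rw [h]; push_cast; ring
    rw [h7, h9, h10, h11] at h
    linarith

private theorem ball_neg {b0 b1 b2 b3 b4 t : ℝ} (h0 : 0 ≤ b0 - b1) (h1 : 0 ≤ b1 - b2)
    (h2 : 0 ≤ b2 - b3) (h3 : 0 ≤ b3 - b4) (h4 : 0 ≤ b4) (ht : 0 ≤ t) (hA : 0 ≤ 1 - 3 * t)
    (hB : 0 ≤ 2 - 3 * b0 - 3 * t) (hD : 0 ≤ 1 - b0 - b1)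
    (hC : 0 ≤ 4 - 3 * b0 - 3 * b1 - 3 * b2 - 3 * b3 - 3 * b4 - 3 * t)
    (hE : 0 ≤ 2 - b0 - b1 - b2 - b3 + b4 - 3 * t) :
    b0 ^ 2 + b1 ^ 2 + b2 ^ 2 + b3 ^ 2 + b4 ^ 2 + 3 * t ^ 2 ≤ 2 / 3 := by
  have p1 := mul_nonneg h0 ht
  have p2 := mul_nonneg h0 hB
  have p3 := mul_nonneg h1 hD
  have p4 := mul_nonneg h2 h3
  have p5 := mul_nonneg h2 h4
  have p6 := mul_nonneg h2 hC
  have p7 := mul_nonneg h3 hC
  have p8 := mul_nonneg h3 hE
  have p9 := mul_nonneg ht hA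
  have p10 := mul_nonneg ht hB
  have p11 := mul_nonneg hA h4
  have p12 := mul_nonneg hA hC
  have p13 := mul_nonneg h4 hC
  have e : 2 / 3 - (b0 ^ 2 + b1 ^ 2 + b2 ^ 2 + b3 ^ 2 + b4 ^ 2 + 3 * t ^ 2) =
      1 / 9 * (2 - 3 * b0 - 3 * t) + 2 * ((b0 - b1) * t) +
      1 / 3 * ((b0 - b1) * (2 - 3 * b0 - 3 * t)) + (b1 - b2) * (1 - b0 - b1) +
      (b2 - b3) * (b3 - b4) + 2 * ((b2 - b3) * b4) +
      1 / 3 * ((b2 - b3) * (4 - 3 * b0 - 3 * b1 - 3 * b2 - 3 * b3 - 3 * b4 - 3 * t)) +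
      1 / 6 * ((b3 - b4) * (4 - 3 * b0 - 3 * b1 - 3 * b2 - 3 * b3 - 3 * b4 - 3 * t)) +
      1 / 2 * ((b3 - b4) * (2 - b0 - b1 - b2 - b3 + b4 - 3 * t)) +
      2 / 3 * (t * (1 - 3 * t)) + 2 / 3 * (t * (2 - 3 * b0 - 3 * t)) +
      2 / 3 * ((1 - 3 * t) * b4) +
      1 / 9 * ((1 - 3 * t) * (4 - 3 * b0 - 3 * b1 - 3 * b2 - 3 * b3 - 3 * b4 - 3 * t)) +
      1 / 3 * (b4 * (4 - 3 * b0 - 3 * b1 - 3 * b2 - 3 * b3 - 3 * b4 - 3 * t)) := by ring
  linarith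

private theorem ball_pos {b0 b1 b2 b3 b4 t : ℝ} (h0 : 0 ≤ b0 - b1) (h1 : 0 ≤ b1 - b2)
    (h2 : 0 ≤ b2 - b3) (h3 : 0 ≤ b3 - b4) (h4 : 0 ≤ b4) (ht : 0 ≤ t) (hA : 0 ≤ 1 - 3 * t)
    (hB : 0 ≤ 2 - 3 * b0 - 3 * t) (hD : 0 ≤ 1 - b0 - b1)
    (hC : 0 ≤ 4 - 3 * b0 - 3 * b1 - 3 * b2 - 3 * b3 + 3 * b4 - 3 * t)
    (hC2 : 0 ≤ 4 - 3 * b0 - 3 * b1 - 3 * b2 - 3 * b3 - 3 * b4 + 3 * t)
    (hE : 0 ≤ 2 - b0 - b1 - b2 - b3 - b4 - 3 * t) :
    b0 ^ 2 + b1 ^ 2 + b2 ^ 2 + b3 ^ 2 + b4 ^ 2 + 3 * t ^ 2 ≤ 2 / 3 := by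
  have p1 := mul_nonneg h0 h1
  have p2 := mul_nonneg h0 hB
  have p3 := mul_nonneg h1 hB
  have p4 := mul_nonneg h2 h3
  have p5 := mul_nonneg h2 hC
  have p6 := mul_nonneg h3 hC
  have p7 := mul_nonneg h3 hC2
  have p8 := mul_nonneg ht hE
  have p9 := mul_nonneg hA hD
  have p10 := mul_nonneg h4 hC2
  have e : 2 / 3 - (b0 ^ 2 + b1 ^ 2 + b2 ^ 2 + b3 ^ 2 + b4 ^ 2 + 3 * t ^ 2) =
      (b0 - b1) * (b1 - b2) + 1 / 3 * ((b0 - b1) * (2 - 3 * b0 - 3 * t)) +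
      2 / 3 * ((b1 - b2) * (2 - 3 * b0 - 3 * t)) + (b2 - b3) * (b3 - b4) +
      1 / 3 * ((b2 - b3) * (4 - 3 * b0 - 3 * b1 - 3 * b2 - 3 * b3 + 3 * b4 - 3 * t)) +
      1 / 6 * ((b3 - b4) * (4 - 3 * b0 - 3 * b1 - 3 * b2 - 3 * b3 + 3 * b4 - 3 * t)) +
      1 / 6 * ((b3 - b4) * (4 - 3 * b0 - 3 * b1 - 3 * b2 - 3 * b3 - 3 * b4 + 3 * t)) +
      t * (2 - b0 - b1 - b2 - b3 - b4 - 3 * t) + 2 / 3 * ((1 - 3 * t) * (1 - b0 - b1)) +
      1 / 3 * (b4 * (4 - 3 * b0 - 3 * b1 - 3 * b2 - 3 * b3 - 3 * b4 + 3 * t)) := by ring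
  linarith

/-- The cell is contained in the ball of squared radius `2 / 3`. -/
theorem E6s_ball {y : Fin (5 + 1) → ℝ} (hy : ∀ l ∈ E6s, 2 * (y ⬝ᵥ l) ≤ l ⬝ᵥ l) :
    y ⬝ᵥ y ≤ 2 / 3 := by
  obtain ⟨b, t, c, hb, hb0, ht, hc, hn, hI⟩ := cell6 hy
  have hA := hI ![0, 0, 0, 0, 0] 4 (by decide) (by simp [Fin.sum_univ_succ])
  have hB := hI ![2, 0, 0, 0, 0] 2 (by decide) (by simp [Fin.sum_univ_succ])
  have hD := hI ![2, 2, 0, 0, 0] 0 (by decide) (by simp [Fin.sum_univ_succ])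
  have o0 : b 1 ≤ b 0 := hb (by decide)
  have o1 : b 2 ≤ b 1 := hb (by decide)
  have o2 : b 3 ≤ b 2 := hb (by decide)
  have o3 : b 4 ≤ b 3 := hb (by decide)
  have o4 := hb0 4
  simp [Fin.sum_univ_succ] at hA hB hD
  rw [hn]
  rcases hc with hc | hc
  · have hC := hI ![1, 1, 1, 1, -1] 1 (by decide) (by simp [Fin.sum_univ_succ]; omega)
    have hC2 := hI ![1, 1, 1, 1, 1] (-1) (by decide) (by simp [Fin.sum_univ_succ]; omega)
    have hE := hI ![1, 1, 1, 1, 1] 3 (by decide) (by simp [Fin.sum_univ_succ]; omega)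
    simp [Fin.sum_univ_succ] at hC hC2 hE
    have := ball_pos (b0 := b 0) (b1 := b 1) (b2 := b 2) (b3 := b 3) (b4 := b 4) (t := t)
      (by linarith) (by linarith) (by linarith) (by linarith) o4 ht (by linarith) (by linarith)
      (by linarith) (by linarith) (by linarith) (by linarith)
    simp only [Fin.sum_univ_five]
    linarith
  · have hC := hI ![1, 1, 1, 1, 1] 1 (by decide) (by simp [Fin.sum_univ_succ]; omega)
    have hE := hI ![1, 1, 1, 1, -1] 3 (by decide) (by simp [Fin.sum_univ_succ]; omega)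
    simp [Fin.sum_univ_succ] at hC hE
    have := ball_neg (b0 := b 0) (b1 := b 1) (b2 := b 2) (b3 := b 3) (b4 := b 4) (t := t)
      (by linarith) (by linarith) (by linarith) (by linarith) o4 ht (by linarith) (by linarith)
      (by linarith) (by linarith) (by linarith)
    simp only [Fin.sum_univ_five]
    linarith

private theorem coord6_le {y : Fin (5 + 1) → ℝ} {r : ℝ} (h : y ⬝ᵥ y ≤ r) (i : Fin (5 + 1)) :
    y i * y i ≤ r := by
  refine le_trans ?_ h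
  rw [dotProduct]
  exact Finset.single_le_sum (f := fun j => y j * y j) (fun j _ => mul_self_nonneg (y j))
    (Finset.mem_univ i)

private theorem w6_sq (i : Fin (5 + 1)) : 1 / 12 ≤ w6 i ^ 2 := by
  refine Fin.lastCases ?_ (fun j => ?_) i
  · have h3 : (√3 : ℝ) ^ 2 = 3 := Real.sq_sqrt (by norm_num)
    rw [w6_last, div_pow, h3]
    norm_num
  · rw [w6_cast]
    norm_num

private theorem E6_fin (r : ℝ) : {l : Fin (5 + 1) → ℝ | l ∈ E6s ∧ l ⬝ᵥ l ≤ r}.Finite := by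
  obtain ⟨N, hN⟩ := exists_nat_ge (12 * |r| + 1)
  have hfin : ((fun k : Fin (5 + 1) → ℤ => hv6 k) ''
      (Set.Icc (fun _ => -(N : ℤ)) (fun _ => (N : ℤ)))).Finite := (Set.finite_Icc _ _).image _
  refine hfin.subset ?_
  rintro l ⟨⟨k, hk, rfl⟩, hl⟩
  refine ⟨k, ?_, rfl⟩
  have hb : ∀ i, |(k i : ℝ)| ≤ N := by
    intro i
    have h1 := coord6_le hl i
    have h2 : hv6 k i * hv6 k i = w6 i ^ 2 * (k i : ℝ) ^ 2 := by
      show w6 i * (k i : ℝ) * (w6 i * (k i : ℝ)) = _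
      ring
    rw [h2] at h1
    have h3 : (k i : ℝ) ^ 2 ≤ 12 * r := by
      have := mul_le_mul_of_nonneg_right (w6_sq i) (sq_nonneg (k i : ℝ))
      linarith
    have h4 : (k i : ℝ) ^ 2 ≤ 12 * |r| := le_trans h3 (by linarith [le_abs_self r])
    by_contra hc
    push Not at hc
    have h5 : (1 : ℝ) ≤ N := by linarith [abs_nonneg r]
    have h6 : (N : ℝ) < |(k i : ℝ)| := hc
    have h7 : |(k i : ℝ)| ^ 2 = (k i : ℝ) ^ 2 := sq_abs _
    nlinarith [abs_nonneg (k i : ℝ)]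
  constructor
  · intro i
    have h1 := (abs_le.1 (hb i)).1
    show -(N : ℤ) ≤ k i
    exact_mod_cast h1
  · intro i
    have h1 := (abs_le.1 (hb i)).2
    show k i ≤ (N : ℤ)
    exact_mod_cast h1

private theorem dot6_nonneg (y : Fin (5 + 1) → ℝ) : 0 ≤ y ⬝ᵥ y := by
  rw [dotProduct]
  exact Finset.sum_nonneg fun i _ => mul_self_nonneg (y i)

private theorem dot6_sub (y l : Fin (5 + 1) → ℝ) :
    (y - l) ⬝ᵥ (y - l) = y ⬝ᵥ y - 2 * (y ⬝ᵥ l) + l ⬝ᵥ l := by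
  rw [sub_dotProduct, dotProduct_sub, dotProduct_sub, dotProduct_comm l y]
  ring

private theorem E6_near (y : Fin (5 + 1) → ℝ) :
    ∃ l ∈ E6s, ∀ l' ∈ E6s, (y - l) ⬝ᵥ (y - l) ≤ (y - l') ⬝ᵥ (y - l') := by
  have hfin := E6_fin (4 * (y ⬝ᵥ y))
  have hne : {l : Fin (5 + 1) → ℝ | l ∈ E6s ∧ l ⬝ᵥ l ≤ 4 * (y ⬝ᵥ y)}.Nonempty :=
    ⟨0, E6s.zero_mem, by simp [dot6_nonneg y]⟩
  obtain ⟨l, hl, hmin⟩ := Set.exists_min_image _ (fun l => (y - l) ⬝ᵥ (y - l)) hfin hne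
  refine ⟨l, hl.1, fun l' hl' => ?_⟩
  by_cases h : l' ⬝ᵥ l' ≤ 4 * (y ⬝ᵥ y)
  · exact hmin l' ⟨hl', h⟩
  · push Not at h
    have h0 := hmin 0 ⟨E6s.zero_mem, by simp [dot6_nonneg y]⟩
    simp only [sub_zero] at h0
    refine le_trans h0 ?_
    have h1 := dot6_nonneg ((2 : ℝ) • y - l')
    have h2 := dot6_sub y l'
    have h3 : ((2 : ℝ) • y - l') ⬝ᵥ ((2 : ℝ) • y - l') =
        4 * (y ⬝ᵥ y) - 4 * (y ⬝ᵥ l') + l' ⬝ᵥ l' := by
      rw [dot6_sub]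
      simp only [smul_dotProduct, dotProduct_smul, smul_eq_mul]
      ring
    rw [h3] at h1
    rw [h2]
    linarith

/-- `E6*`: the squared covering radius is `2 / 3`. -/
theorem E6s_good : Good E6s (4 / 3) where
  fin := E6_fin
  pos := by norm_num
  cov := by
    intro y
    obtain ⟨l, hl, hmin⟩ := E6_near y
    refine ⟨l, hl, ?_⟩
    have hV : ∀ l' ∈ E6s, 2 * ((y - l) ⬝ᵥ l') ≤ l' ⬝ᵥ l' := by
      intro l' hl'
      have h2 := hmin (l + l') (E6s.add_mem hl hl')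
      have h3 : y - (l + l') = (y - l) - l' := by abel
      rw [h3, dot6_sub (y - l) l'] at h2
      linarith
    have h6 := E6s_ball hV
    linarith

private theorem int_min {j0 j1 j2 j3 j4 q : ℤ} (hs : (j0 + j1 + j2 + j3 + j4 + q) % 2 = 0)
    (h0 : ¬ (j0 = 0 ∧ j1 = 0 ∧ j2 = 0 ∧ j3 = 0 ∧ j4 = 0 ∧ q = 0)) :
    4 ≤ 3 * (j0 ^ 2 + j1 ^ 2 + j2 ^ 2 + j3 ^ 2 + j4 ^ 2) + q ^ 2 := by
  have par : ∀ j : ℤ, ∃ e : ℤ, j ^ 2 = j + 2 * e := by
    intro j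
    rcases Int.even_or_odd j with ⟨a, ha⟩ | ⟨a, ha⟩
    · exact ⟨2 * a ^ 2 - a, by rw [ha]; ring⟩
    · exact ⟨2 * a ^ 2 + a, by rw [ha]; ring⟩
  set A := j0 ^ 2 + j1 ^ 2 + j2 ^ 2 + j3 ^ 2 + j4 ^ 2 with hA
  have hA0 : 0 ≤ A := by positivity
  obtain ⟨e0, he0⟩ := par j0
  obtain ⟨e1, he1⟩ := par j1
  obtain ⟨e2, he2⟩ := par j2
  obtain ⟨e3, he3⟩ := par j3
  obtain ⟨e4, he4⟩ := par j4
  have hpar : (A + q) % 2 = 0 := by omega
  rcases Int.lt_or_le A 2 with h2 | h2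
  · have h3 : A = 0 ∨ A = 1 := by omega
    rcases h3 with h3 | h3
    · have z0 : j0 = 0 := by nlinarith [sq_nonneg j0, sq_nonneg j1, sq_nonneg j2, sq_nonneg j3, sq_nonneg j4]
      have z1 : j1 = 0 := by nlinarith [sq_nonneg j0, sq_nonneg j1, sq_nonneg j2, sq_nonneg j3, sq_nonneg j4]
      have z2 : j2 = 0 := by nlinarith [sq_nonneg j0, sq_nonneg j1, sq_nonneg j2, sq_nonneg j3, sq_nonneg j4]
      have z3 : j3 = 0 := by nlinarith [sq_nonneg j0, sq_nonneg j1, sq_nonneg j2, sq_nonneg j3, sq_nonneg j4]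
      have z4 : j4 = 0 := by nlinarith [sq_nonneg j0, sq_nonneg j1, sq_nonneg j2, sq_nonneg j3, sq_nonneg j4]
      have hq : q ≠ 0 := fun h => h0 ⟨z0, z1, z2, z3, z4, h⟩
      have hq2 : 2 ≤ |q| := by
        rcases abs_cases q with ⟨ha, hb⟩ | ⟨ha, hb⟩ <;> omega
      have : 4 ≤ q ^ 2 := by
        rw [← sq_abs]; nlinarith
      linarith
    · have hq : q ≠ 0 := by
        intro h
        rw [h, h3] at hpar
        norm_num at hpar
      have : 1 ≤ q ^ 2 := by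
        have : 0 < q ^ 2 := by positivity
        omega
      linarith
  · nlinarith [sq_nonneg q]

/-- `E6*`: the minimal norm is `4 / 3`. -/
theorem E6s_min : ∀ l ∈ E6s, l ≠ 0 → 4 / 3 ≤ l ⬝ᵥ l := by
  rintro l ⟨k, ⟨hpar, hsum⟩, rfl⟩ hl
  rw [nrm_hv6]
  have hk0 : ¬ (∀ i, k i = 0) := by
    intro h
    apply hl
    ext i
    simp [hv6, h i]
  suffices hN : (16 : ℤ) ≤ 3 * (k 0 ^ 2 + k 1 ^ 2 + k 2 ^ 2 + k 3 ^ 2 + k 4 ^ 2) + k 5 ^ 2 by
    have hN' : (16 : ℝ) ≤ 3 * ((k 0 : ℝ) ^ 2 + (k 1 : ℝ) ^ 2 + (k 2 : ℝ) ^ 2 + (k 3 : ℝ) ^ 2 +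
        (k 4 : ℝ) ^ 2) + (k 5 : ℝ) ^ 2 := by exact_mod_cast hN
    have h1 : ∑ i : Fin 5, (k i.castSucc : ℝ) ^ 2 = (k 0 : ℝ) ^ 2 + (k 1 : ℝ) ^ 2 +
        (k 2 : ℝ) ^ 2 + (k 3 : ℝ) ^ 2 + (k 4 : ℝ) ^ 2 := by
      rw [Fin.sum_univ_five]
      rfl
    have h2 : (k (Fin.last 5) : ℝ) = (k 5 : ℝ) := rfl
    rw [h1, h2]
    linarith
  have hs6 : (k 0 + k 1 + k 2 + k 3 + k 4 + k 5) % 4 = 0 := by
    rw [Fin.sum_univ_six] at hsum
    exact hsum
  have p1 := hpar 1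
  have p2 := hpar 2
  have p3 := hpar 3
  have p4 := hpar 4
  have p5 := hpar 5
  rcases Int.emod_two_eq_zero_or_one (k 0) with h0 | h0
  · obtain ⟨j0, e0⟩ : ∃ j, k 0 = 2 * j := ⟨k 0 / 2, by omega⟩
    obtain ⟨j1, e1⟩ : ∃ j, k 1 = 2 * j := ⟨k 1 / 2, by omega⟩
    obtain ⟨j2, e2⟩ : ∃ j, k 2 = 2 * j := ⟨k 2 / 2, by omega⟩
    obtain ⟨j3, e3⟩ : ∃ j, k 3 = 2 * j := ⟨k 3 / 2, by omega⟩
    obtain ⟨j4, e4⟩ : ∃ j, k 4 = 2 * j := ⟨k 4 / 2, by omega⟩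
    obtain ⟨j5, e5⟩ : ∃ j, k 5 = 2 * j := ⟨k 5 / 2, by omega⟩
    have h := int_min (j0 := j0) (j1 := j1) (j2 := j2) (j3 := j3) (j4 := j4) (q := j5)
      (by omega) (by
        rintro ⟨z0, z1, z2, z3, z4, z5⟩
        apply hk0
        intro i
        fin_cases i
        · show k 0 = 0
          omega
        · show k 1 = 0
          omega
        · show k 2 = 0
          omega
        · show k 3 = 0
          omega
        · show k 4 = 0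
          omega
        · show k 5 = 0
          omega)
    rw [e0, e1, e2, e3, e4, e5]
    nlinarith
  · have odd1 : ∀ x : ℤ, x % 2 = 1 → 1 ≤ x ^ 2 := by
      intro x hx
      have : x ≠ 0 := by
        intro h
        rw [h] at hx
        norm_num at hx
      have : 0 < x ^ 2 := by positivity
      omega
    have q0 := odd1 (k 0) h0
    have q1 := odd1 (k 1) (by omega)
    have q2 := odd1 (k 2) (by omega)
    have q3 := odd1 (k 3) (by omega)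
    have q4 := odd1 (k 4) (by omega)
    have q5 := odd1 (k 5) (by omega)
    linarith

end Pool.Agent.H99G
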