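import Pool.Agent.H99G.Defs

set_option autoImplicit false

/-!
# A sufficient condition for irreducibility on the symmetric matrices with trace zero

Even sign changes and one reflection whose vector has no coordinate zero are enough.
-/

namespace Pool.Agent.H99G

open Matrix

variable {m : ℕ}

/-- The sign change of the coordinates `p` and `x`. -/
def sgm (p x : Fin (m + 1)) : Matrix (Fin (m + 1)) (Fin (m + 1)) ℝ :=
  Matrix.diagonal fun i => if i = p ∨ i = x then -1 else 1

/-- The reflection `1 - r rᵀ`, for `r ⬝ᵥ r = 2`. -/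
def refl2 (r : Fin (m + 1) → ℝ) : Matrix (Fin (m + 1)) (Fin (m + 1)) ℝ := 1 - vecMulVec r r

private noncomputable def Sy (p q : Fin (m + 1)) : Matrix (Fin (m + 1)) (Fin (m + 1)) ℝ :=
  vecMulVec (Pi.single p 1) (Pi.single q 1) + vecMulVec (Pi.single q 1) (Pi.single p 1)

private noncomputable def Dg (p q : Fin (m + 1)) : Matrix (Fin (m + 1)) (Fin (m + 1)) ℝ :=
  vecMulVec (Pi.single p 1) (Pi.single p 1) - vecMulVec (Pi.single q 1) (Pi.single q 1)

private theorem cj (g : Matrix (Fin (m + 1)) (Fin (m + 1)) ℝ) (u v : Fin (m + 1) → ℝ) :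
    g * vecMulVec u v * gᵀ = vecMulVec (g *ᵥ u) (g *ᵥ v) := by
  rw [Matrix.mul_vecMulVec, Matrix.vecMulVec_mul, Matrix.vecMul_transpose]

private theorem Sy_apply (p q i j : Fin (m + 1)) :
    Sy p q i j = (if i = p then 1 else 0) * (if j = q then 1 else 0) +
      (if i = q then 1 else 0) * (if j = p then 1 else 0) := by
  simp [Sy, vecMulVec_apply, Pi.single_apply]

private theorem Dg_apply (p q i j : Fin (m + 1)) :
    Dg p q i j = (if i = p then 1 else 0) * (if j = p then 1 else 0) -
      (if i = q then 1 else 0) * (if j = q then 1 else 0) := by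
  simp [Dg, vecMulVec_apply, Pi.single_apply]

private theorem refl2_apply (r : Fin (m + 1) → ℝ) (i j : Fin (m + 1)) :
    refl2 r i j = (if i = j then 1 else 0) - r i * r j := by
  simp [refl2, Matrix.one_apply, vecMulVec_apply]

private theorem cj_Sy (r : Fin (m + 1) → ℝ) (p q i j : Fin (m + 1)) :
    (refl2 r * Sy p q * (refl2 r)ᵀ) i j =
      ((if i = p then 1 else 0) - r i * r p) * ((if j = q then 1 else 0) - r j * r q) +
      ((if i = q then 1 else 0) - r i * r q) * ((if j = p then 1 else 0) - r j * r p) := by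
  rw [Sy, mul_add, add_mul, cj, cj]
  simp [vecMulVec_apply, refl2_apply]

private theorem cj_diag (r b : Fin (m + 1) → ℝ) {i j : Fin (m + 1)} (hij : i ≠ j) :
    (refl2 r * Matrix.diagonal b * (refl2 r)ᵀ) i j =
      -(r i * r j) * (b i + b j - ∑ k, r k ^ 2 * b k) := by
  have h1 : ∀ k, (refl2 r * Matrix.diagonal b) i k = refl2 r i k * b k := fun k =>
    Matrix.mul_diagonal b (refl2 r) i k
  rw [Matrix.mul_apply]
  simp only [h1, transpose_apply, refl2_apply]
  have h2 : ∀ k, ((if i = k then (1 : ℝ) else 0) - r i * r k) * b k *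
      ((if j = k then 1 else 0) - r j * r k) =
      (if i = k then -(b i * (r j * r i)) else 0) + (if j = k then -(r i * r j * b j) else 0) +
        r i * r j * (r k ^ 2 * b k) := by
    intro k
    by_cases h3 : i = k
    · subst h3
      rw [if_pos rfl, if_neg (Ne.symm hij), if_pos rfl, if_neg (Ne.symm hij)]
      ring
    · by_cases h4 : j = k
      · subst h4
        rw [if_neg h3, if_pos rfl, if_neg h3, if_pos rfl]
        ring
      · rw [if_neg h3, if_neg h4, if_neg h3, if_neg h4]
        ring
  rw [Finset.sum_congr rfl fun k _ => h2 k, Finset.sum_add_distrib, Finset.sum_add_distrib,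
    Finset.sum_ite_eq, Finset.sum_ite_eq, ← Finset.mul_sum]
  simp only [Finset.mem_univ, if_true]
  ring

variable {U : Submodule ℝ (Matrix (Fin (m + 1)) (Fin (m + 1)) ℝ)}

private noncomputable def cf (p x i j : Fin (m + 1)) : ℝ :=
  1 - (if i = p ∨ i = x then -1 else 1) * (if j = p ∨ j = x then -1 else 1)

private theorem prod_mem (hs : ∀ p x, p ≠ x → ∀ B ∈ U, sgm p x * B * (sgm p x)ᵀ ∈ U)
    (p : Fin (m + 1)) {B : Matrix (Fin (m + 1)) (Fin (m + 1)) ℝ} (hB : B ∈ U)
    (X : Finset (Fin (m + 1))) (hX : p ∉ X) :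
    (Matrix.of fun i j => (∏ x ∈ X, cf p x i j) * B i j) ∈ U := by
  induction X using Finset.induction_on with
  | empty =>
    have h1 : (Matrix.of fun i j => (∏ x ∈ (∅ : Finset (Fin (m + 1))), cf p x i j) * B i j) = B := by
      ext i j
      simp
    rw [h1]
    exact hB
  | insert x X hx ih =>
    have hp : p ∉ X := fun h => hX (Finset.mem_insert_of_mem h)
    have hpx : p ≠ x := fun h => hX (h ▸ Finset.mem_insert_self _ _)
    have h1 := ih hp
    have h2 := hs p x hpx _ h1
    have h3 := U.sub_mem h1 h2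
    convert h3 using 1
    ext i j
    rw [Matrix.sub_apply, sgm, Matrix.diagonal_transpose, Matrix.mul_diagonal,
      Matrix.diagonal_mul, Matrix.of_apply, Matrix.of_apply, Finset.prod_insert hx, cf]
    ring

private theorem off_mem (hm : 4 ≤ m)
    (hs : ∀ p x, p ≠ x → ∀ B ∈ U, sgm p x * B * (sgm p x)ᵀ ∈ U)
    {B : Matrix (Fin (m + 1)) (Fin (m + 1)) ℝ} (hB : B ∈ U) (hT : Bᵀ = B)
    {p q : Fin (m + 1)} (hpq : p ≠ q) (h0 : B p q ≠ 0) : Sy p q ∈ U := by
  classical
  set X : Finset (Fin (m + 1)) := (Finset.univ.erase p).erase q with hX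
  have hpX : p ∉ X := by simp [hX]
  have hc : X.card = m - 1 := by
    rw [hX, Finset.card_erase_of_mem (by simp [Ne.symm hpq]), Finset.card_erase_of_mem (by simp)]
    simp
  have h1 := prod_mem hs p hB X hpX
  have h2 : (Matrix.of fun i j => (∏ x ∈ X, cf p x i j) * B i j) =
      (2 ^ X.card * B p q) • Sy p q := by
    ext i j
    rw [Matrix.of_apply, Matrix.smul_apply, Sy_apply, smul_eq_mul]
    have hsym : B q p = B p q := by
      rw [← hT, transpose_apply, hT]
    by_cases e1 : i = p ∧ j = q
    · obtain ⟨rfl, rfl⟩ := e1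
      have h3 : ∏ x ∈ X, cf i x i j = 2 ^ X.card := by
        rw [Finset.prod_congr rfl (g := fun _ => (2 : ℝ)), Finset.prod_const]
        intro x hx
        have h4 : x ≠ j := fun h => by simp [hX, h] at hx
        have h5 : j ≠ i := Ne.symm hpq
        simp [cf, h5, Ne.symm h4]
        norm_num
      rw [h3, if_pos rfl, if_pos rfl, if_neg hpq]
      ring
    · by_cases e2 : i = q ∧ j = p
      · obtain ⟨rfl, rfl⟩ := e2
        have h3 : ∏ x ∈ X, cf j x i j = 2 ^ X.card := by
          rw [Finset.prod_congr rfl (g := fun _ => (2 : ℝ)), Finset.prod_const]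
          intro x hx
          have h4 : x ≠ i := fun h => by simp [hX, h] at hx
          have h5 : i ≠ j := Ne.symm hpq
          simp [cf, h5, Ne.symm h4]
          norm_num
        rw [h3, hsym, if_neg (Ne.symm hpq), if_pos rfl, if_pos rfl]
        ring
      · have h3 : ∏ x ∈ X, cf p x i j = 0 := by
          by_cases hij : i = j
          · subst hij
            have hne : X.Nonempty := by
              rw [← Finset.card_pos, hc]
              omega
            obtain ⟨x, hx⟩ := hne
            refine Finset.prod_eq_zero hx ?_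
            unfold cf
            split_ifs <;> norm_num
          · by_cases hi : i = p
            · subst hi
              have hj : j ∈ X := by
                rw [hX, Finset.mem_erase, Finset.mem_erase]
                exact ⟨fun h => e1 ⟨rfl, h⟩, Ne.symm hij, Finset.mem_univ _⟩
              refine Finset.prod_eq_zero hj ?_
              simp [cf]
            · by_cases hj : j = p
              · subst hj
                have hi' : i ∈ X := by
                  rw [hX, Finset.mem_erase, Finset.mem_erase]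
                  exact ⟨fun h => e2 ⟨h, rfl⟩, hij, Finset.mem_univ _⟩
                refine Finset.prod_eq_zero hi' ?_
                simp [cf]
              · have hne : ((X.erase i).erase j).Nonempty := by
                  rw [← Finset.card_pos]
                  have h6 := Finset.pred_card_le_card_erase (s := X) (a := i)
                  have h7 := Finset.pred_card_le_card_erase (s := X.erase i) (a := j)
                  omega
                obtain ⟨x, hx⟩ := hne
                rw [Finset.mem_erase, Finset.mem_erase] at hx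
                refine Finset.prod_eq_zero hx.2.2 ?_
                simp [cf, hi, hj, Ne.symm hx.1, Ne.symm hx.2.1]
        rw [h3]
        have h8 : ((if i = p then (1 : ℝ) else 0) * if j = q then 1 else 0) = 0 := by
          by_cases h9 : i = p
          · have h10 : j ≠ q := fun h => e1 ⟨h9, h⟩
            simp [h10]
          · simp [h9]
        have h11 : ((if i = q then (1 : ℝ) else 0) * if j = p then 1 else 0) = 0 := by
          by_cases h9 : i = q
          · have h10 : j ≠ p := fun h => e2 ⟨h9, h⟩
            simp [h10]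
          · simp [h9]
        rw [h8, h11]
        ring
  rw [h2] at h1
  have h12 : (2 ^ X.card * B p q : ℝ) ≠ 0 := mul_ne_zero (by positivity) h0
  have h13 := U.smul_mem (2 ^ X.card * B p q : ℝ)⁻¹ h1
  rwa [smul_smul, inv_mul_cancel₀ h12, one_smul] at h13

private theorem Sy_all (hm : 4 ≤ m)
    (hU : ∀ B ∈ U, Bᵀ = B)
    (hs : ∀ p x, p ≠ x → ∀ B ∈ U, sgm p x * B * (sgm p x)ᵀ ∈ U)
    {r : Fin (m + 1) → ℝ} (hr : ∀ B ∈ U, refl2 r * B * (refl2 r)ᵀ ∈ U)
    (h0 : ∀ i, r i ≠ 0) (h1 : ∀ i, 2 * r i ^ 2 ≠ 1) {p q : Fin (m + 1)} (hpq : p ≠ q)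
    (hS : Sy p q ∈ U) {i j : Fin (m + 1)} (hij : i ≠ j) : Sy i j ∈ U := by
  have h2 := hr _ hS
  have h3 := hU _ h2
  by_cases e1 : i = p ∧ j = q
  · obtain ⟨rfl, rfl⟩ := e1
    exact hS
  by_cases e2 : i = q ∧ j = p
  · obtain ⟨rfl, rfl⟩ := e2
    have h4 : Sy i j = Sy j i := add_comm _ _
    rw [h4]
    exact hS
  refine off_mem hm hs h2 h3 hij ?_
  rw [cj_Sy]
  have k1 : ∀ i, 1 - 2 * r i ^ 2 ≠ 0 := fun i h => h1 i (by linarith)
  by_cases hi : i = p
  · subst hi
    have hj : j ≠ q := fun h => e1 ⟨rfl, h⟩
    rw [if_pos rfl, if_neg hj, if_neg hpq, if_neg (Ne.symm hij)]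
    have h5 : (1 - r i * r i) * (0 - r j * r q) + (0 - r i * r q) * (0 - r j * r i) =
        -(r j * r q * (1 - 2 * r i ^ 2)) := by ring
    rw [h5]
    exact neg_ne_zero.2 (mul_ne_zero (mul_ne_zero (h0 j) (h0 q)) (k1 i))
  · by_cases hi' : i = q
    · subst hi'
      have hj : j ≠ p := fun h => e2 ⟨rfl, h⟩
      rw [if_neg hi, if_neg (Ne.symm hij), if_pos rfl, if_neg hj]
      have h5 : (0 - r i * r p) * (0 - r j * r i) + (1 - r i * r i) * (0 - r j * r p) =
          -(r j * r p * (1 - 2 * r i ^ 2)) := by ring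
      rw [h5]
      exact neg_ne_zero.2 (mul_ne_zero (mul_ne_zero (h0 j) (h0 p)) (k1 i))
    · rw [if_neg hi, if_neg hi']
      by_cases hj : j = q
      · subst hj
        rw [if_pos rfl, if_neg (Ne.symm hpq)]
        have h5 : (0 - r i * r p) * (1 - r j * r j) + (0 - r i * r j) * (0 - r j * r p) =
            -(r i * r p * (1 - 2 * r j ^ 2)) := by ring
        rw [h5]
        exact neg_ne_zero.2 (mul_ne_zero (mul_ne_zero (h0 i) (h0 p)) (k1 j))
      · by_cases hj' : j = p
        · subst hj'
          rw [if_neg hpq, if_pos rfl]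
          have h5 : (0 - r i * r j) * (0 - r j * r q) + (0 - r i * r q) * (1 - r j * r j) =
              -(r i * r q * (1 - 2 * r j ^ 2)) := by ring
          rw [h5]
          exact neg_ne_zero.2 (mul_ne_zero (mul_ne_zero (h0 i) (h0 q)) (k1 j))
        · rw [if_neg hj, if_neg hj']
          have h5 : (0 - r i * r p) * (0 - r j * r q) + (0 - r i * r q) * (0 - r j * r p) =
              2 * (r i * r p) * (r j * r q) := by ring
          rw [h5]
          exact mul_ne_zero (mul_ne_zero two_ne_zero (mul_ne_zero (h0 i) (h0 p)))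
            (mul_ne_zero (h0 j) (h0 q))

private theorem dec {B : Matrix (Fin (m + 1)) (Fin (m + 1)) ℝ} (hT : Bᵀ = B) :
    B = Matrix.diagonal (fun i => B i i) +
      ∑ i, ∑ j, (if i = j then 0 else B i j / 2) • Sy i j := by
  ext a b
  have hsym : B b a = B a b := by
    rw [← hT, transpose_apply, hT]
  rw [Matrix.add_apply, Matrix.sum_apply]
  have h1 : ∀ i, (∑ j, (if i = j then 0 else B i j / 2) • Sy i j) a b =
      (if a = i then (if i = b then 0 else B i b / 2) else 0) +
        (if b = i then (if i = a then 0 else B i a / 2) else 0) := by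
    intro i
    rw [Matrix.sum_apply]
    simp only [Matrix.smul_apply, Sy_apply, smul_eq_mul, mul_add, Finset.sum_add_distrib]
    congr 1
    · by_cases h : a = i
      · subst h
        simp
      · simp [h]
    · by_cases h : b = i
      · subst h
        simp
      · simp [h]
  rw [Finset.sum_congr rfl fun i _ => h1 i, Finset.sum_add_distrib, Finset.sum_ite_eq,
    Finset.sum_ite_eq]
  simp only [Finset.mem_univ, if_true]
  by_cases hab : a = b
  · subst hab
    simp
  · rw [Matrix.diagonal_apply_ne _ hab, if_neg hab, if_neg (Ne.symm hab), hsym]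
    ring

private theorem off_sum (hS : ∀ i j : Fin (m + 1), i ≠ j → Sy i j ∈ U)
    (B : Matrix (Fin (m + 1)) (Fin (m + 1)) ℝ) :
    ∑ i, ∑ j, (if i = j then 0 else B i j / 2) • Sy i j ∈ U := by
  refine U.sum_mem fun i _ => U.sum_mem fun j _ => ?_
  by_cases h : i = j
  · rw [if_pos h, zero_smul]
    exact U.zero_mem
  · exact U.smul_mem _ (hS i j h)

private theorem diag_mem (hS : ∀ i j : Fin (m + 1), i ≠ j → Sy i j ∈ U)
    {B : Matrix (Fin (m + 1)) (Fin (m + 1)) ℝ} (hB : B ∈ U) (hT : Bᵀ = B) :
    Matrix.diagonal (fun i => B i i) ∈ U := by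
  have h1 := U.sub_mem hB (off_sum hS B)
  convert h1 using 1
  rw [eq_sub_iff_add_eq]
  exact (dec hT).symm

private theorem Dg_all (hm : 4 ≤ m) (hU : ∀ B ∈ U, Bᵀ = B)
    {r : Fin (m + 1) → ℝ} (hr : ∀ B ∈ U, refl2 r * B * (refl2 r)ᵀ ∈ U)
    (h0 : ∀ i, r i ≠ 0) (hS : ∀ i j : Fin (m + 1), i ≠ j → Sy i j ∈ U)
    (q q' : Fin (m + 1)) : Dg q q' ∈ U := by
  by_cases hqq : q = q'
  · subst hqq
    rw [Dg, sub_self]
    exact U.zero_mem
  obtain ⟨p, hp⟩ : ∃ p, p ∉ ({q, q'} : Finset (Fin (m + 1))) := by
    by_contra hc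
    push Not at hc
    have h1 : (Finset.univ : Finset (Fin (m + 1))) ⊆ {q, q'} := fun x _ => hc x
    have h2 := Finset.card_le_card h1
    have h3 : ({q, q'} : Finset (Fin (m + 1))).card ≤ 2 := Finset.card_le_two
    rw [Finset.card_univ, Fintype.card_fin] at h2
    omega
  simp only [Finset.mem_insert, Finset.mem_singleton, not_or] at hp
  have h1 := hr _ (hS p q hp.1)
  have h2 := hr _ (hS p q' hp.2)
  have h3 := diag_mem hS h1 (hU _ h1)
  have h4 := diag_mem hS h2 (hU _ h2)
  have h5 := U.sub_mem (U.smul_mem (r q') h3) (U.smul_mem (r q) h4)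
  have h6 : r q' • Matrix.diagonal (fun i => (refl2 r * Sy p q * (refl2 r)ᵀ) i i) -
      r q • Matrix.diagonal (fun i => (refl2 r * Sy p q' * (refl2 r)ᵀ) i i) =
      (-2 * r p * r q * r q') • Dg q q' := by
    ext a b
    rw [Matrix.sub_apply, Matrix.smul_apply, Matrix.smul_apply, Matrix.smul_apply, Dg_apply]
    by_cases hab : a = b
    · subst hab
      rw [Matrix.diagonal_apply_eq, Matrix.diagonal_apply_eq, cj_Sy, cj_Sy]
      simp only [smul_eq_mul]
      by_cases e1 : a = p
      · subst e1
        rw [if_pos rfl, if_neg hp.1, if_neg hp.2]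
        ring
      · by_cases e2 : a = q
        · subst e2
          rw [if_neg e1, if_pos rfl, if_neg hqq]
          ring
        · by_cases e3 : a = q'
          · subst e3
            rw [if_neg e1, if_neg e2, if_pos rfl]
            ring
          · rw [if_neg e1, if_neg e2, if_neg e3]
            ring
    · rw [Matrix.diagonal_apply_ne _ hab, Matrix.diagonal_apply_ne _ hab]
      have h7 : ((if a = q then (1 : ℝ) else 0) * if b = q then 1 else 0) = 0 := by
        by_cases h8 : a = q
        · have h9 : b ≠ q := fun h => hab (h8.trans h.symm)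
          simp [h9]
        · simp [h8]
      have h10 : ((if a = q' then (1 : ℝ) else 0) * if b = q' then 1 else 0) = 0 := by
        by_cases h8 : a = q'
        · have h9 : b ≠ q' := fun h => hab (h8.trans h.symm)
          simp [h9]
        · simp [h8]
      rw [h7, h10]
      simp
  rw [h6] at h5
  have h7 : (-2 * r p * r q * r q' : ℝ) ≠ 0 :=
    mul_ne_zero (mul_ne_zero (mul_ne_zero (by norm_num) (h0 p)) (h0 q)) (h0 q')
  have h8 := U.smul_mem (-2 * r p * r q * r q' : ℝ)⁻¹ h5
  rwa [smul_smul, inv_mul_cancel₀ h7, one_smul] at h8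

/-- Even sign changes and one reflection in a vector `r` with `r ⬝ᵥ r = 2`, no coordinate zero and
no coordinate `± 1 / √2`, are enough for irreducibility (dimension at least `5`). -/
theorem irr_of {L : AddSubgroup (Fin (m + 1) → ℝ)} (hm : 4 ≤ m)
    (hs : ∀ p x : Fin (m + 1), p ≠ x → IsAut L (sgm p x)) {r : Fin (m + 1) → ℝ}
    (hr : IsAut L (refl2 r)) (h0 : ∀ i, r i ≠ 0) (h1 : ∀ i, 2 * r i ^ 2 ≠ 1) : Irr L := by
  intro U hU hinv
  by_cases hbot : U = ⊥
  · exact Or.inl hbot
  right
  have hT : ∀ B ∈ U, Bᵀ = B := fun B hB => (hU B hB).1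
  have hs' : ∀ p x, p ≠ x → ∀ B ∈ U, sgm p x * B * (sgm p x)ᵀ ∈ U :=
    fun p x hpx B hB => hinv _ (hs p x hpx) B hB
  have hr' : ∀ B ∈ U, refl2 r * B * (refl2 r)ᵀ ∈ U := fun B hB => hinv _ hr B hB
  obtain ⟨p, q, hpq, hS⟩ : ∃ p q : Fin (m + 1), p ≠ q ∧ Sy p q ∈ U := by
    obtain ⟨B, hB, hB0⟩ := (Submodule.ne_bot_iff U).1 hbot
    by_cases hoff : ∃ p q, p ≠ q ∧ B p q ≠ 0
    · obtain ⟨p, q, hpq, h2⟩ := hoff
      exact ⟨p, q, hpq, off_mem hm hs' hB (hT B hB) hpq h2⟩
    · push Not at hoff
      have h3 : B = Matrix.diagonal fun i => B i i := by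
        ext i j
        by_cases hij : i = j
        · subst hij
          simp
        · rw [Matrix.diagonal_apply_ne _ hij, hoff i j hij]
      have h4 := hr' B hB
      by_cases hoff' : ∃ p q, p ≠ q ∧ (refl2 r * B * (refl2 r)ᵀ) p q ≠ 0
      · obtain ⟨p, q, hpq, h5⟩ := hoff'
        exact ⟨p, q, hpq, off_mem hm hs' h4 (hT _ h4) hpq h5⟩
      · push Not at hoff'
        exfalso
        apply hB0
        have h6 : ∀ i j, i ≠ j → B i i + B j j = ∑ k, r k ^ 2 * B k k := by
          intro i j hij
          have h7 := hoff' i j hij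
          rw [h3, cj_diag _ _ hij] at h7
          have h8 : (-(r i * r j) : ℝ) ≠ 0 := neg_ne_zero.2 (mul_ne_zero (h0 i) (h0 j))
          have h9 := (mul_eq_zero.1 h7).resolve_left h8
          linarith
        have h10 : ∀ i j, B i i = B j j := by
          intro i j
          by_cases hij : i = j
          · rw [hij]
          obtain ⟨k, hk⟩ : ∃ k, k ∉ ({i, j} : Finset (Fin (m + 1))) := by
            by_contra hc
            push Not at hc
            have e1 : (Finset.univ : Finset (Fin (m + 1))) ⊆ {i, j} := fun x _ => hc x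
            have e2 := Finset.card_le_card e1
            have e3 : ({i, j} : Finset (Fin (m + 1))).card ≤ 2 := Finset.card_le_two
            rw [Finset.card_univ, Fintype.card_fin] at e2
            omega
          simp only [Finset.mem_insert, Finset.mem_singleton, not_or] at hk
          have e4 := h6 k i hk.1
          have e5 := h6 k j hk.2
          linarith
        have h11 := (hU B hB).2
        rw [Matrix.trace] at h11
        simp only [Matrix.diag_apply] at h11
        rw [Finset.sum_congr rfl fun i _ => h10 i 0, Finset.sum_const, Finset.card_univ,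
          Fintype.card_fin, nsmul_eq_mul] at h11
        have h12 : B 0 0 = 0 := by
          rcases mul_eq_zero.1 h11 with h | h
          · exfalso
            have : ((m + 1 : ℕ) : ℝ) ≠ 0 := by positivity
            exact this h
          · exact h
        rw [h3]
        ext i j
        by_cases hij : i = j
        · subst hij
          rw [Matrix.diagonal_apply_eq, h10 i 0, h12]
          rfl
        · rw [Matrix.diagonal_apply_ne _ hij]
          rfl
  have hSall : ∀ i j : Fin (m + 1), i ≠ j → Sy i j ∈ U := fun i j hij =>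
    Sy_all hm hT hs' hr' h0 h1 hpq hS hij
  intro B hB htr
  rw [dec hB]
  refine U.add_mem ?_ (off_sum hSall B)
  have h2 : Matrix.diagonal (fun i => B i i) = ∑ i, B i i • Dg i 0 := by
    ext a b
    rw [Matrix.sum_apply]
    simp only [Matrix.smul_apply, Dg_apply, smul_eq_mul, mul_sub, Finset.sum_sub_distrib]
    rw [← Finset.sum_mul]
    have h3 : ∑ i, B i i = 0 := htr
    rw [h3, zero_mul, sub_zero]
    by_cases hab : a = b
    · subst hab
      simp
    · rw [Matrix.diagonal_apply_ne _ hab]
      symm
      refine Finset.sum_eq_zero fun i _ => ?_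
      by_cases h4 : a = i
      · have h5 : b ≠ i := fun h => hab (h4.trans h.symm)
        simp [h5]
      · simp [h4]
  rw [h2]
  exact U.sum_mem fun i _ => U.smul_mem _ (Dg_all hm hT hr' h0 hSall i 0)

end Pool.Agent.H99G
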