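import Pool.Agent.H99G.E6def
import Pool.Agent.H99G.Irrg

set_option autoImplicit false

/-!
# The automorphism group of the dual of `E6` is irreducible on the symmetric matrices of trace zero
-/

namespace Pool.Agent.H99G

open Matrix

private theorem isAut_of {m : ℕ} {L : AddSubgroup (Fin (m + 1) → ℝ)}
    {g : Matrix (Fin (m + 1)) (Fin (m + 1)) ℝ} (h1 : gᵀ = g) (h2 : g * g = 1)
    (h3 : ∀ x ∈ L, g *ᵥ x ∈ L) : IsAut L g := by
  refine ⟨by rw [h1, h2], by rw [h1, h2], fun x => ⟨fun h => ?_, h3 x⟩⟩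
  have h4 := h3 _ h
  rwa [mulVec_mulVec, h2, one_mulVec] at h4

private def chg (p x : Fin (5 + 1)) (k : Fin (5 + 1) → ℤ) : Fin (5 + 1) → ℤ :=
  fun i => if i = p ∨ i = x then -k i else k i

private theorem chg_sum {p x : Fin (5 + 1)} (hpx : p ≠ x) (k : Fin (5 + 1) → ℤ) :
    ∑ i, chg p x k i = ∑ i, k i - 2 * (k p + k x) := by
  have h1 : ∀ i, chg p x k i =
      k i - ((if p = i then 2 * k i else 0) + (if x = i then 2 * k i else 0)) := by
    intro i
    unfold chg
    by_cases h2 : i = p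
    · subst h2
      rw [if_pos (Or.inl rfl), if_pos rfl, if_neg (Ne.symm hpx)]
      ring
    · by_cases h3 : i = x
      · subst h3
        rw [if_pos (Or.inr rfl), if_neg hpx, if_pos rfl]
        ring
      · rw [if_neg (fun h => h.elim h2 h3), if_neg (fun h => h2 h.symm),
          if_neg (fun h => h3 h.symm)]
        ring
  rw [Finset.sum_congr rfl fun i _ => h1 i, Finset.sum_sub_distrib, Finset.sum_add_distrib,
    Finset.sum_ite_eq, Finset.sum_ite_eq]
  simp only [Finset.mem_univ, if_true]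
  ring

private theorem chg_In6 {p x : Fin (5 + 1)} (hpx : p ≠ x) {k : Fin (5 + 1) → ℤ} (hk : In6 k) :
    In6 (chg p x k) := by
  have h0 : ∀ i, chg p x k i % 2 = k i % 2 := by
    intro i
    unfold chg
    split_ifs
    · omega
    · rfl
  refine ⟨fun i => ?_, ?_⟩
  · rw [h0 i, h0 0, hk.1 i]
  · rw [chg_sum hpx]
    have h1 := hk.1 p
    have h2 := hk.1 x
    have h3 := hk.2
    omega

private theorem sgm_aut {p x : Fin (5 + 1)} (hpx : p ≠ x) : IsAut E6s (sgm p x) := by
  refine isAut_of ?_ ?_ ?_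
  · rw [sgm, Matrix.diagonal_transpose]
  · rw [sgm, Matrix.diagonal_mul_diagonal, ← Matrix.diagonal_one]
    congr 1
    funext i
    split_ifs <;> norm_num
  · rintro y ⟨k, hk, rfl⟩
    refine ⟨chg p x k, chg_In6 hpx hk, ?_⟩
    funext i
    rw [sgm, Matrix.mulVec_diagonal, hv6, hv6, chg]
    split_ifs
    · push_cast
      ring
    · ring

private def rk : Fin (5 + 1) → ℤ := ![1, 1, 1, 1, 1, 3]

private theorem s3 : √3 * √3 = (3 : ℝ) := Real.mul_self_sqrt (by norm_num)

private theorem dot_rk (k : Fin (5 + 1) → ℤ) :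
    hv6 rk ⬝ᵥ hv6 k = ((∑ i, k i : ℤ) : ℝ) / 4 := by
  have h := s3
  simp only [dotProduct, Fin.sum_univ_succ, hv6, w6, rk]
  simp
  linear_combination (1 / 12 * (k 5 : ℝ)) * h

private theorem refl_aut : IsAut E6s (refl2 (hv6 rk)) := by
  have h2 : hv6 rk ⬝ᵥ hv6 rk = 2 := by
    rw [dot_rk]
    have : (∑ i, rk i) = 8 := by decide
    rw [this]
    norm_num
  refine isAut_of ?_ ?_ ?_
  · rw [refl2, transpose_sub, transpose_one, transpose_vecMulVec]
  · rw [refl2, sub_mul, mul_sub, mul_sub, Matrix.one_mul, Matrix.mul_one, Matrix.one_mul,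
      vecMulVec_mul_vecMulVec, h2]
    ext i j
    simp [vecMulVec_apply]
    ring
  · rintro y ⟨k, hk, rfl⟩
    have h3 : (4 : ℤ) ∣ ∑ i, k i := Int.dvd_of_emod_eq_zero hk.2
    obtain ⟨n, hn⟩ := h3
    refine ⟨k - n • rk, ⟨?_, ?_⟩, ?_⟩
    · intro i
      have h4 := hk.1 i
      have h7 : ∀ j, rk j % 2 = 1 := by decide
      have h5 : rk i % 2 = 1 ∧ rk 0 % 2 = 1 := ⟨h7 i, h7 0⟩
      simp only [Pi.sub_apply, Pi.smul_apply, smul_eq_mul]
      have h6 : n * rk i % 2 = n * rk 0 % 2 := by
        rw [Int.mul_emod, h5.1, Int.mul_emod n (rk 0), h5.2]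
      omega
    · simp only [Pi.sub_apply, Pi.smul_apply, smul_eq_mul, Finset.sum_sub_distrib,
        ← Finset.mul_sum]
      have h5 : (∑ i, rk i) = 8 := by decide
      rw [h5]
      omega
    · rw [refl2, sub_mulVec, one_mulVec]
      have h7 : vecMulVec (hv6 rk) (hv6 rk) *ᵥ hv6 k = (n : ℝ) • hv6 rk := by
        have h8 : hv6 rk ⬝ᵥ hv6 k = (n : ℝ) := by
          rw [dot_rk, hn]
          push_cast
          ring
        ext i
        rw [← h8]
        simp only [mulVec, dotProduct, vecMulVec_apply, Pi.smul_apply, smul_eq_mul,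
          Finset.sum_mul]
        exact Finset.sum_congr rfl fun j _ => by ring
      rw [h7]
      ext i
      simp only [hv6, Pi.sub_apply, Pi.smul_apply, smul_eq_mul]
      push_cast
      ring

/-- The automorphism group of the dual of `E6` acts irreducibly on the symmetric matrices with
trace zero. -/
theorem E6s_irr : Irr E6s := by
  have h := s3
  have h3 : (0 : ℝ) < √3 := Real.sqrt_pos.2 (by norm_num)
  refine irr_of (by norm_num) (fun p x hpx => sgm_aut hpx) refl_aut ?_ ?_
  · intro i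
    fin_cases i <;> simp [hv6, w6, rk]
  · intro i
    fin_cases i <;> simp [hv6, w6, rk] <;> norm_num <;> nlinarith

end Pool.Agent.H99G
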