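import Pool.Agent.H99G.Edef

set_option autoImplicit false

/-!
# The lattice `E8` satisfies the covering condition
-/

namespace Pool.Agent.H99G

open Matrix Pool.Agent.H99E

private theorem coord_le {y : Fin (7 + 1) → ℝ} {r : ℝ} (h : y ⬝ᵥ y ≤ r) (i : Fin (7 + 1)) :
    y i * y i ≤ r := by
  refine le_trans ?_ h
  rw [dotProduct]
  exact Finset.single_le_sum (f := fun j => y j * y j) (fun j _ => mul_self_nonneg (y j))
    (Finset.mem_univ i)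

private theorem E8_fin (r : ℝ) : {l : Fin (7 + 1) → ℝ | l ∈ E8g ∧ l ⬝ᵥ l ≤ r}.Finite := by
  obtain ⟨N, hN⟩ := exists_nat_ge (4 * |r| + 1)
  have hfin : ((fun k : Fin 8 → ℤ => hv k) '' (Set.Icc (fun _ => -(N : ℤ)) (fun _ => (N : ℤ)))
      ).Finite := (Set.finite_Icc _ _).image _
  refine hfin.subset ?_
  rintro l ⟨⟨k, hk, rfl⟩, hl⟩
  refine ⟨k, ?_, rfl⟩
  have hb : ∀ i, |(k i : ℝ)| ≤ N := by
    intro i
    have h1 := coord_le hl i
    have h2 : hv k i = (k i : ℝ) / 2 := rfl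
    rw [h2] at h1
    have h3 : (k i : ℝ) ^ 2 ≤ 4 * r := by nlinarith
    have h4 : (k i : ℝ) ^ 2 ≤ 4 * |r| := le_trans h3 (by linarith [le_abs_self r])
    by_contra hc
    push Not at hc
    have h5 : (1 : ℝ) ≤ N := by linarith [abs_nonneg r]
    have h6 : (N : ℝ) < |(k i : ℝ)| := hc
    have h7 : |(k i : ℝ)| ^ 2 = (k i : ℝ) ^ 2 := sq_abs _
    nlinarith [abs_nonneg (k i : ℝ)]
  constructor
  · intro i
    have h1 := (abs_le.1 (hb i)).1
    show -(N : ℤ) ≤ k i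
    exact_mod_cast h1
  · intro i
    have h1 := (abs_le.1 (hb i)).2
    show k i ≤ (N : ℤ)
    exact_mod_cast h1

private theorem dot_nonneg (y : Fin (7 + 1) → ℝ) : 0 ≤ y ⬝ᵥ y := by
  rw [dotProduct]
  exact Finset.sum_nonneg fun i _ => mul_self_nonneg (y i)

private theorem dot_sub (y l : Fin (7 + 1) → ℝ) :
    (y - l) ⬝ᵥ (y - l) = y ⬝ᵥ y - 2 * (y ⬝ᵥ l) + l ⬝ᵥ l := by
  rw [sub_dotProduct, dotProduct_sub, dotProduct_sub, dotProduct_comm l y]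
  ring

private theorem E8_near (y : Fin (7 + 1) → ℝ) :
    ∃ l ∈ E8g, ∀ l' ∈ E8g, (y - l) ⬝ᵥ (y - l) ≤ (y - l') ⬝ᵥ (y - l') := by
  have hfin := E8_fin (4 * (y ⬝ᵥ y))
  have hne : {l : Fin (7 + 1) → ℝ | l ∈ E8g ∧ l ⬝ᵥ l ≤ 4 * (y ⬝ᵥ y)}.Nonempty :=
    ⟨0, E8g.zero_mem, by simp [dot_nonneg y]⟩
  obtain ⟨l, hl, hmin⟩ := Set.exists_min_image _ (fun l => (y - l) ⬝ᵥ (y - l)) hfin hne
  refine ⟨l, hl.1, fun l' hl' => ?_⟩
  by_cases h : l' ⬝ᵥ l' ≤ 4 * (y ⬝ᵥ y)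
  · exact hmin l' ⟨hl', h⟩
  · push Not at h
    have h0 := hmin 0 ⟨E8g.zero_mem, by simp [dot_nonneg y]⟩
    simp only [sub_zero] at h0
    refine le_trans h0 ?_
    have h1 := dot_nonneg ((2 : ℝ) • y - l')
    have h2 := dot_sub y l'
    have h3 : ((2 : ℝ) • y - l') ⬝ᵥ ((2 : ℝ) • y - l') =
        4 * (y ⬝ᵥ y) - 4 * (y ⬝ᵥ l') + l' ⬝ᵥ l' := by
      rw [dot_sub]
      simp only [smul_dotProduct, dotProduct_smul, smul_eq_mul]
      ring
    rw [h3] at h1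
    rw [h2]
    linarith

/-- `E8`: the minimal norm is `2`. -/
theorem E8_min : ∀ l ∈ E8g, l ≠ 0 → 2 ≤ l ⬝ᵥ l := by
  rintro l ⟨k, hk, rfl⟩ hl
  obtain ⟨m, hm⟩ := hv_even hk
  have hm' : (hv k : Fin (7 + 1) → ℝ) ⬝ᵥ hv k = 2 * (m : ℝ) := hm
  rw [hm']
  rcases Nat.eq_zero_or_pos m with h | h
  · exfalso
    apply hl
    subst h
    rw [Nat.cast_zero, mul_zero] at hm'
    funext i
    have h1 := coord_le (le_of_eq hm') i
    have h2 : hv k i * hv k i = 0 := le_antisymm h1 (mul_self_nonneg _)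
    simpa using h2
  · have h1 : (1 : ℝ) ≤ m := by exact_mod_cast h
    linarith

/-- `E8`: the squared covering radius is `1`. -/
theorem E8_good : Good E8g 2 where
  fin := E8_fin
  pos := by norm_num
  cov := by
    intro y
    obtain ⟨l, hl, hmin⟩ := E8_near y
    refine ⟨l, hl, ?_⟩
    have hV : y - l ∈ VV := by
      intro k hk
      have h1 := mem_Rf.1 hk
      have h2 := hmin (l + hv k) (E8g.add_mem hl ⟨k, h1.1, rfl⟩)
      have h3 : y - (l + hv k) = (y - l) - hv k := by abel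
      rw [h3, dot_sub (y - l) (hv k)] at h2
      have h4 : (hv k : Fin (7 + 1) → ℝ) ⬝ᵥ hv k = 2 := h1.2
      rw [h4] at h2
      have h5 : ((y - l : Fin (7 + 1) → ℝ) ⬝ᵥ hv k) ≤ 1 := by linarith
      exact h5
    have h6 : (y - l : Fin (7 + 1) → ℝ) ⬝ᵥ (y - l) ≤ 1 := VV_ball hV
    linarith

end Pool.Agent.H99G
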