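import Pool.Agent.H99G.Edef

set_option autoImplicit false

/-!
# The automorphisms of `E8` act irreducibly on the symmetric matrices with trace zero
-/

namespace Pool.Agent.H99G

open Matrix Pool.Agent.H99E

/-- the reflection -/
private noncomputable def rf (v : Fin 8 → ℝ) : Matrix (Fin 8) (Fin 8) ℝ := 1 - vecMulVec v v

private theorem rf_mulVec (v x : Fin 8 → ℝ) : rf v *ᵥ x = x - (v ⬝ᵥ x) • v := by
  rw [rf, sub_mulVec, one_mulVec, vecMulVec_mulVec, op_smul_eq_smul]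

private theorem rf_T (v : Fin 8 → ℝ) : (rf v)ᵀ = rf v := by
  rw [rf, transpose_sub, transpose_one, transpose_vecMulVec]

private theorem rf_sq {v : Fin 8 → ℝ} (h : v ⬝ᵥ v = 2) : rf v * rf v = 1 := by
  rw [rf, sub_mul, one_mul, mul_sub, mul_one, vecMulVec_mul_vecMulVec, h, vecMulVec_smul, two_smul]
  abel

private theorem rf_mem {v x : Fin 8 → ℝ} (hv' : v ∈ E8g) (hx : x ∈ E8g) : rf v *ᵥ x ∈ E8g := by
  obtain ⟨k, hk, rfl⟩ := hv'
  obtain ⟨l, hl, rfl⟩ := hx
  obtain ⟨n, hn⟩ := hv_int hk hl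
  rw [rf_mulVec, hn, Int.cast_smul_eq_zsmul]
  exact E8g.sub_mem ⟨l, hl, rfl⟩ (E8g.zsmul_mem ⟨k, hk, rfl⟩ n)

private theorem rf_aut {v : Fin 8 → ℝ} (hv' : v ∈ E8g) (h : v ⬝ᵥ v = 2) : IsAut E8g (rf v) := by
  refine ⟨by rw [rf_T, rf_sq h], by rw [rf_T, rf_sq h], fun x => ⟨fun hx => ?_, rf_mem hv'⟩⟩
  have h1 := rf_mem hv' hx
  rwa [mulVec_mulVec, rf_sq h, one_mulVec] at h1

private theorem step {U : Submodule ℝ (Matrix (Fin 8) (Fin 8) ℝ)} (hs : ∀ B ∈ U, Bᵀ = B)
    (hinv : ∀ g, IsAut E8g g → ∀ B ∈ U, g * B * gᵀ ∈ U) {v : Fin 8 → ℝ} (hv' : v ∈ E8g)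
    (h : v ⬝ᵥ v = 2) {B : Matrix (Fin 8) (Fin 8) ℝ} (hB : B ∈ U) :
    vecMulVec v (B *ᵥ v) + vecMulVec (B *ᵥ v) v - (v ⬝ᵥ B *ᵥ v) • vecMulVec v v ∈ U := by
  have h1 := U.sub_mem hB (hinv _ (rf_aut hv' h) B hB)
  have hb : v ᵥ* B = B *ᵥ v := by rw [← mulVec_transpose, hs B hB]
  have e : B - rf v * B * (rf v)ᵀ =
      vecMulVec v (B *ᵥ v) + vecMulVec (B *ᵥ v) v - (v ⬝ᵥ B *ᵥ v) • vecMulVec v v := by
    rw [rf_T, rf, sub_mul, one_mul, mul_sub, mul_one, sub_mul, vecMulVec_mul, hb, mul_vecMulVec,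
      vecMulVec_mul_vecMulVec, vecMulVec_smul, dotProduct_comm v (B *ᵥ v)]
    abel
  rwa [e] at h1

/-- symmetric products -/
private def sp (v w : Fin 8 → ℝ) : Matrix (Fin 8) (Fin 8) ℝ := vecMulVec v w + vecMulVec w v

private theorem sp_apply (v w : Fin 8 → ℝ) (x y : Fin 8) : sp v w x y = v x * w y + w x * v y := by
  simp [sp, vecMulVec_apply]

private theorem key {U : Submodule ℝ (Matrix (Fin 8) (Fin 8) ℝ)} (hs : ∀ B ∈ U, Bᵀ = B)
    (hinv : ∀ g, IsAut E8g g → ∀ B ∈ U, g * B * gᵀ ∈ U) {v w : Fin 8 → ℝ} (hv' : v ∈ E8g)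
    (hv2 : v ⬝ᵥ v = 2) (hw : w ∈ E8g) (hw2 : w ⬝ᵥ w = 2) (hvw : v ⬝ᵥ w = 0)
    {B : Matrix (Fin 8) (Fin 8) ℝ} (hB : B ∈ U) (h0 : v ⬝ᵥ B *ᵥ w ≠ 0) : sp v w ∈ U := by
  have h1 := step hs hinv hv' hv2 hB
  have h2 := step hs hinv hw hw2 h1
  have hb : v ᵥ* B = B *ᵥ v := by rw [← mulVec_transpose, hs B hB]
  have e1 : (vecMulVec v (B *ᵥ v) + vecMulVec (B *ᵥ v) v - (v ⬝ᵥ B *ᵥ v) • vecMulVec v v) *ᵥ w =
      (v ⬝ᵥ B *ᵥ w) • v := by
    rw [sub_mulVec, add_mulVec, smul_mulVec, vecMulVec_mulVec, vecMulVec_mulVec, vecMulVec_mulVec,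
      hvw, op_smul_eq_smul, op_smul_eq_smul, op_smul_eq_smul, zero_smul, zero_smul, smul_zero,
      dotProduct_mulVec v B w, hb]
    simp
  rw [e1, vecMulVec_smul, smul_vecMulVec, dotProduct_smul, dotProduct_comm w v, hvw, smul_zero,
    zero_smul, sub_zero, ← smul_add] at h2
  have h3 := U.smul_mem (v ⬝ᵥ B *ᵥ w)⁻¹ h2
  rw [smul_smul, inv_mul_cancel₀ h0, one_smul] at h3
  rw [sp, add_comm]
  exact h3

/-- the roots of the first type -/
private def rt (i j : Fin 8) (e : ℤ) : Fin 8 → ℝ :=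
  fun x => (if x = i then 1 else 0) + (e : ℝ) * (if x = j then 1 else 0)

private theorem rt_dot (i j : Fin 8) (e : ℤ) (y : Fin 8 → ℝ) : rt i j e ⬝ᵥ y = y i + e * y j := by
  simp [rt, dotProduct, add_mul, Finset.sum_add_distrib]

private theorem mulVec_rt (B : Matrix (Fin 8) (Fin 8) ℝ) (i j : Fin 8) (e : ℤ) (x : Fin 8) :
    (B *ᵥ rt i j e) x = B x i + e * B x j := by
  rw [mulVec, dotProduct_comm, rt_dot]

private theorem rt_mem (i j : Fin 8) {e : ℤ} (he : e = 1 ∨ e = -1) : rt i j e ∈ E8g := by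
  refine ⟨fun x => 2 * ((if x = i then 1 else 0) + e * (if x = j then 1 else 0)),
    ⟨fun x => ?_, ?_⟩, ?_⟩
  · simp
  · rw [← Finset.mul_sum, Finset.sum_add_distrib, ← Finset.mul_sum]
    simp only [Finset.sum_ite_eq', Finset.mem_univ, if_true]
    rcases he with rfl | rfl <;> norm_num
  · funext x
    simp only [rt, hv]
    push_cast
    ring

private theorem rt_norm {i j : Fin 8} (hij : i ≠ j) {e : ℤ} (he : e = 1 ∨ e = -1) :
    rt i j e ⬝ᵥ rt i j e = 2 := by
  rw [rt_dot]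
  rcases he with rfl | rfl <;> simp [rt, hij, hij.symm] <;> norm_num

private def OM (i j : Fin 8) : Matrix (Fin 8) (Fin 8) ℝ :=
  sp (fun x => if x = i then 1 else 0) (fun x => if x = j then 1 else 0)

private theorem OM_apply (i j x y : Fin 8) : OM i j x y =
    (if x = i then 1 else 0) * (if y = j then 1 else 0) +
      (if x = j then 1 else 0) * (if y = i then 1 else 0) := by
  rw [OM, sp_apply]

private theorem OM_comm (i j : Fin 8) : OM i j = OM j i := by
  rw [OM, OM, sp, sp, add_comm]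

private theorem pick (s : Finset (Fin 8)) (h : s.card < 8) : ∃ a, a ∉ s := by
  by_contra hh
  push Not at hh
  have : s = Finset.univ := Finset.eq_univ_of_forall hh
  rw [this] at h
  simp at h

section

variable {U : Submodule ℝ (Matrix (Fin 8) (Fin 8) ℝ)}

private theorem diagU (hs : ∀ B ∈ U, Bᵀ = B)
    (hinv : ∀ g, IsAut E8g g → ∀ B ∈ U, g * B * gᵀ ∈ U) {B : Matrix (Fin 8) (Fin 8) ℝ}
    (hB : B ∈ U) {i j : Fin 8} (h : B i i ≠ B j j) : OM i i - OM j j ∈ U := by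
  have hij : i ≠ j := by
    rintro rfl
    exact h rfl
  have hsym : B i j = B j i := by
    have := congrFun (congrFun (hs B hB) i) j
    rw [transpose_apply] at this
    exact this.symm
  have h1 : sp (rt i j 1) (rt i j (-1)) ∈ U := by
    refine key hs hinv (rt_mem i j (Or.inl rfl)) (rt_norm hij (Or.inl rfl))
      (rt_mem i j (Or.inr rfl)) (rt_norm hij (Or.inr rfl)) ?_ hB ?_
    · rw [rt_dot]
      simp [rt, hij, hij.symm]
    · rw [rt_dot, mulVec_rt, mulVec_rt]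
      intro h2
      push_cast at h2
      rw [hsym] at h2
      apply h
      linarith
  have e : sp (rt i j 1) (rt i j (-1)) = OM i i - OM j j := by
    ext x y
    rw [Matrix.sub_apply, sp_apply, OM_apply, OM_apply]
    simp only [rt]
    push_cast
    ring
  rwa [e] at h1

private theorem offU (hs : ∀ B ∈ U, Bᵀ = B)
    (hinv : ∀ g, IsAut E8g g → ∀ B ∈ U, g * B * gᵀ ∈ U) {B : Matrix (Fin 8) (Fin 8) ℝ}
    (hB : B ∈ U) {i j : Fin 8} (hij : i ≠ j) (h : B i j ≠ 0) : OM i j ∈ U := by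
  obtain ⟨k, hk⟩ := pick {i, j} (lt_of_le_of_lt Finset.card_le_two (by norm_num))
  obtain ⟨l, hl⟩ := pick {i, j, k} (lt_of_le_of_lt Finset.card_le_three (by norm_num))
  obtain ⟨a, ha⟩ := pick {i, j, k, l} (lt_of_le_of_lt Finset.card_le_four (by norm_num))
  obtain ⟨b, hb⟩ := pick {i, j, k, l, a} (lt_of_le_of_lt Finset.card_le_five (by norm_num))
  simp only [Finset.mem_insert, Finset.mem_singleton, not_or] at hk hl ha hb
  obtain ⟨hki, hkj⟩ := hk
  obtain ⟨hli, hlj, hlk⟩ := hl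
  obtain ⟨hai, haj, hak, hal⟩ := ha
  obtain ⟨hbi, hbj, hbk, hbl, hba⟩ := hb
  -- one product
  have h1 : ∃ e d : ℤ, (e = 1 ∨ e = -1) ∧ (d = 1 ∨ d = -1) ∧ sp (rt i k e) (rt j l d) ∈ U := by
    by_contra hcon
    have hz : ∀ e d : ℤ, (e = 1 ∨ e = -1) → (d = 1 ∨ d = -1) →
        rt i k e ⬝ᵥ B *ᵥ rt j l d = 0 := by
      intro e d he hd
      by_contra h0
      refine hcon ⟨e, d, he, hd, key hs hinv (rt_mem i k he) (rt_norm (Ne.symm hki) he)
        (rt_mem j l hd) (rt_norm (Ne.symm hlj) hd) ?_ hB h0⟩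
      rw [rt_dot]
      simp [rt, hij, Ne.symm hli, hkj, Ne.symm hlk]
    have z1 := hz 1 1 (Or.inl rfl) (Or.inl rfl)
    have z2 := hz 1 (-1) (Or.inl rfl) (Or.inr rfl)
    have z3 := hz (-1) 1 (Or.inr rfl) (Or.inl rfl)
    have z4 := hz (-1) (-1) (Or.inr rfl) (Or.inr rfl)
    rw [rt_dot, mulVec_rt, mulVec_rt] at z1 z2 z3 z4
    push_cast at z1 z2 z3 z4
    apply h
    linarith
  obtain ⟨e, d, he, hd, h2⟩ := h1
  have h3 : ∀ f g : ℤ, (f = 1 ∨ f = -1) → (g = 1 ∨ g = -1) →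
      sp (rt i a f) (rt j b g) ∈ U := by
    intro f g hf hg
    refine key hs hinv (rt_mem i a hf) (rt_norm (Ne.symm hai) hf) (rt_mem j b hg)
      (rt_norm (Ne.symm hbj) hg) ?_ h2 ?_
    · rw [rt_dot]
      simp [rt, hij, Ne.symm hbi, haj, Ne.symm hba]
    · rw [rt_dot, mulVec_rt, mulVec_rt, sp_apply, sp_apply, sp_apply, sp_apply]
      simp [rt, hij, hij.symm, Ne.symm hbi, haj, Ne.symm hba, hai, hak, hal, hbi, hbj, hbk, hbl,
        Ne.symm hki, Ne.symm hkj, Ne.symm hli, Ne.symm hlj]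
  have h4 := U.add_mem (U.add_mem (h3 1 1 (Or.inl rfl) (Or.inl rfl))
    (h3 1 (-1) (Or.inl rfl) (Or.inr rfl))) (U.add_mem (h3 (-1) 1 (Or.inr rfl) (Or.inl rfl))
      (h3 (-1) (-1) (Or.inr rfl) (Or.inr rfl)))
  have h5 := U.smul_mem (1 / 4 : ℝ) h4
  have e5 : (1 / 4 : ℝ) • (sp (rt i a 1) (rt j b 1) + sp (rt i a 1) (rt j b (-1)) +
      (sp (rt i a (-1)) (rt j b 1) + sp (rt i a (-1)) (rt j b (-1)))) = OM i j := by
    ext x y
    rw [Matrix.smul_apply, Matrix.add_apply, Matrix.add_apply, Matrix.add_apply, sp_apply, sp_apply, sp_apply, sp_apply,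
      OM_apply, smul_eq_mul]
    simp only [rt]
    push_cast
    ring
  rwa [e5] at h5

private theorem moveU (hs : ∀ B ∈ U, Bᵀ = B)
    (hinv : ∀ g, IsAut E8g g → ∀ B ∈ U, g * B * gᵀ ∈ U) {i j l : Fin 8} (hij : i ≠ j)
    (hli : l ≠ i) (hB : OM i j ∈ U) : OM i l ∈ U := by
  by_cases hlj : l = j
  · rwa [hlj]
  obtain ⟨a, ha⟩ := pick {i, j, l} (lt_of_le_of_lt Finset.card_le_three (by norm_num))
  simp only [Finset.mem_insert, Finset.mem_singleton, not_or] at ha
  obtain ⟨hai, haj, hal⟩ := ha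
  have h1 : sp (rt i a 1) (rt l j 1) ∈ U := by
    refine key hs hinv (rt_mem i a (Or.inl rfl)) (rt_norm (Ne.symm hai) (Or.inl rfl))
      (rt_mem l j (Or.inl rfl)) (rt_norm hlj (Or.inl rfl)) ?_ hB ?_
    · rw [rt_dot]
      simp [rt, hij, Ne.symm hli, haj, hal]
    · rw [rt_dot, mulVec_rt, mulVec_rt, OM_apply, OM_apply, OM_apply, OM_apply]
      simp [hij, hij.symm, hlj, hli, Ne.symm hli, haj, hai]
  refine offU hs hinv h1 (Ne.symm hli) ?_
  rw [sp_apply]
  simp [rt, hij, hij.symm, hlj, hli, Ne.symm hli, haj, hai, Ne.symm hai, Ne.symm hal, Ne.symm hlj]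

private theorem allO (hs : ∀ B ∈ U, Bᵀ = B)
    (hinv : ∀ g, IsAut E8g g → ∀ B ∈ U, g * B * gᵀ ∈ U) {i j : Fin 8} (hij : i ≠ j)
    (hB : OM i j ∈ U) {x y : Fin 8} (hxy : x ≠ y) : OM x y ∈ U := by
  by_cases hx : x = i
  · subst hx
    exact moveU hs hinv hij hxy.symm hB
  · have h1 : OM i x ∈ U := moveU hs hinv hij hx hB
    rw [OM_comm] at h1
    exact moveU hs hinv hx hxy.symm h1

private noncomputable def s1 : Fin 8 → ℝ := hv ![1, 1, 1, 1, 1, 1, 1, 1]

private noncomputable def s2 : Fin 8 → ℝ := hv ![1, 1, 1, 1, -1, -1, -1, -1]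

private theorem s1_mem : s1 ∈ E8g := ⟨_, by decide, rfl⟩

private theorem s2_mem : s2 ∈ E8g := ⟨_, by decide, rfl⟩

private theorem s1_norm : s1 ⬝ᵥ s1 = 2 := by
  simp [s1, hv, dotProduct, Fin.sum_univ_eight]
  norm_num

private theorem s2_norm : s2 ⬝ᵥ s2 = 2 := by
  simp [s2, hv, dotProduct, Fin.sum_univ_eight]
  norm_num

private theorem s12 : s1 ⬝ᵥ s2 = 0 := by
  simp [s1, s2, hv, dotProduct, Fin.sum_univ_eight]
  try norm_num

private theorem OM_form (i j : Fin 8) (v w : Fin 8 → ℝ) :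
    v ⬝ᵥ OM i j *ᵥ w = v i * w j + v j * w i := by
  rw [OM, sp, add_mulVec, vecMulVec_mulVec, vecMulVec_mulVec, op_smul_eq_smul, op_smul_eq_smul,
    dotProduct_add, dotProduct_smul, dotProduct_smul]
  simp [dotProduct]
  ring

private theorem fromO (hs : ∀ B ∈ U, Bᵀ = B)
    (hinv : ∀ g, IsAut E8g g → ∀ B ∈ U, g * B * gᵀ ∈ U) (h : OM 0 1 ∈ U) : sp s1 s2 ∈ U := by
  refine key hs hinv s1_mem s1_norm s2_mem s2_norm s12 h ?_
  rw [OM_form]
  simp [s1, s2, hv]

private theorem fromD (hs : ∀ B ∈ U, Bᵀ = B)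
    (hinv : ∀ g, IsAut E8g g → ∀ B ∈ U, g * B * gᵀ ∈ U) (h : OM 0 0 - OM 7 7 ∈ U) :
    sp s1 s2 ∈ U := by
  refine key hs hinv s1_mem s1_norm s2_mem s2_norm s12 h ?_
  rw [sub_mulVec, dotProduct_sub, OM_form, OM_form]
  simp [s1, s2, hv]
  norm_num

/-- from the product of the two vectors everything -/
private theorem fromS (hs : ∀ B ∈ U, Bᵀ = B)
    (hinv : ∀ g, IsAut E8g g → ∀ B ∈ U, g * B * gᵀ ∈ U) (h : sp s1 s2 ∈ U) (x y : Fin 8) :
    OM x y - (if x = y then OM 4 4 else 0) ∈ U := by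
  by_cases hxy : x = y
  · rw [if_pos hxy, ← hxy]
    have d1 : ∀ a b : Fin 8, a < 4 → 4 ≤ b → OM a a - OM b b ∈ U := by
      intro a b ha hb
      refine diagU hs hinv h ?_
      rw [sp_apply, sp_apply]
      have e1 : ∀ c : Fin 8, s1 c = 1 / 2 := by
        intro c
        fin_cases c <;> simp [s1, hv]
      have e2 : ∀ c : Fin 8, c < 4 → s2 c = 1 / 2 := by
        intro c hc
        fin_cases c <;> simp_all [s2, hv]
      have e3 : ∀ c : Fin 8, 4 ≤ c → s2 c = -1 / 2 := by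
        intro c hc
        fin_cases c <;> simp_all [s2, hv]
      rw [e1, e1, e2 a ha, e3 b hb]
      norm_num
    by_cases hx : x < 4
    · exact d1 x 4 hx le_rfl
    · have h1 := U.sub_mem (d1 0 4 (by decide) le_rfl) (d1 0 x (by decide) (not_lt.1 hx))
      have e : OM 0 0 - OM 4 4 - (OM 0 0 - OM x x) = OM x x - OM 4 4 := by abel
      rwa [e] at h1
  · rw [if_neg hxy, sub_zero]
    refine allO hs hinv (by decide : (0 : Fin 8) ≠ 1) ?_ hxy
    refine offU hs hinv h (by decide) ?_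
    rw [sp_apply]
    simp [s1, s2, hv]

private theorem decomp {B : Matrix (Fin 8) (Fin 8) ℝ} (hB : Bᵀ = B) (ht : B.trace = 0) :
    B = (1 / 2 : ℝ) • ∑ x, ∑ y, B x y • (OM x y - (if x = y then OM 4 4 else 0)) := by
  have h1 : ∑ x, ∑ y, B x y • (OM x y - (if x = y then OM 4 4 else 0)) =
      ∑ x, ∑ y, B x y • OM x y := by
    have h2 : ∀ x, ∑ y, B x y • (OM x y - (if x = y then OM 4 4 else 0)) =
        ∑ y, B x y • OM x y - B x x • OM 4 4 := by
      intro x
      simp only [smul_sub, Finset.sum_sub_distrib, smul_ite, smul_zero, Finset.sum_ite_eq,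
        Finset.mem_univ, if_true]
    rw [Finset.sum_congr rfl fun x _ => h2 x, Finset.sum_sub_distrib, ← Finset.sum_smul]
    have h3 : ∑ x, B x x = 0 := by simpa [Matrix.trace] using ht
    rw [h3, zero_smul, sub_zero]
  rw [h1]
  ext p q
  have hpq : B q p = B p q := by
    have := congrFun (congrFun hB p) q
    rwa [transpose_apply] at this
  rw [Matrix.smul_apply, Matrix.sum_apply]
  have h4 : ∀ x, (∑ y, B x y • OM x y) p q =
      (if p = x then 1 else 0) * B x q + (if q = x then 1 else 0) * B x p := by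
    intro x
    rw [Matrix.sum_apply]
    simp only [Matrix.smul_apply, OM_apply, smul_eq_mul, mul_add, Finset.sum_add_distrib]
    congr 1
    · simp [mul_comm]
    · simp [mul_comm]
  rw [Finset.sum_congr rfl fun x _ => h4 x, Finset.sum_add_distrib]
  simp [hpq]
  ring

end

theorem E8_irr : Irr E8g := by
  intro U hU hinv
  have hs : ∀ B ∈ U, Bᵀ = B := fun B hB => (hU B hB).1
  by_cases h0 : U = ⊥
  · exact Or.inl h0
  · right
    obtain ⟨B, hB, hB0⟩ := Submodule.exists_mem_ne_zero_of_ne_bot h0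
    have hS : sp s1 s2 ∈ U := by
      by_cases hoff : ∃ i j : Fin 8, i ≠ j ∧ B i j ≠ 0
      · obtain ⟨i, j, hij, h⟩ := hoff
        exact fromO hs hinv (allO hs hinv hij (offU hs hinv hB hij h) (by decide))
      · push Not at hoff
        have hd : ∃ i j : Fin 8, B i i ≠ B j j := by
          by_contra hcon
          push Not at hcon
          apply hB0
          have ht := (hU B hB).2
          rw [Matrix.trace] at ht
          have h8 : (8 : ℝ) * B 0 0 = 0 := by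
            rw [← ht]
            simp only [Matrix.diag_apply]
            rw [Finset.sum_congr rfl fun i _ => hcon i 0]
            simp
          have h00 : B 0 0 = 0 := by linarith
          ext i j
          by_cases hij : i = j
          · rw [← hij, hcon i 0, h00]
            rfl
          · rw [hoff i j hij]
            rfl
        obtain ⟨i, j, hij⟩ := hd
        have h1 : OM i i - OM j j ∈ U := diagU hs hinv hB hij
        have hne : i ≠ j := by
          rintro rfl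
          exact hij rfl
        -- all differences with `i`
        have h2 : ∀ k, OM i i - OM k k ∈ U := by
          intro k
          by_cases hki : k = i
          · rw [hki, sub_self]
            exact U.zero_mem
          · by_cases hkj : k = j
            · rwa [hkj]
            · refine diagU hs hinv h1 ?_
              rw [Matrix.sub_apply, Matrix.sub_apply, OM_apply, OM_apply, OM_apply, OM_apply]
              simp [hne, hki, hkj]
        have h3 := U.sub_mem (h2 7) (h2 0)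
        have e : OM i i - OM 7 7 - (OM i i - OM 0 0) = OM 0 0 - OM 7 7 := by abel
        rw [e] at h3
        exact fromD hs hinv h3
    intro C hC hCt
    rw [decomp hC hCt]
    refine U.smul_mem _ (U.sum_mem fun x _ => U.sum_mem fun y _ => U.smul_mem _ ?_)
    exact fromS hs hinv hS x y

end Pool.Agent.H99G
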