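import Pool.Agent.H99G.Sdef

set_option autoImplicit false

/-!
# `E7*`: the eight cubes are a fundamental domain
-/

namespace Pool.Agent.H99G

open MeasureTheory Matrix

private theorem inH_none (k : Fin 7 → ℤ) :
    (InH fun i => k i - (if (none : Option (Fin 7)) = some i then 1 else 0)) ↔
      (k 0 + k 2 + k 4 + k 6) % 2 = 0 ∧ (k 1 + k 2 + k 5 + k 6) % 2 = 0 ∧
        (k 3 + k 4 + k 5 + k 6) % 2 = 0 := by
  simp [InH]

private theorem inH_some (k : Fin 7 → ℤ) (a : Fin 7) :
    (InH fun i => k i - (if some a = some i then 1 else 0)) ↔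
      (k 0 + k 2 + k 4 + k 6) % 2 = (![1, 0, 1, 0, 1, 0, 1] : Fin 7 → ℤ) a ∧
      (k 1 + k 2 + k 5 + k 6) % 2 = (![0, 1, 1, 0, 0, 1, 1] : Fin 7 → ℤ) a ∧
        (k 3 + k 4 + k 5 + k 6) % 2 = (![0, 0, 0, 1, 1, 1, 1] : Fin 7 → ℤ) a := by
  fin_cases a <;> simp [InH] <;> omega

/-- perfect code -/
theorem perfect (k : Fin 7 → ℤ) :
    ∃! j : Option (Fin 7), InH fun i => k i - (if j = some i then 1 else 0) := by
  rcases Int.emod_two_eq_zero_or_one (k 0 + k 2 + k 4 + k 6) with h1 | h1 <;>
  rcases Int.emod_two_eq_zero_or_one (k 1 + k 2 + k 5 + k 6) with h2 | h2 <;>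
  rcases Int.emod_two_eq_zero_or_one (k 3 + k 4 + k 5 + k 6) with h3 | h3
  · refine ⟨none, (inH_none k).2 ⟨h1, h2, h3⟩, ?_⟩
    rintro (_ | b) hb
    · rfl
    · rw [inH_some, h1, h2, h3] at hb
      revert hb
      revert b
      decide
  · refine ⟨some 3, (inH_some k 3).2 ⟨h1, h2, h3⟩, ?_⟩
    rintro (_ | b) hb
    · rw [inH_none, h1, h2, h3] at hb
      simp at hb
    · rw [inH_some, h1, h2, h3] at hb
      revert hb
      revert b
      decide
  · refine ⟨some 1, (inH_some k 1).2 ⟨h1, h2, h3⟩, ?_⟩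
    rintro (_ | b) hb
    · rw [inH_none, h1, h2, h3] at hb
      simp at hb
    · rw [inH_some, h1, h2, h3] at hb
      revert hb
      revert b
      decide
  · refine ⟨some 5, (inH_some k 5).2 ⟨h1, h2, h3⟩, ?_⟩
    rintro (_ | b) hb
    · rw [inH_none, h1, h2, h3] at hb
      simp at hb
    · rw [inH_some, h1, h2, h3] at hb
      revert hb
      revert b
      decide
  · refine ⟨some 0, (inH_some k 0).2 ⟨h1, h2, h3⟩, ?_⟩
    rintro (_ | b) hb
    · rw [inH_none, h1, h2, h3] at hb
      simp at hb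
    · rw [inH_some, h1, h2, h3] at hb
      revert hb
      revert b
      decide
  · refine ⟨some 4, (inH_some k 4).2 ⟨h1, h2, h3⟩, ?_⟩
    rintro (_ | b) hb
    · rw [inH_none, h1, h2, h3] at hb
      simp at hb
    · rw [inH_some, h1, h2, h3] at hb
      revert hb
      revert b
      decide
  · refine ⟨some 2, (inH_some k 2).2 ⟨h1, h2, h3⟩, ?_⟩
    rintro (_ | b) hb
    · rw [inH_none, h1, h2, h3] at hb
      simp at hb
    · rw [inH_some, h1, h2, h3] at hb
      revert hb
      revert b
      decide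
  · refine ⟨some 6, (inH_some k 6).2 ⟨h1, h2, h3⟩, ?_⟩
    rintro (_ | b) hb
    · rw [inH_none, h1, h2, h3] at hb
      simp at hb
    · rw [inH_some, h1, h2, h3] at hb
      revert hb
      revert b
      decide

private theorem UC_eq : UC = Set.pi Set.univ fun _ : Fin 7 => Set.Ico (-(1 / 2) : ℝ) (1 / 2) := by
  ext u
  simp [UC]

private theorem UC_meas : MeasurableSet UC := by
  rw [UC_eq]
  exact MeasurableSet.univ_pi fun _ => measurableSet_Ico

private theorem UC_vol : volume UC = 1 := by
  rw [UC_eq, Real.volume_pi_Ico]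
  norm_num

private theorem HD_eq : HD = ⋃ j : Option (Fin 7), (fun y => y - cen j) ⁻¹' UC := by
  ext y
  simp [HD]

private theorem cube_meas (j : Option (Fin 7)) :
    MeasurableSet ((fun y => y - cen j) ⁻¹' UC) :=
  (measurable_id.sub_const (cen j)) UC_meas

private theorem cen_apply (j : Option (Fin 7)) (i : Fin 7) :
    cen j i = (((if j = some i then 1 else 0 : ℤ)) : ℝ) := by
  by_cases h : j = some i <;> simp [cen, h]

private theorem mem_UC (y : Fin 7 → ℝ) (n : Fin 7 → ℤ) (h : ∀ i, -(1 / 2) ≤ y i + n i ∧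
    y i + n i < 1 / 2) : ∀ i, n i = -⌊y i + 1 / 2⌋ := by
  intro i
  have h1 := (h i).1
  have h2 := (h i).2
  have h3 : ⌊y i + 1 / 2⌋ = -n i := by
    rw [Int.floor_eq_iff]
    push_cast
    constructor <;> linarith
  omega

private theorem mem_UC' (y : Fin 7 → ℝ) (i : Fin 7) :
    -(1 / 2) ≤ y i + ((-⌊y i + 1 / 2⌋ : ℤ) : ℝ) ∧ y i + ((-⌊y i + 1 / 2⌋ : ℤ) : ℝ) < 1 / 2 := by
  have h1 := Int.floor_le (y i + 1 / 2)
  have h2 := Int.lt_floor_add_one (y i + 1 / 2)
  push_cast
  constructor <;> linarith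

private theorem neg_InH {k : Fin 7 → ℤ} (h : InH k) : InH (-k) := by
  obtain ⟨h1, h2, h3⟩ := h
  simp only [InH, Pi.neg_apply]
  refine ⟨?_, ?_, ?_⟩ <;> omega

theorem HD_fund : IsAddFundamentalDomain E7s HD volume := by
  refine IsAddFundamentalDomain.mk' ?_ ?_
  · rw [HD_eq]
    exact (MeasurableSet.iUnion cube_meas).nullMeasurableSet
  · intro y
    obtain ⟨j, hj, hju⟩ := perfect fun i => ⌊y i + 1 / 2⌋
    have hj' := neg_InH hj
    have hm : rv (-fun i => ⌊y i + 1 / 2⌋ - (if j = some i then 1 else 0)) ∈ E7s :=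
      ⟨_, hj', rfl⟩
    refine ⟨⟨_, hm⟩, ⟨j, ?_⟩, ?_⟩
    · intro i
      have h := mem_UC' y i
      have h1 : (((⟨_, hm⟩ : E7s) +ᵥ y) - cen j) i = y i + ((-⌊y i + 1 / 2⌋ : ℤ) : ℝ) := by
        show (rv (-fun i => ⌊y i + 1 / 2⌋ - (if j = some i then 1 else 0)) + y - cen j) i = _
        rw [Pi.sub_apply, Pi.add_apply, cen_apply]
        simp only [rv, Pi.neg_apply]
        push_cast
        ring
      rw [h1]
      exact h
    · rintro ⟨l, hl⟩ ⟨j', hj2⟩
      obtain ⟨k, hk, rfl⟩ := id hl
      have h2 := mem_UC y (fun i => k i - (if j' = some i then 1 else 0)) (by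
        intro i
        have h := hj2 i
        have h1 : (((⟨rv k, hl⟩ : E7s) +ᵥ y) - cen j') i =
            y i + ((k i - (if j' = some i then 1 else 0) : ℤ) : ℝ) := by
          show (rv k + y - cen j') i = _
          rw [Pi.sub_apply, Pi.add_apply, cen_apply]
          simp only [rv]
          push_cast
          ring
        rw [h1] at h
        exact h)
      have h3 : k = -fun i => ⌊y i + 1 / 2⌋ - (if j' = some i then 1 else 0) := by
        funext i
        have := h2 i
        simp only [Pi.neg_apply] at *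
        omega
      have h4 : j' = j := by
        apply hju
        have h5 := neg_InH hk
        rw [h3, neg_neg] at h5
        exact h5
      apply Subtype.ext
      show rv k = rv _
      rw [h3, h4]

private theorem cube_vol (j : Option (Fin 7)) : volume ((fun y => y - cen j) ⁻¹' UC) = 1 := by
  have h := measure_preimage_add_right volume (-cen j) UC
  rw [UC_vol] at h
  simpa [sub_eq_add_neg] using h

private theorem cube_disj {j j' : Option (Fin 7)} (hjj : j ≠ j') :
    Disjoint ((fun y => y - cen j) ⁻¹' UC) ((fun y => y - cen j') ⁻¹' UC) := by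
  refine Set.disjoint_left.2 fun y h1 h2 => hjj ?_
  have h3 := mem_UC y (fun i => -(if j = some i then 1 else 0)) (by
    intro i
    have h : -(1 / 2) ≤ y i - cen j i ∧ y i - cen j i < 1 / 2 := h1 i
    rw [cen_apply] at h
    push_cast at h ⊢
    exact h)
  have h4 := mem_UC y (fun i => -(if j' = some i then 1 else 0)) (by
    intro i
    have h : -(1 / 2) ≤ y i - cen j' i ∧ y i - cen j' i < 1 / 2 := h2 i
    rw [cen_apply] at h
    push_cast at h ⊢
    exact h)
  have h5 : ∀ i, (if j = some i then 1 else 0 : ℤ) = (if j' = some i then 1 else 0) := by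
    intro i
    have a := h3 i
    have b := h4 i
    linarith
  rcases j with _ | a
  · rcases j' with _ | b
    · rfl
    · have := h5 b
      simp at this
  · have := h5 a
    simp at this
    exact this.symm

theorem HD_vol : volume HD = 8 := by
  rw [HD_eq, measure_iUnion (fun j j' h => cube_disj h) cube_meas]
  simp only [cube_vol]
  rw [tsum_fintype]
  simp

end Pool.Agent.H99G
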