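import Pool.Agent.H99G.Sdef
import Pool.Agent.H99G.Cel

set_option autoImplicit false

/-! # The squared distance to the lattice: attained, periodic, continuous (helper67) -/

namespace Pool.Agent.H99G

open MeasureTheory Matrix

private theorem s4_nonneg (x : Fin (6 + 1) → ℝ) : 0 ≤ x ⬝ᵥ x :=
  Finset.sum_nonneg fun i _ => mul_self_nonneg (x i)

private theorem s4_cs (x y : Fin (6 + 1) → ℝ) : (x ⬝ᵥ y) ^ 2 ≤ (x ⬝ᵥ x) * (y ⬝ᵥ y) := by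
  have h := Finset.sum_mul_sq_le_sq_mul_sq Finset.univ x y
  simpa [dotProduct, sq] using h

private theorem s4_sub (y l : Fin (6 + 1) → ℝ) :
    (y - l) ⬝ᵥ (y - l) = y ⬝ᵥ y - 2 * (y ⬝ᵥ l) + l ⬝ᵥ l := by
  rw [sub_dotProduct, dotProduct_sub, dotProduct_sub, dotProduct_comm l y]
  ring

private theorem s4_bdd (L : AddSubgroup (Fin (6 + 1) → ℝ)) (y : Fin (6 + 1) → ℝ) :
    BddBelow (Set.range fun l : L =>
      (y - (l : Fin (6 + 1) → ℝ)) ⬝ᵥ (y - (l : Fin (6 + 1) → ℝ))) :=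
  ⟨0, by rintro _ ⟨l, rfl⟩; exact s4_nonneg _⟩

theorem d2_le {L : AddSubgroup (Fin (6 + 1) → ℝ)} (y : Fin (6 + 1) → ℝ) {l : Fin (6 + 1) → ℝ}
    (hl : l ∈ L) : d2 L y ≤ (y - l) ⬝ᵥ (y - l) :=
  ciInf_le (s4_bdd L y) (⟨l, hl⟩ : L)

theorem d2_attained {μ : ℝ} {L : AddSubgroup (Fin (6 + 1) → ℝ)} (h : Good L μ)
    (y : Fin (6 + 1) → ℝ) : ∃ l ∈ L, d2 L y = (y - l) ⬝ᵥ (y - l) := by
  have hfin : {l : Fin (6 + 1) → ℝ | l ∈ L ∧ 2 * ((y - l) ⬝ᵥ (y - l)) ≤ μ}.Finite := by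
    refine (h.fin (2 * (y ⬝ᵥ y) + μ)).subset ?_
    rintro l ⟨hl, hle⟩
    refine ⟨hl, ?_⟩
    have h1 := s4_sub y l
    have h2 : 0 ≤ (y - (l - y)) ⬝ᵥ (y - (l - y)) := s4_nonneg _
    have h3 : (y - (l - y)) ⬝ᵥ (y - (l - y)) = 4 * (y ⬝ᵥ y) - 4 * (y ⬝ᵥ l) + l ⬝ᵥ l := by
      simp only [sub_dotProduct, dotProduct_sub, dotProduct_comm l y]
      ring
    linarith
  obtain ⟨l₁, hl₁, hle₁⟩ := h.cov y
  obtain ⟨l₀, hl₀, hmin⟩ := Set.exists_min_image _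
    (fun l : Fin (6 + 1) → ℝ => (y - l) ⬝ᵥ (y - l)) hfin ⟨l₁, hl₁, hle₁⟩
  refine ⟨l₀, hl₀.1, le_antisymm (d2_le y hl₀.1) ?_⟩
  refine le_ciInf fun l => ?_
  rcases le_or_gt (2 * ((y - (l : Fin (6 + 1) → ℝ)) ⬝ᵥ (y - (l : Fin (6 + 1) → ℝ)))) μ with h2 | h2
  · exact hmin _ ⟨l.2, h2⟩
  · have h3 := hl₀.2
    linarith

theorem d2_add {L : AddSubgroup (Fin (6 + 1) → ℝ)} (y : Fin (6 + 1) → ℝ) {l : Fin (6 + 1) → ℝ}
    (hl : l ∈ L) : d2 L (y + l) = d2 L y := by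
  rw [d2, d2, ← (Equiv.addRight (⟨l, hl⟩ : L)).iInf_comp]
  refine iInf_congr fun l' => ?_
  have h1 : y + l - ((Equiv.addRight (⟨l, hl⟩ : L) l' : L) : Fin (6 + 1) → ℝ)
      = y - (l' : Fin (6 + 1) → ℝ) := by
    simp
  rw [h1]

private theorem s4_mu {μ : ℝ} {L : AddSubgroup (Fin (6 + 1) → ℝ)} (h : Good L μ)
    (y : Fin (6 + 1) → ℝ) : 2 * d2 L y ≤ μ := by
  obtain ⟨l, hl, hle⟩ := h.cov y
  have := d2_le y hl
  linarith

private theorem s4_lip {μ : ℝ} {L : AddSubgroup (Fin (6 + 1) → ℝ)} (h : Good L μ)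
    (y z : Fin (6 + 1) → ℝ) :
    d2 L z ≤ d2 L y + (2 * Real.sqrt (((z - y) ⬝ᵥ (z - y)) * μ) + (z - y) ⬝ᵥ (z - y)) := by
  obtain ⟨l, hl, hle⟩ := d2_attained h y
  have h1 := d2_le z hl
  have h2 : z - l = (z - y) + (y - l) := by abel
  have h3 : (z - l) ⬝ᵥ (z - l)
      = (z - y) ⬝ᵥ (z - y) + 2 * ((z - y) ⬝ᵥ (y - l)) + (y - l) ⬝ᵥ (y - l) := by
    rw [h2, add_dotProduct, dotProduct_add, dotProduct_add, dotProduct_comm (y - l) (z - y)]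
    ring
  have h4 := s4_cs (z - y) (y - l)
  have h5 := s4_mu h y
  have h6 : (z - y) ⬝ᵥ (y - l) ≤ Real.sqrt (((z - y) ⬝ᵥ (z - y)) * μ) := by
    refine Real.le_sqrt_of_sq_le (h4.trans ?_)
    refine mul_le_mul_of_nonneg_left ?_ (s4_nonneg _)
    have := s4_nonneg (y - l)
    linarith [h.pos]
  rw [hle]
  linarith

theorem d2_cont {μ : ℝ} {L : AddSubgroup (Fin (6 + 1) → ℝ)} (h : Good L μ) :
    Continuous (d2 L) := by
  rw [continuous_iff_continuousAt]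
  intro y
  rw [ContinuousAt, tendsto_iff_norm_sub_tendsto_zero]
  have hc : Continuous fun z : Fin (6 + 1) → ℝ =>
      2 * Real.sqrt (((z - y) ⬝ᵥ (z - y)) * μ) + (z - y) ⬝ᵥ (z - y) := by
    unfold dotProduct
    fun_prop
  have hl := hc.tendsto y
  have h0 : 2 * Real.sqrt (((y - y) ⬝ᵥ (y - y)) * μ) + (y - y) ⬝ᵥ (y - y) = 0 := by
    simp
  rw [h0] at hl
  refine squeeze_zero (fun z => norm_nonneg _) (fun z => ?_) hl
  have h1 := s4_lip h y z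
  have h2 := s4_lip h z y
  have h3 : (y - z) ⬝ᵥ (y - z) = (z - y) ⬝ᵥ (z - y) := by
    rw [← neg_sub z y, neg_dotProduct, dotProduct_neg, neg_neg]
  rw [h3] at h2
  rw [Real.norm_eq_abs, abs_le]
  constructor <;> linarith

/-- on the cell `d2` is `y . y` -/
theorem GG_eq {μ : ℝ} {L : AddSubgroup (Fin (6 + 1) → ℝ)} (h : Good L μ) :
    GG L = ∫ y in PP L, d2 L y := by
  rw [GG]
  refine setIntegral_congr_fun PP_closed.measurableSet fun y hy => ?_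
  refine le_antisymm (le_ciInf fun l => ?_) ?_
  · have h1 := hy l l.2
    have h2 := s4_sub y l
    linarith
  · have h1 := d2_le y L.zero_mem
    rwa [sub_zero] at h1

end Pool.Agent.H99G
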