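import Pool.Agent.H99G.Sdef

set_option autoImplicit false

/-! # The integral over the eight cubes (helper76) -/

namespace Pool.Agent.H99G

open MeasureTheory Matrix Set

/-- the hard decision bound, as a function on the unit cube -/
noncomputable def hd (j : Option (Fin 7)) (u : Fin 7 → ℝ) : ℝ :=
  u ⬝ᵥ u + (match j with | none => 0 | some i => 1 - 2 * |u i|)

private theorem s5_UC : UC = Set.univ.pi fun _ : Fin 7 => Ico (-(1 / 2) : ℝ) (1 / 2) := by
  ext u
  simp [UC, Set.mem_pi]

private theorem s5_meas : MeasurableSet UC := by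
  rw [s5_UC]
  exact MeasurableSet.univ_pi fun _ => measurableSet_Ico

private instance s5_prob : IsProbabilityMeasure ((volume : Measure ℝ).restrict
    (Ico (-(1 / 2)) (1 / 2))) := by
  constructor
  rw [Measure.restrict_apply_univ, Real.volume_Ico]
  norm_num

private theorem s5_restr : (volume : Measure (Fin 7 → ℝ)).restrict UC =
    Measure.pi fun _ : Fin 7 => (volume : Measure ℝ).restrict (Ico (-(1 / 2)) (1 / 2)) := by
  rw [s5_UC, volume_pi, Measure.restrict_pi_pi]

private theorem s5_eval (i : Fin 7) {f : ℝ → ℝ} (hf : Continuous f) :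
    ∫ u in UC, f (u i) = ∫ x in (-(1 / 2))..(1 / 2), f x := by
  rw [s5_restr, intervalIntegral.integral_of_le (by norm_num), ← integral_Ico_eq_integral_Ioc]
  have h := (measurePreserving_eval
    (fun _ : Fin 7 => (volume : Measure ℝ).restrict (Ico (-(1 / 2)) (1 / 2))) i).map_eq
  conv_rhs => rw [← h]
  rw [integral_map (measurable_pi_apply i).aemeasurable hf.aestronglyMeasurable]

private theorem s5_int {f : (Fin 7 → ℝ) → ℝ} (hf : Continuous f) (a : Fin 7 → ℝ) :
    IntegrableOn f {y | y - a ∈ UC} := by
  have hK : IsCompact (Set.univ.pi fun i : Fin 7 => Icc (a i - 1) (a i + 1)) :=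
    isCompact_univ_pi fun _ => isCompact_Icc
  refine (hf.continuousOn.integrableOn_compact hK).mono_set ?_
  intro y hy i _
  have h := hy i
  simp only [Pi.sub_apply] at h
  constructor <;> linarith [h.1, h.2]

private theorem s5_intU {f : (Fin 7 → ℝ) → ℝ} (hf : Continuous f) : IntegrableOn f UC := by
  have h := s5_int hf 0
  simpa using h

private theorem s5_sq (i : Fin 7) : ∫ u in UC, u i * u i = 1 / 12 := by
  rw [s5_eval i (f := fun x => x * x) (by fun_prop)]
  have : ∀ x : ℝ, x * x = x ^ 2 := fun x => by ring
  simp only [this]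
  rw [integral_pow]
  norm_num

private theorem s5_abs (i : Fin 7) : ∫ u in UC, |u i| = 1 / 4 := by
  rw [s5_eval i (f := fun x => |x|) continuous_abs,
    ← intervalIntegral.integral_add_adjacent_intervals (b := 0)
      (continuous_abs.intervalIntegrable _ _) (continuous_abs.intervalIntegrable _ _)]
  have h1 : ∫ x in (-(1 / 2) : ℝ)..0, |x| = ∫ x in (-(1 / 2) : ℝ)..0, -x := by
    refine intervalIntegral.integral_congr fun x hx => ?_
    rw [uIcc_of_le (by norm_num)] at hx
    exact abs_of_nonpos hx.2
  have h2 : ∫ x in (0 : ℝ)..(1 / 2), |x| = ∫ x in (0 : ℝ)..(1 / 2), x := by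
    refine intervalIntegral.integral_congr fun x hx => ?_
    rw [uIcc_of_le (by norm_num)] at hx
    exact abs_of_nonneg hx.1
  rw [h1, h2, intervalIntegral.integral_neg, integral_id, integral_id]
  norm_num

private theorem s5_dot : ∫ u in UC, u ⬝ᵥ u = 7 / 12 := by
  simp only [dotProduct]
  rw [integral_finsetSum _ fun i _ => s5_intU (by fun_prop)]
  simp only [s5_sq]
  norm_num

private theorem s5_one : ∫ _ in UC, (1 : ℝ) = 1 := by
  rw [s5_restr, integral_const, probReal_univ, one_smul]

private theorem s5_cont : Continuous fun u : Fin 7 → ℝ => u ⬝ᵥ u := by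
  unfold dotProduct
  fun_prop

private theorem s5_none : ∫ u in UC, hd none u = 7 / 12 := by
  simp only [hd, add_zero]
  exact s5_dot

private theorem s5_some (i : Fin 7) : ∫ u in UC, hd (some i) u = 13 / 12 := by
  simp only [hd]
  rw [integral_add (s5_intU s5_cont) (s5_intU (by fun_prop)),
    integral_sub (s5_intU (by fun_prop)) (s5_intU (by fun_prop)), integral_const_mul, s5_dot,
    s5_abs, s5_one]
  norm_num

theorem int_hd : ∑ j : Option (Fin 7), ∫ u in UC, hd j u = 49 / 6 := by
  rw [Fintype.sum_option, s5_none]
  simp only [s5_some]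
  norm_num

theorem int_HD {f : (Fin 7 → ℝ) → ℝ} (hf : Continuous f) :
    ∫ y in HD, f y = ∑ j : Option (Fin 7), ∫ u in UC, f (cen j + u) := by
  have hm : ∀ j : Option (Fin 7), MeasurableSet {y : Fin 7 → ℝ | y - cen j ∈ UC} := fun j =>
    (measurable_id.sub_const (cen j)) s5_meas
  have h1 : HD = ⋃ j : Option (Fin 7), {y : Fin 7 → ℝ | y - cen j ∈ UC} := by
    ext y
    simp [HD]
  have hdis : Pairwise (Function.onFun Disjoint
      fun j : Option (Fin 7) => {y : Fin 7 → ℝ | y - cen j ∈ UC}) := by
    intro j j' hjj
    refine Set.disjoint_left.2 fun y hy hy' => ?_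
    obtain ⟨i, hi⟩ : ∃ i : Fin 7, cen j i ≠ cen j' i := by
      by_contra hcon
      push Not at hcon
      apply hjj
      cases j with
      | none =>
        cases j' with
        | none => rfl
        | some i =>
          have := hcon i
          simp [cen] at this
      | some i =>
        have h := hcon i
        cases j' with
        | none => simp [cen] at h
        | some i' =>
          simp only [cen, if_true] at h
          by_contra hne
          rw [if_neg fun h' => hne h'.symm] at h
          exact one_ne_zero h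
    have h2 := hy i
    have h3 := hy' i
    simp only [Pi.sub_apply] at h2 h3
    have h4 : cen j i = 0 ∨ cen j i = 1 := by
      unfold cen
      split_ifs
      · exact Or.inr rfl
      · exact Or.inl rfl
    have h5 : cen j' i = 0 ∨ cen j' i = 1 := by
      unfold cen
      split_ifs
      · exact Or.inr rfl
      · exact Or.inl rfl
    rcases h4 with h4 | h4 <;> rcases h5 with h5 | h5 <;> rw [h4] at h2 hi <;> rw [h5] at h3 hi
    · exact hi rfl
    · linarith [h2.1, h2.2, h3.1, h3.2]
    · linarith [h2.1, h2.2, h3.1, h3.2]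
    · exact hi rfl
  rw [h1, integral_iUnion_fintype hm hdis fun j => s5_int hf (cen j)]
  refine Finset.sum_congr rfl fun j _ => ?_
  rw [← integral_indicator (hm j), ← integral_indicator s5_meas,
    ← integral_add_left_eq_self _ (cen j)]
  congr 1
  funext u
  by_cases hu : u ∈ UC
  · rw [Set.indicator_of_mem hu, Set.indicator_of_mem]
    show cen j + u - cen j ∈ UC
    rwa [add_sub_cancel_left]
  · rw [Set.indicator_of_notMem hu, Set.indicator_of_notMem]
    show cen j + u - cen j ∉ UC
    rwa [add_sub_cancel_left]

end Pool.Agent.H99G
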