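import Pool.Agent.H99G.S1
import Pool.Agent.H99G.S2
import Pool.Agent.H99G.S3
import Pool.Agent.H99G.S4
import Pool.Agent.H99G.S5

set_option autoImplicit false

/-! # The second moment of `E7*` by decoding the Hamming code (helper55) -/

namespace Pool.Agent.H99G

open MeasureTheory Matrix

private theorem mem_of {k : Fin 7 → ℤ} (hk : InH k) : rv k ∈ E7s := ⟨k, hk, rfl⟩

theorem d2_hd (j : Option (Fin 7)) (u : Fin 7 → ℝ) : d2 E7s (cen j + u) ≤ hd j u := by
  rcases j with _ | i
  · have h := d2_le (L := E7s) (cen none + u) (E7s.zero_mem)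
    refine h.trans (le_of_eq ?_)
    have h1 : cen none + u - (0 : Fin 7 → ℝ) = u := by
      funext x
      simp [cen]
    rw [h1]
    simp [hd]
  · have hsum : ∀ c : ℝ, (u + c • (Pi.single i 1 : Fin 7 → ℝ)) ⬝ᵥ
        (u + c • (Pi.single i 1 : Fin 7 → ℝ)) = u ⬝ᵥ u + 2 * c * u i + c ^ 2 := by
      intro c
      simp only [add_dotProduct, dotProduct_add, smul_dotProduct, dotProduct_smul, smul_eq_mul,
        single_dotProduct, dotProduct_single, one_mul, mul_one, Pi.add_apply, Pi.smul_apply,
        Pi.single_eq_same]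
      ring
    rcases le_or_gt 0 (u i) with hu | hu
    · have hk : InH (Pi.single i 2) := by
        revert i
        intro i _ _
        fin_cases i <;> simp [InH, Fin.ext_iff]
      have h := d2_le (L := E7s) (cen (some i) + u) (mem_of hk)
      refine h.trans (le_of_eq ?_)
      have h1 : cen (some i) + u - rv (Pi.single i 2) =
          u + (-1 : ℝ) • (Pi.single i 1 : Fin 7 → ℝ) := by
        funext x
        by_cases hx : x = i
        · subst hx
          simp [cen, rv]
          ring
        · have : (some i : Option (Fin 7)) ≠ some x := fun h => hx (Option.some.inj h).symm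
          simp [cen, rv, hx, this]
      rw [h1, hsum, hd]
      rw [abs_of_nonneg hu]
      ring
    · have h := d2_le (L := E7s) (cen (some i) + u) (E7s.zero_mem)
      refine h.trans (le_of_eq ?_)
      have h1 : cen (some i) + u - (0 : Fin 7 → ℝ) =
          u + (1 : ℝ) • (Pi.single i 1 : Fin 7 → ℝ) := by
        funext x
        by_cases hx : x = i
        · subst hx
          simp [cen]
          ring
        · have : (some i : Option (Fin 7)) ≠ some x := fun h => hx (Option.some.inj h).symm
          simp [cen, hx]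
          intro h'
          exact absurd h'.symm hx
      rw [h1, hsum, hd]
      rw [abs_of_neg hu]
      ring

private theorem UC_meas : MeasurableSet UC := by
  have h : UC = Set.univ.pi fun _ : Fin 7 => Set.Ico (-(1 / 2) : ℝ) (1 / 2) := by
    ext u
    simp [UC, Set.mem_pi]
  rw [h]
  exact MeasurableSet.univ_pi fun _ => measurableSet_Ico

private theorem UC_sub : UC ⊆ Set.Icc (fun _ => -(1 / 2)) (fun _ => 1 / 2) := by
  intro u hu
  exact ⟨fun i => (hu i).1, fun i => (hu i).2.le⟩

private theorem integ_UC {f : (Fin 7 → ℝ) → ℝ} (hf : Continuous f) : IntegrableOn f UC :=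
  (hf.continuousOn.integrableOn_compact isCompact_Icc).mono_set UC_sub

private theorem cont_hd (j : Option (Fin 7)) : Continuous (hd j) := by
  rcases j with _ | i
  · have : hd none = fun u : Fin 7 → ℝ => u ⬝ᵥ u + 0 := rfl
    rw [this]
    simp only [dotProduct]
    fun_prop
  · have : hd (some i) = fun u : Fin 7 → ℝ => u ⬝ᵥ u + (1 - 2 * |u i|) := rfl
    rw [this]
    simp only [dotProduct]
    fun_prop

private theorem cont_d2 (j : Option (Fin 7)) : Continuous fun u => d2 E7s (cen j + u) :=
  (d2_cont E7s_good).comp (continuous_const.add continuous_id)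

private def OO : Set (Fin 7 → ℝ) :=
  Set.univ.pi fun i => if i = 1 ∨ i = 2 then Set.Ioo (3 / 8 : ℝ) (1 / 2) else Set.Ioo (-(1 / 16)) (1 / 16)

private theorem OO_open : IsOpen OO := by
  refine isOpen_set_pi Set.finite_univ fun i _ => ?_
  split_ifs <;> exact isOpen_Ioo

private theorem OO_ne : OO.Nonempty := by
  refine ⟨fun i => if i = 1 ∨ i = 2 then 7 / 16 else 0, fun i _ => ?_⟩
  by_cases h : i = 1 ∨ i = 2
  · simp only [if_pos h]
    constructor <;> norm_num
  · simp only [if_neg h]
    constructor <;> norm_num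

private theorem OO_sub : OO ⊆ UC := by
  intro u hu i
  have h := hu i trivial
  by_cases h1 : i = 1 ∨ i = 2
  · simp only [if_pos h1, Set.mem_Ioo] at h
    constructor <;> linarith [h.1, h.2]
  · simp only [if_neg h1, Set.mem_Ioo] at h
    constructor <;> linarith [h.1, h.2]

private theorem OO_lt {u : Fin 7 → ℝ} (hu : u ∈ OO) :
    d2 E7s (cen (some 0) + u) < hd (some 0) u := by
  have hk : InH ![1, 1, 1, 0, 0, 0, 0] := by decide
  have h := d2_le (L := E7s) (cen (some 0) + u) (mem_of hk)
  have h0 := hu 0 trivial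
  have h1 := hu 1 trivial
  have h2 := hu 2 trivial
  simp only [Fin.isValue, if_neg (show ¬((0 : Fin 7) = 1 ∨ (0 : Fin 7) = 2) by decide),
    Set.mem_Ioo] at h0
  simp only [Fin.isValue, if_pos (show ((1 : Fin 7) = 1 ∨ (1 : Fin 7) = 2) by decide),
    Set.mem_Ioo] at h1
  simp only [Fin.isValue, if_pos (show ((2 : Fin 7) = 1 ∨ (2 : Fin 7) = 2) by decide),
    Set.mem_Ioo] at h2
  have h3 : (cen (some 0) + u - rv ![1, 1, 1, 0, 0, 0, 0]) ⬝ᵥ
      (cen (some 0) + u - rv ![1, 1, 1, 0, 0, 0, 0]) = u ⬝ᵥ u + 2 - 2 * u 1 - 2 * u 2 := by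
    simp only [dotProduct, Fin.sum_univ_seven, Pi.sub_apply, Pi.add_apply, cen, rv]
    simp
    ring
  rw [h3] at h
  have h4 : hd (some 0) u = u ⬝ᵥ u + (1 - 2 * |u 0|) := rfl
  have h5 : |u 0| < 1 / 16 := abs_lt.2 ⟨by linarith [h0.1], h0.2⟩
  rw [h4]
  linarith [h1.1, h2.1]

theorem d2_strict : ∫ u in UC, d2 E7s (cen (some 0) + u) < ∫ u in UC, hd (some 0) u := by
  have h1 : 0 < ∫ u in UC, (hd (some 0) u - d2 E7s (cen (some 0) + u)) := by
    rw [setIntegral_pos_iff_support_of_nonneg_ae]
    · refine lt_of_lt_of_le (OO_open.measure_pos volume OO_ne) (measure_mono fun u hu => ?_)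
      refine ⟨?_, OO_sub hu⟩
      rw [Function.mem_support]
      have := OO_lt hu
      intro h
      linarith
    · exact Filter.Eventually.of_forall fun u => sub_nonneg.2 (d2_hd (some 0) u)
    · exact (integ_UC (cont_hd _)).sub (integ_UC (cont_d2 _))
  rw [integral_sub (integ_UC (cont_hd _)) (integ_UC (cont_d2 _))] at h1
  linarith

theorem E7s_bound : 144 * GG E7s < 147 * (volume (PP E7s)).toReal := by
  have hP := PP_fund E7s_good
  have hcount : Countable E7s := by
    have h1 : Function.Surjective (fun k : {k : Fin 7 → ℤ // InH k} =>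
        (⟨rv k.1, mem_of k.2⟩ : E7s)) := by
      rintro ⟨x, k, hk, rfl⟩
      exact ⟨⟨k, hk⟩, rfl⟩
    exact h1.countable
  have h1 : volume (PP E7s) = volume HD := hP.measure_eq HD_fund
  have h2 : ∫ y in PP E7s, d2 E7s y = ∫ y in HD, d2 E7s y := by
    refine hP.setIntegral_eq HD_fund ?_
    intro l x
    have h3 : l +ᵥ x = x + (l : Fin 7 → ℝ) := add_comm _ _
    rw [h3]
    exact d2_add x l.2
  have h3 : GG E7s < 49 / 6 := by
    rw [GG_eq E7s_good, h2, int_HD (d2_cont E7s_good), ← int_hd]
    refine Finset.sum_lt_sum (fun j _ => ?_) ⟨some 0, Finset.mem_univ _, d2_strict⟩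
    exact setIntegral_mono (integ_UC (cont_d2 j)) (integ_UC (cont_hd j)) fun u => d2_hd j u
  rw [h1, HD_vol]
  have h4 : (8 : ENNReal).toReal = 8 := by norm_num
  rw [h4]
  linarith

end Pool.Agent.H99G
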