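import Pool.Agent.H99G.Sdef

set_option autoImplicit false

/-! # The automorphisms of `E7*` are irreducible on the traceless symmetric matrices (helper55) -/

namespace Pool.Agent.H99G

open Matrix

private theorem aut_of {g : Matrix (Fin (6 + 1)) (Fin (6 + 1)) ℝ} (ht : gᵀ = g) (h1 : g * g = 1)
    (h3 : ∀ x ∈ E7s, g *ᵥ x ∈ E7s) : IsAut E7s g := by
  refine ⟨by rw [ht, h1], by rw [ht, h1], fun x => ⟨fun h => ?_, h3 x⟩⟩
  have h5 := h3 _ h
  rwa [Matrix.mulVec_mulVec, h1, Matrix.one_mulVec] at h5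

/-! ### sign changes -/

private def sg (a : Fin 7) (i : Fin 7) : ℤ := if i = a then -1 else 1

private theorem sg_sq (a i : Fin 7) : sg a i * sg a i = 1 := by
  unfold sg; split_ifs <;> norm_num

private noncomputable def sm (a : Fin 7) : Matrix (Fin 7) (Fin 7) ℝ :=
  diagonal fun i => (sg a i : ℝ)

private theorem sm_t (a : Fin 7) : (sm a)ᵀ = sm a := diagonal_transpose _

private theorem sm_mul (a : Fin 7) : sm a * sm a = 1 := by
  rw [sm, diagonal_mul_diagonal, ← diagonal_one]
  congr 1
  funext i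
  exact_mod_cast sg_sq a i

private theorem sm_conj (a : Fin 7) (B : Matrix (Fin 7) (Fin 7) ℝ) (i j : Fin 7) :
    (sm a * B * (sm a)ᵀ) i j = sg a i * sg a j * B i j := by
  rw [sm_t, sm, Matrix.mul_diagonal, Matrix.diagonal_mul]
  ring

private theorem sg_par (a i : Fin 7) (k : ℤ) : ∃ m : ℤ, sg a i * k = k + 2 * m := by
  unfold sg
  split_ifs
  · exact ⟨-k, by ring⟩
  · exact ⟨0, by ring⟩

private theorem sm_L (a : Fin 7) (x : Fin 7 → ℝ) (hx : x ∈ E7s) : sm a *ᵥ x ∈ E7s := by
  obtain ⟨k, ⟨h1, h2, h3⟩, rfl⟩ := hx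
  refine ⟨fun i => sg a i * k i, ?_, ?_⟩
  · choose m hm using fun i => sg_par a i (k i)
    simp only [InH, hm]
    refine ⟨?_, ?_, ?_⟩ <;> omega
  · funext i
    simp only [sm, Matrix.mulVec_diagonal, rv]
    push_cast
    ring

private theorem sm_aut (a : Fin 7) : IsAut E7s (sm a) := aut_of (sm_t a) (sm_mul a) (sm_L a)

/-! ### the reflections -/

/-- the seven words of weight 4 of the dual code -/
private def mk (t i : Fin 7) : ℤ :=
  (![![1, 0, 1, 0, 1, 0, 1], ![0, 1, 1, 0, 0, 1, 1], ![1, 1, 0, 0, 1, 1, 0],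
    ![0, 0, 0, 1, 1, 1, 1], ![1, 0, 1, 1, 0, 1, 0], ![0, 1, 1, 1, 1, 0, 0],
    ![1, 1, 0, 1, 0, 0, 1]] : Fin 7 → Fin 7 → ℤ) t i

private theorem mk_sum (t : Fin 7) : ∑ i, mk t i * mk t i = 4 := by
  revert t; decide

private noncomputable def rf (t : Fin 7) : Matrix (Fin 7) (Fin 7) ℝ :=
  Matrix.of fun a b => (if a = b then 1 else 0) - (mk t a : ℝ) * mk t b / 2

private theorem rf_t (t : Fin 7) : (rf t)ᵀ = rf t := by
  ext a b
  simp only [rf, Matrix.transpose_apply, Matrix.of_apply, eq_comm, mul_comm]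

private theorem rf_mulVec (t : Fin 7) (y : Fin 7 → ℝ) (a : Fin 7) :
    (rf t *ᵥ y) a = y a - mk t a * (∑ i, mk t i * y i) / 2 := by
  have h1 : ∀ i, ((if a = i then (1 : ℝ) else 0) - (mk t a : ℝ) * mk t i / 2) * y i =
      (if a = i then y i else 0) - mk t a / 2 * (mk t i * y i) := by
    intro i
    split_ifs <;> ring
  simp only [rf, Matrix.mulVec, dotProduct, Matrix.of_apply, h1, Finset.sum_sub_distrib,
    Finset.sum_ite_eq, Finset.mem_univ, if_true, ← Finset.mul_sum]
  ring

private theorem rf_mul (t : Fin 7) : rf t * rf t = 1 := by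
  ext a b
  have h1 : (rf t * rf t) a b = (rf t *ᵥ fun c => rf t c b) a := by
    simp only [Matrix.mul_apply, Matrix.mulVec, dotProduct]
  have h2 : ∑ i, (mk t i : ℝ) * rf t i b = -mk t b := by
    have h3 : ∀ i, (mk t i : ℝ) * rf t i b =
        (if i = b then (mk t i : ℝ) else 0) - mk t b / 2 * (mk t i * mk t i) := by
      intro i
      simp only [rf, Matrix.of_apply]
      split_ifs <;> ring
    have h4 : ∑ i, (mk t i : ℝ) * mk t i = 4 := by exact_mod_cast mk_sum t
    rw [Finset.sum_congr rfl fun i _ => h3 i, Finset.sum_sub_distrib, ← Finset.mul_sum, h4]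
    simp
    ring
  rw [h1, rf_mulVec, h2]
  simp only [rf, Matrix.of_apply, Matrix.one_apply]
  ring

private theorem rf_conj (t : Fin 7) (B : Matrix (Fin 7) (Fin 7) ℝ) (a b : Fin 7) :
    (rf t * B * (rf t)ᵀ) a b = B a b - mk t a * (∑ x, mk t x * B x b) / 2 -
      mk t b * (∑ y, mk t y * B a y) / 2 +
      mk t a * mk t b * (∑ x, ∑ y, mk t x * (mk t y * B x y)) / 4 := by
  have h1 : ∀ c, (rf t * B) a c = B a c - mk t a * (∑ x, mk t x * B x c) / 2 := by
    intro c
    have := rf_mulVec t (fun x => B x c) a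
    simpa only [Matrix.mul_apply, Matrix.mulVec, dotProduct] using this
  have h2 : (rf t * B * (rf t)ᵀ) a b = ∑ c, (rf t * B) a c * rf t b c := by
    rw [Matrix.mul_apply]
    rfl
  have h3 : ∑ c, (rf t * B) a c * rf t b c = (rf t *ᵥ fun c => (rf t * B) a c) b := by
    simp only [Matrix.mulVec, dotProduct]
    exact Finset.sum_congr rfl fun c _ => mul_comm _ _
  have h4 : ∑ i, (mk t i : ℝ) * (B a i - mk t a * (∑ x, mk t x * B x i) / 2) =
      ∑ i, (mk t i : ℝ) * B a i - mk t a / 2 * ∑ x, ∑ y, mk t x * (mk t y * B x y) := by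
    rw [Finset.sum_comm (f := fun x y => (mk t x : ℝ) * (mk t y * B x y)), Finset.mul_sum,
      ← Finset.sum_sub_distrib]
    refine Finset.sum_congr rfl fun i _ => ?_
    have h5 : ∑ x, (mk t x : ℝ) * (mk t i * B x i) = mk t i * ∑ x, mk t x * B x i := by
      rw [Finset.mul_sum]
      exact Finset.sum_congr rfl fun x _ => by ring
    rw [h5]
    ring
  rw [h2, h3, rf_mulVec, h1]
  simp only [h1]
  rw [h4]
  ring

private theorem rf_L (t : Fin 7) (x : Fin 7 → ℝ) (hx : x ∈ E7s) : rf t *ᵥ x ∈ E7s := by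
  obtain ⟨k, ⟨h1, h2, h3⟩, rfl⟩ := hx
  obtain ⟨s, hs⟩ : ∃ s : ℤ, ∑ i, mk t i * k i = 2 * s := by
    refine ⟨(∑ i, mk t i * k i) / 2, ?_⟩
    have : (∑ i, mk t i * k i) % 2 = 0 := by
      fin_cases t <;> simp [mk, Fin.sum_univ_seven] <;> omega
    omega
  refine ⟨fun i => k i - mk t i * s, ?_, ?_⟩
  · simp only [InH]
    fin_cases t <;> simp [mk] <;> omega
  · funext i
    rw [rf_mulVec]
    have h4 : ∑ i, (mk t i : ℝ) * rv k i = 2 * (s : ℝ) := by
      have : ((∑ i, mk t i * k i : ℤ) : ℝ) = ((2 * s : ℤ) : ℝ) := by rw [hs]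
      push_cast at this
      simpa only [rv] using this
    rw [h4]
    simp only [rv]
    push_cast
    ring

private theorem rf_aut (t : Fin 7) : IsAut E7s (rf t) := aut_of (rf_t t) (rf_mul t) (rf_L t)

/-! ### elementary matrices -/

private def Em (a b : Fin 7) : Matrix (Fin 7) (Fin 7) ℝ :=
  Matrix.of fun i j => if (i = a ∧ j = b) ∨ (i = b ∧ j = a) then 1 else 0

private theorem Em_comm (a b : Fin 7) : Em a b = Em b a := by
  ext i j
  simp only [Em, Matrix.of_apply, or_comm]

section main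

variable {U : Submodule ℝ (Matrix (Fin (6 + 1)) (Fin (6 + 1)) ℝ)}

private theorem minus_mem (hU : ∀ g, IsAut E7s g → ∀ B ∈ U, g * B * gᵀ ∈ U)
    {B : Matrix (Fin 7) (Fin 7) ℝ} (hB : B ∈ U) (a : Fin 7) :
    (Matrix.of fun i j => (1 - (sg a i : ℝ) * sg a j) * B i j : Matrix (Fin 7) (Fin 7) ℝ)
      ∈ U := by
  have h1 := U.sub_mem hB (hU (sm a) (sm_aut a) B hB)
  convert h1 using 1
  ext i j
  rw [Matrix.sub_apply, sm_conj, Matrix.of_apply]
  ring

private theorem Em_of (hs : ∀ B ∈ U, Bᵀ = B ∧ B.trace = 0)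
    (hU : ∀ g, IsAut E7s g → ∀ B ∈ U, g * B * gᵀ ∈ U) {B : Matrix (Fin 7) (Fin 7) ℝ}
    (hB : B ∈ U) {i j : Fin 7} (hij : i ≠ j) (h : B i j ≠ 0) : Em i j ∈ U := by
  have h1 := minus_mem hU hB i
  have h2 := minus_mem hU h1 j
  have hsym : B j i = B i j := by
    have := congrFun (congrFun (hs B hB).1 i) j
    simpa [Matrix.transpose_apply] using this
  have h5 := U.smul_mem (1 / (4 * B i j)) h2
  convert h5 using 1
  ext x y
  simp only [Matrix.smul_apply, Matrix.of_apply, smul_eq_mul, Em, sg]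
  by_cases hx : x = i
  · subst hx
    by_cases hy : y = j
    · subst hy
      simp [hij, Ne.symm hij]
      field_simp
      norm_num
    · by_cases hy' : y = x
      · subst hy'
        simp [hij]
      · simp [hij, hy, hy']
  · by_cases hx' : x = j
    · subst hx'
      by_cases hy : y = i
      · subst hy
        simp [hij, Ne.symm hij, hsym]
        field_simp
        norm_num
      · by_cases hy' : y = x
        · subst hy'
          simp [hx]
        · simp [hx, hy, hy']
    · by_cases hy : y = i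
      · subst hy
        simp [hx, hx', hij]
      · simp [hx, hx', hy]

private theorem move1 : ∀ i j a : Fin 7, i ≠ j → a ≠ j → a ≠ i →
    ∃ t, mk t i = 1 ∧ mk t a = 1 ∧ mk t j = 0 := by decide

private theorem Em_move (hs : ∀ B ∈ U, Bᵀ = B ∧ B.trace = 0)
    (hU : ∀ g, IsAut E7s g → ∀ B ∈ U, g * B * gᵀ ∈ U) {i j : Fin 7} (hij : i ≠ j)
    (h : Em i j ∈ U) {a : Fin 7} (haj : a ≠ j) : Em a j ∈ U := by
  by_cases hai : a = i
  · rwa [hai]
  obtain ⟨t, h1, h2, h3⟩ := move1 i j a hij haj hai
  apply Em_of hs hU (hU _ (rf_aut t) _ h) haj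
  rw [rf_conj, h2, h3]
  have h4 : ∑ x, (mk t x : ℝ) * Em i j x j = 1 := by
    have h5 : ∀ x, (mk t x : ℝ) * Em i j x j = if x = i then (mk t x : ℝ) else 0 := by
      intro x
      simp only [Em, Matrix.of_apply]
      by_cases hx : x = i
      · simp [hx]
      · simp [hx, Ne.symm hij]
    rw [Finset.sum_congr rfl fun x _ => h5 x, Finset.sum_ite_eq']
    simp [h1]
  have h6 : Em i j a j = 0 := by simp [Em, hai, haj]
  rw [h4, h6]
  norm_num

private theorem Em_all (hs : ∀ B ∈ U, Bᵀ = B ∧ B.trace = 0)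
    (hU : ∀ g, IsAut E7s g → ∀ B ∈ U, g * B * gᵀ ∈ U) {i j : Fin 7} (hij : i ≠ j)
    (h : Em i j ∈ U) {a b : Fin 7} (hab : a ≠ b) : Em a b ∈ U := by
  by_cases hbj : b = j
  · subst hbj
    exact Em_move hs hU hij h hab
  · have h1 := Em_move hs hU hij h hbj
    rw [Em_comm] at h1
    exact Em_move hs hU (Ne.symm hbj) h1 hab

private theorem off_mem (h : ∀ a b : Fin 7, a ≠ b → Em a b ∈ U)
    {B : Matrix (Fin 7) (Fin 7) ℝ} (hB : Bᵀ = B) (h0 : ∀ i, B i i = 0) : B ∈ U := by
  have h1 : B = ∑ a, ∑ b, (B a b / 2) • Em a b := by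
    ext i j
    simp only [Matrix.sum_apply, Matrix.smul_apply, smul_eq_mul, Em, Matrix.of_apply]
    by_cases hij : i = j
    · subst hij
      rw [h0, eq_comm]
      refine Finset.sum_eq_zero fun a _ => Finset.sum_eq_zero fun b _ => ?_
      by_cases hab : i = a ∧ i = b
      · rw [← hab.1, ← hab.2, h0]; ring
      · rw [if_neg (by rintro (⟨h1, h2⟩ | ⟨h1, h2⟩) <;> exact hab (by constructor <;> assumption))]
        ring
    · have h2 : ∀ a b, (B a b / 2) * (if (i = a ∧ j = b) ∨ (i = b ∧ j = a) then (1 : ℝ) else 0) =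
          (if a = i then (if b = j then B i j / 2 else 0) else 0) +
          (if a = j then (if b = i then B i j / 2 else 0) else 0) := by
        intro a b
        have hs : B j i = B i j := by
          have := congrFun (congrFun hB i) j
          simpa [Matrix.transpose_apply] using this
        by_cases ha : a = i
        · subst ha
          by_cases hb : b = j
          · subst hb
            simp [hij]
          · simp [hij, hb, Ne.symm hb]
            intro _ h4
            exact absurd h4.symm hij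
        · by_cases ha' : a = j
          · subst ha'
            by_cases hb : b = i
            · subst hb
              simp [ha, hs]
            · simp [Ne.symm hb, hb, ha]
              intro h3
              exact absurd h3 hij
          · simp [ha, ha', Ne.symm ha, Ne.symm ha']
      simp only [h2, Finset.sum_add_distrib]
      simp
  rw [h1]
  refine U.sum_mem fun a _ => U.sum_mem fun b _ => ?_
  by_cases hab : a = b
  · subst hab
    rw [h0]
    simp
  · exact U.smul_mem _ (h a b hab)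

private def Fm (a b : Fin 7) : Matrix (Fin 7) (Fin 7) ℝ :=
  diagonal fun i => (if i = a then 1 else 0) - (if i = b then 1 else 0)

private theorem D_mem (hs : ∀ B ∈ U, Bᵀ = B ∧ B.trace = 0)
    (hU : ∀ g, IsAut E7s g → ∀ B ∈ U, g * B * gᵀ ∈ U) (h : ∀ a b : Fin 7, a ≠ b → Em a b ∈ U)
    (t i j : Fin 7) (hij : i ≠ j) (hi : mk t i = 1) (hj : mk t j = 1)
    (h01 : ∀ x, mk t x * mk t x = mk t x) :
    diagonal (fun a => ((mk t a * (1 - 2 * (if a = i ∨ a = j then 1 else 0)) : ℤ) : ℝ) / 2)
      ∈ U := by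
  have hC := hU (rf t) (rf_aut t) _ (h i j hij)
  set C : Matrix (Fin 7) (Fin 7) ℝ := rf t * Em i j * (rf t)ᵀ with hCdef
  have e1 : ∀ a, ∑ x, (mk t x : ℝ) * Em i j x a = if a = i ∨ a = j then 1 else 0 := by
    intro a
    have h5 : ∀ x, (mk t x : ℝ) * Em i j x a =
        (if x = i then (if a = j then (mk t x : ℝ) else 0) else 0) +
        (if x = j then (if a = i then (mk t x : ℝ) else 0) else 0) := by
      intro x
      simp only [Em, Matrix.of_apply]
      by_cases hx : x = i
      · subst hx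
        simp [hij]
      · by_cases hx' : x = j
        · subst hx'
          simp [hx]
        · simp [hx, hx']
    rw [Finset.sum_congr rfl fun x _ => h5 x, Finset.sum_add_distrib, Finset.sum_ite_eq',
      Finset.sum_ite_eq']
    simp only [Finset.mem_univ, if_true, hi, hj, Int.cast_one]
    by_cases h6 : a = i
    · subst h6
      simp [hij]
    · simp [h6]
  have e2 : ∀ a, ∑ x, (mk t x : ℝ) * Em i j a x = if a = i ∨ a = j then 1 else 0 := by
    intro a
    rw [← e1 a]
    refine Finset.sum_congr rfl fun x _ => ?_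
    congr 1
    simp only [Em, Matrix.of_apply]
    by_cases h6 : (a = i ∧ x = j) ∨ (a = j ∧ x = i)
    · rw [if_pos h6, if_pos (by tauto)]
    · rw [if_neg h6, if_neg (by tauto)]
  have e3 : ∑ x, ∑ y, (mk t x : ℝ) * (mk t y * Em i j x y) = 2 := by
    have h5 : ∀ x, ∑ y, (mk t x : ℝ) * (mk t y * Em i j x y) =
        (if x = i then (mk t x : ℝ) else 0) + (if x = j then (mk t x : ℝ) else 0) := by
      intro x
      rw [← Finset.mul_sum, e2]
      by_cases hx : x = i
      · subst hx
        simp [hij]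
      · simp [hx]
    rw [Finset.sum_congr rfl fun x _ => h5 x, Finset.sum_add_distrib, Finset.sum_ite_eq',
      Finset.sum_ite_eq']
    simp [hi, hj]
    norm_num
  have hd : ∀ a, C a a = ((mk t a * (1 - 2 * (if a = i ∨ a = j then 1 else 0)) : ℤ) : ℝ) / 2 := by
    intro a
    have h6 : (mk t a : ℝ) * mk t a = mk t a := by exact_mod_cast h01 a
    rw [hCdef, rf_conj, e1, e2, e3, h6]
    have h7 : Em i j a a = 0 := by
      simp only [Em, Matrix.of_apply]
      rw [if_neg]
      rintro (⟨h8, h9⟩ | ⟨h8, h9⟩)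
      · exact hij (h8.symm.trans h9)
      · exact hij (h9.symm.trans h8)
    rw [h7]
    push_cast
    split_ifs <;> ring
  have h1 : C - diagonal (fun a => C a a) ∈ U := by
    apply off_mem h
    · rw [Matrix.transpose_sub, diagonal_transpose, (hs C hC).1]
    · intro i
      simp
  have h2 := U.sub_mem hC h1
  rw [sub_sub_cancel] at h2
  convert h2 using 2
  funext a
  exact (hd a).symm

private theorem move2 : ∀ a : Fin 7, a ≠ 0 → ∃ t b c : Fin 7, 0 ≠ b ∧ 0 ≠ c ∧ mk t 0 = 1 ∧
    mk t b = 1 ∧ mk t c = 1 ∧ ∀ x, mk t x * (1 - 2 * (if x = 0 ∨ x = b then 1 else 0)) +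
      mk t x * (1 - 2 * (if x = 0 ∨ x = c then 1 else 0)) =
      2 * ((if x = a then 1 else 0) - (if x = 0 then 1 else 0)) := by decide

private theorem mk01 : ∀ t x : Fin 7, mk t x * mk t x = mk t x := by decide

private theorem Fm_mem (hs : ∀ B ∈ U, Bᵀ = B ∧ B.trace = 0)
    (hU : ∀ g, IsAut E7s g → ∀ B ∈ U, g * B * gᵀ ∈ U) (h : ∀ a b : Fin 7, a ≠ b → Em a b ∈ U)
    (a : Fin 7) : Fm a 0 ∈ U := by
  by_cases ha : a = 0
  · subst ha
    have : Fm 0 0 = 0 := by
      ext a b
      simp [Fm, Matrix.diagonal_apply]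
    rw [this]
    exact U.zero_mem
  · obtain ⟨t, b, c, hb, hc, h1, h2, h3, h4⟩ := move2 a ha
    have h5 := U.add_mem (D_mem hs hU h t 0 b hb h1 h2 (mk01 t))
      (D_mem hs hU h t 0 c hc h1 h3 (mk01 t))
    convert h5 using 1
    rw [diagonal_add, Fm]
    congr 1
    funext x
    have h6 : ((mk t x * (1 - 2 * (if x = 0 ∨ x = b then 1 else 0)) +
      mk t x * (1 - 2 * (if x = 0 ∨ x = c then 1 else 0)) : ℤ) : ℝ) =
      ((2 * ((if x = a then 1 else 0) - (if x = 0 then 1 else 0)) : ℤ) : ℝ) := by rw [h4 x]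
    rw [← add_div, ← Int.cast_add, h6]
    push_cast
    ring

private theorem all_mem (hs : ∀ B ∈ U, Bᵀ = B ∧ B.trace = 0)
    (hU : ∀ g, IsAut E7s g → ∀ B ∈ U, g * B * gᵀ ∈ U) (h : ∀ a b : Fin 7, a ≠ b → Em a b ∈ U)
    {B : Matrix (Fin 7) (Fin 7) ℝ} (hB : Bᵀ = B) (ht : B.trace = 0) : B ∈ U := by
  have h1 : B - diagonal (fun a => B a a) ∈ U := by
    apply off_mem h
    · rw [Matrix.transpose_sub, diagonal_transpose, hB]
    · intro i
      simp
  have h2 : diagonal (fun a => B a a) = ∑ a, B a a • Fm a 0 := by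
    ext i j
    simp only [Matrix.sum_apply, Matrix.smul_apply, smul_eq_mul, Fm, Matrix.diagonal_apply]
    by_cases hij : i = j
    · subst hij
      simp only [if_true, mul_sub, Finset.sum_sub_distrib, mul_ite, mul_one, mul_zero,
        Finset.sum_ite_eq, Finset.mem_univ]
      have h3 : ∑ a, (if i = 0 then B a a else 0) = 0 := by
        by_cases hi : i = 0
        · simp only [hi, if_true]
          exact ht
        · simp [hi]
      rw [h3, sub_zero]
    · simp [hij]
  have h3 : diagonal (fun a => B a a) ∈ U := by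
    rw [h2]
    exact U.sum_mem fun a _ => U.smul_mem _ (Fm_mem hs hU h a)
  have h4 := U.add_mem h1 h3
  rwa [sub_add_cancel] at h4

private theorem move3 : ∀ a b : Fin 7, a ≠ b → ∃ t c : Fin 7, a ≠ c ∧ b ≠ c ∧ mk t a = 1 ∧
    mk t b = 1 ∧ mk t c = 1 := by decide

theorem E7s_irr : Irr E7s := by
  intro U hs hU
  by_cases hbot : U = ⊥
  · exact Or.inl hbot
  right
  intro B hB ht
  obtain ⟨C, hC, hC0⟩ := (Submodule.ne_bot_iff U).1 hbot
  refine all_mem hs hU ?_ hB ht
  by_cases hoff : ∃ i j : Fin 7, i ≠ j ∧ C i j ≠ 0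
  · obtain ⟨i, j, hij, h⟩ := hoff
    intro a b hab
    exact Em_all hs hU hij (Em_of hs hU hC hij h) hab
  · push Not at hoff
    by_contra hcon
    have key : ∀ t a c : Fin 7, a ≠ c → mk t a = 1 → mk t c = 1 →
        C a a + C c c = (∑ x, mk t x * (mk t x * C x x)) / 2 := by
      intro t a c hac h1 h2
      by_contra h3
      apply hcon
      have h4 : (rf t * C * (rf t)ᵀ) a c ≠ 0 := by
        rw [rf_conj, hoff a c hac, h1, h2]
        have h5 : ∑ x, (mk t x : ℝ) * C x c = C c c := by
          rw [Finset.sum_eq_single c (fun x _ hx => by rw [hoff x c hx, mul_zero]) (by simp), h2]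
          simp
        have h6 : ∑ y, (mk t y : ℝ) * C a y = C a a := by
          rw [Finset.sum_eq_single a (fun y _ hy => by rw [hoff a y (Ne.symm hy), mul_zero])
            (by simp), h1]
          simp
        have h7 : ∑ x, ∑ y, (mk t x : ℝ) * (mk t y * C x y) =
            ∑ x, mk t x * (mk t x * C x x) := by
          refine Finset.sum_congr rfl fun x _ => ?_
          exact Finset.sum_eq_single x
            (fun y _ hy => by rw [hoff x y (Ne.symm hy), mul_zero, mul_zero]) (by simp)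
        rw [h5, h6, h7]
        push_cast
        intro h8
        apply h3
        linarith
      have h5 := Em_of hs hU (hU (rf t) (rf_aut t) C hC) hac h4
      intro a' b' hab
      exact Em_all hs hU hac h5 hab
    have h2 : ∀ a b : Fin 7, C a a = C b b := by
      intro a b
      by_cases hab : a = b
      · rw [hab]
      obtain ⟨t, c, hac, hbc, h3, h4, h5⟩ := move3 a b hab
      have h6 := key t a c hac h3 h5
      have h7 := key t b c hbc h4 h5
      linarith
    have h3 : C.trace = 7 * C 0 0 := by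
      simp only [Matrix.trace, Matrix.diag]
      rw [Finset.sum_congr rfl fun i _ => h2 i 0]
      simp
    have h4 : C 0 0 = 0 := by
      have := (hs C hC).2
      rw [h3] at this
      linarith
    apply hC0
    ext i j
    by_cases hij : i = j
    · subst hij
      rw [h2 i 0, h4]
      rfl
    · simpa using hoff i j hij

end main

end Pool.Agent.H99G
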