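import Pool.Agent.H99G.Wdef
import Pool.Agent.H99G.Ego
import Pool.Agent.H99G.Eir
import Pool.Agent.H99G.E6g
import Pool.Agent.H99G.E6irr
import Pool.Agent.H99G.D4good
import Pool.Agent.H99G.D4irr
import Pool.Agent.H99G.S6
import Pool.Agent.H99G.S7

set_option autoImplicit false

/-!
# The instances of the criterion
-/

namespace Pool.Agent.H99G

open MeasureTheory Matrix Pool.Agent.D4Q

theorem E8_pos : Pos E8g 2 := pos_of_crit E8_good (Or.inl E8_min) E8_irr (by norm_num)

theorem E6s_pos : Pos E6s (4 / 3) := pos_of_crit E6s_good (Or.inl E6s_min) E6s_irr (by norm_num)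

theorem D4_pos : Pos D4 2 := pos_of_crit D4_good (Or.inl D4_min) D4_irr (by norm_num)

theorem E7s_pos : Pos E7s 5 := by
  refine pos_of_crit E7s_good (Or.inr ⟨3, by norm_num, E7s_min, ?_⟩) E7s_irr (by norm_num)
  have h := E7s_bound
  norm_num
  linarith

end Pool.Agent.H99G
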