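import Pool.Agent.H99G.Defs

set_option autoImplicit false

/-! # Invariant quadratic forms on the traceless symmetric matrices (helper82) -/

namespace Pool.Agent.H99G

open MeasureTheory Matrix

variable {m : ℕ} {L : AddSubgroup (Fin (m + 1) → ℝ)} {μ : ℝ}

private theorem iq_fro_tr (B : Matrix (Fin (m + 1)) (Fin (m + 1)) ℝ) :
    fro B = (Bᵀ * B).trace := by
  unfold fro Matrix.trace
  rw [Finset.sum_comm]
  refine Finset.sum_congr rfl fun i _ => ?_
  rw [Matrix.diag_apply, Matrix.mul_apply]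
  refine Finset.sum_congr rfl fun j _ => ?_
  rw [Matrix.transpose_apply]
  ring

private theorem iq_fro_inv {g : Matrix (Fin (m + 1)) (Fin (m + 1)) ℝ} (hg : gᵀ * g = 1)
    (B : Matrix (Fin (m + 1)) (Fin (m + 1)) ℝ) : fro (g * B * gᵀ) = fro B := by
  rw [iq_fro_tr, iq_fro_tr]
  have h1 : (g * B * gᵀ)ᵀ * (g * B * gᵀ) = g * (Bᵀ * B) * gᵀ := by
    rw [Matrix.transpose_mul, Matrix.transpose_mul, Matrix.transpose_transpose]
    calc g * (Bᵀ * gᵀ) * (g * B * gᵀ) = g * Bᵀ * (gᵀ * g) * B * gᵀ := by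
          simp only [Matrix.mul_assoc]
      _ = g * (Bᵀ * B) * gᵀ := by
          rw [hg, Matrix.mul_one]
          simp only [Matrix.mul_assoc]
  rw [h1, Matrix.trace_mul_comm, ← Matrix.mul_assoc, hg, Matrix.one_mul]

private theorem iq_fro_par (B C : Matrix (Fin (m + 1)) (Fin (m + 1)) ℝ) :
    fro (B + C) + fro (B - C) = 2 * fro B + 2 * fro C := by
  unfold fro
  simp only [Finset.mul_sum, ← Finset.sum_add_distrib, Matrix.add_apply, Matrix.sub_apply]
  refine Finset.sum_congr rfl fun i _ => Finset.sum_congr rfl fun j _ => ?_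
  ring

private theorem iq_fro_hom (c : ℝ) (B : Matrix (Fin (m + 1)) (Fin (m + 1)) ℝ) :
    fro (c • B) = c ^ 2 * fro B := by
  unfold fro
  simp only [Finset.mul_sum, Matrix.smul_apply, smul_eq_mul]
  refine Finset.sum_congr rfl fun i _ => Finset.sum_congr rfl fun j _ => ?_
  ring

private theorem iq_fro_nonneg (B : Matrix (Fin (m + 1)) (Fin (m + 1)) ℝ) : 0 ≤ fro B :=
  Finset.sum_nonneg fun _ _ => Finset.sum_nonneg fun _ _ => sq_nonneg _

private theorem iq_entry (B : Matrix (Fin (m + 1)) (Fin (m + 1)) ℝ) (i j : Fin (m + 1)) :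
    B i j ^ 2 ≤ fro B := by
  have h1 : B i j ^ 2 ≤ ∑ j, B i j ^ 2 :=
    Finset.single_le_sum (f := fun j => B i j ^ 2) (fun _ _ => sq_nonneg _) (Finset.mem_univ j)
  refine h1.trans ?_
  exact Finset.single_le_sum (f := fun i => ∑ j, B i j ^ 2)
    (fun _ _ => Finset.sum_nonneg fun _ _ => sq_nonneg _) (Finset.mem_univ i)

private theorem iq_fro_zero {B : Matrix (Fin (m + 1)) (Fin (m + 1)) ℝ} (h : fro B = 0) :
    B = 0 := by
  ext i j
  have h1 := iq_entry B i j
  rw [h] at h1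
  have h2 := sq_nonneg (B i j)
  rw [Matrix.zero_apply]
  exact pow_eq_zero_iff (two_ne_zero) |>.1 (le_antisymm h1 h2)

private theorem iq_fro_cont :
    Continuous (fro : Matrix (Fin (m + 1)) (Fin (m + 1)) ℝ → ℝ) := by
  unfold fro
  refine continuous_finset_sum _ fun i _ => continuous_finset_sum _ fun j _ => ?_
  exact ((continuous_apply j).comp (continuous_apply i)).pow 2

/-- the unit sphere in the traceless symmetric matrices is compact -/
private theorem iq_compact :
    IsCompact {B : Matrix (Fin (m + 1)) (Fin (m + 1)) ℝ |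
      Bᵀ = B ∧ B.trace = 0 ∧ fro B = 1} := by
  have hbox : IsCompact {B : Matrix (Fin (m + 1)) (Fin (m + 1)) ℝ |
      ∀ i ∈ Set.univ, B i ∈ {v : Fin (m + 1) → ℝ | ∀ j ∈ Set.univ, v j ∈ Set.Icc (-1 : ℝ) 1}} :=
    isCompact_univ_pi (X := fun _ : Fin (m + 1) => Fin (m + 1) → ℝ)
      (s := fun _ => {v : Fin (m + 1) → ℝ | ∀ j ∈ Set.univ, v j ∈ Set.Icc (-1 : ℝ) 1})
      fun _ => isCompact_univ_pi (X := fun _ : Fin (m + 1) => ℝ)
        (s := fun _ => Set.Icc (-1 : ℝ) 1) fun _ => isCompact_Icc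
  refine hbox.of_isClosed_subset ?_ ?_
  · have h1 : IsClosed {B : Matrix (Fin (m + 1)) (Fin (m + 1)) ℝ | Bᵀ = B} :=
      isClosed_eq (continuous_id.matrix_transpose) continuous_id
    have h2 : IsClosed {B : Matrix (Fin (m + 1)) (Fin (m + 1)) ℝ | B.trace = 0} :=
      isClosed_eq (continuous_id.matrix_trace) continuous_const
    have h3 : IsClosed {B : Matrix (Fin (m + 1)) (Fin (m + 1)) ℝ | fro B = 1} :=
      isClosed_eq iq_fro_cont continuous_const
    exact h1.inter (h2.inter h3)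
  · rintro B ⟨-, -, h⟩ i - j -
    have h1 := iq_entry B i j
    rw [h] at h1
    exact abs_le.1 (abs_le_one_iff_mul_self_le_one.2 (by nlinarith))

theorem irr_quad (hI : Irr L) {Q : Matrix (Fin (m + 1)) (Fin (m + 1)) ℝ → ℝ}
    (hpar : ∀ B C, Q (B + C) + Q (B - C) = 2 * Q B + 2 * Q C)
    (hhom : ∀ (c : ℝ) B, Q (c • B) = c ^ 2 * Q B) (hcont : Continuous Q)
    (hinv : ∀ g, IsAut L g → ∀ B, Q (g * B * gᵀ) = Q B) :
    ∃ q : ℝ, ∀ B : Matrix (Fin (m + 1)) (Fin (m + 1)) ℝ, Bᵀ = B → B.trace = 0 →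
      Q B = q * fro B := by
  classical
  have hQ0 : Q 0 = 0 := by
    have := hhom 0 0
    simpa using this
  have hf0 : fro (0 : Matrix (Fin (m + 1)) (Fin (m + 1)) ℝ) = 0 := by
    have := iq_fro_hom (m := m) 0 0
    simpa using this
  by_cases hne : ({B : Matrix (Fin (m + 1)) (Fin (m + 1)) ℝ |
      Bᵀ = B ∧ B.trace = 0 ∧ fro B = 1}).Nonempty
  · obtain ⟨B0, ⟨hs0, ht0, hB0⟩, hmax⟩ :=
      iq_compact.exists_isMaxOn hne hcont.continuousOn
    have hle : ∀ B : Matrix (Fin (m + 1)) (Fin (m + 1)) ℝ, Bᵀ = B → B.trace = 0 →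
        Q B ≤ Q B0 * fro B := by
      intro B hs ht
      by_cases hz : fro B = 0
      · rw [iq_fro_zero hz, hQ0, hf0, mul_zero]
      · have hpos : 0 < fro B := lt_of_le_of_ne (iq_fro_nonneg B) (Ne.symm hz)
        have hr : 0 < Real.sqrt (fro B) := Real.sqrt_pos.2 hpos
        have hr2 : Real.sqrt (fro B) ^ 2 = fro B := Real.sq_sqrt hpos.le
        have hmem : (Real.sqrt (fro B))⁻¹ • B ∈
            {B : Matrix (Fin (m + 1)) (Fin (m + 1)) ℝ | Bᵀ = B ∧ B.trace = 0 ∧ fro B = 1} := by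
          refine ⟨by rw [Matrix.transpose_smul, hs], by rw [Matrix.trace_smul, ht, smul_zero],
            ?_⟩
          rw [iq_fro_hom, inv_pow, hr2, inv_mul_cancel₀ hz]
        have h1 : Q ((Real.sqrt (fro B))⁻¹ • B) ≤ Q B0 := hmax hmem
        rw [hhom, inv_pow, hr2] at h1
        have h2 := mul_le_mul_of_nonneg_right h1 hpos.le
        have h3 : (fro B)⁻¹ * Q B * fro B = Q B := by
          field_simp
        linarith
    let U : Submodule ℝ (Matrix (Fin (m + 1)) (Fin (m + 1)) ℝ) :=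
      { carrier := {B | Bᵀ = B ∧ B.trace = 0 ∧ Q B = Q B0 * fro B}
        zero_mem' := ⟨by simp, by simp, by rw [hQ0, hf0, mul_zero]⟩
        add_mem' := by
          rintro B C ⟨h1, h2, h3⟩ ⟨h4, h5, h6⟩
          have hs1 : (B + C)ᵀ = B + C := by rw [Matrix.transpose_add, h1, h4]
          have hs2 : (B - C)ᵀ = B - C := by rw [Matrix.transpose_sub, h1, h4]
          have ht1 : (B + C).trace = 0 := by rw [Matrix.trace_add, h2, h5, add_zero]
          have ht2 : (B - C).trace = 0 := by rw [Matrix.trace_sub, h2, h5, sub_zero]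
          refine ⟨hs1, ht1, ?_⟩
          have e1 := hle _ hs1 ht1
          have e2 := hle _ hs2 ht2
          have e3 := hpar B C
          have e4 := iq_fro_par B C
          have e5 : Q B0 * fro (B + C) + Q B0 * fro (B - C) =
              2 * (Q B0 * fro B) + 2 * (Q B0 * fro C) := by
            rw [← mul_add, e4]
            ring
          linarith
        smul_mem' := by
          rintro c B ⟨h1, h2, h3⟩
          refine ⟨by rw [Matrix.transpose_smul, h1],
            by rw [Matrix.trace_smul, h2, smul_zero], ?_⟩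
          rw [hhom, iq_fro_hom, h3]
          ring }
    have hU := hI U (fun B hB => ⟨hB.1, hB.2.1⟩) (fun g hg B hB => by
      obtain ⟨h1, h2, h3⟩ := hB
      refine ⟨?_, ?_, ?_⟩
      · rw [Matrix.transpose_mul, Matrix.transpose_mul, Matrix.transpose_transpose, h1,
          Matrix.mul_assoc]
      · rw [Matrix.trace_mul_comm, ← Matrix.mul_assoc, hg.1, Matrix.one_mul]
        exact h2
      · rw [hinv g hg, iq_fro_inv hg.1, h3])
    refine ⟨Q B0, fun B hs ht => ?_⟩
    rcases hU with hU | hU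
    · exfalso
      have h1 : B0 ∈ U := ⟨hs0, ht0, by rw [hB0, mul_one]⟩
      rw [hU, Submodule.mem_bot] at h1
      rw [h1, hf0] at hB0
      exact zero_ne_one hB0
    · exact (hU B hs ht).2.2
  · refine ⟨0, fun B hs ht => ?_⟩
    have hz : fro B = 0 := by
      by_contra hz
      refine hne ⟨(Real.sqrt (fro B))⁻¹ • B, ?_, ?_, ?_⟩
      · rw [Matrix.transpose_smul, hs]
      · rw [Matrix.trace_smul, ht, smul_zero]
      · rw [iq_fro_hom, inv_pow, Real.sq_sqrt (iq_fro_nonneg B), inv_mul_cancel₀ hz]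
    rw [iq_fro_zero hz, hQ0, hf0, mul_zero]

end Pool.Agent.H99G
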