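import Pool.Agent.H99G.Sdef

set_option autoImplicit false

namespace Pool.Agent.H99G

open MeasureTheory Matrix

private theorem s1_fix (k : Fin 7 → ℤ) : InH k ∨ ∃ j : Fin 7, ∀ s : ℤ, s % 2 = 1 →
    InH (Function.update k j (k j + s)) := by
  rcases Int.emod_two_eq_zero_or_one (k 0 + k 2 + k 4 + k 6) with ha | ha <;>
  rcases Int.emod_two_eq_zero_or_one (k 1 + k 2 + k 5 + k 6) with hb | hb <;>
  rcases Int.emod_two_eq_zero_or_one (k 3 + k 4 + k 5 + k 6) with hc | hc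
  · exact Or.inl ⟨ha, hb, hc⟩
  · refine Or.inr ⟨3, fun s hs => ?_⟩
    simp [InH]; omega
  · refine Or.inr ⟨1, fun s hs => ?_⟩
    simp [InH]; omega
  · refine Or.inr ⟨5, fun s hs => ?_⟩
    simp [InH]; omega
  · refine Or.inr ⟨0, fun s hs => ?_⟩
    simp [InH]; omega
  · refine Or.inr ⟨4, fun s hs => ?_⟩
    simp [InH]; omega
  · refine Or.inr ⟨2, fun s hs => ?_⟩
    simp [InH]; omega
  · refine Or.inr ⟨6, fun s hs => ?_⟩
    simp [InH]; omega

private theorem s1_fin (r : ℝ) : {l : Fin (6 + 1) → ℝ | l ∈ E7s ∧ l ⬝ᵥ l ≤ r}.Finite := by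
  have hf : ({k : Fin 7 → ℤ | ∀ i, k i ∈ Set.Icc (-⌊r⌋) ⌊r⌋}).Finite :=
    Set.Finite.pi' fun i => Set.finite_Icc (-⌊r⌋) ⌊r⌋
  refine (hf.image rv).subset ?_
  rintro l ⟨⟨k, _, rfl⟩, hl⟩
  refine ⟨k, fun i => ?_, rfl⟩
  have h1 : (k i : ℝ) * k i ≤ rv k ⬝ᵥ rv k :=
    Finset.single_le_sum (f := fun i => rv k i * rv k i) (fun j _ => mul_self_nonneg _)
      (Finset.mem_univ i)
  have h2 : ((|k i| : ℤ) : ℝ) ≤ r := by
    have h3 : |k i| ≤ k i * k i := by
      rcases abs_cases (k i) with ⟨h, h'⟩ | ⟨h, h'⟩ <;> rw [h] <;> nlinarith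
    have h4 : ((|k i| : ℤ) : ℝ) ≤ ((k i * k i : ℤ) : ℝ) := by exact_mod_cast h3
    push_cast at h4 ⊢
    linarith
  have h5 : |k i| ≤ ⌊r⌋ := Int.le_floor.2 h2
  exact Set.mem_Icc.2 (abs_le.1 h5)

private theorem s1_cov (y : Fin (6 + 1) → ℝ) : ∃ l ∈ E7s, 2 * ((y - l) ⬝ᵥ (y - l)) ≤ 5 := by
  set k : Fin 7 → ℤ := fun i => round (y i) with hk
  have hu : ∀ i, (y i - k i) * (y i - k i) ≤ 1 / 4 := by
    intro i
    have h1 := abs_sub_round (y i)
    have h2 := abs_le.1 h1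
    simp only [hk]
    nlinarith
  rcases s1_fix k with h | ⟨j, hj⟩
  · refine ⟨rv k, ⟨k, h, rfl⟩, ?_⟩
    have h1 : (y - rv k) ⬝ᵥ (y - rv k) ≤ ∑ i : Fin 7, (1 / 4 : ℝ) :=
      Finset.sum_le_sum fun i _ => hu i
    have h2 : (∑ i : Fin 7, (1 / 4 : ℝ)) = 7 / 4 := by norm_num
    linarith
  · have hs : ∃ s : ℤ, s % 2 = 1 ∧ (y j - (k j + s : ℤ)) * (y j - (k j + s : ℤ)) ≤ 1 := by
      have h2 := abs_le.1 (abs_sub_round (y j))
      rcases le_total 0 (y j - k j) with h | h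
      · refine ⟨1, by norm_num, ?_⟩
        push_cast
        simp only [hk] at h ⊢
        nlinarith
      · refine ⟨-1, by norm_num, ?_⟩
        push_cast
        simp only [hk] at h ⊢
        nlinarith
    obtain ⟨s, hs, hs'⟩ := hs
    refine ⟨rv (Function.update k j (k j + s)), ⟨_, hj s hs, rfl⟩, ?_⟩
    have h1 : (y - rv (Function.update k j (k j + s))) ⬝ᵥ
        (y - rv (Function.update k j (k j + s))) ≤
        ∑ i : Fin 7, ((1 / 4 : ℝ) + if i = j then 3 / 4 else 0) := by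
      refine Finset.sum_le_sum fun i _ => ?_
      by_cases hij : i = j
      · subst hij
        simp only [Pi.sub_apply, rv, Function.update_self, if_true]
        linarith
      · simp only [Pi.sub_apply, rv, Function.update_of_ne hij, if_neg hij, add_zero]
        exact hu i
    have h2 : (∑ i : Fin 7, ((1 / 4 : ℝ) + if i = j then 3 / 4 else 0)) = 5 / 2 := by
      rw [Finset.sum_add_distrib, Finset.sum_ite_eq' Finset.univ j]
      simp
      norm_num
    linarith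

theorem E7s_good : Good E7s 5 := ⟨s1_fin, by norm_num, s1_cov⟩

private theorem s1_sq (k : ℤ) : k % 2 ≤ k * k := by
  rcases Int.emod_two_eq_zero_or_one k with h | h
  · rw [h]; exact mul_self_nonneg k
  · rw [h]
    have h1 : k ≠ 0 := by rintro rfl; simp at h
    have h2 : 0 < k * k := mul_self_pos.2 h1
    omega

private theorem s1_w (a b c d e f g : ℤ) (ha : a = 0 ∨ a = 1) (hb : b = 0 ∨ b = 1)
    (hc : c = 0 ∨ c = 1) (hd : d = 0 ∨ d = 1) (he : e = 0 ∨ e = 1) (hf : f = 0 ∨ f = 1)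
    (hg : g = 0 ∨ g = 1) (h1 : (a + c + e + g) % 2 = 0) (h2 : (b + c + f + g) % 2 = 0)
    (h3 : (d + e + f + g) % 2 = 0) (h : a + b + c + d + e + f + g < 3) :
    a = 0 ∧ b = 0 ∧ c = 0 ∧ d = 0 ∧ e = 0 ∧ f = 0 ∧ g = 0 := by
  rcases hc with rfl | rfl <;> rcases he with rfl | rfl <;> rcases hf with rfl | rfl <;>
  rcases hg with rfl | rfl <;> omega

private theorem s1_wt (p : Fin 7 → ℤ) (hp : ∀ i, p i = 0 ∨ p i = 1)
    (h : InH p) : (∀ i, p i = 0) ∨ 3 ≤ ∑ i, p i := by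
  obtain ⟨h1, h2, h3⟩ := h
  have e : ∑ i, p i = p 0 + p 1 + p 2 + p 3 + p 4 + p 5 + p 6 := Fin.sum_univ_seven p
  rw [e]
  by_cases hz : 3 ≤ p 0 + p 1 + p 2 + p 3 + p 4 + p 5 + p 6
  · exact Or.inr hz
  · left
    obtain ⟨a0, a1, a2, a3, a4, a5, a6⟩ := s1_w _ _ _ _ _ _ _ (hp 0) (hp 1) (hp 2) (hp 3)
      (hp 4) (hp 5) (hp 6) h1 h2 h3 (not_le.1 hz)
    intro i
    fin_cases i <;> assumption

theorem E7s_min : ∀ l ∈ E7s, l ≠ 0 → 3 ≤ l ⬝ᵥ l := by
  rintro l ⟨k, hk, rfl⟩ hl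
  have e : rv k ⬝ᵥ rv k = ((∑ i, k i * k i : ℤ) : ℝ) := by
    push_cast; rfl
  rw [e]
  have goal : (3 : ℤ) ≤ ∑ i, k i * k i := by
    have hp : InH fun i => k i % 2 := by
      obtain ⟨h1, h2, h3⟩ := hk
      refine ⟨?_, ?_, ?_⟩ <;> (beta_reduce; omega)
    rcases s1_wt (fun i => k i % 2) (fun i => Int.emod_two_eq_zero_or_one (k i)) hp with h | h
    · have hne : ∃ i, k i ≠ 0 := by
        by_contra hcon
        push Not at hcon
        apply hl
        ext i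
        simp [rv, hcon i]
      obtain ⟨i, hi⟩ := hne
      have h1 : k i * k i ≤ ∑ i, k i * k i :=
        Finset.single_le_sum (f := fun i => k i * k i) (fun j _ => mul_self_nonneg _)
          (Finset.mem_univ i)
      have h2 : k i % 2 = 0 := h i
      have h3 : 4 ≤ k i * k i := by
        rcases lt_or_gt_of_ne hi with h | h
        · have : k i ≤ -2 := by omega
          nlinarith
        · have : 2 ≤ k i := by omega
          nlinarith
      linarith
    · exact h.trans (Finset.sum_le_sum fun i _ => s1_sq (k i))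
  exact_mod_cast goal

end Pool.Agent.H99G
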