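import Pool.Agent.D4Q.LatC

set_option autoImplicit false

/-!
# The integral of a periodic function over the Voronoi cell
-/

namespace Pool.Agent.H99G

open MeasureTheory Matrix Pool.Agent.D4Q

/-- The integral of a periodic function over the Voronoi cell. -/
theorem vor_gen {n : ℕ} {L : Submodule ℤ (EuclideanSpace ℝ (Fin n))} [DiscreteTopology L]
    [IsZLattice ℝ L] {b : Fin n → EuclideanSpace ℝ (Fin n)} (hb : LinearIndependent ℝ b)
    (hL : L = Submodule.span ℤ (Set.range b)) (f : EuclideanSpace ℝ (Fin n) → ℝ)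
    (hf : ∀ x, ∀ v ∈ L, f (x + v) = f x) :
    ∫ x in Vor L, f x = ZLattice.covolume L * ∫ t in cube n, f (∑ i, t i • b i) := by
  have hsp : (⊤ : Submodule ℝ (EuclideanSpace ℝ (Fin n))) ≤ Submodule.span ℝ (Set.range b) :=
    (hb.span_eq_top_of_card_eq_finrank' (by simp)).ge
  set B : Module.Basis (Fin n) ℝ (EuclideanSpace ℝ (Fin n)) := Module.Basis.mk hb hsp with hB
  have hBb : ⇑B = b := Module.Basis.coe_mk hb hsp
  have hLB : L = Submodule.span ℤ (Set.range B) := by rw [hBb]; exact hL
  have : MeasurableVAdd L (EuclideanSpace ℝ (Fin n)) :=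
    (inferInstance : MeasurableVAdd L.toAddSubgroup (EuclideanSpace ℝ (Fin n)))
  have : VAddInvariantMeasure L (EuclideanSpace ℝ (Fin n)) volume :=
    (inferInstance : VAddInvariantMeasure L.toAddSubgroup (EuclideanSpace ℝ (Fin n)) volume)
  have hF : IsAddFundamentalDomain L (ZSpan.fundamentalDomain B)
      (volume : Measure (EuclideanSpace ℝ (Fin n))) := by
    subst hLB
    exact ZSpan.isAddFundamentalDomain B volume
  have h2 : ∫ x in Vor L, f x = ∫ x in ZSpan.fundamentalDomain B, f x := by
    refine (isFund_Vor L).setIntegral_eq hF fun g x => ?_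
    have : g +ᵥ x = x + (g : EuclideanSpace ℝ (Fin n)) := by
      rw [add_comm]; rfl
    rw [this]
    exact hf x g g.2
  set φ : (Fin n → ℝ) ≃L[ℝ] EuclideanSpace ℝ (Fin n) := B.equivFunL.symm with hφ
  have hφa : ∀ t : Fin n → ℝ, φ t = ∑ i, t i • b i := by
    intro t
    have := B.equivFun_symm_apply t
    rw [hBb] at this
    exact this
  have hpre : φ ⁻¹' (ZSpan.fundamentalDomain B) = cube n := by
    ext t
    rw [Set.mem_preimage, ZSpan.mem_fundamentalDomain]
    unfold cube
    simp only [Set.mem_pi, Set.mem_univ, true_implies]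
    have : ∀ i, B.repr (φ t) i = t i := fun i => by
      have := B.equivFun.apply_symm_apply t
      exact congrFun this i
    simp only [this]
  have hemb : MeasurableEmbedding φ := φ.toHomeomorph.measurableEmbedding
  set ν : Measure (EuclideanSpace ℝ (Fin n)) := Measure.map φ volume with hν
  have : ν.IsAddHaarMeasure := φ.isAddHaarMeasure_map volume
  obtain ⟨c, hc⟩ : ∃ c : ENNReal, (volume : Measure (EuclideanSpace ℝ (Fin n))) = c • ν :=
    ⟨_, Measure.isAddLeftInvariant_eq_smul (volume : Measure (EuclideanSpace ℝ (Fin n))) ν⟩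
  have hcube : volume (cube n) = 1 := by
    unfold cube
    rw [volume_pi_pi]
    simp
  have hνF : ν (ZSpan.fundamentalDomain B) = 1 := by
    rw [hν, hemb.map_apply, hpre, hcube]
  have hcov : ZLattice.covolume L = c.toReal := by
    rw [ZLattice.covolume_eq_measure_fundamentalDomain L volume hF, Measure.real, hc,
      Measure.smul_apply, hνF, smul_eq_mul, mul_one]
  have h3 : ∫ x in ZSpan.fundamentalDomain B, f x =
      c.toReal * ∫ x in ZSpan.fundamentalDomain B, f x ∂ν := by
    rw [hc, Measure.restrict_smul, integral_smul_measure, smul_eq_mul]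
  have h4 : ∫ x in ZSpan.fundamentalDomain B, f x ∂ν = ∫ t in cube n, f (∑ i, t i • b i) := by
    rw [hν, hemb.setIntegral_map, hpre]
    congr 1
    funext t
    rw [hφa]
  rw [h2, h3, h4, hcov]

end Pool.Agent.H99G
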