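import Pool.Agent.H99G.Cor2
import Pool.Agent.H99G.Vge

set_option autoImplicit false

/-!
# The second moment of a lattice near `L`
-/

namespace Pool.Agent.H99G

open MeasureTheory Matrix Pool.Agent.D4Q

variable {m : ℕ}

/-- The lattice as an additive subgroup of `Fin (m + 1) → ℝ`. -/
def gr (L : Submodule ℤ (EuclideanSpace ℝ (Fin (m + 1)))) : AddSubgroup (Fin (m + 1) → ℝ) where
  carrier := {x | WithLp.toLp 2 x ∈ L}
  add_mem' := fun {a b} ha hb => by
    have := L.add_mem ha hb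
    simpa using this
  zero_mem' := by simp
  neg_mem' := fun {a} ha => by
    have := L.neg_mem ha
    simpa using this

theorem mem_gr {L : Submodule ℤ (EuclideanSpace ℝ (Fin (m + 1)))} {x : Fin (m + 1) → ℝ} :
    x ∈ gr L ↔ WithLp.toLp 2 x ∈ L := Iff.rfl

theorem ofLp_mem_gr {L : Submodule ℤ (EuclideanSpace ℝ (Fin (m + 1)))}
    {x : EuclideanSpace ℝ (Fin (m + 1))} : x.ofLp ∈ gr L ↔ x ∈ L := Iff.rfl

theorem inner_eq {n : ℕ} (x y : EuclideanSpace ℝ (Fin n)) : inner ℝ x y = x.ofLp ⬝ᵥ y.ofLp := by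
  rw [EuclideanSpace.inner_eq_star_dotProduct, star_trivial, dotProduct_comm]

theorem norm_sq_eq {n : ℕ} (x : EuclideanSpace ℝ (Fin n)) : ‖x‖ ^ 2 = x.ofLp ⬝ᵥ x.ofLp := by
  rw [← real_inner_self_eq_norm_sq, inner_eq]

/-- The cell is the Voronoi cell. -/
theorem vor_iff (L : Submodule ℤ (EuclideanSpace ℝ (Fin (m + 1))))
    (x : EuclideanSpace ℝ (Fin (m + 1))) : x ∈ Vor L ↔ x.ofLp ∈ PP (gr L) := by
  have key : ∀ v : EuclideanSpace ℝ (Fin (m + 1)), ‖x‖ ≤ ‖x - v‖ ↔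
      2 * (x.ofLp ⬝ᵥ v.ofLp) ≤ v.ofLp ⬝ᵥ v.ofLp := fun v => by
    rw [← sq_le_sq₀ (norm_nonneg _) (norm_nonneg _), norm_sub_sq_real, norm_sq_eq x, norm_sq_eq v,
      inner_eq]
    constructor <;> intro h <;> linarith
  constructor
  · intro hx l hl
    exact (key (WithLp.toLp 2 l)).mp (hx _ hl)
  · intro hx v hv
    exact (key v).mpr (hx v.ofLp hv)

theorem dS_per (L : Submodule ℤ (EuclideanSpace ℝ (Fin (m + 1))))
    (S : Matrix (Fin (m + 1)) (Fin (m + 1)) ℝ) (x : EuclideanSpace ℝ (Fin (m + 1))) {v}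
    (hv : v ∈ L) : dS (gr L) S (x + v).ofLp = dS (gr L) S x.ofLp := by
  have hv' : v.ofLp ∈ gr L := hv
  unfold dS
  refine Function.Surjective.iInf_congr
    (fun l : gr L => (⟨(l : Fin (m + 1) → ℝ) - v.ofLp, (gr L).sub_mem l.2 hv'⟩ : gr L)) ?_
    fun l => ?_
  · rintro ⟨l, hl⟩
    exact ⟨⟨l + v.ofLp, (gr L).add_mem hl hv'⟩, Subtype.ext (by simp)⟩
  · have : x.ofLp - ((l : Fin (m + 1) → ℝ) - v.ofLp) = (x + v).ofLp - (l : Fin (m + 1) → ℝ) := by
      rw [WithLp.ofLp_add]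
      abel
    simp only [this]

theorem setInt_ofLp {n : ℕ} (f : (Fin n → ℝ) → ℝ) (s : Set (Fin n → ℝ)) :
    ∫ x in (fun x : EuclideanSpace ℝ (Fin n) => x.ofLp) ⁻¹' s, f x.ofLp = ∫ y in s, f y :=
  (PiLp.volume_preserving_ofLp (Fin n)).setIntegral_preimage_emb
    (MeasurableEquiv.toLp 2 (Fin n → ℝ)).symm.measurableEmbedding f s

theorem transfer {b b' : Fin (m + 1) → EuclideanSpace ℝ (Fin (m + 1))}
    (hb : LinearIndependent ℝ b) (hb' : LinearIndependent ℝ b')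
    {L L' : Submodule ℤ (EuclideanSpace ℝ (Fin (m + 1)))} (hE : L = Submodule.span ℤ (Set.range b))
    {A : Matrix (Fin (m + 1)) (Fin (m + 1)) ℝ} (hA : ∀ i, A *ᵥ (b i).ofLp = (b' i).ofLp)
    [DiscreteTopology L'] [IsZLattice ℝ L'] (hL' : L' = Submodule.span ℤ (Set.range b'))
    [DiscreteTopology L] [IsZLattice ℝ L] (hc : ZLattice.covolume L' = ZLattice.covolume L) :
    ∫ x in {x : EuclideanSpace ℝ (Fin (m + 1)) | ∀ v ∈ L', ‖x‖ ≤ ‖x - v‖}, ‖x‖ ^ 2 =
      ∫ y in PP (gr L), dS (gr L) (Aᵀ * A) y := by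
  set Q' : Matrix (Fin (m + 1)) (Fin (m + 1)) ℝ := Matrix.of fun i j => inner ℝ (b' i) (b' j)
    with hQ'
  have hform : HasForm L' Q' := ⟨b', hb', hL', fun i j => rfl⟩
  rw [vor_integral hform, hc]
  have h1 := vor_gen hb hE (fun x => dS (gr L) (Aᵀ * A) x.ofLp)
    fun x v hv => dS_per L _ x hv
  have h2 : ∫ x in Vor L, dS (gr L) (Aᵀ * A) x.ofLp = ∫ y in PP (gr L), dS (gr L) (Aᵀ * A) y := by
    have hpre : Vor L = (fun x : EuclideanSpace ℝ (Fin (m + 1)) => x.ofLp) ⁻¹' PP (gr L) := by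
      ext x
      exact vor_iff L x
    rw [hpre]
    exact setInt_ofLp _ _
  rw [← h2, h1]
  congr 1
  unfold FF
  congr 1
  funext t
  have hAlin : ∀ c : Fin (m + 1) → ℝ, A *ᵥ (∑ i, c i • b i).ofLp = (∑ i, c i • b' i).ofLp :=
    fun c => by
      rw [WithLp.ofLp_sum, WithLp.ofLp_sum, mulVec_sum]
      refine Finset.sum_congr rfl fun i _ => ?_
      rw [WithLp.ofLp_smul, WithLp.ofLp_smul, mulVec_smul, hA]
  have hmem : ∀ l : Fin (m + 1) → ℤ, (∑ i, l i • b i).ofLp ∈ gr L := fun l => by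
    rw [ofLp_mem_gr, hE]
    exact Submodule.sum_mem _ fun i _ =>
      Submodule.smul_mem _ _ (Submodule.subset_span ⟨i, rfl⟩)
  unfold dS dsq
  refine Function.Surjective.iInf_congr
    (fun l : Fin (m + 1) → ℤ => (⟨(∑ i, l i • b i).ofLp, hmem l⟩ : gr L)) ?_ fun l => ?_
  · rintro ⟨k, hk⟩
    have hk' : (WithLp.toLp 2 k : EuclideanSpace ℝ (Fin (m + 1))) ∈ L := hk
    rw [hE, Submodule.mem_span_range_iff_exists_fun] at hk'
    obtain ⟨c, hc'⟩ := hk'
    refine ⟨c, Subtype.ext ?_⟩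
    show (∑ i, c i • b i).ofLp = k
    rw [hc']
  · show ((∑ i, t i • b i).ofLp - (∑ i, l i • b i).ofLp) ⬝ᵥ _ = _
    have h4 : (∑ i, t i • b i).ofLp - (∑ i, l i • b i).ofLp = (∑ i, (t - ic l) i • b i).ofLp := by
      rw [← WithLp.ofLp_sub, ← Finset.sum_sub_distrib]
      congr 1
      refine Finset.sum_congr rfl fun i _ => ?_
      rw [Pi.sub_apply, sub_smul, ic, Int.cast_smul_eq_zsmul]
    rw [h4, ← mulVec_mulVec, dotProduct_mulVec, vecMul_transpose, hAlin, ← norm_sq_eq]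
    exact norm_sq_comb (fun i j => rfl) _

/-- The matrix with the columns `b j`. -/
def cm (b : Fin (m + 1) → EuclideanSpace ℝ (Fin (m + 1))) :
    Matrix (Fin (m + 1)) (Fin (m + 1)) ℝ := Matrix.of fun i j => b j i

theorem cm_gram (b : Fin (m + 1) → EuclideanSpace ℝ (Fin (m + 1))) (i j : Fin (m + 1)) :
    ((cm b)ᵀ * cm b) i j = inner ℝ (b i) (b j) := by
  rw [inner_eq, Matrix.mul_apply]
  rfl

theorem cm_det {b : Fin (m + 1) → EuclideanSpace ℝ (Fin (m + 1))} (hb : LinearIndependent ℝ b)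
    {L : Submodule ℤ (EuclideanSpace ℝ (Fin (m + 1)))} [DiscreteTopology L] [IsZLattice ℝ L]
    (hL : L = Submodule.span ℤ (Set.range b)) :
    (cm b).det ^ 2 = ZLattice.covolume L ^ 2 := by
  have hform : HasForm L ((cm b)ᵀ * cm b) := ⟨b, hb, hL, fun i j => cm_gram b i j⟩
  have h := covolume_sq hform
  rw [det_mul, det_transpose] at h
  rw [h, sq]

theorem fro_cont : Continuous (fro (m := m)) := by
  unfold fro
  refine continuous_finsetSum _ fun i _ => continuous_finsetSum _ fun j _ => ?_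
  exact (continuous_id.matrix_elem i j).pow 2

theorem cm_cont : Continuous (cm (m := m)) := by
  refine continuous_matrix fun i j => ?_
  show Continuous fun b : Fin (m + 1) → EuclideanSpace ℝ (Fin (m + 1)) => (b j) i
  fun_prop

theorem cont_fro (P : Matrix (Fin (m + 1)) (Fin (m + 1)) ℝ) :
    Continuous fun b' : Fin (m + 1) → EuclideanSpace ℝ (Fin (m + 1)) =>
      fro ((cm b' * P)ᵀ * (cm b' * P) - 1) := by
  have h : Continuous fun b' : Fin (m + 1) → EuclideanSpace ℝ (Fin (m + 1)) => cm b' * P :=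
    cm_cont.matrix_mul continuous_const
  exact fro_cont.comp ((h.matrix_transpose.matrix_mul h).sub continuous_const)

theorem secondMoment_eq (L : Submodule ℤ (EuclideanSpace ℝ (Fin (m + 1)))) :
    ∫ x in {x : EuclideanSpace ℝ (Fin (m + 1)) | ∀ v ∈ L, ‖x‖ ≤ ‖x - v‖}, ‖x‖ ^ 2 =
      GG (gr L) := by
  have hpre : {x : EuclideanSpace ℝ (Fin (m + 1)) | ∀ v ∈ L, ‖x‖ ≤ ‖x - v‖} =
      (fun x : EuclideanSpace ℝ (Fin (m + 1)) => x.ofLp) ⁻¹' PP (gr L) := by
    ext x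
    exact vor_iff L x
  rw [hpre]
  simp only [norm_sq_eq]
  exact setInt_ofLp (fun y => y ⬝ᵥ y) _

theorem final {L : Submodule ℤ (EuclideanSpace ℝ (Fin (m + 1)))} [DiscreteTopology L]
    [IsZLattice ℝ L] {μ : ℝ} (h : Good (gr L) μ) (hPos : Pos (gr L) μ)
    {b : Fin (m + 1) → EuclideanSpace ℝ (Fin (m + 1))} (hb : LinearIndependent ℝ b)
    (hE : L = Submodule.span ℤ (Set.range b)) :
    ∃ η : ℝ, 0 < η ∧ ∀ (L' : Submodule ℤ (EuclideanSpace ℝ (Fin (m + 1)))) [DiscreteTopology L']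
      [IsZLattice ℝ L'] (b' : Fin (m + 1) → EuclideanSpace ℝ (Fin (m + 1))),
      ZLattice.covolume L' = ZLattice.covolume L →
      LinearIndependent ℝ b' → L' = Submodule.span ℤ (Set.range b') →
      (∀ i, ‖b' i - b i‖ < η) →
      (∀ i j, inner ℝ (b' i) (b' j) = inner ℝ (b i) (b j)) ∨
        ∫ x in {x : EuclideanSpace ℝ (Fin (m + 1)) | ∀ v ∈ L, ‖x‖ ≤ ‖x - v‖}, ‖x‖ ^ 2 <
        ∫ x in {x : EuclideanSpace ℝ (Fin (m + 1)) | ∀ v ∈ L', ‖x‖ ≤ ‖x - v‖}, ‖x‖ ^ 2 := by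
  obtain ⟨ε, hε, hcore⟩ := core h hPos
  have hcpos := ZLattice.covolume_pos L (volume : Measure (EuclideanSpace ℝ (Fin (m + 1))))
  have hP : (cm b).det ^ 2 = ZLattice.covolume L ^ 2 := cm_det hb hE
  have hdet : (cm b).det ≠ 0 := by
    intro h0
    rw [h0] at hP
    have : (0 : ℝ) < ZLattice.covolume L ^ 2 := by positivity
    rw [← hP] at this
    norm_num at this
  have hu : IsUnit (cm b).det := isUnit_iff_ne_zero.mpr hdet
  have hinv : cm b * (cm b)⁻¹ = 1 := Matrix.mul_nonsing_inv _ hu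
  have hinv' : (cm b)⁻¹ * cm b = 1 := Matrix.nonsing_inv_mul _ hu
  have hcont := (cont_fro (cm b)⁻¹).continuousAt (x := b)
  have h0 : fro ((cm b * (cm b)⁻¹)ᵀ * (cm b * (cm b)⁻¹) - 1) = 0 := by
    rw [hinv]
    simp [fro]
  rw [ContinuousAt, h0] at hcont
  have hev := hcont.eventually (gt_mem_nhds (show (0 : ℝ) < ε ^ 2 by positivity))
  obtain ⟨η, hη, hball⟩ := Metric.eventually_nhds_iff.mp hev
  refine ⟨η, hη, ?_⟩
  intro L' _ _ b' hc hb' hL' hnear
  have hfro : fro ((cm b' * (cm b)⁻¹)ᵀ * (cm b' * (cm b)⁻¹) - 1) < ε ^ 2 := by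
    refine hball ?_
    rw [dist_pi_lt_iff hη]
    intro i
    rw [dist_eq_norm]
    exact hnear i
  set A := cm b' * (cm b)⁻¹ with hA
  set B := Aᵀ * A - 1 with hB
  have hAb : A * cm b = cm b' := by rw [hA, Matrix.mul_assoc, hinv', Matrix.mul_one]
  by_cases hB0 : B = 0
  · left
    have hAA : Aᵀ * A = 1 := sub_eq_zero.mp hB0
    intro i j
    rw [← cm_gram, ← cm_gram, ← hAb]
    have : (A * cm b)ᵀ * (A * cm b) = (cm b)ᵀ * (Aᵀ * A) * cm b := by
      simp only [transpose_mul, Matrix.mul_assoc]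
    rw [this, hAA, Matrix.mul_one]
  · right
    have hAv : ∀ i, A *ᵥ (b i).ofLp = (b' i).ofLp := by
      intro i
      have h1 : (b i).ofLp = (cm b).col i := rfl
      have h2 : (b' i).ofLp = (cm b').col i := rfl
      rw [h1, h2, ← hAb]
      ext j
      simp [mulVec, dotProduct, Matrix.mul_apply]
    rw [transfer hb hb' hE hAv hL' hc, secondMoment_eq]
    have e : Aᵀ * A = 1 + B := by rw [hB]; abel
    rw [e]
    refine hcore B ?_ hfro ?_ hB0
    · rw [hB]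
      simp [transpose_mul]
    · rw [← e, det_mul, det_transpose]
      have hP' : (cm b').det ^ 2 = ZLattice.covolume L ^ 2 := by rw [← hc]; exact cm_det hb' hL'
      have hm' : (cm b').det = A.det * (cm b).det := by rw [← hAb, det_mul]
      rw [hm', mul_pow, ← hP] at hP'
      have h5 : (cm b).det ^ 2 ≠ 0 := pow_ne_zero 2 hdet
      have h6 : A.det ^ 2 = 1 := by
        have := mul_right_cancel₀ h5 (hP'.trans (one_mul _).symm)
        exact this
      rw [← h6, sq]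

end Pool.Agent.H99G
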