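import Pool.Agent.H99G.V1
import Pool.Agent.H99G.Cel

set_option autoImplicit false

/-!
# Isotropy of the cell of `D5*`
-/

namespace Pool.Agent.H99G

open MeasureTheory Matrix

variable {m : ℕ} {L : AddSubgroup (Fin (m + 1) → ℝ)} {μ : ℝ}

private theorem is_int {g : Matrix (Fin (m + 1)) (Fin (m + 1)) ℝ} (hg : gᵀ * g = 1)
    {V : Set (Fin (m + 1) → ℝ)} (hV : ∀ y, g *ᵥ y ∈ V ↔ y ∈ V)
    (f : (Fin (m + 1) → ℝ) → ℝ) : ∫ y in V, f (g *ᵥ y) = ∫ y in V, f y := by
  have hdet : g.det * g.det = 1 := by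
    have h1 := congrArg Matrix.det hg
    rwa [Matrix.det_mul, Matrix.det_transpose, Matrix.det_one] at h1
  have hdet0 : g.det ≠ 0 := by
    intro h
    rw [h, mul_zero] at hdet
    exact zero_ne_one hdet
  have habs : |g.det| = 1 := by
    have h1 : |g.det| * |g.det| = 1 := by rw [abs_mul_abs_self, hdet]
    nlinarith [abs_nonneg g.det]
  have hmap := Real.map_matrix_volume_pi_eq_smul_volume_pi hdet0
  have h1 : ENNReal.ofReal |g.det⁻¹| = 1 := by
    rw [abs_inv, habs, inv_one, ENNReal.ofReal_one]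
  rw [h1, one_smul] at hmap
  have hmeas : Measurable (Matrix.toLin' g) :=
    (LinearMap.continuous_of_finiteDimensional (Matrix.toLin' g)).measurable
  have hmp : MeasurePreserving (Matrix.toLin' g) (volume : Measure (Fin (m + 1) → ℝ)) volume :=
    ⟨hmeas, hmap⟩
  have hinj : Function.Injective (Matrix.toLin' g) := by
    intro x y hxy
    have h2 : gᵀ *ᵥ (g *ᵥ x) = gᵀ *ᵥ (g *ᵥ y) := by
      simpa only [Matrix.toLin'_apply] using congrArg (fun z => gᵀ *ᵥ z) hxy
    rwa [Matrix.mulVec_mulVec, Matrix.mulVec_mulVec, hg, Matrix.one_mulVec, Matrix.one_mulVec]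
      at h2
  have hemb : MeasurableEmbedding (Matrix.toLin' g) :=
    (LinearMap.continuous_of_finiteDimensional (Matrix.toLin' g)).measurableEmbedding hinj
  have h3 := hmp.setIntegral_preimage_emb hemb f V
  have hpre : (Matrix.toLin' g) ⁻¹' V = V := by
    ext y
    rw [Set.mem_preimage, Matrix.toLin'_apply]
    exact hV y
  rw [hpre] at h3
  simpa only [Matrix.toLin'_apply] using h3

private theorem is_tr {g : Matrix (Fin (m + 1)) (Fin (m + 1)) ℝ} (hg : IsAut L g) :
    IsAut L gᵀ := by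
  refine ⟨by rw [Matrix.transpose_transpose]; exact hg.2.1,
    by rw [Matrix.transpose_transpose]; exact hg.1, fun x => ?_⟩
  have h1 := hg.2.2 (gᵀ *ᵥ x)
  rw [Matrix.mulVec_mulVec, hg.2.1, Matrix.one_mulVec] at h1
  exact h1.symm

private theorem is_dot {g : Matrix (Fin (m + 1)) (Fin (m + 1)) ℝ} (x y : Fin (m + 1) → ℝ) :
    (g *ᵥ x) ⬝ᵥ y = x ⬝ᵥ (gᵀ *ᵥ y) := by
  rw [dotProduct_comm, dotProduct_mulVec, ← mulVec_transpose, dotProduct_comm]

private theorem is_PP' {g : Matrix (Fin (m + 1)) (Fin (m + 1)) ℝ} (hg : IsAut L g)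
    {y : Fin (m + 1) → ℝ} (hy : y ∈ PP L) : g *ᵥ y ∈ PP L := by
  intro l hl
  have h1 : gᵀ *ᵥ l ∈ L := ((is_tr hg).2.2 l).2 hl
  have h2 := hy _ h1
  rw [is_dot]
  refine h2.trans (le_of_eq ?_)
  rw [← is_dot, Matrix.mulVec_mulVec, hg.2.1, Matrix.one_mulVec]

private theorem is_PP {g : Matrix (Fin (m + 1)) (Fin (m + 1)) ℝ} (hg : IsAut L g)
    (y : Fin (m + 1) → ℝ) : g *ᵥ y ∈ PP L ↔ y ∈ PP L := by
  refine ⟨fun h => ?_, is_PP' hg⟩
  have h1 := is_PP' (is_tr hg) h
  rwa [Matrix.mulVec_mulVec, hg.1, Matrix.one_mulVec] at h1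

private theorem is_integ (h : Good L μ) (i j : Fin (m + 1)) :
    Integrable (fun y : Fin (m + 1) → ℝ => y i * y j) (volume.restrict (PP L)) := by
  have h1 : ContinuousOn (fun y : Fin (m + 1) → ℝ => y i * y j) (PP L) := by
    apply Continuous.continuousOn
    fun_prop
  exact h1.integrableOn_compact (PP_compact h)

private theorem is_T_eq (h : Good L μ) (B : Matrix (Fin (m + 1)) (Fin (m + 1)) ℝ) :
    ∫ y in PP L, y ⬝ᵥ B *ᵥ y = ∑ i, ∑ j, B i j * ∫ y in PP L, y i * y j := by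
  have h1 : ∀ y : Fin (m + 1) → ℝ, y ⬝ᵥ B *ᵥ y = ∑ i, ∑ j, B i j * (y i * y j) := by
    intro y
    simp only [dotProduct, Matrix.mulVec, Finset.mul_sum]
    refine Finset.sum_congr rfl fun i _ => Finset.sum_congr rfl fun j _ => by ring
  have h0 : ∀ i, Integrable (fun y : Fin (m + 1) → ℝ => ∑ j, B i j * (y i * y j))
      (volume.restrict (PP L)) := fun i =>
    integrable_finsetSum Finset.univ fun j _ => (is_integ h i j).const_mul (B i j)
  have h5 : ∫ y in PP L, y ⬝ᵥ B *ᵥ y = ∑ i, ∫ y in PP L, ∑ j, B i j * (y i * y j) := by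
    rw [← integral_finsetSum Finset.univ fun i _ => h0 i]
    exact integral_congr_ae (Filter.Eventually.of_forall fun y => h1 y)
  rw [h5]
  refine Finset.sum_congr rfl fun i _ => ?_
  rw [integral_finsetSum Finset.univ fun j _ => (is_integ h i j).const_mul (B i j)]
  refine Finset.sum_congr rfl fun j _ => ?_
  rw [integral_const_mul]


private theorem sgn_aut (p : Fin (4 + 1)) :
    IsAut D5s (Matrix.diagonal fun i => if i = p then (-1 : ℝ) else 1) := by
  have h1 : (Matrix.diagonal fun i : Fin (4 + 1) => if i = p then (-1 : ℝ) else 1)ᵀ =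
      Matrix.diagonal fun i => if i = p then (-1 : ℝ) else 1 := Matrix.diagonal_transpose _
  have h2 : (Matrix.diagonal fun i : Fin (4 + 1) => if i = p then (-1 : ℝ) else 1) *
      (Matrix.diagonal fun i => if i = p then (-1 : ℝ) else 1) = 1 := by
    rw [Matrix.diagonal_mul_diagonal, ← Matrix.diagonal_one]
    congr 1
    funext i
    split_ifs <;> norm_num
  have h3 : ∀ x ∈ D5s,
      (Matrix.diagonal fun i : Fin (4 + 1) => if i = p then (-1 : ℝ) else 1) *ᵥ x ∈ D5s := by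
    rintro y ⟨k, hk, rfl⟩
    refine ⟨fun i => if i = p then -k i else k i, ?_, ?_⟩
    · have h0 : ∀ i, (if i = p then -k i else k i) % 2 = k i % 2 := by
        intro i
        split_ifs
        · omega
        · rfl
      intro i
      show (if i = p then -k i else k i) % 2 = (if 0 = p then -k 0 else k 0) % 2
      rw [h0 i, h0 0, hk i]
    · funext i
      rw [Matrix.mulVec_diagonal]
      by_cases hi : i = p
      · simp only [if_pos hi]
        push_cast
        ring
      · simp only [if_neg hi]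
        ring
  refine ⟨by rw [h1, h2], by rw [h1, h2], fun x => ⟨fun h => ?_, h3 x⟩⟩
  have h4 := h3 _ h
  rwa [mulVec_mulVec, h2, one_mulVec] at h4

private theorem swap_aut (p q : Fin (4 + 1)) : IsAut D5s ((Equiv.swap p q).permMatrix ℝ) := by
  have h1 : ((Equiv.swap p q).permMatrix ℝ)ᵀ = (Equiv.swap p q).permMatrix ℝ := by
    rw [Matrix.transpose_permMatrix, Equiv.swap_inv]
  have h2 : (Equiv.swap p q).permMatrix ℝ * (Equiv.swap p q).permMatrix ℝ = 1 := by
    rw [← Matrix.permMatrix_mul, Equiv.swap_mul_self, Matrix.permMatrix_one]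
  have h3 : ∀ x ∈ D5s, (Equiv.swap p q).permMatrix ℝ *ᵥ x ∈ D5s := by
    rintro y ⟨k, hk, rfl⟩
    refine ⟨k ∘ Equiv.swap p q, fun i => ?_, ?_⟩
    · show k _ % 2 = k _ % 2
      rw [hk (Equiv.swap p q i), hk (Equiv.swap p q 0)]
    · rw [Matrix.permMatrix_mulVec]
      rfl
  refine ⟨by rw [h1, h2], by rw [h1, h2], fun x => ⟨fun h => ?_, h3 x⟩⟩
  have h4 := h3 _ h
  rwa [mulVec_mulVec, h2, one_mulVec] at h4

private theorem off_zero {i j : Fin (4 + 1)} (hij : i ≠ j) : ∫ y in PP D5s, y i * y j = 0 := by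
  have h1 := is_int (sgn_aut i).1 (is_PP (sgn_aut i)) (fun y => y i * y j)
  have h2 : ∀ y : Fin (4 + 1) → ℝ,
      ((Matrix.diagonal fun l => if l = i then (-1 : ℝ) else 1) *ᵥ y) i *
        ((Matrix.diagonal fun l => if l = i then (-1 : ℝ) else 1) *ᵥ y) j = -(y i * y j) := by
    intro y
    rw [Matrix.mulVec_diagonal, Matrix.mulVec_diagonal, if_pos rfl, if_neg (Ne.symm hij)]
    ring
  simp only [h2] at h1
  rw [integral_neg] at h1
  linarith

private theorem diag_eq (i : Fin (4 + 1)) :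
    ∫ y in PP D5s, y i * y i = ∫ y in PP D5s, y 0 * y 0 := by
  have h1 := is_int (swap_aut 0 i).1 (is_PP (swap_aut 0 i)) (fun y => y i * y i)
  have h2 : ∀ y : Fin (4 + 1) → ℝ,
      ((Equiv.swap 0 i).permMatrix ℝ *ᵥ y) i = y 0 := by
    intro y
    rw [Matrix.permMatrix_mulVec, Function.comp_apply, Equiv.swap_apply_right]
  simp only [h2] at h1
  exact h1.symm

theorem iso5 {B : Matrix (Fin (4 + 1)) (Fin (4 + 1)) ℝ} (hB : Bᵀ = B) :
    ∫ y in PP D5s, y ⬝ᵥ B *ᵥ y = GG D5s / ((4 : ℕ) + 1) * B.trace := by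
  have key : ∀ C : Matrix (Fin (4 + 1)) (Fin (4 + 1)) ℝ,
      ∫ y in PP D5s, y ⬝ᵥ C *ᵥ y = (∫ y in PP D5s, y 0 * y 0) * C.trace := by
    intro C
    rw [is_T_eq D5s_good, Matrix.trace, Finset.mul_sum]
    refine Finset.sum_congr rfl fun i _ => ?_
    rw [Finset.sum_eq_single i]
    · rw [diag_eq i, Matrix.diag_apply, mul_comm]
    · intro j _ hj
      rw [off_zero (Ne.symm hj), mul_zero]
    · intro h
      exact absurd (Finset.mem_univ i) h
  have h1 := key 1
  simp only [Matrix.one_mulVec, Matrix.trace_one, Fintype.card_fin] at h1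
  have h2 : GG D5s = (∫ y in PP D5s, y 0 * y 0) * ((4 + 1 : ℕ) : ℝ) := h1
  rw [key B, h2]
  push_cast
  ring

end Pool.Agent.H99G
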