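import Pool.Agent.H99G.Wdef

set_option autoImplicit false

/-! # From lattices to forms (helper67) -/

namespace Pool.Agent.H99G

open MeasureTheory Matrix Pool.Agent.D4Q

variable {n : ℕ}

theorem slm_of_lm {L : Submodule ℤ (EuclideanSpace ℝ (Fin n))} [DiscreteTopology L]
    [IsZLattice ℝ L] {b : Fin n → EuclideanSpace ℝ (Fin n)} (hb : LinearIndependent ℝ b)
    (hE : L = Submodule.span ℤ (Set.range b)) (h : LM L b) :
    SLM (Matrix.of fun i j => (inner ℝ (b i) (b j) : ℝ)) := by
  obtain ⟨η, hη, hLM⟩ := h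
  obtain ⟨δ, hδ, hnear⟩ := Pool.Agent.H99V.near_basis hb hη
  refine ⟨δ, hδ, fun Q' hQ' hdet hclose => ?_⟩
  obtain ⟨b', hb', hgram, hdist⟩ := hnear Q' hQ' hclose
  have hform : HasForm (Submodule.span ℤ (Set.range b')) Q' :=
    ⟨b', hb', rfl, fun i j => by rw [← hgram]; rfl⟩
  obtain ⟨i1, i2⟩ := hasForm_lattice hform
  have hform0 : HasForm L (Matrix.of fun i j => (inner ℝ (b i) (b j) : ℝ)) :=
    ⟨b, hb, hE, fun i j => rfl⟩
  have hc : ZLattice.covolume (Submodule.span ℤ (Set.range b')) = ZLattice.covolume L := by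
    have h1 := covolume_sq hform
    have h2 := covolume_sq hform0
    have h3 : 0 < ZLattice.covolume (Submodule.span ℤ (Set.range b')) :=
      ZLattice.covolume_pos _ volume
    have h4 : 0 < ZLattice.covolume L := ZLattice.covolume_pos _ volume
    refine (pow_left_inj₀ h3.le h4.le two_ne_zero).1 ?_
    rw [h1, h2, hdet]
  rcases hLM (Submodule.span ℤ (Set.range b')) b' hc hb' rfl hdist with h1 | h1
  · left
    ext i j
    have h2 := h1 i j
    rw [← hgram]
    exact h2
  · right
    rw [vor_integral hform, vor_integral hform0, hc] at h1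
    exact lt_of_mul_lt_mul_left h1 (ZLattice.covolume_pos L volume).le

end Pool.Agent.H99G
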