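import Pool.Agent.H99G.Wdef

set_option autoImplicit false

/-!
# From forms to lattices
-/

namespace Pool.Agent.H99G

open MeasureTheory Matrix Pool.Agent.D4Q

variable {n : ℕ}

theorem lm_of_slm {L : Submodule ℤ (EuclideanSpace ℝ (Fin n))} [DiscreteTopology L]
    [IsZLattice ℝ L] {b : Fin n → EuclideanSpace ℝ (Fin n)} (hb : LinearIndependent ℝ b)
    (hE : L = Submodule.span ℤ (Set.range b))
    (h : SLM (Matrix.of fun i j => (inner ℝ (b i) (b j) : ℝ))) : LM L b := by
  obtain ⟨δ, hδ, h⟩ := h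
  have hev : ∀ i j, ∀ᶠ b' : Fin n → EuclideanSpace ℝ (Fin n) in nhds b,
      |(inner ℝ (b' i) (b' j) : ℝ) - inner ℝ (b i) (b j)| < δ := by
    intro i j
    have hc : Continuous fun b' : Fin n → EuclideanSpace ℝ (Fin n) =>
        |(inner ℝ (b' i) (b' j) : ℝ) - inner ℝ (b i) (b j)| :=
      (((continuous_apply i).inner (continuous_apply j)).sub continuous_const).abs
    have h0 := hc.continuousAt (x := b)
    rw [ContinuousAt] at h0
    simp only [sub_self, abs_zero] at h0
    exact h0.eventually (gt_mem_nhds hδ)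
  have hev' : ∀ᶠ b' : Fin n → EuclideanSpace ℝ (Fin n) in nhds b, ∀ i j,
      |(inner ℝ (b' i) (b' j) : ℝ) - inner ℝ (b i) (b j)| < δ :=
    Filter.eventually_all.mpr fun i => Filter.eventually_all.mpr fun j => hev i j
  obtain ⟨η, hη, hball⟩ := Metric.eventually_nhds_iff.mp hev'
  refine ⟨η, hη, ?_⟩
  intro L' _ _ b' hc hb' hL' hn
  have hf : HasForm L (Matrix.of fun i j => (inner ℝ (b i) (b j) : ℝ)) := ⟨b, hb, hE, fun _ _ => rfl⟩
  have hf' : HasForm L' (Matrix.of fun i j => (inner ℝ (b' i) (b' j) : ℝ)) :=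
    ⟨b', hb', hL', fun _ _ => rfl⟩
  have hd : (Matrix.of fun i j => (inner ℝ (b' i) (b' j) : ℝ)).det =
      (Matrix.of fun i j => (inner ℝ (b i) (b j) : ℝ)).det := by
    rw [← covolume_sq hf, ← covolume_sq hf', hc]
  have hnear : dist b' b < η := by
    rw [dist_pi_lt_iff hη]
    intro i
    rw [dist_eq_norm]
    exact hn i
  rcases h _ (hasForm_posDef hf') hd (fun i j => hball hnear i j) with h1 | h1
  · left
    intro i j
    exact congrFun (congrFun h1 i) j
  · right
    rw [vor_integral hf, vor_integral hf', hc]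
    exact mul_lt_mul_of_pos_left h1
      (ZLattice.covolume_pos L (volume : Measure (EuclideanSpace ℝ (Fin n))))

end Pool.Agent.H99G
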