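import Pool.Agent.H99G.Wdef
import Pool.Agent.D4Q.DsqB

/-!
# Scaling
-/

set_option autoImplicit false

namespace Pool.Agent.H99G

open MeasureTheory Matrix Pool.Agent.D4Q

variable {n : ℕ}

theorem slm_smul {c : ℝ} (hc : 0 < c) {Q : Matrix (Fin n) (Fin n) ℝ} (h : SLM (c • Q)) :
    SLM Q := by
  obtain ⟨δ, hδ, h⟩ := h
  refine ⟨δ / c, div_pos hδ hc, fun Q' hQ' hdet hnear => ?_⟩
  have h1 := h (c • Q') (hQ'.smul hc) (by rw [Matrix.det_smul, Matrix.det_smul, hdet])
    fun i j => by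
      have h2 := (lt_div_iff₀ hc).1 (hnear i j)
      rw [Matrix.smul_apply, Matrix.smul_apply, smul_eq_mul, smul_eq_mul, ← mul_sub, abs_mul,
        abs_of_pos hc]
      linarith
  rcases h1 with h1 | h1
  · left
    ext i j
    have h2 := congrFun (congrFun h1 i) j
    rw [Matrix.smul_apply, Matrix.smul_apply, smul_eq_mul, smul_eq_mul] at h2
    exact mul_left_cancel₀ hc.ne' h2
  · right
    rw [FF_smul c hc.le, FF_smul c hc.le] at h1
    exact lt_of_mul_lt_mul_left h1 hc.le

end Pool.Agent.H99G
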