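import Pool.Agent.H99G.W1
import Pool.Agent.H99G.W2
import Pool.Agent.H99G.W3

set_option autoImplicit false

/-!
# Similar lattices (helper25)
-/

namespace Pool.Agent.H99G

open MeasureTheory Matrix Pool.Agent.D4Q

variable {n : ℕ}

theorem similar {L L0 : Submodule ℤ (EuclideanSpace ℝ (Fin n))} [DiscreteTopology L]
    [IsZLattice ℝ L] [DiscreteTopology L0] [IsZLattice ℝ L0]
    (h0 : ∀ b0 : Fin n → EuclideanSpace ℝ (Fin n), LinearIndependent ℝ b0 →
      L0 = Submodule.span ℤ (Set.range b0) → LM L0 b0)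
    {Q : Matrix (Fin n) (Fin n) ℝ} (hQ : HasForm L Q) {c : ℝ} (hc : 0 < c)
    (hQ0 : HasForm L0 (c • Q)) {b : Fin n → EuclideanSpace ℝ (Fin n)}
    (hb : LinearIndependent ℝ b) (hE : L = Submodule.span ℤ (Set.range b)) : LM L b := by
  obtain ⟨a, ha, hLa, haQ⟩ := hQ
  obtain ⟨a0, ha0, hLa0, ha0Q⟩ := hQ0
  let A : Module.Basis (Fin n) ℝ (EuclideanSpace ℝ (Fin n)) :=
    basisOfLinearIndependentOfCardEqFinrank' a ha (by simp)
  have hA : ⇑A = a := by simp [A]
  let T : EuclideanSpace ℝ (Fin n) →ₗ[ℝ] EuclideanSpace ℝ (Fin n) := A.constr ℝ a0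
  have hT : ∀ k, T (a k) = a0 k := fun k => by
    have := A.constr_basis ℝ a0 k
    rwa [hA] at this
  -- the map multiplies inner products by `c`
  have hin : ∀ x y, inner ℝ (T x) (T y) = c * inner ℝ x y := by
    have h1 : (innerₗ (EuclideanSpace ℝ (Fin n))).compl₁₂ T T =
        c • innerₗ (EuclideanSpace ℝ (Fin n)) := by
      refine A.ext fun i => A.ext fun j => ?_
      simp only [LinearMap.compl₁₂_apply, LinearMap.smul_apply, innerₗ_apply_apply, hA, hT,
        smul_eq_mul]
      rw [← ha0Q, Matrix.smul_apply, haQ, smul_eq_mul]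
    intro x y
    have h2 := congrArg (fun f => f x y) h1
    simpa using h2
  have hinj : Function.Injective T := by
    rw [injective_iff_map_eq_zero]
    intro x hx
    have h1 := hin x x
    rw [hx, inner_zero_left] at h1
    have h2 : inner ℝ x x = (0 : ℝ) := by
      rcases mul_eq_zero.1 h1.symm with h | h
      · exact absurd h hc.ne'
      · exact h
    exact inner_self_eq_zero.1 h2
  have hb0 : LinearIndependent ℝ (fun i => T (b i)) :=
    hb.map' T (LinearMap.ker_eq_bot.2 hinj)
  have hmap : ∀ v : Fin n → EuclideanSpace ℝ (Fin n),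
      Submodule.span ℤ (Set.range fun i => T (v i)) =
        (Submodule.span ℤ (Set.range v)).map (T.restrictScalars ℤ) := by
    intro v
    rw [Submodule.map_span, ← Set.range_comp]
    rfl
  have hL0 : L0 = Submodule.span ℤ (Set.range fun i => T (b i)) := by
    rw [hmap b, ← hE, hLa, ← hmap a, hLa0]
    simp only [hT]
  have h1 := slm_of_lm hb0 hL0 (h0 _ hb0 hL0)
  have h2 : (Matrix.of fun i j => (inner ℝ (T (b i)) (T (b j)) : ℝ)) =
      c • (Matrix.of fun i j => (inner ℝ (b i) (b j) : ℝ)) := by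
    ext i j
    simp [hin]
  rw [h2] at h1
  exact lm_of_slm hb hE (slm_smul hc h1)

end Pool.Agent.H99G
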