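import Pool.Agent.H99G.Trf
import Pool.Agent.H99V.Near

set_option autoImplicit false

/-!
# The form level and similar lattices
-/

namespace Pool.Agent.H99G

open MeasureTheory Matrix Pool.Agent.D4Q

/-- The lattice of an additive subgroup. -/
def sub {m : ℕ} (X : AddSubgroup (Fin (m + 1) → ℝ)) :
    Submodule ℤ (EuclideanSpace ℝ (Fin (m + 1))) where
  carrier := {y | y.ofLp ∈ X}
  add_mem' := fun {a b} ha hb => X.add_mem ha hb
  zero_mem' := X.zero_mem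
  smul_mem' := fun c {a} ha => X.zsmul_mem ha c

theorem gr_sub {m : ℕ} (X : AddSubgroup (Fin (m + 1) → ℝ)) : gr (sub X) = X := by
  ext x
  rfl

/-- Strict local minimum, for positive definite forms of the same determinant. -/
def SLM {n : ℕ} (Q : Matrix (Fin n) (Fin n) ℝ) : Prop :=
  ∃ δ : ℝ, 0 < δ ∧ ∀ Q' : Matrix (Fin n) (Fin n) ℝ, Q'.PosDef → Q'.det = Q.det →
    (∀ i j, |Q' i j - Q i j| < δ) → Q' = Q ∨ FF Q < FF Q'

/-- The conclusion for a lattice with the basis `b`. -/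
def LM {n : ℕ} (L : Submodule ℤ (EuclideanSpace ℝ (Fin n)))
    (b : Fin n → EuclideanSpace ℝ (Fin n)) : Prop :=
  ∃ η : ℝ, 0 < η ∧ ∀ (L' : Submodule ℤ (EuclideanSpace ℝ (Fin n))) [DiscreteTopology L']
    [IsZLattice ℝ L'] (b' : Fin n → EuclideanSpace ℝ (Fin n)),
    ZLattice.covolume L' = ZLattice.covolume L →
    LinearIndependent ℝ b' → L' = Submodule.span ℤ (Set.range b') →
    (∀ i, ‖b' i - b i‖ < η) →
    (∀ i j, inner ℝ (b' i) (b' j) = inner ℝ (b i) (b j)) ∨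
      ∫ x in {x : EuclideanSpace ℝ (Fin n) | ∀ v ∈ L, ‖x‖ ≤ ‖x - v‖}, ‖x‖ ^ 2 <
      ∫ x in {x : EuclideanSpace ℝ (Fin n) | ∀ v ∈ L', ‖x‖ ≤ ‖x - v‖}, ‖x‖ ^ 2

end Pool.Agent.H99G
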